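import Pool.Agent.MP2b057c.AllOrd

set_option autoImplicit false
set_option linter.unusedSectionVars false

/-!
Full shifts over arbitrary finite alphabets: the automorphism groups of full shifts with
different numbers of letters have no common quotient by powers of the shift.
-/

namespace FShift

open scoped Classical commutatorElement

section CountGen

variable {A : Type} [Fintype A]

lemma count_good_gen {s : ℕ} (hs : 0 < s) (u : Fin (s - 1) → A) :
    Fintype.card A - 1 ≤ (Finset.univ.filter fun a : A => LP s (cper s a u)).card := by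
  have h1 : (Finset.univ.filter fun a : A => ¬ LP s (cper s a u)).card ≤ 1 := by
    rw [Finset.card_le_one]
    intro a ha a' ha'
    by_contra hne
    rw [Finset.mem_filter] at ha ha'
    rcases cper_LP_or hs hne u with h | h
    · exact ha.2 h
    · exact ha'.2 h
  have h2 := Finset.card_filter_add_card_filter_not (s := (Finset.univ : Finset A))
    (fun a : A => LP s (cper s a u))
  rw [Finset.card_univ] at h2
  omega

lemma count_PP_ge_gen (s : ℕ) (hs : 0 < s) :
    (Fintype.card A - 1) * Fintype.card A ^ (s - 1) ≤ Nat.card (PP A s) := by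
  let Gd : Type := Σ u : Fin (s - 1) → A, {a : A // a ∈ Finset.univ.filter
    fun a : A => LP s (cper s a u)}
  have h1 : (Fintype.card A - 1) * Fintype.card A ^ (s - 1) ≤ Fintype.card Gd := by
    rw [Fintype.card_sigma]
    calc (Fintype.card A - 1) * Fintype.card A ^ (s - 1)
        = ∑ _u : Fin (s - 1) → A, (Fintype.card A - 1) := by
          rw [Finset.sum_const, Finset.card_univ, Fintype.card_fun, Fintype.card_fin,
            smul_eq_mul, mul_comm]
      _ ≤ _ := by
          apply Finset.sum_le_sum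
          intro u _
          rw [Fintype.card_coe]
          exact count_good_gen hs u
  have h2 : Function.Injective (fun p : Gd =>
      (⟨cper s p.2.1 p.1, (Finset.mem_filter.1 p.2.2).2⟩ : PP A s)) := by
    rintro ⟨u, a, ha⟩ ⟨v, b, hb⟩ h
    have h3 : cper s a u = cper s b v := congrArg Subtype.val h
    have h4 : a = b := by
      have := congrFun h3 0
      rwa [cper_zero, cper_zero] at this
    have h5 : u = v := by
      funext i
      have := congrFun h3 ((i : ℕ) + 1 : ℤ)
      rwa [cper_val, cper_val] at this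
    subst h4 h5
    rfl
  calc (Fintype.card A - 1) * Fintype.card A ^ (s - 1) ≤ Fintype.card Gd := h1
    _ = Nat.card Gd := (Nat.card_eq_fintype_card).symm
    _ ≤ Nat.card (PP A s) := Nat.card_le_card_of_injective _ h2

theorem card_orb_ge_gen (s : ℕ) (hs : 0 < s) :
    (Fintype.card A - 1) * Fintype.card A ^ (s - 1) ≤ s * Nat.card (Orb A s) :=
  (count_PP_ge_gen s hs).trans (count_PP_le s hs)

end CountGen

lemma growth_gen {m n : ℕ} (hm : 0 < m) (hmn : m < n) (hn : 2 ≤ n) (K : ℕ) :
    ∃ N : ℕ, ∀ f : ℕ, N ≤ f → f * m ^ (K + f) < (n - 1) * n ^ (f - 1) := by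
  have hm' : (0 : ℝ) < m := by exact_mod_cast hm
  have hn' : (0 : ℝ) < n := by exact_mod_cast (by omega : 0 < n)
  have hr : (1 : ℝ) < (n : ℝ) / m := by
    rw [one_lt_div hm']
    exact_mod_cast hmn
  have h := tendsto_pow_const_div_const_pow_of_one_lt 1 hr
  have hpos : (0 : ℝ) < 1 / (n * m ^ K) := by positivity
  have h1 := (h.eventually (gt_mem_nhds hpos))
  rw [Filter.eventually_atTop] at h1
  obtain ⟨N, hN⟩ := h1
  refine ⟨N + 1, fun f hf => ?_⟩
  have h2 := hN f (by omega)
  rw [pow_one] at h2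
  have h3 : (f : ℝ) * (n * m ^ K) < ((n : ℝ) / m) ^ f := by
    rw [div_lt_div_iff₀ (by positivity) (by positivity)] at h2
    linarith
  have h4 : (f : ℝ) * (n * m ^ K) * m ^ f < (n : ℝ) ^ f := by
    rw [div_pow, lt_div_iff₀ (by positivity)] at h3
    exact h3
  obtain ⟨g, rfl⟩ : ∃ g, f = g + 1 := ⟨f - 1, by omega⟩
  have h5 : ((g + 1 : ℕ) : ℝ) * m ^ (K + (g + 1)) < (n : ℝ) ^ g := by
    have h6 : (n : ℝ) * (((g + 1 : ℕ) : ℝ) * m ^ (K + (g + 1))) < n * n ^ g := by
      calc (n : ℝ) * (((g + 1 : ℕ) : ℝ) * m ^ (K + (g + 1)))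
          = ((g + 1 : ℕ) : ℝ) * (n * m ^ K) * m ^ (g + 1) := by
            rw [pow_add (m : ℝ) K (g + 1)]; ring
        _ < (n : ℝ) ^ (g + 1) := h4
        _ = n * n ^ g := by rw [pow_succ]; ring
    exact lt_of_mul_lt_mul_left h6 hn'.le
  have h7 : (g + 1) * m ^ (K + (g + 1)) < n ^ g := by exact_mod_cast h5
  have h8 : g + 1 - 1 = g := by omega
  rw [h8]
  calc (g + 1) * m ^ (K + (g + 1)) < n ^ g := h7
    _ = 1 * n ^ g := (one_mul _).symm
    _ ≤ (n - 1) * n ^ g := Nat.mul_le_mul_right _ (by omega)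

section Elements

variable {A : Type} [TopologicalSpace A]

/-- A commutator with an element of order three is not a power of the shift, unless trivial. -/
lemma comm_not_shift {o e : A} (hoe : o ≠ e) {h h' : G A} (h3 : h ^ 3 = 1)
    (hne : h * h' ≠ h' * h) (j : ℤ) : ∃ x, (⁅h, h'⁆ : G A).1 x ≠ sh j x := by
  by_contra hcon
  push Not at hcon
  obtain ⟨c, hc⟩ : ∃ c : G A, c = ⁅h, h'⁆ := ⟨_, rfl⟩
  rw [← hc] at hcon
  have hcomm : ∀ g : G A, g * c = c * g := by
    intro g
    apply Subtype.ext
    apply Equiv.ext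
    intro x
    show g.1 (c.1 x) = c.1 (g.1 x)
    rw [hcon, hcon, G_sh]
  have h1 : h * h' = c * h' * h := by
    rw [hc, commutatorElement_def]
    group
  have hn : ∀ n : ℕ, h ^ n * h' = c ^ n * h' * h ^ n := by
    intro n
    induction n with
    | zero => simp
    | succ n ih =>
      have hcn : h * c ^ n = c ^ n * h :=
        (show Commute h c from hcomm h).pow_right n
      calc h ^ (n + 1) * h' = h * (h ^ n * h') := by rw [pow_succ', mul_assoc]
        _ = h * c ^ n * (h' * h ^ n) := by rw [ih]; simp only [mul_assoc]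
        _ = c ^ n * (h * h') * h ^ n := by rw [hcn]; simp only [mul_assoc]
        _ = c ^ (n + 1) * h' * h ^ (n + 1) := by
          rw [h1, pow_succ, pow_succ']; simp only [mul_assoc]
  have h3' := hn 3
  rw [h3, one_mul, mul_one] at h3'
  have h6 : c * c * c = 1 := by
    have h5 : c ^ 3 = 1 := by
      rw [eq_comm, mul_eq_right] at h3'
      exact h3'
    rw [← h5, pow_succ, pow_two]
  have hj : (3 : ℤ) * j = 0 := by
    have h7 : (c * c * c).1 (fun k : ℤ => if k = 0 then e else o) 0 =
        (1 : G A).1 (fun k : ℤ => if k = 0 then e else o) 0 := by rw [h6]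
    have h8 : (c * c * c).1 (fun k : ℤ => if k = 0 then e else o) =
        sh j (sh j (sh j (fun k : ℤ => if k = 0 then e else o))) := by
      show c.1 (c.1 (c.1 _)) = _
      rw [hcon, hcon, hcon]
    rw [h8] at h7
    have h9 : (1 : G A).1 (fun k : ℤ => if k = 0 then e else o) 0 = e := by
      show (if (0 : ℤ) = 0 then e else o) = e
      rw [if_pos rfl]
    rw [h9] at h7
    simp only [sh_apply, zero_add] at h7
    by_contra hne3
    rw [if_neg (by omega)] at h7
    exact hoe h7
  have hj0 : j = 0 := by omega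
  apply hne
  have h10 : c = 1 := by
    apply Subtype.ext
    apply Equiv.ext
    intro x
    show c.1 x = x
    rw [hcon, hj0, sh_zero]
  rw [h1, h10, one_mul]

/-- A power of the shift preserves all orbits. -/
lemma mem_J_of_shift {g : G A} {j : ℤ} (h : ∀ x, g.1 x = sh j x) (s : ℕ) : g ∈ J A s :=
  fun x _ => ⟨j, h x⟩

end Elements

/-- As `MTprop`, with an element of order three. -/
def MTord (A : Type) [TopologicalSpace A] : Prop := ∀ R : ℕ, ∃ h h' : G A,
  h ^ 3 = 1 ∧ h * h' ≠ h' * h ∧
  ∀ M : Subgroup (G A), M.Normal → M.FiniteIndex → h ∉ M →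
    ∃ (s : ℕ) (x : ℤ → A), R ≤ s ∧ LP s x ∧ (∀ g ∈ M, SameOrb x (g.1 x)) ∧
      ∀ k : ℕ, 0 < k → k ≠ s → ∃ f ∈ J A k, ¬ SameOrb x (f.1 x)

theorem main_MTord {A : Type} [Fintype A] [TopologicalSpace A] [DiscreteTopology A]
    (o e : A) (hoe : o ≠ e) : MTord A := by
  intro R
  obtain ⟨h, h', h3, hne, hW⟩ := main_W_ord o e hoe (max R 8) (le_max_right _ _)
    (fun M hM hfin D hD hne h5 ξ hξ m => vis_site_gt hoe (le_max_right _ _) hD hne h5 hM hfin hξ m)
  refine ⟨h, h', h3, hne, fun M hM hfin hh => ?_⟩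
  obtain ⟨C, hC⟩ := hW M hM hfin hh
  obtain ⟨a, ha⟩ : C.D1.Nonempty := by
    rw [← Finset.card_pos, C.card]; norm_num
  refine ⟨C.s, C.pt a, ?_, C.lp_pt ha, fun g hg => C.D3 ⟨e, hoe.symm⟩ hM hfin hC ha g hg,
    fun k hk hks => C.moves ha k hk hks⟩
  have := C.hs
  have := le_max_left R 8
  omega

/-- An element whose image is the image of an element which is not central modulo the shift. -/
lemma lift_not_shift {A B : Type} [TopologicalSpace A] [TopologicalSpace B] {Q : Type*}
    [Group Q] {α : G A →* Q} {β : G B →* Q} (hαs : Function.Surjective α)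
    (hβ : ∀ g, β g = 1 → ∃ j : ℤ, ∀ x, g.1 x = sh j x) {b b' : G B}
    (hb : ∀ j : ℤ, ∃ x, (⁅b, b'⁆ : G B).1 x ≠ sh j x) {κ : G A} (hκ : α κ = β b) :
    ∀ j : ℤ, ∃ x, κ.1 x ≠ sh j x := by
  intro j
  by_contra hcon
  push Not at hcon
  have hcomm : ∀ g : G A, g * κ = κ * g := by
    intro g
    apply Subtype.ext
    apply Equiv.ext
    intro x
    show g.1 (κ.1 x) = κ.1 (g.1 x)
    rw [hcon, hcon, G_sh]
  obtain ⟨t, ht⟩ := hαs (β b')
  have h1 : β ⁅b, b'⁆ = 1 := by
    rw [map_commutatorElement, ← hκ, ← ht, ← map_commutatorElement, commutatorElement_def,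
      ← hcomm t]
    simp
  obtain ⟨j', hj'⟩ := hβ _ h1
  obtain ⟨x, hx⟩ := hb j'
  exact hx (hj' x)

/-- The final assembly: the automorphism groups of full shifts with different numbers of letters
have no common quotient by powers of the shift. -/
theorem no_common {A B : Type} [Fintype A] [TopologicalSpace A] [DiscreteTopology A]
    [Fintype B] [TopologicalSpace B] [DiscreteTopology B] (hA2 : 2 ≤ Fintype.card A)
    (hAB : Fintype.card A < Fintype.card B) {Q : Type*} [Group Q] (α : G A →* Q) (β : G B →* Q)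
    (hαs : Function.Surjective α) (hβs : Function.Surjective β)
    (hα : ∀ g, α g = 1 → ∃ j : ℤ, ∀ x, g.1 x = sh j x)
    (hβ : ∀ g, β g = 1 → ∃ j : ℤ, ∀ x, g.1 x = sh j x) : False := by
  obtain ⟨o, e, hoe⟩ := Fintype.one_lt_card_iff.1 (show 1 < Fintype.card A by omega)
  obtain ⟨o', e', hoe'⟩ := Fintype.one_lt_card_iff.1 (show 1 < Fintype.card B by omega)
  have hsurj : ∀ s, 0 < s → Function.Surjective (orbHom B s) := fun s hs =>
    orbHom_surj (A := B) (by omega) s hs
  have hfinA : ∀ s, Finite (Orb A s) := fun s => finite_orb s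
  have hfinB : ∀ s, Finite (Orb B s) := fun s => finite_orb s
  obtain ⟨a, a', a3, haa, hMA⟩ := main_MTord o e hoe 8
  have hac := comm_not_shift hoe a3 haa
  obtain ⟨κ', hκ'⟩ := hβs (α a)
  obtain ⟨s1, hs1⟩ := lemma_Z o' e' hoe' κ' (lift_not_shift (α := β) (β := α) hβs hα hac hκ')
  obtain ⟨b, b', b3, hbb, hMB⟩ := main_MTord o' e' hoe' (max 8 s1)
  have hbc := comm_not_shift hoe' b3 hbb
  obtain ⟨κ, hκ⟩ := hαs (β b)
  obtain ⟨k1, hk1⟩ := lemma_Z o e hoe κ (lift_not_shift (α := α) (β := β) hαs hβ hbc hκ)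
  -- membership through the quotient
  have memA : ∀ (g : G A) (k : ℕ), α g ∈ (J A k).map α → g ∈ J A k := by
    rintro g k ⟨g', hg', he⟩
    have h1 : α (g'⁻¹ * g) = 1 := by
      rw [map_mul, map_inv, he, inv_mul_cancel]
    obtain ⟨j, hj⟩ := hα _ h1
    have h2 := (J A k).mul_mem hg' (mem_J_of_shift hj k)
    rwa [mul_inv_cancel_left] at h2
  have memB : ∀ (g : G B) (s : ℕ), β g ∈ (J B s).map β → g ∈ J B s := by
    rintro g s ⟨g', hg', he⟩
    have h1 : β (g'⁻¹ * g) = 1 := by
      rw [map_mul, map_inv, he, inv_mul_cancel]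
    obtain ⟨j, hj⟩ := hβ _ h1
    have h2 := (J B s).mul_mem hg' (mem_J_of_shift hj s)
    rwa [mul_inv_cancel_left] at h2
  have kerB : ∀ s, β.ker ≤ J B s := by
    intro s g hg
    obtain ⟨j, hj⟩ := hβ g hg
    exact mem_J_of_shift hj s
  -- for each large `k` there is `s`
  have key : ∀ k, k1 + 1 ≤ k → ∃ s, max 8 s1 ≤ s ∧
      J A k ≤ ((J B s).map β).comap α := by
    intro k hk
    have hfi : (J A k).FiniteIndex := by
      have := hfinA k
      exact J_finiteIndex k
    have hMn : (((J A k).map α).comap β).Normal := by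
      have := Subgroup.Normal.map (J_normal (A := A) k) α hαs
      infer_instance
    have hMf : (((J A k).map α).comap β).FiniteIndex := by
      constructor
      rw [Subgroup.index_comap_of_surjective _ hβs]
      have hd : ((J A k).map α).index ∣ (J A k).index := Subgroup.index_map_dvd _ hαs
      intro h0
      rw [h0] at hd
      exact hfi.index_ne_zero (Nat.eq_zero_of_zero_dvd hd)
    have hbM : b ∉ ((J A k).map α).comap β := by
      intro h
      rw [Subgroup.mem_comap, ← hκ] at h
      exact hk1 k (by omega) (memA κ k h)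
    obtain ⟨s, x, hs, hx, hxM, -⟩ := hMB _ hMn hMf hbM
    refine ⟨s, hs, ?_⟩
    have hspos : 0 < s := hx.1
    have hle := le_J_of_trans (hsurj s hspos) _ hMn hx hxM
    intro g hg
    rw [Subgroup.mem_comap]
    obtain ⟨t, ht⟩ := hβs (α g)
    refine ⟨t, hle ?_, ht⟩
    rw [Subgroup.mem_comap, ht]
    exact ⟨g, hg, rfl⟩
  -- uniqueness of `k`
  have uniq : ∀ s, s1 ≤ s → ∀ k l, 0 < k → 0 < l →
      J A k ≤ ((J B s).map β).comap α → J A l ≤ ((J B s).map β).comap α → k = l := by
    intro s hs k l hk hl hkN hlN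
    have hNn : (((J B s).map β).comap α).Normal := by
      have := Subgroup.Normal.map (J_normal (A := B) s) β hβs
      infer_instance
    have hNf : (((J B s).map β).comap α).FiniteIndex := by
      have := hfinB s
      constructor
      rw [Subgroup.index_comap_of_surjective _ hαs]
      have hd : ((J B s).map β).index ∣ (J B s).index := Subgroup.index_map_dvd _ hβs
      intro h0
      rw [h0] at hd
      exact (J_finiteIndex (A := B) s).index_ne_zero (Nat.eq_zero_of_zero_dvd hd)
    have haN : a ∉ ((J B s).map β).comap α := by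
      intro h
      rw [Subgroup.mem_comap, ← hκ'] at h
      exact hs1 s hs (memB κ' s h)
    obtain ⟨k', x', -, hx', hxN, hch⟩ := hMA _ hNn hNf haN
    have h1 : ∀ m, 0 < m → J A m ≤ ((J B s).map β).comap α → m = k' := by
      intro m hm hmN
      by_contra hne
      obtain ⟨f, hf, hfx⟩ := hch m hm hne
      exact hfx (hxN f (hmN hf))
    rw [h1 k hk hkN, h1 l hl hlN]
  -- the function
  choose! f hf using key
  have hinj : ∀ k l, k1 + 1 ≤ k → k1 + 1 ≤ l → f k = f l → k = l := by
    intro k l hk hl e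
    refine uniq (f k) (le_trans (le_max_right _ _) (hf k hk).1) k l (by omega) (by omega)
      (hf k hk).2 ?_
    rw [e]
    exact (hf l hl).2
  have hcard : ∀ k, k1 + 1 ≤ k → Nat.card (Orb B (f k)) ≤ Fintype.card A ^ k := by
    intro k hk
    have := hfinB (f k)
    have := hfinA k
    have hspos : 0 < f k := by
      have := (hf k hk).1
      have h8 : 8 ≤ max 8 s1 := le_max_left _ _
      omega
    have e1 : (((J B (f k)).map β).comap α).index = (Nat.card (Orb B (f k))).factorial := by
      rw [Subgroup.index_comap_of_surjective _ hαs, Subgroup.index_map,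
        sup_eq_left.2 (kerB (f k)), MonoidHom.range_eq_top.2 hβs, Subgroup.index_top, mul_one,
        index_J_of_surj (hsurj _ hspos)]
    have e2 : (((J B (f k)).map β).comap α).index ≤ (J A k).index := by
      apply Nat.le_of_dvd
      · exact Nat.pos_of_ne_zero (J_finiteIndex (A := A) k).index_ne_zero
      · exact Subgroup.index_dvd_of_le (hf k hk).2
    have e3 := index_J_le (A := A) k
    have e4 : (Nat.card (Orb B (f k))).factorial ≤ (Nat.card (Orb A k)).factorial := by
      rw [← e1]
      exact e2.trans e3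
    have hle := card_orb_le (A := A) k
    rcases Nat.eq_zero_or_pos (Nat.card (Orb A k)) with h0 | hp
    · rw [h0] at e4
      have e5 : Nat.card (Orb B (f k)) ≤ (Nat.card (Orb B (f k))).factorial :=
        Nat.self_le_factorial _
      have e6 : 1 ≤ Fintype.card A ^ k := Nat.one_le_pow _ _ (by omega)
      have e7 : Nat.factorial 0 = 1 := rfl
      omega
    · by_contra hcon
      push Not at hcon
      have h5 : Nat.card (Orb A k) < Nat.card (Orb B (f k)) := lt_of_le_of_lt hle hcon
      have h6 := (Nat.factorial_lt hp).2 h5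
      omega
  obtain ⟨m, hm⟩ := growth_gen (by omega) hAB (by omega) (k1 + 1)
  obtain ⟨k, hk, hkm, hmf⟩ := pigeon (k1 + 1) f hinj (m + 1)
  have hspos : 0 < f k := by omega
  have h1 := card_orb_ge_gen (A := B) (f k) hspos
  have h2' := hcard k hk
  have h3' := hm (f k) (by omega)
  have h4 : f k * Nat.card (Orb B (f k)) ≤ f k * Fintype.card A ^ (k1 + 1 + f k) := by
    apply Nat.mul_le_mul_left
    refine h2'.trans ?_
    apply Nat.pow_le_pow_right (by omega)
    omega
  omega

end FShift
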