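import Pool.Agent.MP2b057c.Final

set_option autoImplicit false
set_option linter.unusedSectionVars false

/-!
Full shifts: the gate of order three which detects the normal subgroups of finite index
(the argument of `main_W_aux`, with the order of the gate recorded).
-/

namespace FShift

open scoped Classical commutatorElement

lemma cyc_cube {W : Type} {p q r : W} (h1 : p ≠ q) (h2 : q ≠ r) (h3 : p ≠ r) :
    cyc p q r * cyc p q r * cyc p q r = 1 := by
  have e1 : cyc p q r p = q := by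
    unfold cyc
    rw [Equiv.Perm.mul_apply, Equiv.swap_apply_of_ne_of_ne h1 h3, Equiv.swap_apply_left]
  have e2 : cyc p q r q = r := by
    unfold cyc
    rw [Equiv.Perm.mul_apply, Equiv.swap_apply_left,
      Equiv.swap_apply_of_ne_of_ne h3.symm h2.symm]
  have e3 : cyc p q r r = p := by
    unfold cyc
    rw [Equiv.Perm.mul_apply, Equiv.swap_apply_right, Equiv.swap_apply_right]
  ext w
  rw [Equiv.Perm.mul_apply, Equiv.Perm.mul_apply, Equiv.Perm.one_apply]
  by_cases hp : w = p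
  · subst hp; rw [e1, e2, e3]
  by_cases hq : w = q
  · subst hq; rw [e2, e3, e1]
  by_cases hr : w = r
  · subst hr; rw [e3, e1, e2]
  have e4 : cyc p q r w = w := by
    unfold cyc
    rw [Equiv.Perm.mul_apply, Equiv.swap_apply_of_ne_of_ne hq hr,
      Equiv.swap_apply_of_ne_of_ne hp hq]
  rw [e4, e4, e4]

variable {A : Type} [Fintype A] [TopologicalSpace A] [DiscreteTopology A]

lemma ga_one {b : ℕ} (T : Sys A b) : T.ga Set.univ 1 = 1 := by
  have h := T.ga_mul isClopen_univ T.PD.one_mem T.PD.one_mem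
  rw [mul_one] at h
  exact (left_eq_mul.1 h)

theorem main_W_ord (o e : A) (hoe : o ≠ e) (R : ℕ) (hR : 8 ≤ R)
    (hB : ∀ M : Subgroup (G A), M.Normal → M.FiniteIndex → SitesProp A o R hR M) :
    ∃ h h' : G A, h ^ 3 = 1 ∧ h * h' ≠ h' * h ∧
      ∀ M : Subgroup (G A), M.Normal → M.FiniteIndex → h ∉ M →
      ∃ C : Chain o R, C.Good M := by
  have hcard := card_Wd hoe
  obtain ⟨D0, hD0, hD0c⟩ := Finset.exists_subset_card_eq (show 46 ≤ (Wd o).card by omega)
  have hne0 : D0.Nonempty := by rw [← Finset.card_pos, hD0c]; norm_num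
  have hv : ∃ v1 ∈ Wd o, ∃ v2 ∈ Wd o, v1 ∉ D0 ∧ v2 ∉ D0 ∧ v1 ≠ v2 := by
    have h1 : 1 < (Wd o \ D0).card := by
      have := Finset.le_card_sdiff D0 (Wd o)
      omega
    obtain ⟨v1, hv1, v2, hv2, hne⟩ := Finset.one_lt_card.1 h1
    rw [Finset.mem_sdiff] at hv1 hv2
    exact ⟨v1, hv1.1, v2, hv2.1, hv1.2, hv2.2, hne⟩
  obtain ⟨D1, hD1, hD1c⟩ := Finset.exists_subset_card_eq (show 23 ≤ D0.card by omega)
  have hne1 : D1.Nonempty := by rw [← Finset.card_pos, hD1c]; norm_num
  have hout : ∃ κ ∈ D0, κ ∉ D1 := by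
    have h1 : 0 < (D0 \ D1).card := by
      have := Finset.le_card_sdiff D1 D0
      omega
    obtain ⟨κ, hκ⟩ := Finset.card_pos.1 h1
    rw [Finset.mem_sdiff] at hκ
    exact ⟨κ, hκ.1, hκ.2⟩
  set T0 := dsys o hR hD0 hne0 with hT0
  have h5 : 5 ≤ T0.D.card := by rw [hT0, dsys_D, hD0c]; norm_num
  obtain ⟨p, hp, q, hq, r, hr, hpq, hqr, hpr⟩ := exists_triple T0.D (by omega)
  obtain ⟨q', hq', r', hr', n1, n2, n3, n4, n5, n6, n7⟩ := exists_two_more T0.D h5 p q r
  refine ⟨T0.ga Set.univ (cyc p q q'), T0.ga Set.univ (cyc p r r'), ?_, ?_, ?_⟩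
  · have hm := T0.cyc_mem_PD hp hq hq'
    rw [pow_succ, pow_two, ← T0.ga_mul isClopen_univ hm hm,
      ← T0.ga_mul isClopen_univ (T0.PD.mul_mem hm hm) hm, cyc_cube hpq n3 n2]
    exact ga_one T0
  · intro h
    have h1 : ⁅T0.ga Set.univ (cyc p q q'), T0.ga Set.univ (cyc p r r')⁆ = 1 := by
      rw [commutatorElement_def, h]; group
    rw [T0.ga_comm isClopen_univ isClopen_univ (T0.cyc_mem_PD hp hq hq') (T0.cyc_mem_PD hp hr hr'),
      cyc_comm hpq n2 hpr n5 n3 hqr n6 n4.symm n1 n7, Set.inter_self] at h1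
    have hpW : p ∈ Wd o := hD0 hp
    have h2 : cont o R ((T0.ga Set.univ (cyc p q r)).1 (onePt o p)) 0 = some q := by
      have hgood := T0.gF_good isClopen_univ (T0.cyc_mem_PD hp hq hr)
      have hCS : IsCS o R T0 := isCS_dsys hR hD0 hne0
      have hsite : (0 : ℤ) ∈ sites T0.E (onePt o p) := by
        rw [hT0, dsys_mem_sites]
        exact ⟨p, hp, cont_onePt hpW⟩
      have hwin : (win (onePt o p) 0 : Fin 8 → A) = p :=
        (cont_eq_some.1 (cont_onePt (R := R) hpW)).2
      rw [T0.ga_apply isClopen_univ (T0.cyc_mem_PD hp hq hr), hCS.cont_act hgood.2.2.1, if_pos hsite]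
      have : T0.gF Set.univ (cyc p q r) (sh 0 (onePt o p)) = cyc p q r := by
        unfold Sys.gF
        rw [if_pos ⟨hsite, Set.mem_univ _⟩]
      rw [this, hwin, cyc_apply_left hpq hpr]
    rw [h1] at h2
    have h3 : cont o R (onePt o p) 0 = some q := h2
    rw [cont_onePt hpW, Option.some_inj] at h3
    exact hpq h3
  · intro M hM hfin hnot
    -- there is a visible point
    have hvne : (T0.vis M).Nonempty := by
      by_contra hemp
      rw [Set.not_nonempty_iff_eq_empty] at hemp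
      apply hnot
      refine T0.mem_of_vis hM h5 (T0.gF_good isClopen_univ (T0.cyc_mem_PD hp hq hq')) hp hq hq' hpq
        n3 n2 ?_ ?_
      · intro x
        unfold Sys.gF
        split_ifs
        · exact Or.inr (Or.inl rfl)
        · exact Or.inl rfl
      · intro ξ hξ
        rw [hemp] at hξ
        exact absurd hξ (Set.notMem_empty _)
    have hvf := T0.vis_finite hM hfin h5
    have hLP : ∀ ξ ∈ T0.vis M, ∃ s, LP s ξ := fun ξ hξ =>
      vis_LP hR hM hfin (hB M hM hfin) hD0 hne0 h5 hξ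
    let per : (ℤ → A) → ℕ := fun ξ => if h : ∃ s, LP s ξ then h.choose else 0
    have hper : ∀ ξ ∈ T0.vis M, LP (per ξ) ξ := by
      intro ξ hξ
      have h := hLP ξ hξ
      show LP (if h : ∃ s, LP s ξ then h.choose else 0) ξ
      rw [dif_pos h]
      exact h.choose_spec
    obtain ⟨ξ0, hξ0, hmax0⟩ := Set.exists_max_image (T0.vis M) per hvf hvne
    have hlp := hper ξ0 hξ0
    have hmax : ∀ ξ ∈ T0.vis M, ∀ s', LP s' ξ → s' ≤ per ξ0 := by
      intro ξ hξ s' hs'
      rw [LP_unique hs' (hper ξ hξ)]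
      exact hmax0 ξ hξ
    obtain ⟨ξ1, hξ1, hsk, hlp1, hcells⟩ := W2 hR hM hfin (hB M hM hfin) hD0 hne0 hv hξ0 hlp hmax
      (hD1.trans hD0) hne1 hD1 (by rw [hD1c]; norm_num) hout
    have hsR : R + 8 ≤ per ξ0 := by
      have c0 : IsCell o R ξ1 0 := by
        obtain ⟨w, _, hw⟩ := (hcells 0).2 (dvd_zero _)
        exact (cont_eq_some.1 hw).1
      have c1 : IsCell o R ξ1 (per ξ0 : ℤ) := by
        obtain ⟨w, _, hw⟩ := (hcells (per ξ0 : ℤ)).2 (dvd_refl _)
        exact (cont_eq_some.1 hw).1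
      have hpos := hlp1.1
      have h1 := cell_sep hR c1 c0 (by omega)
      rw [sub_zero, abs_of_nonneg (by omega)] at h1
      exact_mod_cast h1
    let C : Chain o R :=
      { hR := hR
        D1 := D1
        hD1 := hD1.trans hD0
        card := hD1c
        s := per ξ0
        hs := hsR
        ξ := ξ1
        lp := hlp1
        cells := hcells }
    exact ⟨C, W3 hR hM hfin (hB M hM hfin) hD0 hne0 hv hlp hmax C hne1 hD1 rfl hξ1 hsk⟩

end FShift
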