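import Pool.Agent.MP2b057c.Local

set_option autoImplicit false
set_option linter.unusedSectionVars false

/-!
Full shifts: cells, their contents, and the systems of cells with contents in a given set.
-/

namespace FShift

open scoped Classical

variable {A : Type}

/-- Words of length 8 whose first and last letters differ from `o`. -/
noncomputable def Wd [Fintype A] (o : A) : Finset (Fin 8 → A) :=
  Finset.univ.filter (fun w => w 0 ≠ o ∧ w 7 ≠ o)

/-- There is a cell at `i`. -/
def IsCell (o : A) (R : ℕ) (x : ℤ → A) (i : ℤ) : Prop :=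
  (∀ k : ℤ, 1 ≤ k → k ≤ R → x (i - k) = o) ∧ (∀ k : ℤ, 0 ≤ k → k < R → x (i + 8 + k) = o) ∧
    x i ≠ o ∧ x (i + 7) ≠ o

/-- The content of the cell at `i`, if there is one. -/
noncomputable def cont (o : A) (R : ℕ) (x : ℤ → A) (i : ℤ) : Option (Fin 8 → A) :=
  if IsCell o R x i then some (win x i) else none

/-- The letters outside the windows of the cells. -/
noncomputable def msk (o : A) (R : ℕ) (x : ℤ → A) (k : ℤ) : A :=
  if ∃ j : Fin 8, IsCell o R x (k - (j : ℤ)) then o else x k

variable {o : A} {R : ℕ}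

lemma mem_Wd [Fintype A] {w : Fin 8 → A} : w ∈ Wd o ↔ w 0 ≠ o ∧ w 7 ≠ o := by
  simp [Wd]

lemma isCell_sh (x : ℤ → A) (i j : ℤ) : IsCell o R (sh j x) i ↔ IsCell o R x (i + j) := by
  unfold IsCell
  simp only [sh_apply]
  constructor
  · rintro ⟨h1, h2, h3, h4⟩
    refine ⟨fun k a b => ?_, fun k a b => ?_, h3, ?_⟩
    · rw [← h1 k a b]; congr 1; ring
    · rw [← h2 k a b]; congr 1; ring
    · intro h; apply h4; rw [← h]; congr 1; ring
  · rintro ⟨h1, h2, h3, h4⟩
    refine ⟨fun k a b => ?_, fun k a b => ?_, h3, ?_⟩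
    · rw [← h1 k a b]; congr 1; ring
    · rw [← h2 k a b]; congr 1; ring
    · intro h; apply h4; rw [← h]; congr 1; ring

lemma cont_sh (x : ℤ → A) (i j : ℤ) : cont o R (sh j x) i = cont o R x (i + j) := by
  unfold cont
  simp only [isCell_sh, win_sh]

lemma msk_sh (x : ℤ → A) (i j : ℤ) : msk o R (sh j x) i = msk o R x (i + j) := by
  unfold msk
  simp only [isCell_sh, sh_apply]
  have : ∀ l : Fin 8, i - (l : ℤ) + j = i + j - (l : ℤ) := fun l => by ring
  simp only [this]

lemma cont_eq_some {x : ℤ → A} {i : ℤ} {w : Fin 8 → A} :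
    cont o R x i = some w ↔ IsCell o R x i ∧ win x i = w := by
  unfold cont
  split_ifs with h
  · simp [h]
  · simp [h]

lemma cont_ne_none {x : ℤ → A} {i : ℤ} : cont o R x i ≠ none ↔ IsCell o R x i := by
  unfold cont
  split_ifs with h
  · simp [h]
  · simp [h]

lemma cont_mem_Wd [Fintype A] {x : ℤ → A} {i : ℤ} {w : Fin 8 → A} (h : cont o R x i = some w) :
    w ∈ Wd o := by
  rw [cont_eq_some] at h
  obtain ⟨⟨_, _, h3, h4⟩, rfl⟩ := h
  rw [mem_Wd]
  constructor
  · simpa using h3
  · simpa using h4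

/-- Different cells are far apart. -/
lemma cell_sep (hR : 8 ≤ R) {x : ℤ → A} {i j : ℤ} (hi : IsCell o R x i) (hj : IsCell o R x j)
    (hij : i ≠ j) : (R : ℤ) + 8 ≤ |i - j| := by
  have key : ∀ i j : ℤ, IsCell o R x i → IsCell o R x j → i < j → (R : ℤ) + 8 ≤ j - i := by
    intro i j hi hj hlt
    by_contra hcon
    push Not at hcon
    rcases le_or_gt (j - i) R with h | h
    · apply hi.2.2.1
      rw [← hj.1 (j - i) (by omega) h]
      congr 1; ring
    · apply hi.2.2.2
      rw [← hj.1 (j - i - 7) (by omega) (by omega)]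
      congr 1; ring
  rcases lt_or_gt_of_ne hij with h | h
  · have := key i j hi hj h
    rw [abs_sub_comm, abs_of_pos (by omega)]
    exact this
  · have := key j i hj hi h
    rw [abs_of_pos (by omega)]
    exact this

lemma sep_of_cells (hR : 8 ≤ R) {x : ℤ → A} {S : Set ℤ} (hS : ∀ i ∈ S, IsCell o R x i) : Sep 8 S := by
  intro i hi j hj hij
  have := cell_sep hR (hS i hi) (hS j hj) hij
  push_cast
  omega

section ReplCells

variable [Fintype A]

lemma isCell_repl_aux (hR : 8 ≤ R) {x : ℤ → A} {S : Set ℤ} (hS : ∀ i ∈ S, IsCell o R x i)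
    {c : ℤ → Fin 8 → A} (hc : ∀ i ∈ S, c i ∈ Wd o) {i : ℤ} (hi : IsCell o R x i) :
    IsCell o R (repl x S c) i := by
  have hsep := sep_of_cells hR hS
  have far : ∀ k : ℤ, |k - i| < (R : ℤ) + 8 → (k < i ∨ i + 8 ≤ k) → -(R : ℤ) ≤ k - i →
      k - i < R + 8 → repl x S c k = x k := by
    intro k _ h1 h2 h3
    apply repl_off
    intro l hl
    have hl8 := l.2
    by_cases he : k - (l : ℤ) = i
    · omega
    · have := cell_sep hR (hS _ hl) hi he
      have h4 : |k - (l : ℤ) - i| < (R : ℤ) + 8 := by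
        rw [abs_lt]; omega
      omega
  have inner : ∀ l : Fin 8, i ∉ S → repl x S c (i + (l : ℤ)) = x (i + (l : ℤ)) := by
    intro l hiS
    apply repl_off
    intro l' hl'
    have := l.2
    have := l'.2
    by_cases he : i + (l : ℤ) - (l' : ℤ) = i
    · rw [he] at hl'; exact hiS hl'
    · have := cell_sep hR (hS _ hl') hi he
      have h4 : |i + (l : ℤ) - (l' : ℤ) - i| < (R : ℤ) + 8 := by
        rw [abs_lt]; omega
      omega
  refine ⟨fun k h1 h2 => ?_, fun k h1 h2 => ?_, ?_, ?_⟩
  · rw [far (i - k) (by rw [abs_lt]; omega) (by omega) (by omega) (by omega)]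
    exact hi.1 k h1 h2
  · rw [far (i + 8 + k) (by rw [abs_lt]; omega) (by omega) (by omega) (by omega)]
    exact hi.2.1 k h1 h2
  · by_cases hiS : i ∈ S
    · have := repl_at hsep x c hiS 0
      simp only [Nat.cast_zero, add_zero, Fin.isValue, Fin.coe_ofNat_eq_mod,
        Nat.zero_mod] at this
      rw [this]
      exact (mem_Wd.1 (hc i hiS)).1
    · have := inner 0 hiS
      simp only [Fin.isValue, Fin.coe_ofNat_eq_mod, Nat.zero_mod, Nat.cast_zero, add_zero] at this
      rw [this]
      exact hi.2.2.1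
  · by_cases hiS : i ∈ S
    · have := repl_at hsep x c hiS 7
      simp only [Fin.isValue, Fin.coe_ofNat_eq_mod, Nat.reduceMod, Nat.cast_ofNat] at this
      rw [this]
      exact (mem_Wd.1 (hc i hiS)).2
    · have := inner 7 hiS
      simp only [Fin.isValue, Fin.coe_ofNat_eq_mod, Nat.reduceMod, Nat.cast_ofNat] at this
      rw [this]
      exact hi.2.2.2

lemma isCell_repl (hR : 8 ≤ R) {x : ℤ → A} {S : Set ℤ} (hS : ∀ i ∈ S, IsCell o R x i)
    {c : ℤ → Fin 8 → A} (hc : ∀ i ∈ S, c i ∈ Wd o) (i : ℤ) :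
    IsCell o R (repl x S c) i ↔ IsCell o R x i := by
  refine ⟨fun hi => ?_, isCell_repl_aux hR hS hc⟩
  have hsep := sep_of_cells hR hS
  have h1 : x = repl (repl x S c) S (fun i => (win x i : Fin 8 → A)) := by
    rw [repl_repl hsep, repl_win hsep]
  rw [h1]
  refine isCell_repl_aux hR (fun j hj => isCell_repl_aux hR hS hc (hS j hj)) (fun j hj => ?_) hi
  exact cont_mem_Wd (R := R) (x := x) (i := j) (cont_eq_some.2 ⟨hS j hj, rfl⟩)

lemma cont_repl (hR : 8 ≤ R) {x : ℤ → A} {S : Set ℤ} (hS : ∀ i ∈ S, IsCell o R x i)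
    {c : ℤ → Fin 8 → A} (hc : ∀ i ∈ S, c i ∈ Wd o) (i : ℤ) :
    cont o R (repl x S c) i = if i ∈ S then some (c i) else cont o R x i := by
  have hsep := sep_of_cells hR hS
  split_ifs with hi
  · rw [cont_eq_some]
    exact ⟨(isCell_repl hR hS hc i).2 (hS i hi), win_repl hsep x c hi⟩
  · by_cases hcell : IsCell o R x i
    · have h1 : cont o R x i = some (win x i) := cont_eq_some.2 ⟨hcell, rfl⟩
      rw [h1, cont_eq_some]
      refine ⟨(isCell_repl hR hS hc i).2 hcell, ?_⟩
      ext l
      simp only [win_apply]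
      apply repl_off
      intro l' hl'
      have := l.2
      have := l'.2
      by_cases he : i + (l : ℤ) - (l' : ℤ) = i
      · rw [he] at hl'; exact hi hl'
      · have := cell_sep hR (hS _ hl') hcell he
        have h4 : |i + (l : ℤ) - (l' : ℤ) - i| < (R : ℤ) + 8 := by
          rw [abs_lt]; omega
        omega
    · have h1 : cont o R x i = none := by
        by_contra h; exact hcell (cont_ne_none.1 h)
      rw [h1]
      by_contra h
      exact hcell ((isCell_repl hR hS hc i).1 (cont_ne_none.1 h))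

lemma msk_repl (hR : 8 ≤ R) {x : ℤ → A} {S : Set ℤ} (hS : ∀ i ∈ S, IsCell o R x i)
    {c : ℤ → Fin 8 → A} (hc : ∀ i ∈ S, c i ∈ Wd o) (k : ℤ) :
    msk o R (repl x S c) k = msk o R x k := by
  unfold msk
  simp only [isCell_repl hR hS hc]
  split_ifs with h
  · rfl
  · apply repl_off
    intro l hl
    exact h ⟨l, hS _ hl⟩

end ReplCells

/-- A letter is determined by the mask and the contents nearby. -/
lemma apply_eq_of_info {x y : ℤ → A} {k : ℤ} (h1 : msk o R x k = msk o R y k)
    (h2 : ∀ l : Fin 8, cont o R x (k - (l : ℤ)) = cont o R y (k - (l : ℤ))) : x k = y k := by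
  by_cases h : ∃ j : Fin 8, IsCell o R x (k - (j : ℤ))
  · obtain ⟨j, hj⟩ := h
    have h3 : cont o R x (k - (j : ℤ)) = some (win x (k - (j : ℤ))) := cont_eq_some.2 ⟨hj, rfl⟩
    have h4 := h2 j
    rw [h3] at h4
    have h5 := (cont_eq_some.1 h4.symm).2
    have h6 := congrFun h5 j
    simp only [win_apply, sub_add_cancel] at h6
    exact h6.symm
  · have h' : ¬ ∃ j : Fin 8, IsCell o R y (k - (j : ℤ)) := by
      rintro ⟨j, hj⟩
      apply h
      refine ⟨j, ?_⟩
      have h3 : cont o R y (k - (j : ℤ)) ≠ none := cont_ne_none.2 hj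
      rw [← h2 j] at h3
      exact cont_ne_none.1 h3
    unfold msk at h1
    rw [if_neg h, if_neg h'] at h1
    exact h1

lemma eq_of_info {x y : ℤ → A} (h1 : ∀ k, msk o R x k = msk o R y k)
    (h2 : ∀ k, cont o R x k = cont o R y k) : x = y := by
  ext k
  exact apply_eq_of_info (h1 k) (fun l => h2 _)

lemma isCell_local {x y : ℤ → A} {i : ℤ} (h : ∀ k : ℤ, |k - i| ≤ (R : ℤ) + 8 → x k = y k) :
    IsCell o R x i ↔ IsCell o R y i := by
  have key : ∀ x y : ℤ → A, (∀ k : ℤ, |k - i| ≤ (R : ℤ) + 8 → x k = y k) → IsCell o R x i →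
      IsCell o R y i := by
    intro x y h hx
    refine ⟨fun k a b => ?_, fun k a b => ?_, ?_, ?_⟩
    · rw [← h _ (by rw [abs_le]; omega)]; exact hx.1 k a b
    · rw [← h _ (by rw [abs_le]; omega)]; exact hx.2.1 k a b
    · rw [← h _ (by rw [abs_le]; omega)]; exact hx.2.2.1
    · rw [← h _ (by rw [abs_le]; omega)]; exact hx.2.2.2
  exact ⟨key x y h, key y x (fun k hk => (h k hk).symm)⟩

lemma cont_local {x y : ℤ → A} {i : ℤ} (h : ∀ k : ℤ, |k - i| ≤ (R : ℤ) + 8 → x k = y k) :
    cont o R x i = cont o R y i := by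
  unfold cont
  simp only [isCell_local h]
  have : (win x i : Fin 8 → A) = win y i := by
    ext l
    have := l.2
    exact h _ (by rw [abs_le]; omega)
  rw [this]

lemma msk_local {x y : ℤ → A} {i : ℤ} (h : ∀ k : ℤ, |k - i| ≤ (R : ℤ) + 16 → x k = y k) :
    msk o R x i = msk o R y i := by
  unfold msk
  have h1 : ∀ l : Fin 8, IsCell o R x (i - (l : ℤ)) ↔ IsCell o R y (i - (l : ℤ)) := by
    intro l
    apply isCell_local
    intro k hk
    have := l.2
    apply h
    rw [abs_le] at hk ⊢
    omega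
  simp only [h1]
  rw [h i (by simp; positivity)]

section CellSys

variable [Fintype A] [TopologicalSpace A] [DiscreteTopology A]

/-- The points with a cell at `0` with content in `D`. -/
def cellE (o : A) (R : ℕ) (D : Finset (Fin 8 → A)) : Set (ℤ → A) :=
  {x | ∃ w ∈ D, cont o R x 0 = some w}

lemma mem_sites_cellE {D : Finset (Fin 8 → A)} {x : ℤ → A} {i : ℤ} :
    i ∈ sites (cellE o R D) x ↔ ∃ w ∈ D, cont o R x i = some w := by
  simp only [sites, cellE, Set.mem_ofPred_eq, cont_sh, zero_add]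

lemma isClopen_cellE (D : Finset (Fin 8 → A)) : IsClopen (cellE o R D) := by
  apply isClopen_of_radius _ (R + 8)
  rintro x y h ⟨w, hw, hx⟩
  refine ⟨w, hw, ?_⟩
  rw [← cont_local (x := x) (y := y)]
  · exact hx
  · intro k hk
    apply h
    push_cast
    simpa using hk

lemma isCell_of_site {D : Finset (Fin 8 → A)} {x : ℤ → A} {i : ℤ}
    (h : i ∈ sites (cellE o R D) x) : IsCell o R x i := by
  obtain ⟨w, _, hw⟩ := mem_sites_cellE.1 h
  exact (cont_eq_some.1 hw).1

/-- A system whose free windows are cells. -/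
structure CSys (o : A) (R : ℕ) where
  /-- the points with a free cell at `0` -/
  E : Set (ℤ → A)
  /-- the contents -/
  D : Finset (Fin 8 → A)
  clopen : IsClopen E
  hne : D.Nonempty
  hD : D ⊆ Wd o
  cell : ∀ x ∈ E, ∃ w ∈ D, cont o R x 0 = some w
  inv : ∀ x ∈ E, ∀ c : ℤ → Fin 8 → A, (∀ i, c i ∈ D) → repl x (sites E x) c ∈ E

/-- A system whose free windows are cells, as a system. -/
noncomputable def CSys.sys (T : CSys o R) (hR : 8 ≤ R) : Sys A 8 where
  E := T.E
  D := T.D
  d := T.hne.choose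
  hd := T.hne.choose_spec
  clopen := T.clopen
  win_mem := by
    intro x hx
    obtain ⟨w, hw, h⟩ := T.cell x hx
    rw [(cont_eq_some.1 h).2]
    exact hw
  sep := by
    intro x hx j hj hjx
    obtain ⟨w, hw, h⟩ := T.cell x hx
    obtain ⟨w', hw', h'⟩ := T.cell _ hjx
    rw [cont_sh, zero_add] at h'
    have := cell_sep hR (cont_eq_some.1 h').1 (cont_eq_some.1 h).1 hj
    rw [sub_zero] at this
    push_cast
    omega
  inv := T.inv

/-- The system of all cells with content in `D`. -/
noncomputable def dsys (o : A) {R : ℕ} (hR : 8 ≤ R) {D : Finset (Fin 8 → A)} (hD : D ⊆ Wd o)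
    (hne : D.Nonempty) : Sys A 8 :=
  CSys.sys (o := o) (R := R)
    { E := cellE o R D
      D := D
      clopen := isClopen_cellE D
      hne := hne
      hD := hD
      cell := fun _ hx => hx
      inv := by
        intro x hx c hc
        obtain ⟨w, hw, h⟩ := hx
        have h0 : (0 : ℤ) ∈ sites (cellE o R D) x := mem_sites_cellE.2 ⟨w, hw, h⟩
        refine ⟨c 0, hc 0, ?_⟩
        rw [cont_repl hR (fun i hi => isCell_of_site hi) (fun i _ => hD (hc i)), if_pos h0] } hR

end CellSys

end FShift
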