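import Mathlib

set_option autoImplicit false
set_option linter.unusedSectionVars false

/-!
Two lemmas on periodic sequences which differ at one residue class only.
-/

namespace FShift

variable {B : Type*}

lemma per_mul {z : ℤ → B} {s : ℤ} (h : ∀ k, z (k + s) = z k) (m k : ℤ) : z (k + m * s) = z k := by
  have h1 : ∀ (n : ℕ) (k : ℤ), z (k + (n : ℤ) * s) = z k := by
    intro n
    induction n with
    | zero => intro k; simp
    | succ n ih =>
      intro k
      rw [show k + ((n + 1 : ℕ) : ℤ) * s = (k + (n : ℤ) * s) + s by push_cast; ring, h, ih]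
  rcases Int.eq_nat_or_neg m with ⟨n, rfl | rfl⟩
  · exact h1 n k
  · have := h1 n (k + -(n : ℤ) * s)
    rw [show k + -(n : ℤ) * s + (n : ℤ) * s = k by ring] at this
    exact this.symm

lemma per_dvd {z : ℤ → B} {s : ℤ} (h : ∀ k, z (k + s) = z k) {k l : ℤ} (hd : s ∣ k - l) :
    z k = z l := by
  obtain ⟨m, hm⟩ := hd
  rw [show k = l + m * s by linarith]
  exact per_mul h m l

/-- Two periodic sequences equal on an interval of length at least the period are equal. -/
lemma eq_of_eq_on {z z' : ℤ → B} {s : ℤ} (hs : 0 < s) (h : ∀ k, z (k + s) = z k)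
    (h' : ∀ k, z' (k + s) = z' k) {a b : ℤ} (hab : s ≤ b - a)
    (e : ∀ k, a ≤ k → k < b → z k = z' k) (k : ℤ) : z k = z' k := by
  have h1 := Int.emod_nonneg (k - a) hs.ne'
  have h2 := Int.emod_lt_of_pos (k - a) hs
  have h3 : s ∣ k - (a + (k - a) % s) := by
    have := Int.dvd_self_sub_emod (x := k - a) (m := s)
    rw [show k - (a + (k - a) % s) = k - a - (k - a) % s by ring]
    exact this
  rw [per_dvd h h3, per_dvd h' h3]
  exact e _ (by omega) (by omega)

/-- Two periodic sequences which differ at exactly one residue class are not both imprimitive. -/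
lemma prim_or {s : ℤ} (z0 z1 : ℤ → B) (h1 : ∀ k, z1 (k + s) = z1 k)
    (hag : ∀ k, ¬ s ∣ k → z0 k = z1 k) (hne : z0 0 ≠ z1 0) :
    (∀ j, (∀ k, z0 (k + j) = z0 k) → s ∣ j) ∨ (∀ j, (∀ k, z1 (k + j) = z1 k) → s ∣ j) := by
  by_contra hcon
  push Not at hcon
  obtain ⟨⟨j, hj, hsj⟩, ⟨j', hj', hsj'⟩⟩ := hcon
  apply hne
  have e1 : z0 0 = z1 j := by
    rw [← hag j hsj]
    have := hj 0
    rw [zero_add] at this
    exact this.symm
  by_cases hd : s ∣ j + j'
  · -- `j` is a period of `z1`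
    have e2 : z1 j = z1 0 := by
      have e3 : z1 (j + j') = z1 j := hj' j
      rw [← e3]
      exact per_dvd h1 (by simpa using hd)
    rw [e1, e2]
  · have e2 : z1 0 = z0 j' := by
      rw [hag j' hsj']
      have := hj' 0
      rw [zero_add] at this
      exact this.symm
    rw [e1, e2, ← hj' j, ← hj j', ← hag _ hd, add_comm]

/-- No confusion: alignments with a pattern with holes are unique. -/
lemma no_conf {s : ℤ} (hs : 0 < s) (z0 z1 : ℤ → B) (h0 : ∀ k, z0 (k + s) = z0 k)
    (h1 : ∀ k, z1 (k + s) = z1 k)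
    (hag : ∀ k, ¬ s ∣ k → z0 k = z1 k) (hne : z0 0 ≠ z1 0)
    (hp0 : ∀ j, (∀ k, z0 (k + j) = z0 k) → s ∣ j) (hp1 : ∀ j, (∀ k, z1 (k + j) = z1 k) → s ∣ j)
    (z : ℤ → B) (a b j : ℤ) (hab : s ≤ b - a)
    (hm1 : ∀ k, a ≤ k → k < b → (¬ s ∣ k → z k = z0 k) ∧ (s ∣ k → z k = z0 0 ∨ z k = z1 0))
    (hm2 : ∀ k, a ≤ k → k < b → (¬ s ∣ k - j → z k = z0 (k - j)) ∧
      (s ∣ k - j → z k = z0 0 ∨ z k = z1 0)) : s ∣ j := by
  by_contra hsj
  -- a position of the interval in a given residue class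
  have hres : ∀ r : ℤ, ∃ k, a ≤ k ∧ k < b ∧ s ∣ k - r := by
    intro r
    have h2 := Int.emod_nonneg (r - a) hs.ne'
    have h3 := Int.emod_lt_of_pos (r - a) hs
    refine ⟨a + (r - a) % s, by omega, by omega, ?_⟩
    have := Int.dvd_self_sub_emod (x := r - a) (m := s)
    rw [show a + (r - a) % s - r = -(r - a - (r - a) % s) by ring]
    exact (dvd_neg).2 this
  have hsub : ∀ k, s ∣ k → ¬ s ∣ k - j := by
    intro k hk hkj
    apply hsj
    have := dvd_sub hk hkj
    simpa using this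
  have hsub' : ∀ k, s ∣ k - j → ¬ s ∣ k := fun k hk hk' => hsub k hk' hk
  -- first alignment
  have A1 : ∃ zα : ℤ → B, (zα = z0 ∨ zα = z1) ∧ ∀ k, a ≤ k → k < b → z k = zα k := by
    obtain ⟨k0, hk1, hk2, hk3⟩ := hres 0
    rw [sub_zero] at hk3
    have c1 : ∀ k, a ≤ k → k < b → s ∣ k → z k = z0 (-j) := by
      intro k ha hb hk
      rw [(hm2 k ha hb).1 (hsub k hk)]
      exact per_dvd h0 (by simpa using hk)
    rcases (hm1 k0 hk1 hk2).2 hk3 with h | h
    · refine ⟨z0, Or.inl rfl, fun k ha hb => ?_⟩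
      by_cases hk : s ∣ k
      · rw [c1 k ha hb hk, ← c1 k0 hk1 hk2 hk3, h]
        exact per_dvd h0 (by simpa using hk)
      · exact (hm1 k ha hb).1 hk
    · refine ⟨z1, Or.inr rfl, fun k ha hb => ?_⟩
      by_cases hk : s ∣ k
      · rw [c1 k ha hb hk, ← c1 k0 hk1 hk2 hk3, h]
        exact per_dvd h1 (by simpa using hk)
      · rw [(hm1 k ha hb).1 hk, hag k hk]
  -- second alignment
  have A2 : ∃ zβ : ℤ → B, (zβ = z0 ∨ zβ = z1) ∧ ∀ k, a ≤ k → k < b → z k = zβ (k - j) := by
    obtain ⟨k0, hk1, hk2, hk3⟩ := hres j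
    have c1 : ∀ k, a ≤ k → k < b → s ∣ k - j → z k = z0 j := by
      intro k ha hb hk
      rw [(hm1 k ha hb).1 (hsub' k hk)]
      exact per_dvd h0 hk
    rcases (hm2 k0 hk1 hk2).2 hk3 with h | h
    · refine ⟨z0, Or.inl rfl, fun k ha hb => ?_⟩
      by_cases hk : s ∣ k - j
      · rw [c1 k ha hb hk, ← c1 k0 hk1 hk2 hk3, h]
        exact (per_dvd h0 (by simpa using hk)).symm
      · exact (hm2 k ha hb).1 hk
    · refine ⟨z1, Or.inr rfl, fun k ha hb => ?_⟩
      by_cases hk : s ∣ k - j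
      · rw [c1 k ha hb hk, ← c1 k0 hk1 hk2 hk3, h]
        exact (per_dvd h1 (by simpa using hk)).symm
      · rw [(hm2 k ha hb).1 hk, hag _ hk]
  obtain ⟨zα, hα, eα⟩ := A1
  obtain ⟨zβ, hβ, eβ⟩ := A2
  have pα : ∀ k, zα (k + s) = zα k := by rcases hα with rfl | rfl <;> assumption
  have pβ : ∀ k, zβ (k + s) = zβ k := by rcases hβ with rfl | rfl <;> assumption
  have E : ∀ k, zα k = zβ (k - j) := by
    refine eq_of_eq_on (z := zα) (z' := fun k => zβ (k - j)) hs pα ?_ hab ?_
    · intro k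
      have := pβ (k - j)
      rw [show k - j + s = k + s - j by ring] at this
      exact this
    · intro k ha hb
      rw [← eα k ha hb, eβ k ha hb]
  by_cases hαβ : zα = zβ
  · -- a period
    have h2 : ∀ k, zα (k + j) = zα k := by
      intro k
      have := E (k + j)
      rw [add_sub_cancel_right, ← hαβ] at this
      exact this
    rcases hα with rfl | rfl
    · exact hsj (hp0 j h2)
    · exact hsj (hp1 j h2)
  · have hoff : ∀ k, ¬ s ∣ k → zα k = zβ k := by
      intro k hk
      rcases hα with rfl | rfl <;> rcases hβ with rfl | rfl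
      · rfl
      · exact hag k hk
      · exact (hag k hk).symm
      · rfl
    have hne' : zα 0 ≠ zβ 0 := by
      rcases hα with rfl | rfl <;> rcases hβ with rfl | rfl
      · exact absurd rfl hαβ
      · exact hne
      · exact hne.symm
      · exact absurd rfl hαβ
    -- the orbit of the hole
    have hex : ∃ m : ℕ, 0 < m ∧ s ∣ (m : ℤ) * j := by
      refine ⟨s.toNat, ?_, ?_⟩
      · omega
      · rw [Int.toNat_of_nonneg hs.le]; exact dvd_mul_right s j
    classical
    obtain ⟨hm0, hmd⟩ := Nat.find_spec hex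
    set m := Nat.find hex with hm
    have hmin : ∀ m' : ℕ, m' < m → 0 < m' → ¬ s ∣ (m' : ℤ) * j := by
      intro m' hlt hpos hd
      exact Nat.find_min hex hlt ⟨hpos, hd⟩
    have ind : ∀ i : ℕ, i < m → zα (-((i : ℤ) * j)) = zα 0 := by
      intro i
      induction i with
      | zero => intro _; simp
      | succ i ih =>
        intro hi
        rw [← ih (by omega), E (-((i : ℤ) * j))]
        rw [show -((i : ℤ) * j) - j = -(((i + 1 : ℕ) : ℤ) * j) by push_cast; ring]
        apply hoff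
        intro hd
        rw [dvd_neg] at hd
        exact hmin (i + 1) hi (Nat.succ_pos i) hd
    obtain ⟨i, hi⟩ : ∃ i : ℕ, m = i + 1 := ⟨m - 1, by omega⟩
    have h3 := ind i (by omega)
    rw [E] at h3
    apply hne'
    rw [← h3]
    apply (per_dvd pβ _)
    rw [sub_zero, show -((i : ℤ) * j) - j = -((m : ℤ) * j) by rw [hi]; push_cast; ring]
    exact (dvd_neg).2 hmd

end FShift
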