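import Pool.Agent.MP2b057c.Cells
import Pool.Agent.MP2b057c.Seq

set_option autoImplicit false
set_option linter.unusedSectionVars false

/-!
Full shifts: chains of cells over a periodic point, and the systems of the centres of long chains.
-/

namespace FShift

open scoped Classical

variable {A : Type} [Fintype A]

/-- The base of the chains: an `s`-periodic point whose cells with content in `D1` are exactly
the multiples of `s`. -/
structure Base (o : A) (R : ℕ) where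
  /-- the period -/
  s : ℕ
  /-- the base point -/
  ξ : ℤ → A
  /-- the contents -/
  D1 : Finset (Fin 8 → A)
  hR : 8 ≤ R
  hD1 : D1 ⊆ Wd o
  spos : 0 < s
  per : IsPer (s : ℤ) ξ
  hc : ∀ k : ℤ, (∃ w ∈ D1, cont o R ξ k = some w) ↔ (s : ℤ) ∣ k

variable {o : A} {R : ℕ}

namespace Base

variable (B : Base o R)

/-- The position `k` of `x` matches the chain pattern with contents `D` and alignment `i`. -/
def Al (D : Finset (Fin 8 → A)) (x : ℤ → A) (i k : ℤ) : Prop :=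
  msk o R x k = msk o R B.ξ (k - i) ∧
    (((B.s : ℤ) ∣ k - i → ∃ w ∈ D, cont o R x k = some w) ∧
      (¬ (B.s : ℤ) ∣ k - i → cont o R x k = cont o R B.ξ (k - i)))

/-- The centres of chains of radius `N`. -/
def Zs (D : Finset (Fin 8 → A)) (N : ℤ) (x : ℤ → A) : Set ℤ :=
  {i | ∀ k, |k - i| ≤ N → B.Al D x i k}

/-- The periodic points over the base. -/
noncomputable def Pt (a : Fin 8 → A) : ℤ → A := repl B.ξ {k | (B.s : ℤ) ∣ k} (fun _ => a)

lemma spos' : (0 : ℤ) < B.s := by exact_mod_cast B.spos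

lemma per_msk (k m : ℤ) : msk o R B.ξ (k + m * B.s) = msk o R B.ξ k := by
  apply per_mul (z := msk o R B.ξ)
  intro k
  have h : sh (B.s : ℤ) B.ξ = B.ξ := by ext i; exact B.per i
  rw [← msk_sh, h]

lemma per_cont (k m : ℤ) : cont o R B.ξ (k + m * B.s) = cont o R B.ξ k := by
  apply per_mul (z := cont o R B.ξ)
  intro k
  have h : sh (B.s : ℤ) B.ξ = B.ξ := by ext i; exact B.per i
  rw [← cont_sh, h]

lemma dvd_msk {k l : ℤ} (h : (B.s : ℤ) ∣ k - l) : msk o R B.ξ k = msk o R B.ξ l := by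
  obtain ⟨m, hm⟩ := h
  rw [show k = l + m * B.s by linarith, B.per_msk]

lemma dvd_cont {k l : ℤ} (h : (B.s : ℤ) ∣ k - l) : cont o R B.ξ k = cont o R B.ξ l := by
  obtain ⟨m, hm⟩ := h
  rw [show k = l + m * B.s by linarith, B.per_cont]

/-- The alignment matters only modulo `s`. -/
lemma Al_congr {D : Finset (Fin 8 → A)} {x : ℤ → A} {i i' k : ℤ} (h : (B.s : ℤ) ∣ i - i')
    (hA : B.Al D x i k) : B.Al D x i' k := by
  have e1 : (B.s : ℤ) ∣ (k - i') - (k - i) := by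
    rw [show (k - i') - (k - i) = i - i' by ring]; exact h
  have e2 : (B.s : ℤ) ∣ k - i' ↔ (B.s : ℤ) ∣ k - i := by
    constructor
    · intro h2
      have := dvd_sub h2 e1
      rwa [show k - i' - (k - i' - (k - i)) = k - i by ring] at this
    · intro h2
      have := dvd_add h2 e1
      rwa [show k - i + (k - i' - (k - i)) = k - i' by ring] at this
  obtain ⟨h1, h2, h3⟩ := hA
  refine ⟨?_, fun h4 => h2 (e2.1 h4), fun h4 => ?_⟩
  · rw [h1]; exact (B.dvd_msk e1).symm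
  · rw [h3 (fun h5 => h4 (e2.2 h5))]; exact (B.dvd_cont e1).symm

lemma Al_mono {D D' : Finset (Fin 8 → A)} (hD : D ⊆ D') {x : ℤ → A} {i k : ℤ}
    (hA : B.Al D x i k) : B.Al D' x i k := by
  obtain ⟨h1, h2, h3⟩ := hA
  refine ⟨h1, fun h4 => ?_, h3⟩
  obtain ⟨w, hw, h5⟩ := h2 h4
  exact ⟨w, hD hw, h5⟩

lemma Al_inter {D D' : Finset (Fin 8 → A)} {x : ℤ → A} {i k : ℤ}
    (hA : B.Al D x i k) (hA' : B.Al D' x i k) : B.Al (D ∩ D') x i k := by
  refine ⟨hA.1, fun h4 => ?_, hA.2.2⟩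
  obtain ⟨w, hw, h5⟩ := hA.2.1 h4
  obtain ⟨w', hw', h5'⟩ := hA'.2.1 h4
  have : w = w' := by
    rw [h5] at h5'; exact Option.some.inj h5'
  subst this
  exact ⟨w, Finset.mem_inter.2 ⟨hw, hw'⟩, h5⟩

/-- A cell with content in `D1` of an aligned stretch lies at a multiple of `s`. -/
lemma Al_dvd {D : Finset (Fin 8 → A)} {x : ℤ → A} {i k : ℤ}
    (hA : B.Al D x i k) {w : Fin 8 → A} (hw : w ∈ B.D1) (h : cont o R x k = some w) :
    (B.s : ℤ) ∣ k - i := by
  by_contra h2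
  have h3 := hA.2.2 h2
  rw [h] at h3
  exact h2 ((B.hc _).1 ⟨w, hw, h3.symm⟩)

lemma Zs_anti {D : Finset (Fin 8 → A)} {N N' : ℤ} (h : N ≤ N') (x : ℤ → A) :
    B.Zs D N' x ⊆ B.Zs D N x := fun _ hi k hk => hi k (hk.trans h)

lemma Zs_mono {D D' : Finset (Fin 8 → A)} (h : D ⊆ D') (N : ℤ) (x : ℤ → A) :
    B.Zs D N x ⊆ B.Zs D' N x := fun _ hi k hk => B.Al_mono h (hi k hk)

lemma Zs_cont {D : Finset (Fin 8 → A)} {N : ℤ} (hN : 0 ≤ N) {x : ℤ → A} {i : ℤ}
    (hi : i ∈ B.Zs D N x) : ∃ w ∈ D, cont o R x i = some w := by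
  have := (hi i (by simpa using hN)).2.1
  rw [sub_self] at this
  exact this (dvd_zero _)

lemma Zs_cell {D : Finset (Fin 8 → A)} {N : ℤ} (hN : 0 ≤ N) {x : ℤ → A} {i : ℤ}
    (hi : i ∈ B.Zs D N x) : IsCell o R x i := by
  obtain ⟨w, _, hw⟩ := B.Zs_cont hN hi
  exact (cont_eq_some.1 hw).1

/-- Shift-equivariance. -/
lemma Al_sh {D : Finset (Fin 8 → A)} {x : ℤ → A} {i k j : ℤ} :
    B.Al D (sh j x) i k ↔ B.Al D x (i + j) (k + j) := by
  unfold Al
  rw [msk_sh, cont_sh, show k + j - (i + j) = k - i by ring]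

lemma Zs_sh {D : Finset (Fin 8 → A)} {N : ℤ} {x : ℤ → A} {i j : ℤ} :
    i ∈ B.Zs D N (sh j x) ↔ i + j ∈ B.Zs D N x := by
  constructor
  · intro h k hk
    have := h (k - j) (by rw [show k - j - i = k - (i + j) by ring]; exact hk)
    rw [Al_sh, sub_add_cancel] at this
    exact this
  · intro h k hk
    rw [Al_sh]
    exact h _ (by rw [show k + j - (i + j) = k - i by ring]; exact hk)

lemma Al_of_eq {D : Finset (Fin 8 → A)} {x y : ℤ → A} {i k : ℤ}
    (h1 : msk o R x k = msk o R y k) (h2 : cont o R x k = cont o R y k) (h : B.Al D x i k) :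
    B.Al D y i k := by
  unfold Al at h ⊢
  rw [← h1, ← h2]
  exact h

lemma Al_local {D : Finset (Fin 8 → A)} {x y : ℤ → A} {i k : ℤ}
    (h : ∀ j : ℤ, |j - k| ≤ (R : ℤ) + 16 → x j = y j) (hA : B.Al D x i k) : B.Al D y i k := by
  refine B.Al_of_eq (msk_local h) (cont_local fun j hj => h j (by linarith)) hA

/-- Changing contents within `D` at some cells does not change the chains. -/
lemma Al_repl {D : Finset (Fin 8 → A)} (hD : D ⊆ B.D1) {x : ℤ → A} {S : Set ℤ}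
    {c : ℤ → Fin 8 → A} (hS : ∀ i ∈ S, ∃ w ∈ D, cont o R x i = some w) (hc : ∀ i ∈ S, c i ∈ D)
    {i k : ℤ} (hA : B.Al D x i k) : B.Al D (repl x S c) i k := by
  have hcell : ∀ i ∈ S, IsCell o R x i := by
    intro i hi
    obtain ⟨w, _, hw⟩ := hS i hi
    exact (cont_eq_some.1 hw).1
  have hcW : ∀ i ∈ S, c i ∈ Wd o := fun i hi => B.hD1 (hD (hc i hi))
  obtain ⟨h1, h2, h3⟩ := hA
  refine ⟨?_, fun h4 => ?_, fun h4 => ?_⟩
  · rw [msk_repl B.hR hcell hcW]; exact h1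
  · rw [cont_repl B.hR hcell hcW]
    split_ifs with hk
    · exact ⟨c k, hc k hk, rfl⟩
    · exact h2 h4
  · rw [cont_repl B.hR hcell hcW, if_neg]
    · exact h3 h4
    · intro hk
      obtain ⟨w, hw, hw'⟩ := hS k hk
      exact h4 (B.Al_dvd ⟨h1, h2, h3⟩ (hD hw) hw')

lemma cont_D_repl {D : Finset (Fin 8 → A)} (hD : D ⊆ B.D1) {x : ℤ → A} {S : Set ℤ}
    {c : ℤ → Fin 8 → A} (hS : ∀ i ∈ S, ∃ w ∈ D, cont o R x i = some w) (hc : ∀ i ∈ S, c i ∈ D) :
    ∀ i ∈ S, ∃ w ∈ D, cont o R (repl x S c) i = some w := by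
  intro i hi
  have hcell : ∀ i ∈ S, IsCell o R x i := by
    intro i hi
    obtain ⟨w, _, hw⟩ := hS i hi
    exact (cont_eq_some.1 hw).1
  rw [cont_repl B.hR hcell (fun i hi => B.hD1 (hD (hc i hi))), if_pos hi]
  exact ⟨c i, hc i hi, rfl⟩

include B in
lemma repl_back {D : Finset (Fin 8 → A)} {x : ℤ → A} {S : Set ℤ}
    {c : ℤ → Fin 8 → A} (hS : ∀ i ∈ S, ∃ w ∈ D, cont o R x i = some w) :
    x = repl (repl x S c) S (fun i => (win x i : Fin 8 → A)) := by
  have hcell : ∀ i ∈ S, IsCell o R x i := by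
    intro i hi
    obtain ⟨w, _, hw⟩ := hS i hi
    exact (cont_eq_some.1 hw).1
  have hsep := sep_of_cells B.hR hcell
  rw [repl_repl hsep, repl_win hsep]

lemma Zs_repl {D : Finset (Fin 8 → A)} (hD : D ⊆ B.D1) {x : ℤ → A} {S : Set ℤ}
    {c : ℤ → Fin 8 → A} (hS : ∀ i ∈ S, ∃ w ∈ D, cont o R x i = some w) (hc : ∀ i ∈ S, c i ∈ D)
    (N : ℤ) : B.Zs D N (repl x S c) = B.Zs D N x := by
  apply Set.Subset.antisymm
  · intro i hi k hk
    have h1 := hi k hk
    have h2 := B.Al_repl hD (B.cont_D_repl hD hS hc) (c := fun i => (win x i : Fin 8 → A)) ?_ h1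
    · rw [← B.repl_back hS] at h2
      exact h2
    · intro j hj
      obtain ⟨w, hw, hw'⟩ := hS j hj
      rw [(cont_eq_some.1 hw').2]
      exact hw
  · intro i hi k hk
    exact B.Al_repl hD hS hc (hi k hk)

section Pts

lemma hcellξ : ∀ k ∈ {k : ℤ | (B.s : ℤ) ∣ k}, IsCell o R B.ξ k := by
  intro k hk
  obtain ⟨w, _, hw⟩ := (B.hc k).2 hk
  exact (cont_eq_some.1 hw).1

lemma msk_Pt {a : Fin 8 → A} (ha : a ∈ B.D1) (k : ℤ) :
    msk o R (B.Pt a) k = msk o R B.ξ k :=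
  msk_repl B.hR B.hcellξ (fun _ _ => B.hD1 ha) k

lemma cont_Pt {a : Fin 8 → A} (ha : a ∈ B.D1) (k : ℤ) :
    cont o R (B.Pt a) k = if (B.s : ℤ) ∣ k then some a else cont o R B.ξ k := by
  have h := cont_repl B.hR B.hcellξ (c := fun _ => a) (fun _ _ => B.hD1 ha) k
  by_cases hk : (B.s : ℤ) ∣ k
  · rw [if_pos hk]
    rw [if_pos (show k ∈ {k : ℤ | (B.s : ℤ) ∣ k} from hk)] at h
    exact h
  · rw [if_neg hk]
    rw [if_neg (show k ∉ {k : ℤ | (B.s : ℤ) ∣ k} from hk)] at h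
    exact h

lemma Al_Pt {a : Fin 8 → A} (ha : a ∈ B.D1) (k : ℤ) : B.Al {a} (B.Pt a) 0 k := by
  unfold Al
  rw [sub_zero, B.msk_Pt ha, B.cont_Pt ha]
  refine ⟨rfl, fun h => ?_, fun h => ?_⟩
  · rw [if_pos h]; exact ⟨a, by simp, rfl⟩
  · rw [if_neg h]

lemma isPer_Pt (a : Fin 8 → A) : IsPer (B.s : ℤ) (B.Pt a) := by
  have hsep := sep_of_cells B.hR B.hcellξ
  have h : sh (B.s : ℤ) (B.Pt a) = B.Pt a := by
    unfold Pt
    rw [sh_repl _ _ _ hsep]
    have h1 : sh (B.s : ℤ) B.ξ = B.ξ := by ext i; exact B.per i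
    rw [h1]
    congr 1
    ext i
    simp
  intro k
  exact congrFun h k

lemma LP_Pt {a : Fin 8 → A} (ha : a ∈ B.D1) : LP B.s (B.Pt a) := by
  refine ⟨B.spos, B.isPer_Pt a, fun j hj => ?_⟩
  have h : sh j (B.Pt a) = B.Pt a := by ext i; exact hj i
  have h1 : cont o R (B.Pt a) j = cont o R (B.Pt a) 0 := by
    conv_rhs => rw [← h]
    rw [cont_sh, zero_add]
  rw [B.cont_Pt ha, B.cont_Pt ha, if_pos (dvd_zero _)] at h1
  split_ifs at h1 with h2
  · exact h2
  · exact (B.hc j).1 ⟨a, ha, h1⟩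

lemma Pt_inj {a b : Fin 8 → A} (ha : a ∈ B.D1) (hb : b ∈ B.D1) (h : SameOrb (B.Pt a) (B.Pt b)) :
    a = b := by
  obtain ⟨j, hj⟩ := h
  have h1 : cont o R (B.Pt b) 0 = cont o R (B.Pt a) j := by
    rw [hj, cont_sh, zero_add]
  rw [B.cont_Pt ha, B.cont_Pt hb, if_pos (dvd_zero _)] at h1
  split_ifs at h1 with h2
  · exact (Option.some.inj h1).symm
  · exact absurd ((B.hc j).1 ⟨b, hb, h1.symm⟩) h2

/-- A point aligned everywhere with a single content is a shift of `Pt a`. -/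
lemma eq_sh_Pt {a : Fin 8 → A} (ha : a ∈ B.D1) {x : ℤ → A} {i : ℤ}
    (h : ∀ k, B.Al {a} x i k) : x = sh (-i) (B.Pt a) := by
  apply eq_of_info (o := o) (R := R)
  · intro k
    rw [msk_sh, B.msk_Pt ha, (h k).1]
    rfl
  · intro k
    rw [cont_sh, B.cont_Pt ha]
    have h1 := (h k).2
    rw [show k + -i = k - i by ring]
    split_ifs with h2
    · obtain ⟨w, hw, hw'⟩ := h1.1 h2
      rw [hw', Finset.mem_singleton.1 hw]
    · exact h1.2 h2

end Pts

section System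

variable [TopologicalSpace A] [DiscreteTopology A]

lemma isClopen_Zs (D : Finset (Fin 8 → A)) (N : ℕ) :
    IsClopen {x : ℤ → A | (0 : ℤ) ∈ B.Zs D N x} := by
  apply isClopen_of_radius _ (N + R + 16)
  intro x y h hx k hk
  refine B.Al_local (fun j hj => h j ?_) (hx k hk)
  rw [abs_le] at hj hk ⊢
  push_cast
  omega

/-- The system of the centres of the chains of radius `N`. -/
noncomputable def ch {D : Finset (Fin 8 → A)} (hD : D ⊆ B.D1) (hne : D.Nonempty) (N : ℕ) :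
    Sys A 8 :=
  CSys.sys (o := o) (R := R)
    { E := {x | (0 : ℤ) ∈ B.Zs D N x}
      D := D
      clopen := B.isClopen_Zs D N
      hne := hne
      hD := hD.trans B.hD1
      cell := fun _ hx => B.Zs_cont (by positivity) hx
      inv := by
        intro x hx c hc
        have hs : ∀ i ∈ sites {x | (0 : ℤ) ∈ B.Zs D N x} x, ∃ w ∈ D, cont o R x i = some w := by
          intro i hi
          rw [mem_sites, Set.mem_ofPred_eq, Zs_sh, zero_add] at hi
          exact B.Zs_cont (by positivity) hi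
        rw [Set.mem_ofPred_eq, B.Zs_repl hD hs (fun i _ => hc i)]
        exact hx } B.hR

lemma sites_ch {D : Finset (Fin 8 → A)} (hD : D ⊆ B.D1) (hne : D.Nonempty) (N : ℕ) (x : ℤ → A) :
    sites (B.ch hD hne N).E x = B.Zs D N x := by
  ext i
  rw [mem_sites]
  show (0 : ℤ) ∈ B.Zs D N (sh i x) ↔ _
  rw [Zs_sh, zero_add]

end System

end Base

end FShift
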