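import Pool.Agent.MP2b057c.Chain

set_option autoImplicit false
set_option linter.unusedSectionVars false

/-!
Full shifts: permuting the contents at the centres of long chains; points without long runs.
-/

namespace FShift

open scoped Classical

variable {A : Type} [Fintype A] {o : A} {R : ℕ}

namespace Base

variable (B : Base o R)

/-- Apply `π` to the contents of the centres of the chains of radius `N`. -/
noncomputable def hA (D : Finset (Fin 8 → A)) (N : ℤ) (π : Equiv.Perm (Fin 8 → A)) (x : ℤ → A) :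
    ℤ → A := repl x (B.Zs D N x) (fun i => π (win x i))

variable {B} {D : Finset (Fin 8 → A)} {N : ℤ}

lemma perm_mem_of {π : Equiv.Perm (Fin 8 → A)} (hπ : ∀ w, w ∉ D → π w = w) {w : Fin 8 → A}
    (hw : w ∈ D) : π w ∈ D := by
  by_contra hn
  have h1 := hπ _ hn
  have h2 := π.injective h1
  rw [h2] at hn
  exact hn hw

lemma inv_fix {π : Equiv.Perm (Fin 8 → A)} (hπ : ∀ w, w ∉ D → π w = w) :
    ∀ w, w ∉ D → π⁻¹ w = w := by
  intro w hw
  rw [Equiv.Perm.inv_eq_iff_eq, hπ w hw]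

lemma win_of_Zs (hN : 0 ≤ N) {x : ℤ → A} {i : ℤ} (hi : i ∈ B.Zs D N x) :
    (win x i : Fin 8 → A) ∈ D := by
  obtain ⟨w, hw, hw'⟩ := B.Zs_cont hN hi
  rw [(cont_eq_some.1 hw').2]
  exact hw

lemma cont_of_Zs (hN : 0 ≤ N) {x : ℤ → A} {i : ℤ} (hi : i ∈ B.Zs D N x) :
    cont o R x i = some (win x i) :=
  cont_eq_some.2 ⟨B.Zs_cell hN hi, rfl⟩

lemma msk_hA (hD : D ⊆ B.D1) (hN : 0 ≤ N) {π : Equiv.Perm (Fin 8 → A)}
    (hπ : ∀ w, w ∉ D → π w = w) (x : ℤ → A) (k : ℤ) :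
    msk o R (B.hA D N π x) k = msk o R x k :=
  msk_repl B.hR (fun _ hi => B.Zs_cell hN hi)
    (fun _ hi => B.hD1 (hD (perm_mem_of hπ (win_of_Zs hN hi)))) k

lemma cont_hA (hD : D ⊆ B.D1) (hN : 0 ≤ N) {π : Equiv.Perm (Fin 8 → A)}
    (hπ : ∀ w, w ∉ D → π w = w) (x : ℤ → A) (k : ℤ) :
    cont o R (B.hA D N π x) k =
      if k ∈ B.Zs D N x then some (π (win x k)) else cont o R x k :=
  cont_repl B.hR (c := fun i => π (win x i)) (fun _ hi => B.Zs_cell hN hi)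
    (fun _ hi => B.hD1 (hD (perm_mem_of hπ (win_of_Zs hN hi)))) k

lemma cont_hA_of_not (hD : D ⊆ B.D1) (hN : 0 ≤ N) {π : Equiv.Perm (Fin 8 → A)}
    (hπ : ∀ w, w ∉ D → π w = w) {x : ℤ → A} {k : ℤ} (hk : k ∉ B.Zs D N x) :
    cont o R (B.hA D N π x) k = cont o R x k := by
  rw [cont_hA hD hN hπ, if_neg hk]

lemma Zs_hA (hD : D ⊆ B.D1) (hN : 0 ≤ N) {π : Equiv.Perm (Fin 8 → A)}
    (hπ : ∀ w, w ∉ D → π w = w) (x : ℤ → A) (N' : ℤ) :
    B.Zs D N' (B.hA D N π x) = B.Zs D N' x :=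
  B.Zs_repl hD (fun _ hi => B.Zs_cont hN hi)
    (fun _ hi => perm_mem_of hπ (win_of_Zs hN hi)) N'

lemma hA_inv (hD : D ⊆ B.D1) (hN : 0 ≤ N) {π : Equiv.Perm (Fin 8 → A)}
    (hπ : ∀ w, w ∉ D → π w = w) (x : ℤ → A) : B.hA D N π (B.hA D N π⁻¹ x) = x := by
  apply eq_of_info (o := o) (R := R)
  · intro k
    rw [msk_hA hD hN hπ, msk_hA hD hN (inv_fix hπ)]
  · intro k
    rw [cont_hA hD hN hπ, Zs_hA hD hN (inv_fix hπ)]
    split_ifs with h
    · have h1 : cont o R (B.hA D N π⁻¹ x) k = some (π⁻¹ (win x k)) := by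
        rw [cont_hA hD hN (inv_fix hπ), if_pos h]
      rw [(cont_eq_some.1 h1).2, cont_of_Zs hN h]
      simp
    · exact cont_hA_of_not hD hN (inv_fix hπ) h

/-- The alignment of two chains with a common aligned cell. -/
lemma Al_align {D' : Finset (Fin 8 → A)} (hD : D ⊆ B.D1) {x : ℤ → A} {i i' k : ℤ}
    (h : B.Al D x i k) (h' : B.Al D' x i' k) (hk : (B.s : ℤ) ∣ k - i) : (B.s : ℤ) ∣ i - i' := by
  obtain ⟨w, hw, hw'⟩ := h.2.1 hk
  have h2 := B.Al_dvd h' (hD hw) hw'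
  have := dvd_sub h2 hk
  rwa [show k - i' - (k - i) = i - i' by ring] at this

/-- R1: two close centres of different types give a run of the common content. -/
lemma run_of_close {D' : Finset (Fin 8 → A)} (hD : D ⊆ B.D1) {x : ℤ → A} {i i' L : ℤ}
    (hN : 2 * (L + B.s) ≤ N) (hL : 0 ≤ L) (hi : i ∈ B.Zs D N x) (hi' : i' ∈ B.Zs D' N x)
    (hii : |i - i'| ≤ N) : ∃ j, j ∈ B.Zs (D ∩ D') L x ∧ |j - i| ≤ N := by
  have hs := B.spos'
  rw [abs_le] at hii
  have hal : (B.s : ℤ) ∣ i - i' := by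
    refine Al_align hD (hi i (by simp; omega)) (hi' i (by rw [abs_le]; omega)) ?_
    rw [sub_self]; exact dvd_zero _
  obtain ⟨q, hq⟩ := hal
  -- the middle
  set t : ℤ := (i - i') / 2 / B.s with ht
  set j : ℤ := i - t * B.s with hj
  have e1 : (B.s : ℤ) ∣ i - j := ⟨t, by rw [hj]; ring⟩
  have e2 : (B.s : ℤ) ∣ i' - j := by
    rw [show i' - j = (B.s : ℤ) * (t - q) by rw [mul_sub, ← hq, hj]; ring]
    exact dvd_mul_right _ _
  have b1 : (i - i') / 2 - B.s < t * B.s ∧ t * B.s ≤ (i - i') / 2 := by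
    have h1 := Int.emod_add_mul_ediv ((i - i') / 2) B.s
    have h2 := Int.emod_nonneg ((i - i') / 2) hs.ne'
    have h3 := Int.emod_lt_of_pos ((i - i') / 2) hs
    have h4 : (B.s : ℤ) * ((i - i') / 2 / B.s) = t * B.s := by rw [ht]; ring
    omega
  refine ⟨j, fun k hk => ?_, by rw [abs_le]; omega⟩
  rw [abs_le] at hk
  apply B.Al_inter
  · exact B.Al_congr e1 (hi k (by rw [abs_le]; omega))
  · exact B.Al_congr e2 (hi' k (by rw [abs_le]; omega))

/-- R2: long runs after the action come from runs before. -/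
lemma run_of_run_hA {S : Finset (Fin 8 → A)} (hD : D ⊆ S) (hS : S ⊆ B.D1)
    {π : Equiv.Perm (Fin 8 → A)} (hπ : ∀ w, w ∉ D → π w = w) {x : ℤ → A} {i L : ℤ}
    (hL : 0 ≤ L) (hN : 3 * L + 2 * B.s ≤ N) {e : Fin 8 → A} (he : e ∈ S)
    (hrun : i ∈ B.Zs {e} (3 * L + 2 * B.s) (B.hA D N π x)) :
    ∃ e' ∈ S, ∃ j, j ∈ B.Zs {e'} L x ∧ |j - i| ≤ 3 * L + 2 * B.s := by
  have hs := B.spos'
  have hN0 : 0 ≤ N := by omega
  have hDB : D ⊆ B.D1 := hD.trans hS
  set y := B.hA D N π x with hy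
  have hZ : ∀ j, j ∈ B.Zs D N y ↔ j ∈ B.Zs D N x := by
    intro j; rw [hy, Zs_hA hDB hN0 hπ]
  -- a stretch without centres
  have free : ∀ c : ℤ, |c - i| ≤ 2 * L + B.s + B.s → (B.s : ℤ) ∣ c - i →
      (∀ j, |j - c| ≤ L → j ∉ B.Zs D N x) → c ∈ B.Zs {e} L x := by
    intro c hc hci hj k hk
    have hk' : |k - i| ≤ 3 * L + 2 * B.s := by
      rw [abs_le] at hc hk ⊢; omega
    have h1 := B.Al_congr (i' := c) (by rw [← dvd_neg, neg_sub]; exact hci) (hrun k hk')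
    refine B.Al_of_eq ?_ ?_ h1
    · rw [hy, msk_hA hDB hN0 hπ]
    · rw [hy, cont_hA_of_not hDB hN0 hπ (hj k hk)]
  by_cases c1 : ∃ j, j ∈ B.Zs D N x ∧ i - 3 * L - 2 * B.s ≤ j ∧ j ≤ i - L
  · by_cases c2 : ∃ j, j ∈ B.Zs D N x ∧ i + L ≤ j ∧ j ≤ i + 3 * L + 2 * B.s
    · obtain ⟨j1, hj1, a1, a2⟩ := c1
      obtain ⟨j3, hj3, a3, a4⟩ := c2
      -- all aligned cells in the middle are centres
      have hal1 : (B.s : ℤ) ∣ j1 - i := by
        obtain ⟨w, hw, hw'⟩ := B.Zs_cont hN0 ((hZ j1).2 hj1)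
        exact B.Al_dvd (hrun j1 (by rw [abs_le]; omega)) (hDB hw) hw'
      have hal3 : (B.s : ℤ) ∣ j3 - i := by
        obtain ⟨w, hw, hw'⟩ := B.Zs_cont hN0 ((hZ j3).2 hj3)
        exact B.Al_dvd (hrun j3 (by rw [abs_le]; omega)) (hDB hw) hw'
      have hmid : ∀ k, |k - i| ≤ L → (B.s : ℤ) ∣ k - i → k ∈ B.Zs D N x := by
        intro k hk hki m hm
        rw [abs_le] at hk hm
        by_cases h : m ≤ j1 + N
        · refine B.Al_congr ?_ (hj1 m (by rw [abs_le]; omega))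
          have := dvd_sub hal1 hki
          rwa [show j1 - i - (k - i) = j1 - k by ring] at this
        · refine B.Al_congr ?_ (hj3 m (by rw [abs_le]; omega))
          have := dvd_sub hal3 hki
          rwa [show j3 - i - (k - i) = j3 - k by ring] at this
      have hi0 : i ∈ B.Zs D N x := hmid i (by simpa using hL) (by simp)
      have heD : e ∈ D := by
        obtain ⟨w, hw, hw'⟩ := B.Zs_cont hN0 ((hZ i).2 hi0)
        obtain ⟨w2, hw2, hw2'⟩ := B.Zs_cont (by omega) hrun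
        rw [hw'] at hw2'
        rw [Finset.mem_singleton] at hw2
        rw [← hw2, ← Option.some.inj hw2']
        exact hw
      refine ⟨π⁻¹ e, hD (perm_mem_of (inv_fix hπ) heD), i, fun k hk => ?_, by simp; omega⟩
      have hk' : |k - i| ≤ 3 * L + 2 * B.s := by
        rw [abs_le] at hk ⊢; omega
      obtain ⟨h1, h2, h3⟩ := hrun k hk'
      rw [hy, msk_hA hDB hN0 hπ] at h1
      refine ⟨h1, fun h4 => ?_, fun h4 => ?_⟩
      · have hkZ := hmid k hk h4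
        obtain ⟨w, hw, hw'⟩ := h2 h4
        rw [hy, cont_hA hDB hN0 hπ, if_pos hkZ, Finset.mem_singleton.1 hw] at hw'
        refine ⟨π⁻¹ e, by simp, ?_⟩
        rw [cont_of_Zs hN0 hkZ, ← Option.some.inj hw']
        simp
      · have hkZ : k ∉ B.Zs D N x := by
          intro hkZ
          obtain ⟨w, hw, hw'⟩ := B.Zs_cont hN0 ((hZ k).2 hkZ)
          exact h4 (B.Al_dvd (hrun k hk') (hDB hw) hw')
        rw [← h3 h4, hy, cont_hA_of_not hDB hN0 hπ hkZ]
    · push Not at c2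
      -- the right stretch
      set t : ℤ := (2 * L + 2 * B.s) / B.s with ht
      have b1 : 2 * L + B.s < t * B.s ∧ t * B.s ≤ 2 * L + 2 * B.s := by
        have h1 := Int.emod_add_mul_ediv (2 * L + 2 * B.s) B.s
        have h2 := Int.emod_nonneg (2 * L + 2 * B.s) hs.ne'
        have h3 := Int.emod_lt_of_pos (2 * L + 2 * B.s) hs
        have h4 : (B.s : ℤ) * ((2 * L + 2 * B.s) / B.s) = t * B.s := by rw [ht]; ring
        omega
      refine ⟨e, he, i + t * B.s, free _ ?_ ⟨t, by ring⟩ ?_, ?_⟩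
      · rw [abs_le]; omega
      · intro j hj hjZ
        rw [abs_le] at hj
        have := c2 j hjZ (by omega)
        omega
      · rw [abs_le]; omega
  · push Not at c1
    set t : ℤ := (2 * L + 2 * B.s) / B.s with ht
    have b1 : 2 * L + B.s < t * B.s ∧ t * B.s ≤ 2 * L + 2 * B.s := by
      have h1 := Int.emod_add_mul_ediv (2 * L + 2 * B.s) B.s
      have h2 := Int.emod_nonneg (2 * L + 2 * B.s) hs.ne'
      have h3 := Int.emod_lt_of_pos (2 * L + 2 * B.s) hs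
      have h4 : (B.s : ℤ) * ((2 * L + 2 * B.s) / B.s) = t * B.s := by rw [ht]; ring
      omega
    refine ⟨e, he, i - t * B.s, free _ ?_ ⟨-t, by ring⟩ ?_, ?_⟩
    · rw [abs_le]; omega
    · intro j hj hjZ
      rw [abs_le] at hj
      have := c1 j hjZ (by omega)
      omega
    · rw [abs_le]; omega

/-- `x` has no run of radius `L` with content in `S`. -/
def NoRun (B : Base o R) (S : Finset (Fin 8 → A)) (L : ℤ) (x : ℤ → A) : Prop :=
  ∀ e ∈ S, ∀ i, i ∉ B.Zs {e} L x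

lemma NoRun.hA {S : Finset (Fin 8 → A)} (hD : D ⊆ S) (hS : S ⊆ B.D1)
    {π : Equiv.Perm (Fin 8 → A)} (hπ : ∀ w, w ∉ D → π w = w) {x : ℤ → A} {L : ℤ}
    (hL : 0 ≤ L) (hN : 3 * L + 2 * B.s ≤ N) (h : B.NoRun S L x) :
    B.NoRun S (3 * L + 2 * B.s) (B.hA D N π x) := by
  intro e he i hi
  obtain ⟨e', he', j, hj, _⟩ := run_of_run_hA hD hS hπ hL hN he hi
  exact h e' he' j hj

lemma NoRun.mono {S : Finset (Fin 8 → A)} {x : ℤ → A} {L L' : ℤ} (h : B.NoRun S L x)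
    (hL : L ≤ L') : B.NoRun S L' x := fun e he i hi => h e he i (B.Zs_anti hL x hi)

/-- R3: the centres of the other type do not change. -/
lemma Zs_hA_other {D' S : Finset (Fin 8 → A)} (hD : D ⊆ S) (hS : S ⊆ B.D1)
    {a : Fin 8 → A} (ha : a ∈ S) (hDD : D ∩ D' ⊆ {a})
    {π : Equiv.Perm (Fin 8 → A)} (hπ : ∀ w, w ∉ D → π w = w) {x : ℤ → A} {L : ℤ}
    (hL : 0 ≤ L) (hN : 2 * (3 * L + 3 * B.s) ≤ N) (h : B.NoRun S L x) :
    B.Zs D' N (B.hA D N π x) = B.Zs D' N x := by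
  have hs := B.spos'
  have hN0 : 0 ≤ N := by omega
  have hDB : D ⊆ B.D1 := hD.trans hS
  have h' := NoRun.hA (N := N) hD hS hπ hL (by omega) h
  have key : ∀ z : ℤ → A, B.NoRun S (3 * L + 2 * B.s) z → ∀ i i', i ∈ B.Zs D N z →
      i' ∈ B.Zs D' N z → ¬ |i - i'| ≤ N := by
    intro z hz i i' hi hi' hii
    obtain ⟨j, hj, _⟩ := run_of_close (L := 3 * L + 2 * B.s) hDB (by omega) (by omega) hi hi' hii
    exact hz a ha j (B.Zs_mono hDD _ _ hj)
  apply Set.Subset.antisymm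
  · intro i' hi' k hk
    have hkZ : k ∉ B.Zs D N x := by
      intro hkZ
      rw [← Zs_hA hDB hN0 hπ] at hkZ
      exact key _ h' k i' hkZ hi' hk
    refine B.Al_of_eq (msk_hA hDB hN0 hπ x k) (cont_hA_of_not hDB hN0 hπ hkZ) (hi' k hk)
  · intro i' hi' k hk
    have hkZ : k ∉ B.Zs D N x := fun hkZ =>
      key _ (h.mono (by omega)) k i' hkZ hi' hk
    refine B.Al_of_eq (msk_hA hDB hN0 hπ x k).symm (cont_hA_of_not hDB hN0 hπ hkZ).symm (hi' k hk)

/-- LF: the commutator fixes the points without long runs. -/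
lemma comm_fix {Da Db S : Finset (Fin 8 → A)} (hDa : Da ⊆ S) (hDb : Db ⊆ S) (hS : S ⊆ B.D1)
    {a : Fin 8 → A} (ha : a ∈ S) (hDD : Da ∩ Db ⊆ {a})
    {πa πb : Equiv.Perm (Fin 8 → A)} (ha' : ∀ w, w ∉ Da → πa w = w)
    (hb' : ∀ w, w ∉ Db → πb w = w) {x : ℤ → A} {L : ℤ}
    (hL : 0 ≤ L) (hN : 54 * (L + B.s) ≤ N) (h : B.NoRun S L x) :
    B.hA Da N πa (B.hA Db N πb (B.hA Da N πa⁻¹ (B.hA Db N πb⁻¹ x))) = x := by
  have hs := B.spos'
  have hN0 : 0 ≤ N := by omega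
  have hDaB : Da ⊆ B.D1 := hDa.trans hS
  have hDbB : Db ⊆ B.D1 := hDb.trans hS
  have hDD' : Db ∩ Da ⊆ {a} := by rw [Finset.inter_comm]; exact hDD
  have ia := inv_fix ha'
  have ib := inv_fix hb'
  set y1 := B.hA Db N πb⁻¹ x with hy1
  set y2 := B.hA Da N πa⁻¹ y1 with hy2
  set y3 := B.hA Db N πb y2 with hy3
  set Za := B.Zs Da N x with hZa
  set Zb := B.Zs Db N x with hZb
  have n1 : B.NoRun S (3 * L + 2 * B.s) y1 := NoRun.hA hDb hS ib hL (by omega) h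
  have n2 : B.NoRun S (3 * (3 * L + 2 * B.s) + 2 * B.s) y2 :=
    NoRun.hA hDa hS ia (by omega) (by omega) n1
  have a1 : B.Zs Da N y1 = Za := Zs_hA_other hDb hS ha hDD' ib hL (by omega) h
  have b1 : B.Zs Db N y1 = Zb := Zs_hA hDbB hN0 ib x N
  have a2 : B.Zs Da N y2 = Za := by rw [hy2, Zs_hA hDaB hN0 ia, a1]
  have b2 : B.Zs Db N y2 = Zb := by
    rw [hy2, Zs_hA_other hDa hS ha hDD ia (by omega) (by omega) n1, b1]
  have a3 : B.Zs Da N y3 = Za := by
    rw [hy3, Zs_hA_other hDb hS ha hDD' hb' (by omega) (by omega) n2, a2]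
  have disj : ∀ k, k ∈ Za → k ∉ Zb := by
    intro k hk hk'
    obtain ⟨j, hj, _⟩ := run_of_close (L := L) hDaB (by omega) hL hk hk' (by simpa using hN0)
    exact h a ha j (B.Zs_mono hDD _ _ hj)
  apply eq_of_info (o := o) (R := R)
  · intro k
    rw [msk_hA hDaB hN0 ha', hy3, msk_hA hDbB hN0 hb', hy2, msk_hA hDaB hN0 ia, hy1,
      msk_hA hDbB hN0 ib]
  · intro k
    rw [cont_hA hDaB hN0 ha', a3]
    by_cases hka : k ∈ Za
    · rw [if_pos hka]
      have hkb := disj k hka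
      have c1 : cont o R y1 k = some (win x k) := by
        rw [hy1, cont_hA_of_not hDbB hN0 ib hkb, cont_of_Zs hN0 hka]
      have c2 : cont o R y2 k = some (πa⁻¹ (win x k)) := by
        rw [hy2, cont_hA hDaB hN0 ia, a1, if_pos hka, (cont_eq_some.1 c1).2]
      have c3 : cont o R y3 k = some (πa⁻¹ (win x k)) := by
        rw [hy3, cont_hA_of_not hDbB hN0 hb' (by rw [b2]; exact hkb), c2]
      rw [(cont_eq_some.1 c3).2, cont_of_Zs hN0 hka]
      simp
    · rw [if_neg hka, hy3, cont_hA hDbB hN0 hb', b2]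
      by_cases hkb : k ∈ Zb
      · rw [if_pos hkb]
        have c1 : cont o R y1 k = some (πb⁻¹ (win x k)) := by
          rw [hy1, cont_hA hDbB hN0 ib, if_pos hkb]
        have c2 : cont o R y2 k = some (πb⁻¹ (win x k)) := by
          rw [hy2, cont_hA_of_not hDaB hN0 ia (by rw [a1]; exact hka), c1]
        rw [(cont_eq_some.1 c2).2, cont_of_Zs hN0 hkb]
        simp
      · rw [if_neg hkb, hy2, cont_hA_of_not hDaB hN0 ia (by rw [a1]; exact hka), hy1,
          cont_hA_of_not hDbB hN0 ib hkb]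

end Base

end FShift
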