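import Pool.Agent.MP2b057c.Chain2

set_option autoImplicit false
set_option linter.unusedSectionVars false

/-!
Full shifts: local versions, and automorphisms which are quiet deep inside the chains.
-/

namespace FShift

open scoped Classical

variable {A : Type} [Fintype A] [TopologicalSpace A] [DiscreteTopology A] {o : A} {R : ℕ}

/-- `ρ` is a radius of `g`. -/
def Rad (g : G A) (ρ : ℤ) : Prop := ∀ (x y : ℤ → A) (k : ℤ),
    (∀ j : ℤ, |j - k| ≤ ρ → x j = y j) → g.1 x k = g.1 y k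

lemma exists_Rad (g : G A) : ∃ ρ : ℤ, 0 ≤ ρ ∧ Rad g ρ := by
  obtain ⟨ρ, h⟩ := G_radius g
  exact ⟨ρ, by positivity, h⟩

omit [Fintype A] [DiscreteTopology A] in
lemma Rad.mono {g : G A} {ρ ρ' : ℤ} (h : Rad g ρ) (hρ : ρ ≤ ρ') : Rad g ρ' :=
  fun x y k hxy => h x y k fun j hj => hxy j (hj.trans hρ)

omit [Fintype A] [DiscreteTopology A] in
lemma G_inv_apply (g : G A) (x : ℤ → A) : (g⁻¹ : G A).1 (g.1 x) = x := by
  show (g.1⁻¹ : Equiv.Perm (ℤ → A)) (g.1 x) = x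
  simp

omit [Fintype A] [DiscreteTopology A] in
lemma G_apply_inv (g : G A) (x : ℤ → A) : g.1 ((g⁻¹ : G A).1 x) = x := by
  show g.1 ((g.1⁻¹ : Equiv.Perm (ℤ → A)) x) = x
  simp

omit [Fintype A] [DiscreteTopology A] in
lemma G_mul_apply (g h : G A) (x : ℤ → A) : (g * h).1 x = g.1 (h.1 x) := rfl

namespace Base

variable {B : Base o R}

/-- LF-loc. -/
lemma fix_loc {S : Finset (Fin 8 → A)} {e0 : A} (he0 : e0 ≠ o) {f : G A}
    {L m : ℤ} (hL : 0 ≤ L)
    (hf : ∀ x, B.NoRun S (L + R + 16 + B.s) x → f.1 x = x)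
    (hr : Rad f m) (hr' : Rad f⁻¹ m) (hm : 0 ≤ m) {x : ℤ → A} {k : ℤ}
    (h : ∀ e ∈ S, ∀ i, |i - k| ≤ m → i ∉ B.Zs {e} L x) :
    f.1 x k = x k ∧ (f⁻¹ : G A).1 x k = x k := by
  have hs := B.spos'
  have hR := B.hR
  set x' : ℤ → A := fun j => if |j - k| ≤ m then x j else e0 with hx'
  have hin : ∀ j, |j - k| ≤ m → x' j = x j := fun j hj => by simp only [hx', if_pos hj]
  have hout : ∀ j, x' j = o → |j - k| ≤ m := by
    intro j hj
    by_contra hn
    simp only [hx', if_neg hn] at hj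
    exact he0 hj
  have hno : B.NoRun S (L + R + 16 + B.s) x' := by
    intro e he i hi
    -- the aligned cells
    have cell : ∀ j, (B.s : ℤ) ∣ j - i → |j - i| ≤ L + R + 16 + B.s → |j - k| ≤ m := by
      intro j hj hj'
      obtain ⟨w, _, hw⟩ := (hi j hj').2.1 hj
      have hc := (cont_eq_some.1 hw).1
      have h1 := hout _ (hc.1 1 le_rfl (by exact_mod_cast (by omega : 1 ≤ R)))
      have h2 := hout _ (hc.2.1 0 le_rfl (by exact_mod_cast (by omega : 0 < R)))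
      rw [abs_le] at h1 h2 ⊢
      omega
    have hik : |i - k| ≤ m := cell i (by simp) (by simp; omega)
    refine h e he i hik fun p hp => ?_
    rw [abs_le] at hp
    -- aligned cells on both sides
    set t : ℤ := (p + R + 16 - i + B.s - 1) / B.s with ht
    have b1 : p + R + 16 - i ≤ t * B.s ∧ t * B.s ≤ p + R + 16 - i + B.s - 1 := by
      have h1 := Int.emod_add_mul_ediv (p + R + 16 - i + B.s - 1) B.s
      have h2 := Int.emod_nonneg (p + R + 16 - i + B.s - 1) hs.ne'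
      have h3 := Int.emod_lt_of_pos (p + R + 16 - i + B.s - 1) hs
      have h4 : (B.s : ℤ) * ((p + R + 16 - i + B.s - 1) / B.s) = t * B.s := by rw [ht]; ring
      omega
    set t' : ℤ := (p - R - 16 - i) / B.s with ht'
    have b2 : p - R - 16 - i - B.s + 1 ≤ t' * B.s ∧ t' * B.s ≤ p - R - 16 - i := by
      have h1 := Int.emod_add_mul_ediv (p - R - 16 - i) B.s
      have h2 := Int.emod_nonneg (p - R - 16 - i) hs.ne'
      have h3 := Int.emod_lt_of_pos (p - R - 16 - i) hs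
      have h4 : (B.s : ℤ) * ((p - R - 16 - i) / B.s) = t' * B.s := by rw [ht']; ring
      omega
    have c1 := cell (i + t * B.s) ⟨t, by ring⟩ (by rw [abs_le]; omega)
    have c2 := cell (i + t' * B.s) ⟨t', by ring⟩ (by rw [abs_le]; omega)
    rw [abs_le] at c1 c2
    refine B.Al_local (x := x') (y := x) (fun j hj => hin j ?_) (hi p (by rw [abs_le]; omega))
    rw [abs_le] at hj ⊢
    omega
  have hfx := hf x' hno
  have hfx' : (f⁻¹ : G A).1 x' = x' := by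
    conv_lhs => rw [← hfx]
    exact G_inv_apply f x'
  have h0 : x' k = x k := hin k (by simpa using hm)
  constructor
  · rw [hr x x' k (fun j hj => (hin j hj).symm), hfx, h0]
  · rw [hr' x x' k (fun j hj => (hin j hj).symm), hfx', h0]

lemma Al_per {D : Finset (Fin 8 → A)} {u : ℤ → A} (hu : IsPer (B.s : ℤ) u) {i k k' : ℤ}
    (h : (B.s : ℤ) ∣ k' - k) (hA : B.Al D u i k') : B.Al D u i k := by
  have hsh : sh (k' - k) u = u := by
    ext j
    exact per_dvd (z := u) (s := (B.s : ℤ)) hu (by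
      rw [show j + (k' - k) - j = k' - k by ring]; exact h)
  rw [← hsh, Al_sh, show k + (k' - k) = k' by ring]
  refine B.Al_congr ?_ hA
  rw [show i - (i + (k' - k)) = -(k' - k) by ring]
  exact (dvd_neg).2 h

/-- S2. -/
lemma no_chain_image {S Dh : Finset (Fin 8 → A)} (hS : S ⊆ B.D1) (hDh : Dh ⊆ B.D1) {g : G A}
    {r : ℤ} (hg : Rad g r) (hr : 0 ≤ r)
    (hgo : ∀ e ∈ S, ∀ b ∈ Dh, ¬ SameOrb (B.Pt b) (g.1 (B.Pt e)))
    {L : ℤ} (hL : r + R + 24 + B.s ≤ L) {y : ℤ → A} {i i2 : ℤ} {e : Fin 8 → A} (he : e ∈ S)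
    (hi : i ∈ B.Zs {e} L y) (hc : ∀ k, |k - i| ≤ L → B.Al Dh (g.1 y) i2 k) : False := by
  have hs := B.spos'
  have heD := hS he
  set u := g.1 (sh (-i) (B.Pt e)) with hu
  have hu' : u = sh (-i) (g.1 (B.Pt e)) := by rw [hu, G_sh]
  have e1 : ∀ k, |k - i| ≤ L - 8 → y k = (sh (-i) (B.Pt e)) k := by
    intro k hk
    rw [abs_le] at hk
    have info : ∀ j, |j - i| ≤ L → msk o R y j = msk o R (sh (-i) (B.Pt e)) j ∧
        cont o R y j = cont o R (sh (-i) (B.Pt e)) j := by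
      intro j hj
      obtain ⟨h1, h2, h3⟩ := hi j hj
      rw [msk_sh, cont_sh, B.msk_Pt heD, B.cont_Pt heD, show j + -i = j - i by ring]
      refine ⟨h1, ?_⟩
      split_ifs with h4
      · obtain ⟨w, hw, hw'⟩ := h2 h4
        rw [hw', Finset.mem_singleton.1 hw]
      · exact h3 h4
    refine apply_eq_of_info (o := o) (R := R) (info k (by rw [abs_le]; omega)).1 fun l => ?_
    have := l.2
    exact (info _ (by rw [abs_le]; omega)).2
  have e2 : ∀ k, |k - i| ≤ L - 8 - r → g.1 y k = u k := by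
    intro k hk
    refine hg _ _ k fun j hj => e1 j ?_
    rw [abs_le] at hk hj ⊢
    omega
  have e3 : ∀ k, |k - i| ≤ L - 24 - r - R → B.Al Dh u i2 k := by
    intro k hk
    refine B.Al_local (fun j hj => e2 j ?_) (hc k ?_)
    · rw [abs_le] at hk hj ⊢
      omega
    · rw [abs_le] at hk ⊢
      omega
  have hper : IsPer (B.s : ℤ) u := by
    intro k
    rw [hu']
    simp only [sh_apply]
    have h1 : sh (B.s : ℤ) (g.1 (B.Pt e)) = g.1 (B.Pt e) := by
      rw [← G_sh]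
      congr 1
      ext j
      exact B.isPer_Pt e j
    have h2 := congrFun h1 (k + -i)
    rw [sh_apply] at h2
    rw [← h2, show k + (B.s : ℤ) + -i = k + -i + B.s by ring]
  have e4 : ∀ k, B.Al Dh u i2 k := by
    intro k
    have h1 := Int.emod_add_mul_ediv (k - i) B.s
    have h2 := Int.emod_nonneg (k - i) hs.ne'
    have h3 := Int.emod_lt_of_pos (k - i) hs
    refine Al_per (k' := i + (k - i) % B.s) hper ?_ (e3 _ ?_)
    · refine ⟨-((k - i) / B.s), ?_⟩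
      rw [mul_neg]
      omega
    · rw [show i + (k - i) % (B.s : ℤ) - i = (k - i) % (B.s : ℤ) by ring, abs_le]
      omega
  obtain ⟨b, hb, hb'⟩ := (e4 i2).2.1 (by simp)
  have e5 : ∀ k, B.Al {b} u i2 k := by
    intro k
    obtain ⟨h1, h2, h3⟩ := e4 k
    refine ⟨h1, fun h4 => ⟨b, by simp, ?_⟩, h3⟩
    rw [← hb']
    have hsh : sh (k - i2) u = u := by
      ext j
      exact per_dvd (z := u) (s := (B.s : ℤ)) hper (by
        rw [show j + (k - i2) - j = k - i2 by ring]; exact h4)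
    conv_rhs => rw [← hsh]
    rw [cont_sh]
    congr 1
    ring
  have e6 := B.eq_sh_Pt (hDh hb) e5
  refine hgo e he b hb ⟨i - i2, ?_⟩
  have e7 : g.1 (B.Pt e) = sh i u := by rw [hu', sh_sh]; simp
  rw [e7, e6, sh_sh]
  rfl

/-- `φ` does not change the letters deep inside the chains. -/
def Quiet (B : Base o R) (Dh : Finset (Fin 8 → A)) (N2 : ℤ) (φ : G A) : Prop :=
  ∀ (x : ℤ → A) (i k : ℤ), (∀ k', |k' - k| ≤ N2 → B.Al Dh x i k') →
    φ.1 x k = x k ∧ (φ⁻¹ : G A).1 x k = x k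

lemma Quiet.inv {Dh : Finset (Fin 8 → A)} {N2 : ℤ} {φ : G A} (h : B.Quiet Dh N2 φ) :
    B.Quiet Dh N2 φ⁻¹ := by
  intro x i k hk
  rw [inv_inv]
  exact (h x i k hk).symm

lemma quiet_conj {S Dh : Finset (Fin 8 → A)} (hS : S ⊆ B.D1) (hDh : Dh ⊆ B.D1) {g : G A}
    {r : ℤ} (hg : Rad g r) (hr : 0 ≤ r)
    (hgo : ∀ e ∈ S, ∀ b ∈ Dh, ¬ SameOrb (B.Pt b) (g.1 (B.Pt e)))
    {e0 : A} (he0 : e0 ≠ o) {f : G A} {L m : ℤ} (hL : r + R + 24 + B.s ≤ L)
    (hf : ∀ x, B.NoRun S (L + R + 16 + B.s) x → f.1 x = x)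
    (hr1 : Rad f m) (hr2 : Rad f⁻¹ m) (hm : 0 ≤ m) :
    B.Quiet Dh (L + m + r) (g * f * g⁻¹) := by
  intro x i2 k hk
  have hs := B.spos'
  set y := (g⁻¹ : G A).1 x with hy
  have hgy : g.1 y = x := G_apply_inv g x
  have key : ∀ k', |k' - k| ≤ r → f.1 y k' = y k' ∧ (f⁻¹ : G A).1 y k' = y k' := by
    intro k' hk'
    refine fix_loc he0 (by omega) hf hr1 hr2 hm fun e he i hik hi => ?_
    refine no_chain_image hS hDh hg hr hgo hL he hi (i2 := i2) fun p hp => ?_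
    rw [hgy]
    apply hk
    rw [abs_le] at *
    omega
  constructor
  · show g.1 (f.1 ((g⁻¹ : G A).1 x)) k = x k
    rw [← hy, hg _ y k (fun j hj => (key j hj).1), hgy]
  · have : (g * f * g⁻¹)⁻¹ = g * f⁻¹ * g⁻¹ := by group
    rw [this]
    show g.1 ((f⁻¹ : G A).1 ((g⁻¹ : G A).1 x)) k = x k
    rw [← hy, hg _ y k (fun j hj => (key j hj).2), hgy]

section Deep

variable {Dh : Finset (Fin 8 → A)} {N2 ρ : ℤ} {φ : G A}

/-- (c2) -/
lemma Quiet.Zs (h : B.Quiet Dh N2 φ) (h2 : 0 ≤ N2) {n n' : ℤ} (hn : n' + N2 + R + 16 ≤ n)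
    {x : ℤ → A} {i : ℤ} (hi : i ∈ B.Zs Dh n x) : i ∈ B.Zs Dh n' (φ.1 x) := by
  intro k hk
  refine B.Al_local (x := x) (fun j hj => ?_) (hi k ?_)
  · refine ((h x i j fun k' hk' => hi k' ?_).1).symm
    rw [abs_le] at *
    omega
  · rw [abs_le] at *
    omega

lemma Quiet.eq_of_Zs (h : B.Quiet Dh N2 φ) {n : ℤ} {x : ℤ → A} {i k : ℤ}
    (hi : i ∈ B.Zs Dh n x) (hk : |k - i| + N2 ≤ n) : φ.1 x k = x k := by
  refine (h x i k fun k' hk' => hi k' ?_).1
  have h1 := abs_sub_le k' k i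
  linarith

/-- (c3) -/
lemma Quiet.repl_eq (h : B.Quiet Dh N2 φ) (hD : Dh ⊆ B.D1) (hρ : Rad φ ρ) (hρ0 : 0 ≤ ρ) {K : ℤ}
    (hK : N2 + ρ + 8 ≤ K) (hN2 : 0 ≤ N2) (x : ℤ → A) {c : ℤ → Fin 8 → A}
    (hc : ∀ i ∈ B.Zs Dh K x, c i ∈ Dh) :
    φ.1 (repl x (B.Zs Dh K x) c) = repl (φ.1 x) (B.Zs Dh K x) c := by
  have hK0 : 0 ≤ K := by omega
  have hcell : ∀ i ∈ B.Zs Dh K x, IsCell o R x i := fun i hi => B.Zs_cell hK0 hi
  have hsep := sep_of_cells B.hR hcell
  have hZ : B.Zs Dh K (repl x (B.Zs Dh K x) c) = B.Zs Dh K x :=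
    B.Zs_repl hD (fun _ hi => B.Zs_cont hK0 hi) hc K
  ext k
  by_cases hk : ∃ i ∈ B.Zs Dh K x, |k - i| ≤ ρ + 8
  · obtain ⟨i, hi, hki⟩ := hk
    have hi' := hi
    rw [← hZ] at hi'
    rw [h.eq_of_Zs hi' (by omega)]
    rcases repl_cases (b := 8) (S := B.Zs Dh K x) k with ⟨i2, hi2, l, rfl⟩ | hoff
    · rw [repl_at hsep _ _ hi2, repl_at hsep _ _ hi2]
    · rw [repl_off _ _ hoff, repl_off _ _ hoff, h.eq_of_Zs hi (by omega)]
  · push Not at hk
    have hfar : ∀ j, |j - k| ≤ ρ → ∀ l : Fin 8, j - (l : ℤ) ∉ B.Zs Dh K x := by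
      intro j hj l hl
      have h1 := hk _ hl
      have h2 := l.2
      rw [abs_le] at hj
      have : |k - (j - (l : ℤ))| ≤ ρ + 8 := by rw [abs_le]; omega
      omega
    rw [repl_off _ _ (hfar k (by simpa using hρ0))]
    refine hρ _ _ k fun j hj => ?_
    rw [repl_off _ _ (hfar j hj)]

end Deep

end Base

end FShift
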