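import Pool.Agent.MP2b057c.Refine
import Pool.Agent.MP2b057c.Cells
import Pool.Agent.MP2b057c.Seq

set_option autoImplicit false
set_option linter.unusedSectionVars false

/-!
Full shifts: chains of cells along a periodic point, and the gates acting in long chains.
-/

namespace FShift

open scoped Classical commutatorElement

variable {A : Type} [Fintype A] [TopologicalSpace A] [DiscreteTopology A]

/-- The free windows of the system are cells. -/
structure IsCS (o : A) (R : ℕ) (T : Sys A 8) : Prop where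
  hR : 8 ≤ R
  hD : T.D ⊆ Wd o
  hE : ∀ x ∈ T.E, IsCell o R x 0

section IsCS

variable {o : A} {R : ℕ} {T : Sys A 8}

lemma IsCS.cell (h : IsCS o R T) {x : ℤ → A} {i : ℤ} (hi : i ∈ sites T.E x) : IsCell o R x i := by
  have := h.hE _ hi
  rwa [isCell_sh, zero_add] at this

lemma IsCS.cont_site (h : IsCS o R T) {x : ℤ → A} {i : ℤ} (hi : i ∈ sites T.E x) :
    cont o R x i = some (win x i) := cont_eq_some.2 ⟨h.cell hi, rfl⟩

lemma IsCS.cont_fill (h : IsCS o R T) (x : ℤ → A) (c : ℤ → Fin 8 → A) (hc : ∀ i, c i ∈ T.D) (i : ℤ) :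
    cont o R (T.fill x c) i = if i ∈ sites T.E x then some (c i) else cont o R x i :=
  cont_repl h.hR (fun _ hi => h.cell hi) (fun i _ => h.hD (hc i)) i

lemma IsCS.msk_fill (h : IsCS o R T) (x : ℤ → A) (c : ℤ → Fin 8 → A) (hc : ∀ i, c i ∈ T.D) (k : ℤ) :
    msk o R (T.fill x c) k = msk o R x k :=
  msk_repl h.hR (fun _ hi => h.cell hi) (fun i _ => h.hD (hc i)) k

lemma IsCS.cont_skel (h : IsCS o R T) (x : ℤ → A) (i : ℤ) :
    cont o R (T.skel x) i = if i ∈ sites T.E x then some T.d else cont o R x i :=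
  h.cont_fill x _ (fun _ => T.hd) i

lemma IsCS.msk_skel (h : IsCS o R T) (x : ℤ → A) (k : ℤ) : msk o R (T.skel x) k = msk o R x k :=
  h.msk_fill x _ (fun _ => T.hd) k

lemma IsCS.cont_act (h : IsCS o R T) {F : (ℤ → A) → Equiv.Perm (Fin 8 → A)}
    (hF : ∀ x w, w ∉ T.D → F x w = w) (x : ℤ → A) (i : ℤ) :
    cont o R (T.act F x) i =
      if i ∈ sites T.E x then some (F (sh i x) (win x i)) else cont o R x i := by
  rw [T.act_eq_fill, h.cont_fill x _ (T.cc_mem hF x)]
  split_ifs with hi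
  · unfold Sys.cc
    rw [if_pos hi]
  · rfl

lemma IsCS.msk_act (h : IsCS o R T) {F : (ℤ → A) → Equiv.Perm (Fin 8 → A)}
    (hF : ∀ x w, w ∉ T.D → F x w = w) (x : ℤ → A) (k : ℤ) :
    msk o R (T.act F x) k = msk o R x k := by
  rw [T.act_eq_fill, h.msk_fill x _ (T.cc_mem hF x)]

end IsCS

variable {o : A} {R : ℕ}

lemma isCS_dsys (hR : 8 ≤ R) {D : Finset (Fin 8 → A)} (hD : D ⊆ Wd o) (hne : D.Nonempty) :
    IsCS o R (dsys o hR hD hne) where
  hR := hR
  hD := hD
  hE := by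
    rintro x ⟨w, _, h⟩
    exact (cont_eq_some.1 h).1

variable (o R) in
/-- A periodic chain of cells: the data found in section 4 of the proof. -/
structure Chain where
  hR : 8 ≤ R
  /-- the free contents -/
  D1 : Finset (Fin 8 → A)
  hD1 : D1 ⊆ Wd o
  card : D1.card = 23
  /-- the period -/
  s : ℕ
  hs : R + 8 ≤ s
  /-- the periodic point -/
  ξ : ℤ → A
  lp : LP s ξ
  cells : ∀ k : ℤ, (∃ w ∈ D1, cont o R ξ k = some w) ↔ (s : ℤ) ∣ k

namespace Chain

/-- The position `i + k` of `x` looks like the position `k` of the chain, with free contents in `D`. -/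
def Pt (C : Chain o R) (D : Finset (Fin 8 → A)) (x : ℤ → A) (i k : ℤ) : Prop :=
  msk o R x (i + k) = msk o R C.ξ k ∧
    ((C.s : ℤ) ∣ k → ∃ w ∈ D, cont o R x (i + k) = some w) ∧
    (¬ (C.s : ℤ) ∣ k → cont o R x (i + k) = cont o R C.ξ k)

/-- The cells which are `N`-deep in a chain with contents in `D`. -/
def Z (C : Chain o R) (D : Finset (Fin 8 → A)) (N : ℕ) (x : ℤ → A) : Set ℤ :=
  {i | ∀ k : ℤ, |k| ≤ (N : ℤ) → C.Pt D x i k}

/-- The point of the chain with constant content `a`. -/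
noncomputable def pt (C : Chain o R) (a : Fin 8 → A) : ℤ → A :=
  repl C.ξ {k | (C.s : ℤ) ∣ k} (fun _ => a)

/-- The point `x` has a run of the content `a` of radius `L` at `i`. -/
def Run (C : Chain o R) (L : ℕ) (x : ℤ → A) (i : ℤ) (a : Fin 8 → A) : Prop :=
  ∀ k : ℤ, |k| ≤ (L : ℤ) → msk o R x (i + k) = msk o R C.ξ k ∧
    cont o R x (i + k) = cont o R (C.pt a) k

variable (C : Chain o R)

lemma spos : 0 < C.s := by have := C.hs; omega

lemma pt_sh (D : Finset (Fin 8 → A)) (x : ℤ → A) (i j k : ℤ) :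
    C.Pt D (sh j x) i k ↔ C.Pt D x (i + j) k := by
  unfold Pt
  rw [msk_sh, cont_sh, show i + k + j = i + j + k by ring]

lemma Z_sh (D : Finset (Fin 8 → A)) (N : ℕ) (x : ℤ → A) (i j : ℤ) :
    i ∈ C.Z D N (sh j x) ↔ i + j ∈ C.Z D N x := by
  unfold Z
  simp only [Set.mem_ofPred_eq, pt_sh]

lemma Z_cell {D : Finset (Fin 8 → A)} {N : ℕ} {x : ℤ → A} {i : ℤ} (h : i ∈ C.Z D N x) :
    ∃ w ∈ D, cont o R x i = some w := by
  have := (h 0 (by simp)).2.1 (dvd_zero _)
  rwa [add_zero] at this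

lemma msk_per (k : ℤ) : msk o R C.ξ (k + C.s) = msk o R C.ξ k := by
  rw [← msk_sh]
  congr 1
  ext l
  exact C.lp.2.1 l

lemma cont_per (k : ℤ) : cont o R C.ξ (k + C.s) = cont o R C.ξ k := by
  rw [← cont_sh]
  congr 1
  ext l
  exact C.lp.2.1 l

lemma hole_cell {k : ℤ} (hk : (C.s : ℤ) ∣ k) : IsCell o R C.ξ k := by
  obtain ⟨w, _, h⟩ := (C.cells k).2 hk
  exact (cont_eq_some.1 h).1

lemma cont_pt {a : Fin 8 → A} (ha : a ∈ C.D1) (k : ℤ) :
    cont o R (C.pt a) k = if (C.s : ℤ) ∣ k then some a else cont o R C.ξ k := by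
  have := cont_repl (o := o) (R := R) C.hR (x := C.ξ) (S := {k | (C.s : ℤ) ∣ k})
    (fun _ hi => C.hole_cell hi) (c := fun _ => a) (fun _ _ => C.hD1 ha) k
  unfold pt
  rw [this]
  by_cases h : (C.s : ℤ) ∣ k
  · rw [if_pos h, if_pos (show k ∈ {k | (C.s : ℤ) ∣ k} from h)]
  · rw [if_neg h, if_neg (show k ∉ {k | (C.s : ℤ) ∣ k} from h)]

lemma msk_pt {a : Fin 8 → A} (ha : a ∈ C.D1) (k : ℤ) : msk o R (C.pt a) k = msk o R C.ξ k :=
  msk_repl (o := o) (R := R) C.hR (x := C.ξ) (S := {k | (C.s : ℤ) ∣ k})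
    (fun _ hi => C.hole_cell hi) (c := fun _ => a) (fun _ _ => C.hD1 ha) k

/-- The system of the cells which are `N`-deep in a chain with contents in `D`. -/
noncomputable def sysN (D : Finset (Fin 8 → A)) (hD : D ⊆ C.D1) (hne : D.Nonempty) (N : ℕ) :
    Sys A 8 :=
  CSys.sys (o := o) (R := R)
    { E := {x | (0 : ℤ) ∈ C.Z D N x}
      D := D
      clopen := by
        apply isClopen_of_radius _ (N + R + 16)
        intro x y h hx k hk
        have h1 := hx k hk
        unfold Pt at h1 ⊢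
        have hk2 := abs_le.1 hk
        have e1 : msk o R x (0 + k) = msk o R y (0 + k) := by
          apply msk_local
          intro l hl
          apply h
          rw [abs_le] at hl ⊢
          push_cast
          constructor <;> omega
        have e2 : cont o R x (0 + k) = cont o R y (0 + k) := by
          apply cont_local
          intro l hl
          apply h
          rw [abs_le] at hl ⊢
          push_cast
          constructor <;> omega
        rwa [e1, e2] at h1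
      hne := hne
      hD := hD.trans C.hD1
      cell := by
        intro x hx
        exact C.Z_cell hx
      inv := by
        intro x hx c hc k hk
        have hsites : ∀ i ∈ sites {x | (0 : ℤ) ∈ C.Z D N x} x, ∃ w ∈ D, cont o R x i = some w := by
          intro i hi
          have := C.Z_cell (mem_sites.1 hi)
          rwa [cont_sh, zero_add] at this
        have hcell : ∀ i ∈ sites {x | (0 : ℤ) ∈ C.Z D N x} x, IsCell o R x i := by
          intro i hi
          obtain ⟨w, _, hw⟩ := hsites i hi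
          exact (cont_eq_some.1 hw).1
        have h1 := hx k hk
        unfold Pt at h1 ⊢
        rw [msk_repl C.hR hcell (fun i _ => C.hD1 (hD (hc i))),
          cont_repl C.hR hcell (fun i _ => C.hD1 (hD (hc i)))]
        refine ⟨h1.1, fun hk2 => ?_, fun hk2 => ?_⟩
        · split_ifs with h2
          · exact ⟨_, hc _, rfl⟩
          · exact h1.2.1 hk2
        · rw [if_neg]
          · exact h1.2.2 hk2
          · intro h2
            apply hk2
            rw [← C.cells k]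
            obtain ⟨w, hw, h3⟩ := hsites _ h2
            rw [h1.2.2 hk2] at h3
            exact ⟨w, hD hw, h3⟩ } C.hR

variable {C}
variable {D : Finset (Fin 8 → A)} (hD : D ⊆ C.D1) (hne : D.Nonempty) (N : ℕ)

lemma mem_sysN_sites (x : ℤ → A) (i : ℤ) : i ∈ sites (C.sysN D hD hne N).E x ↔ i ∈ C.Z D N x := by
  have : i ∈ sites (C.sysN D hD hne N).E x ↔ (0 : ℤ) ∈ C.Z D N (sh i x) := Iff.rfl
  rw [this, Z_sh, zero_add]

lemma sysN_D : (C.sysN D hD hne N).D = D := rfl

lemma isCS_sysN : IsCS o R (C.sysN D hD hne N) where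
  hR := C.hR
  hD := hD.trans C.hD1
  hE := by
    intro x hx
    obtain ⟨w, _, hw⟩ := C.Z_cell (show (0 : ℤ) ∈ C.Z D N x from hx)
    exact (cont_eq_some.1 hw).1

/-- The gate which applies `π` at the `N`-deep cells. -/
noncomputable def H (C : Chain o R) (D : Finset (Fin 8 → A)) (hD : D ⊆ C.D1) (hne : D.Nonempty)
    (N : ℕ) (π : Equiv.Perm (Fin 8 → A)) : G A :=
  (C.sysN D hD hne N).ga Set.univ π

variable {π : Equiv.Perm (Fin 8 → A)} (hπ : ∀ w, w ∉ D → π w = w)

include hπ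

lemma H_apply (x : ℤ → A) :
    (C.H D hD hne N π).1 x = (C.sysN D hD hne N).act ((C.sysN D hD hne N).gF Set.univ π) x :=
  (C.sysN D hD hne N).ga_apply isClopen_univ hπ x

lemma cont_H (x : ℤ → A) (i : ℤ) : cont o R ((C.H D hD hne N π).1 x) i =
    if i ∈ C.Z D N x then (cont o R x i).map π else cont o R x i := by
  rw [H_apply hD hne N hπ, (isCS_sysN hD hne N).cont_act
    ((C.sysN D hD hne N).gF_good isClopen_univ (π := π) hπ).2.2.1]
  simp only [mem_sysN_sites]
  split_ifs with h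
  · rw [(isCS_sysN hD hne N).cont_site ((mem_sysN_sites hD hne N x i).2 h)]
    have h1 : (C.sysN D hD hne N).gF Set.univ π (sh i x) = π := by
      unfold Sys.gF
      rw [if_pos]
      exact ⟨(mem_sysN_sites hD hne N x i).2 h, Set.mem_univ _⟩
    rw [h1]
    rfl
  · rfl

lemma msk_H (x : ℤ → A) (k : ℤ) : msk o R ((C.H D hD hne N π).1 x) k = msk o R x k := by
  rw [H_apply hD hne N hπ, (isCS_sysN hD hne N).msk_act
    ((C.sysN D hD hne N).gF_good isClopen_univ (π := π) hπ).2.2.1]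

lemma Z_H (x : ℤ → A) : C.Z D N ((C.H D hD hne N π).1 x) = C.Z D N x := by
  ext i
  rw [← mem_sysN_sites hD hne N, ← mem_sysN_sites hD hne N, H_apply hD hne N hπ,
    (C.sysN D hD hne N).sites_act
      ((C.sysN D hD hne N).gF_good isClopen_univ (π := π) hπ).2.2.1]

lemma H_inv : C.H D hD hne N π⁻¹ = (C.H D hD hne N π)⁻¹ :=
  (C.sysN D hD hne N).ga_inv isClopen_univ hπ

omit hπ in
lemma H_mul {π ρ : Equiv.Perm (Fin 8 → A)} (hπ : ∀ w, w ∉ D → π w = w) (hρ : ∀ w, w ∉ D → ρ w = w) :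
    C.H D hD hne N (π * ρ) = C.H D hD hne N π * C.H D hD hne N ρ :=
  (C.sysN D hD hne N).ga_mul isClopen_univ hπ hρ

omit hπ in
lemma H_comm {π ρ : Equiv.Perm (Fin 8 → A)} (hπ : ∀ w, w ∉ D → π w = w) (hρ : ∀ w, w ∉ D → ρ w = w) :
    ⁅C.H D hD hne N π, C.H D hD hne N ρ⁆ = C.H D hD hne N ⁅π, ρ⁆ := by
  have := (C.sysN D hD hne N).ga_comm isClopen_univ isClopen_univ (π := π) (ρ := ρ) hπ hρ
  rw [Set.inter_self] at this
  exact this

end Chain

/-- The conclusion of (W3): gates with 3-cycles do not lie in `M` and do not depend on `D`, `N`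
modulo `M`. -/
def Chain.Good (C : Chain o R) (M : Subgroup (G A)) : Prop :=
  ∃ N₁ : ℕ, (∀ (D : Finset (Fin 8 → A)) (hD : D ⊆ C.D1) (hne : D.Nonempty), 5 ≤ D.card → ∀ N, N₁ ≤ N →
      ∀ p ∈ D, ∀ q ∈ D, ∀ r ∈ D, p ≠ q → q ≠ r → p ≠ r → C.H D hD hne N (cyc p q r) ∉ M) ∧
    (∀ (D : Finset (Fin 8 → A)) (hD : D ⊆ C.D1) (hne : D.Nonempty), 5 ≤ D.card → ∀ N, N₁ ≤ N →
      ∀ (D' : Finset (Fin 8 → A)) (hD' : D' ⊆ C.D1) (hne' : D'.Nonempty), 5 ≤ D'.card → ∀ N', N₁ ≤ N' →
      ∀ p ∈ D, ∀ q ∈ D, ∀ r ∈ D, p ∈ D' → q ∈ D' → r ∈ D' → p ≠ q → q ≠ r → p ≠ r →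
      C.H D hD hne N (cyc p q r) * (C.H D' hD' hne' N' (cyc p q r))⁻¹ ∈ M)

end FShift
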