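import Pool.Agent.MP2b057c.Chain3
import Pool.Agent.MP2b057c.ChainDefs

set_option autoImplicit false
set_option linter.unusedSectionVars false

/-!
Full shifts: the dictionary between `Chain` and `Base`.
-/

namespace FShift

open scoped Classical commutatorElement

variable {A : Type} [Fintype A] [TopologicalSpace A] [DiscreteTopology A] {o : A} {R : ℕ}

namespace Chain

variable (C : Chain o R)

/-- The base of a chain. -/
def base : Base o R where
  s := C.s
  ξ := C.ξ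
  D1 := C.D1
  hR := C.hR
  hD1 := C.hD1
  spos := C.spos
  per := C.lp.2.1
  hc := C.cells

lemma Pt_iff (D : Finset (Fin 8 → A)) (x : ℤ → A) (i k : ℤ) :
    C.Pt D x i k ↔ C.base.Al D x i (i + k) := by
  unfold Pt Base.Al
  rw [show i + k - i = k by ring]
  exact Iff.rfl

lemma Pt_iff' (D : Finset (Fin 8 → A)) (x : ℤ → A) (i k : ℤ) :
    C.Pt D x i (k - i) ↔ C.base.Al D x i k := by
  rw [Pt_iff, show i + (k - i) = k by ring]

lemma Z_eq (D : Finset (Fin 8 → A)) (N : ℕ) (x : ℤ → A) : C.Z D N x = C.base.Zs D (N : ℤ) x := by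
  ext i
  constructor
  · intro h k hk
    exact (C.Pt_iff' D x i k).1 (h _ hk)
  · intro h k hk
    rw [Pt_iff]
    exact h _ (by rw [show i + k - i = k by ring]; exact hk)

lemma pt_eq (a : Fin 8 → A) : C.pt a = C.base.Pt a := rfl

lemma run_iff {a : Fin 8 → A} (ha : a ∈ C.D1) (L : ℕ) (x : ℤ → A) (i : ℤ) :
    C.Run L x i a ↔ i ∈ C.base.Zs {a} (L : ℤ) x := by
  rw [← Z_eq]
  unfold Run Z Pt
  simp only [Set.mem_ofPred_eq]
  refine forall_congr' fun k => ?_
  refine forall_congr' fun _ => ?_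
  rw [C.cont_pt ha]
  refine and_congr_right fun _ => ?_
  split_ifs with h
  · simp [h]
  · simp [h]

lemma H_eq {D : Finset (Fin 8 → A)} (hD : D ⊆ C.D1) (hne : D.Nonempty) (N : ℕ)
    {π : Equiv.Perm (Fin 8 → A)} (hπ : ∀ w, w ∉ D → π w = w) (x : ℤ → A) :
    (C.H D hD hne N π).1 x = C.base.hA D (N : ℤ) π x := by
  have hN : (0 : ℤ) ≤ N := by positivity
  apply eq_of_info (o := o) (R := R)
  · intro k
    rw [msk_H hD hne N hπ, Base.msk_hA (B := C.base) hD hN hπ]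
  · intro k
    rw [cont_H hD hne N hπ, Base.cont_hA (B := C.base) hD hN hπ, ← Z_eq]
    split_ifs with h
    · rw [Z_eq] at h
      rw [Base.cont_of_Zs hN h]
      rfl
    · rfl

lemma comm_H_apply {Da Db : Finset (Fin 8 → A)} (hDa : Da ⊆ C.D1) (hDb : Db ⊆ C.D1)
    (hna : Da.Nonempty) (hnb : Db.Nonempty) (N : ℕ) {π ρ : Equiv.Perm (Fin 8 → A)}
    (hπ : ∀ w, w ∉ Da → π w = w) (hρ : ∀ w, w ∉ Db → ρ w = w) (x : ℤ → A) :
    ⁅C.H Da hDa hna N π, C.H Db hDb hnb N ρ⁆.1 x =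
      C.base.hA Da N π (C.base.hA Db N ρ (C.base.hA Da N π⁻¹ (C.base.hA Db N ρ⁻¹ x))) := by
  rw [commutatorElement_def, ← H_inv hDa hna N hπ, ← H_inv hDb hnb N hρ]
  rw [← C.H_eq hDa hna N hπ, ← C.H_eq hDb hnb N hρ, ← C.H_eq hDa hna N (Base.inv_fix hπ),
    ← C.H_eq hDb hnb N (Base.inv_fix hρ)]
  rfl

end Chain

end FShift
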