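import Pool.Agent.MP2b057c.Refine
import Pool.Agent.MP2b057c.Cells

set_option autoImplicit false
set_option linter.unusedSectionVars false

/-!
Full shifts: a visible point of a system of cells has free cells arbitrarily far to the right.
-/

namespace FShift

open scoped Classical commutatorElement

variable {A : Type} {o : A} {R : ℕ}

/-- Exact locality of cells. -/
lemma isCell_foot {x y : ℤ → A} {j : ℤ} (h : ∀ k : ℤ, j - R ≤ k → k < j + 8 + R → x k = y k) :
    IsCell o R x j ↔ IsCell o R y j := by
  have key : ∀ x y : ℤ → A, (∀ k : ℤ, j - R ≤ k → k < j + 8 + R → x k = y k) → IsCell o R x j →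
      IsCell o R y j := by
    intro x y h hx
    refine ⟨fun k a b => ?_, fun k a b => ?_, ?_, ?_⟩
    · rw [← h _ (by omega) (by omega)]; exact hx.1 k a b
    · rw [← h _ (by omega) (by omega)]; exact hx.2.1 k a b
    · rw [← h _ (by omega) (by omega)]; exact hx.2.2.1
    · rw [← h _ (by omega) (by omega)]; exact hx.2.2.2
  exact ⟨key x y h, key y x (fun k a b => (h k a b).symm)⟩

lemma cont_foot {x y : ℤ → A} {j : ℤ} (h : ∀ k : ℤ, j - R ≤ k → k < j + 8 + R → x k = y k) :
    cont o R x j = cont o R y j := by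
  unfold cont
  simp only [isCell_foot h]
  have : (win x j : Fin 8 → A) = win y j := by
    ext l
    have := l.2
    exact h _ (by omega) (by omega)
  rw [this]

/-- The footprint of a cell at `j` does not meet the window `[i, i+17)`. -/
def NM (R : ℕ) (j i : ℤ) : Prop := j + 8 + R ≤ i ∨ i + 17 ≤ j - R

/-- The first killing word. -/
def kw1 (e : A) : Fin 17 → A := fun _ => e

/-- The second killing word. -/
noncomputable def kw2 (o e : A) : Fin 17 → A := fun l => if l = 8 then o else e

lemma kw_ne {e : A} (hoe : o ≠ e) : kw1 e ≠ kw2 o e := by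
  intro h
  have := congrFun h 8
  simp only [kw1, kw2, if_true] at this
  exact hoe this.symm

/-- No cell meets a killing word. -/
lemma kill (hR : 8 ≤ R) {e : A} (hoe : o ≠ e) {z : ℤ → A} {i j : ℤ}
    (h : (win z i : Fin 17 → A) = kw1 e ∨ (win z i : Fin 17 → A) = kw2 o e) (hj : IsCell o R z j) :
    NM R j i := by
  have he : ∀ k : ℤ, i ≤ k → k < i + 17 → k ≠ i + 8 → z k = e := by
    intro k h1 h2 h3
    have hl : (k - i).toNat < 17 := by omega
    have e1 : k = i + (((⟨(k - i).toNat, hl⟩ : Fin 17) : ℕ) : ℤ) := by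
      simp only; omega
    rcases h with h | h
    · have := congrFun h ⟨(k - i).toNat, hl⟩
      simp only [win_apply, kw1] at this
      rw [e1]; exact this
    · have := congrFun h ⟨(k - i).toNat, hl⟩
      simp only [win_apply, kw2] at this
      rw [if_neg] at this
      · rw [e1]; exact this
      · intro h4
        have h5 := congrArg Fin.val h4
        simp at h5
        omega
  have hL : ∀ k : ℤ, j - R ≤ k → k < j → z k = o := by
    intro k h1 h2
    have := hj.1 (j - k) (by omega) (by omega)
    rwa [show j - (j - k) = k by ring] at this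
  have hRt : ∀ k : ℤ, j + 8 ≤ k → k < j + 8 + R → z k = o := by
    intro k h1 h2
    have := hj.2.1 (k - (j + 8)) (by omega) (by omega)
    rwa [show j + 8 + (k - (j + 8)) = k by ring] at this
  have bad : ∀ k : ℤ, i ≤ k → k < i + 17 → k ≠ i + 8 → z k = o → False := by
    intro k h1 h2 h3 h4
    exact hoe (h4.symm.trans (he k h1 h2 h3))
  by_contra hcon
  unfold NM at hcon
  push Not at hcon
  obtain ⟨c1, c2⟩ := hcon
  rcases lt_or_ge i j with hij | hij
  · -- the left block meets the window
    by_cases hu : max i (j - R) = i + 8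
    · exact bad (i + 9) (by omega) (by omega) (by omega) (hL _ (by omega) (by omega))
    · exact bad (max i (j - R)) (by omega) (by omega) hu (hL _ (by omega) (by omega))
  · by_cases hu : max i (j + 8) = i + 8
    · exact bad (i + 9) (by omega) (by omega) (by omega) (hRt _ (by omega) (by omega))
    · exact bad (max i (j + 8)) (by omega) (by omega) hu (hRt _ (by omega) (by omega))

lemma sep_singleton (b : ℕ) (i : ℤ) : Sep b {i} := by
  intro a ha a' ha' h
  rw [Set.mem_singleton_iff] at ha ha'
  omega

lemma repl_single_off {b : ℕ} (x : ℤ → A) (i : ℤ) (c : ℤ → Fin b → A) {k : ℤ}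
    (hk : k < i ∨ i + b ≤ k) : repl x {i} c k = x k := by
  apply repl_off
  intro l hl
  have := l.2
  rw [Set.mem_singleton_iff] at hl
  omega

lemma repl_off' {b : ℕ} (x : ℤ → A) {S : Set ℤ} (c : ℤ → Fin b → A) {k : ℤ}
    (hk : ∀ i ∈ S, k < i ∨ i + b ≤ k) : repl x S c k = x k := by
  apply repl_off
  intro l hl
  have := l.2
  have := hk _ hl
  omega

section GapSys

variable [Fintype A] [TopologicalSpace A] [DiscreteTopology A]

/-- The places where the letters in a window may be exchanged. -/
def PS (T : Sys A 8) (R : ℕ) (q L : ℤ) (y0 y1 : Fin 17 → A) (x : ℤ → A) (i : ℤ) : Prop :=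
  i - q ∈ sites T.E x ∧ (∀ j, i - q < j → j < i + L → j ∉ sites T.E x) ∧
    ((win x i : Fin 17 → A) = y0 ∨ (win x i : Fin 17 → A) = y1) ∧
    ∀ y, (y = y0 ∨ y = y1) → ∀ j ∈ sites T.E (repl x {i} (fun _ => y)), NM R j i

variable {D : Finset (Fin 8 → A)}

lemma dsys_site (hR : 8 ≤ R) (hD : D ⊆ Wd o) (hne : D.Nonempty) (x : ℤ → A) (j : ℤ) :
    j ∈ sites (dsys o hR hD hne).E x ↔ ∃ w ∈ D, cont o R x j = some w := mem_sites_cellE

lemma dsys_site_foot (hR : 8 ≤ R) (hD : D ⊆ Wd o) (hne : D.Nonempty) {x y : ℤ → A} {j : ℤ}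
    (h : ∀ k : ℤ, j - R ≤ k → k < j + 8 + R → x k = y k) (hj : j ∈ sites (dsys o hR hD hne).E x) :
    j ∈ sites (dsys o hR hD hne).E y := by
  rw [dsys_site] at hj ⊢
  rw [← cont_foot h]
  exact hj

end GapSys

end FShift
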