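import Pool.Agent.MP2b057c.OrbDefs
import Pool.Agent.MP2b057c.ChainDefs
import Pool.Agent.MP2b057c.Gap

set_option autoImplicit false
set_option linter.unusedSectionVars false

/-!
Full shifts: the points of a chain with constant content.
-/

namespace FShift

open scoped Classical commutatorElement

variable {A : Type} [Fintype A] [TopologicalSpace A] [DiscreteTopology A]
variable {o : A} {R : ℕ} (C : Chain o R)

/-- the cells of `C.pt a` with content in `D1` -/
lemma Chain.dvd_of_cont_pt {a : Fin 8 → A} (ha : a ∈ C.D1) {w : Fin 8 → A} (hw : w ∈ C.D1) {k : ℤ}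
    (h : cont o R (C.pt a) k = some w) : (C.s : ℤ) ∣ k ∧ w = a := by
  rw [C.cont_pt ha] at h
  split_ifs at h with hk
  · exact ⟨hk, (Option.some.inj h).symm⟩
  · exact absurd ((C.cells k).1 ⟨w, hw, h⟩) hk

lemma Chain.dvd_add_s {k : ℤ} : (C.s : ℤ) ∣ k + C.s ↔ (C.s : ℤ) ∣ k := by
  constructor
  · intro h
    have := dvd_sub h (dvd_refl (C.s : ℤ))
    rwa [add_sub_cancel_right] at this
  · intro h
    exact dvd_add h (dvd_refl _)

lemma Chain.isPer_pt {a : Fin 8 → A} (ha : a ∈ C.D1) : IsPer (C.s : ℤ) (C.pt a) := by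
  have h : sh (C.s : ℤ) (C.pt a) = C.pt a := by
    apply eq_of_info (o := o) (R := R)
    · intro k
      rw [msk_sh, C.msk_pt ha, C.msk_pt ha, C.msk_per]
    · intro k
      rw [cont_sh, C.cont_pt ha, C.cont_pt ha, C.cont_per]
      simp only [C.dvd_add_s]
  intro k
  exact congrFun h k

theorem Chain.lp_pt {a : Fin 8 → A} (ha : a ∈ C.D1) : LP C.s (C.pt a) := by
  refine ⟨C.spos, C.isPer_pt ha, fun j hj => ?_⟩
  have h : sh j (C.pt a) = C.pt a := by
    ext k
    exact hj k
  have h1 : cont o R (C.pt a) j = some a := by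
    have h2 := cont_sh (o := o) (R := R) (C.pt a) 0 j
    rw [h, zero_add, C.cont_pt ha, if_pos (dvd_zero _)] at h2
    exact h2.symm
  exact (C.dvd_of_cont_pt ha ha h1).1

theorem Chain.pt_orb {a b : Fin 8 → A} (ha : a ∈ C.D1) (hb : b ∈ C.D1)
    (h : SameOrb (C.pt a) (C.pt b)) : a = b := by
  obtain ⟨j, hj⟩ := h
  have h1 : cont o R (C.pt a) j = some b := by
    have h2 := cont_sh (o := o) (R := R) (C.pt a) 0 j
    rw [← hj, zero_add, C.cont_pt hb, if_pos (dvd_zero _)] at h2
    exact h2.symm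
  exact (C.dvd_of_cont_pt ha hb h1).2.symm

lemma Chain.mskξ_dvd {k l : ℤ} (h : (C.s : ℤ) ∣ k - l) : msk o R C.ξ k = msk o R C.ξ l :=
  per_dvd (z := fun k => msk o R C.ξ k) C.msk_per h

lemma Chain.contξ_dvd {k l : ℤ} (h : (C.s : ℤ) ∣ k - l) : cont o R C.ξ k = cont o R C.ξ l :=
  per_dvd (z := fun k => cont o R C.ξ k) C.cont_per h

lemma Chain.Z_pt {a : Fin 8 → A} (D : Finset (Fin 8 → A)) (hD : D ⊆ C.D1) (N : ℕ) (ha : a ∈ D)
    (i : ℤ) : i ∈ C.Z D N (C.pt a) ↔ (C.s : ℤ) ∣ i := by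
  have ha1 := hD ha
  constructor
  · intro h
    obtain ⟨w, hw, h1⟩ := C.Z_cell h
    exact (C.dvd_of_cont_pt ha1 (hD hw) h1).1
  · intro h k _
    refine ⟨?_, fun hk => ⟨a, ha, ?_⟩, fun hk => ?_⟩
    · rw [C.msk_pt ha1]
      exact C.mskξ_dvd (by simpa using h)
    · rw [C.cont_pt ha1, if_pos (dvd_add h hk)]
    · rw [C.cont_pt ha1, if_neg]
      · exact C.contξ_dvd (by simpa using h)
      · intro h2
        have := dvd_sub h2 h
        rw [add_sub_cancel_left] at this
        exact hk this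

/-- gates act on the constant chains -/
theorem Chain.H_pt {a : Fin 8 → A} (D : Finset (Fin 8 → A)) (hD : D ⊆ C.D1) (hne : D.Nonempty)
    (N : ℕ) (ha : a ∈ D) {π : Equiv.Perm (Fin 8 → A)} (hπ : ∀ w, w ∉ D → π w = w) :
    (C.H D hD hne N π).1 (C.pt a) = C.pt (π a) := by
  have hπa : π a ∈ D := by
    by_contra h
    have h1 := hπ _ h
    have h2 := π.injective h1
    rw [h2] at h
    exact h ha
  apply eq_of_info (o := o) (R := R)
  · intro k
    rw [Chain.msk_H hD hne N hπ, C.msk_pt (hD ha), C.msk_pt (hD hπa)]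
  · intro k
    rw [Chain.cont_H hD hne N hπ, C.cont_pt (hD ha), C.cont_pt (hD hπa)]
    simp only [C.Z_pt D hD N ha]
    split_ifs <;> rfl

theorem Chain.H_pt_off {a : Fin 8 → A} (D : Finset (Fin 8 → A)) (hD : D ⊆ C.D1) (hne : D.Nonempty)
    (N : ℕ) (ha : a ∈ C.D1) (haD : a ∉ D) {π : Equiv.Perm (Fin 8 → A)}
    (hπ : ∀ w, w ∉ D → π w = w) :
    (C.H D hD hne N π).1 (C.pt a) = C.pt a := by
  apply eq_of_info (o := o) (R := R)
  · intro k
    rw [Chain.msk_H hD hne N hπ]
  · intro k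
    rw [Chain.cont_H hD hne N hπ, if_neg]
    intro h
    obtain ⟨w, hw, h1⟩ := C.Z_cell h
    have := (C.dvd_of_cont_pt ha (hD hw) h1).2
    rw [this] at hw
    exact haD hw

/-- An `s`-periodic point which looks like the chain on one period is one of the points
`C.pt b`. -/
theorem Chain.eq_pt_of_period (D : Finset (Fin 8 → A)) (hD : D ⊆ C.D1) {x : ℤ → A}
    (hx : IsPer (C.s : ℤ) x)
    {i : ℤ} (h : ∀ k : ℤ, 0 ≤ k → k < C.s → C.Pt D x i k) : ∃ b ∈ D, sh i x = C.pt b := by
  have hs : (0 : ℤ) < C.s := by exact_mod_cast C.spos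
  obtain ⟨b, hb, h0⟩ := (h 0 le_rfl hs).2.1 (dvd_zero _)
  rw [add_zero] at h0
  refine ⟨b, hb, ?_⟩
  have hxs : sh (C.s : ℤ) x = x := by
    ext k
    exact hx k
  have hm : ∀ k : ℤ, msk o R x (i + (k + C.s)) = msk o R x (i + k) := by
    intro k
    rw [← add_assoc, ← msk_sh, hxs]
  have hc : ∀ k : ℤ, cont o R x (i + (k + C.s)) = cont o R x (i + k) := by
    intro k
    rw [← add_assoc, ← cont_sh, hxs]
  have hc' : ∀ k : ℤ, cont o R (C.pt b) (k + C.s) = cont o R (C.pt b) k := by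
    intro k
    rw [C.cont_pt (hD hb), C.cont_pt (hD hb), C.cont_per]
    simp only [C.dvd_add_s]
  apply eq_of_info (o := o) (R := R)
  · intro k
    rw [msk_sh, add_comm, C.msk_pt (hD hb)]
    exact eq_of_eq_on (z := fun k => msk o R x (i + k)) (z' := fun k => msk o R C.ξ k) hs hm
      C.msk_per (a := 0) (b := C.s) (by simp) (fun k h1 h2 => (h k h1 h2).1) k
  · intro k
    rw [cont_sh, add_comm]
    refine eq_of_eq_on (z := fun k => cont o R x (i + k)) (z' := fun k => cont o R (C.pt b) k) hs hc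
      hc' (a := 0) (b := C.s) (by simp) (fun k h1 h2 => ?_) k
    rw [C.cont_pt (hD hb)]
    split_ifs with hk
    · have hk0 : k = 0 := by
        by_contra hne
        have := Int.le_of_dvd (lt_of_le_of_ne h1 (Ne.symm hne)) hk
        omega
      rw [hk0, add_zero, h0]
    · exact (h k h1 h2).2.2 hk

/-- A point of period `k` with a long run is one of the points `C.pt a` up to the shift. -/
theorem Chain.run_period {a : Fin 8 → A} (ha : a ∈ C.D1) {k : ℕ} (hk : 0 < k) {y : ℤ → A}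
    (hy : IsPer (k : ℤ) y) {L : ℕ} (hL : k + C.s + R + 16 ≤ L) {i : ℤ} (h : C.Run L y i a) :
    sh i y = C.pt a := by
  have hs : (0 : ℤ) < C.s := by exact_mod_cast C.spos
  have hk' : (0 : ℤ) < k := by exact_mod_cast hk
  have hL' : (k : ℤ) + C.s + R + 16 ≤ L := by exact_mod_cast hL
  have hlet : ∀ t : ℤ, -(L : ℤ) + 7 ≤ t → t ≤ L → sh i y t = C.pt a t := by
    intro t h1 h2
    apply apply_eq_of_info (o := o) (R := R)
    · rw [msk_sh, add_comm, C.msk_pt ha]
      exact (h t (by rw [abs_le]; constructor <;> omega)).1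
    · intro l
      have hl := l.2
      rw [cont_sh, add_comm]
      exact (h (t - (l : ℤ)) (by rw [abs_le]; constructor <;> omega)).2
  have hyk : ∀ t, sh i y (t + k) = sh i y t := by
    intro t
    have := hy (t + i)
    simp only [sh_apply]
    rw [← this]
    congr 1
    ring
  have hys : ∀ t, sh i y (t + C.s) = sh i y t := by
    intro t
    have h2 := Int.emod_nonneg (t - (-(L : ℤ) + 7)) hk'.ne'
    have h3 := Int.emod_lt_of_pos (t - (-(L : ℤ) + 7)) hk'
    set t' : ℤ := -(L : ℤ) + 7 + (t - (-(L : ℤ) + 7)) % k with ht'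
    have hd : (k : ℤ) ∣ t - t' := by
      have := Int.dvd_self_sub_emod (x := t - (-(L : ℤ) + 7)) (m := (k : ℤ))
      rw [ht', show t - (-(L : ℤ) + 7 + (t - (-(L : ℤ) + 7)) % k) =
        t - (-(L : ℤ) + 7) - (t - (-(L : ℤ) + 7)) % k by ring]
      exact this
    have e1 : sh i y (t + C.s) = sh i y (t' + C.s) :=
      per_dvd (z := sh i y) hyk (by
        rw [show t + (C.s : ℤ) - (t' + C.s) = t - t' by ring]
        exact hd)
    have e2 : sh i y t = sh i y t' := per_dvd (z := sh i y) hyk hd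
    rw [e1, e2, hlet _ (by omega) (by omega), hlet _ (by omega) (by omega)]
    exact C.isPer_pt ha t'
  ext t
  exact eq_of_eq_on (z := sh i y) (z' := C.pt a) hs hys (C.isPer_pt ha) (a := 0) (b := C.s)
    (by simp) (fun t h1 h2 => hlet t (by omega) (by omega)) t

end FShift
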