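import Pool.Agent.MP2b057c.Defs

set_option autoImplicit false

/-!
Full shifts: the algebra of simultaneous replacements and the homomorphism from rules to automorphisms.
-/

namespace FShift

open scoped Classical

section Repl

variable {A : Type} {b : ℕ}

lemma Sep.mono {S S' : Set ℤ} (h : Sep b S) (hs : S' ⊆ S) : Sep b S' :=
  fun i hi j hj hij => h i (hs hi) j (hs hj) hij

lemma Sep.unique {S : Set ℤ} (h : Sep b S) {i i' : ℤ} (hi : i ∈ S) (hi' : i' ∈ S) (j j' : Fin b)
    (e : i + (j : ℤ) = i' + (j' : ℤ)) : i = i' := by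
  by_contra hne
  have h1 := h i hi i' hi' hne
  have h2 : i - i' = (j' : ℤ) - (j : ℤ) := by linarith
  rw [h2] at h1
  have hj := j.2
  have hj' := j'.2
  have : |(j' : ℤ) - (j : ℤ)| < b := by
    rw [abs_lt]; constructor <;> omega
  omega

lemma repl_at {S : Set ℤ} (h : Sep b S) (x : ℤ → A) (c : ℤ → Fin b → A) {i : ℤ} (hi : i ∈ S)
    (j : Fin b) : repl x S c (i + (j : ℤ)) = c i j := by
  have hex : ∃ j' : Fin b, i + (j : ℤ) - (j' : ℤ) ∈ S := ⟨j, by simpa using hi⟩
  unfold repl
  rw [dif_pos hex]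
  have h1 := hex.choose_spec
  have h2 : i + (j : ℤ) - (hex.choose : ℤ) = i :=
    h.unique h1 hi hex.choose j (by ring)
  have h3 : hex.choose = j := by
    apply Fin.ext
    omega
  rw [h2, h3]

lemma repl_off {S : Set ℤ} (x : ℤ → A) (c : ℤ → Fin b → A) {k : ℤ}
    (hk : ∀ j : Fin b, k - (j : ℤ) ∉ S) : repl x S c k = x k := by
  unfold repl
  rw [dif_neg (by push Not; exact hk)]

lemma win_repl {S : Set ℤ} (h : Sep b S) (x : ℤ → A) (c : ℤ → Fin b → A) {i : ℤ} (hi : i ∈ S) :
    (win (repl x S c) i : Fin b → A) = c i := by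
  ext j
  exact repl_at h x c hi j

lemma repl_cases {S : Set ℤ} (k : ℤ) :
    (∃ i ∈ S, ∃ j : Fin b, k = i + (j : ℤ)) ∨ ∀ j : Fin b, k - (j : ℤ) ∉ S := by
  by_cases h : ∃ j : Fin b, k - (j : ℤ) ∈ S
  · obtain ⟨j, hj⟩ := h
    exact Or.inl ⟨_, hj, j, by ring⟩
  · push Not at h
    exact Or.inr h

lemma repl_repl {S : Set ℤ} (h : Sep b S) (x : ℤ → A) (c c' : ℤ → Fin b → A) :
    repl (repl x S c) S c' = repl x S c' := by
  ext k
  rcases repl_cases (b := b) (S := S) k with ⟨i, hi, j, rfl⟩ | hk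
  · rw [repl_at h _ _ hi, repl_at h _ _ hi]
  · rw [repl_off _ _ hk, repl_off _ _ hk, repl_off _ _ hk]

lemma repl_win {S : Set ℤ} (h : Sep b S) (x : ℤ → A) :
    repl x S (fun i => (win x i : Fin b → A)) = x := by
  ext k
  rcases repl_cases (b := b) (S := S) k with ⟨i, hi, j, rfl⟩ | hk
  · rw [repl_at h _ _ hi]; rfl
  · rw [repl_off _ _ hk]

lemma repl_congr {S : Set ℤ} (h : Sep b S) (x : ℤ → A) {c c' : ℤ → Fin b → A}
    (e : ∀ i ∈ S, c i = c' i) : repl x S c = repl x S c' := by
  ext k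
  rcases repl_cases (b := b) (S := S) k with ⟨i, hi, j, rfl⟩ | hk
  · rw [repl_at h _ _ hi, repl_at h _ _ hi, e i hi]
  · rw [repl_off _ _ hk, repl_off _ _ hk]

lemma repl_sub {S S' : Set ℤ} (h : Sep b S) (hs : S' ⊆ S) (x : ℤ → A) (c : ℤ → Fin b → A) :
    repl x S' c = repl x S (fun i => if i ∈ S' then c i else win x i) := by
  have h' := h.mono hs
  ext k
  rcases repl_cases (b := b) (S := S') k with ⟨i, hi, j, rfl⟩ | hk
  · rw [repl_at h' _ _ hi, repl_at h _ _ (hs hi), if_pos hi]
  · rw [repl_off _ _ hk]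
    rcases repl_cases (b := b) (S := S) k with ⟨i, hi, j, rfl⟩ | hk'
    · rw [repl_at h _ _ hi, if_neg]
      · rfl
      · have := hk j
        simpa using this
    · rw [repl_off _ _ hk']

lemma sh_repl {S : Set ℤ} (j : ℤ) (x : ℤ → A) (c : ℤ → Fin b → A) (h : Sep b S) :
    sh j (repl x S c) = repl (sh j x) {i | i + j ∈ S} (fun i => c (i + j)) := by
  have h' : Sep b {i | i + j ∈ S} := by
    intro i hi i' hi' hne
    have := h (i + j) hi (i' + j) hi' (by omega)
    simpa using this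
  ext k
  rcases repl_cases (b := b) (S := {i | i + j ∈ S}) k with ⟨i, hi, l, rfl⟩ | hk
  · rw [repl_at h' _ _ hi, sh_apply, show i + (l : ℤ) + j = (i + j) + (l : ℤ) by ring,
      repl_at h _ _ hi]
  · rw [repl_off _ _ hk, sh_apply, repl_off, sh_apply]
    intro l
    have := hk l
    rw [show k + j - (l : ℤ) = k - (l : ℤ) + j by ring]
    exact this

end Repl

section System

variable {A : Type} [TopologicalSpace A] {b : ℕ}

namespace Sys

lemma sep_sites (T : Sys A b) (x : ℤ → A) : Sep b (sites T.E x) := by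
  intro i hi j hj hij
  have h := T.sep (sh j x) hj (i - j) (by omega) (by rw [sh_sh, show i - j + j = i by ring]; exact hi)
  exact h

lemma sites_sub_fill (T : Sys A b) (x : ℤ → A) (c : ℤ → Fin b → A) (hc : ∀ i, c i ∈ T.D) :
    sites T.E x ⊆ sites T.E (T.fill x c) := by
  intro i hi
  have h := T.inv (sh i x) hi (fun j => c (j + i)) (fun j => hc _)
  rw [mem_sites]
  unfold fill
  rw [sh_repl _ _ _ (T.sep_sites x)]
  have : {j | j + i ∈ sites T.E x} = sites T.E (sh i x) := by
    ext j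
    simp [sites_sh]
  rw [this]
  exact h

lemma sites_fill (T : Sys A b) (x : ℤ → A) (c : ℤ → Fin b → A) (hc : ∀ i, c i ∈ T.D) :
    sites T.E (T.fill x c) = sites T.E x := by
  apply Set.Subset.antisymm _ (T.sites_sub_fill x c hc)
  have hsub := T.sites_sub_fill x c hc
  set y := T.fill x c with hy
  -- x is obtained from y by a fill on the sites of y
  set c' : ℤ → Fin b → A := fun i => if i ∈ sites T.E y then
    (if i ∈ sites T.E x then win x i else win y i) else T.d with hc'
  have hx : x = T.fill y c' := by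
    have h1 : x = repl y (sites T.E x) (fun i => (win x i : Fin b → A)) := by
      rw [hy]; unfold fill
      rw [repl_repl (T.sep_sites x), repl_win (T.sep_sites x)]
    rw [repl_sub (T.sep_sites y) hsub] at h1
    refine h1.trans ?_
    unfold fill
    apply repl_congr (T.sep_sites y)
    intro i hi
    simp only [hc', if_pos hi]
  have hc'D : ∀ i, c' i ∈ T.D := by
    intro i
    simp only [hc']
    split_ifs with h1 h2
    · have := T.win_mem _ h2
      rwa [win_sh, zero_add] at this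
    · have := T.win_mem _ h1
      rwa [win_sh, zero_add] at this
    · exact T.hd
  have h2 := T.sites_sub_fill y c' hc'D
  rw [← hx] at h2
  exact h2

lemma fill_mem_iff (T : Sys A b) (x : ℤ → A) (c : ℤ → Fin b → A) (hc : ∀ i, c i ∈ T.D) :
    T.fill x c ∈ T.E ↔ x ∈ T.E := by
  have h := T.sites_fill x c hc
  have h0 : (0 : ℤ) ∈ sites T.E (T.fill x c) ↔ (0 : ℤ) ∈ sites T.E x := by rw [h]
  simpa [sites] using h0

lemma fill_fill (T : Sys A b) (x : ℤ → A) (c c' : ℤ → Fin b → A) (hc : ∀ i, c i ∈ T.D) :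
    T.fill (T.fill x c) c' = T.fill x c' := by
  unfold fill
  have h := T.sites_fill x c hc
  unfold fill at h
  rw [h, repl_repl (T.sep_sites x)]

lemma fill_congr (T : Sys A b) (x : ℤ → A) {c c' : ℤ → Fin b → A}
    (e : ∀ i ∈ sites T.E x, c i = c' i) : T.fill x c = T.fill x c' :=
  repl_congr (T.sep_sites x) x e

lemma sh_fill (T : Sys A b) (j : ℤ) (x : ℤ → A) (c : ℤ → Fin b → A) :
    sh j (T.fill x c) = T.fill (sh j x) (fun i => c (i + j)) := by
  unfold fill
  rw [sh_repl _ _ _ (T.sep_sites x)]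
  congr 1
  ext i
  simp [sites_sh]

lemma win_fill (T : Sys A b) (x : ℤ → A) (c : ℤ → Fin b → A) {i : ℤ} (hi : i ∈ sites T.E x) :
    (win (T.fill x c) i : Fin b → A) = c i := win_repl (T.sep_sites x) x c hi

lemma win_mem_sites (T : Sys A b) (x : ℤ → A) {i : ℤ} (hi : i ∈ sites T.E x) :
    (win x i : Fin b → A) ∈ T.D := by
  have := T.win_mem _ hi
  rwa [win_sh, zero_add] at this

lemma fill_win (T : Sys A b) (x : ℤ → A) : T.fill x (fun i => win x i) = x :=
  repl_win (T.sep_sites x) x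

lemma skel_fill (T : Sys A b) (x : ℤ → A) (c : ℤ → Fin b → A) (hc : ∀ i, c i ∈ T.D) :
    T.skel (T.fill x c) = T.skel x := T.fill_fill x c _ hc

lemma skel_skel (T : Sys A b) (x : ℤ → A) : T.skel (T.skel x) = T.skel x :=
  T.fill_fill x _ _ (fun _ => T.hd)

lemma sites_skel (T : Sys A b) (x : ℤ → A) : sites T.E (T.skel x) = sites T.E x :=
  T.sites_fill x _ (fun _ => T.hd)

lemma skel_mem_iff (T : Sys A b) (x : ℤ → A) : T.skel x ∈ T.E ↔ x ∈ T.E :=
  T.fill_mem_iff x _ (fun _ => T.hd)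

lemma sh_skel (T : Sys A b) (j : ℤ) (x : ℤ → A) : sh j (T.skel x) = T.skel (sh j x) :=
  T.sh_fill j x _

/-- The contents used by `act`, made total. -/
noncomputable def cc (T : Sys A b) (F : (ℤ → A) → Equiv.Perm (Fin b → A)) (x : ℤ → A) (i : ℤ) :
    Fin b → A := if i ∈ sites T.E x then F (sh i x) (win x i) else T.d

lemma perm_mem (T : Sys A b) {π : Equiv.Perm (Fin b → A)} (h : ∀ w, w ∉ T.D → π w = w)
    {w : Fin b → A} (hw : w ∈ T.D) : π w ∈ T.D := by
  by_contra hn
  have h1 := h _ hn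
  have h2 := π.injective h1
  rw [h2] at hn
  exact hn hw

lemma cc_mem (T : Sys A b) {F : (ℤ → A) → Equiv.Perm (Fin b → A)} (hF : ∀ x w, w ∉ T.D → F x w = w)
    (x : ℤ → A) (i : ℤ) : T.cc F x i ∈ T.D := by
  unfold cc
  split_ifs with h
  · exact T.perm_mem (hF _) (T.win_mem_sites x h)
  · exact T.hd

lemma act_eq_fill (T : Sys A b) (F : (ℤ → A) → Equiv.Perm (Fin b → A)) (x : ℤ → A) :
    T.act F x = T.fill x (T.cc F x) := by
  unfold act fill
  apply repl_congr (T.sep_sites x)
  intro i hi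
  simp [cc, hi]

lemma sites_act (T : Sys A b) {F : (ℤ → A) → Equiv.Perm (Fin b → A)}
    (hF : ∀ x w, w ∉ T.D → F x w = w) (x : ℤ → A) :
    sites T.E (T.act F x) = sites T.E x := by
  rw [act_eq_fill, T.sites_fill x _ (T.cc_mem hF x)]

lemma act_mem_iff (T : Sys A b) {F : (ℤ → A) → Equiv.Perm (Fin b → A)}
    (hF : ∀ x w, w ∉ T.D → F x w = w) (x : ℤ → A) : T.act F x ∈ T.E ↔ x ∈ T.E := by
  rw [act_eq_fill, T.fill_mem_iff x _ (T.cc_mem hF x)]

lemma sh_act (T : Sys A b) (F : (ℤ → A) → Equiv.Perm (Fin b → A)) (j : ℤ) (x : ℤ → A) :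
    sh j (T.act F x) = T.act F (sh j x) := by
  unfold act
  rw [sh_repl _ _ _ (T.sep_sites x)]
  have : {i | i + j ∈ sites T.E x} = sites T.E (sh j x) := by
    ext i
    simp [sites_sh]
  rw [this]
  congr 1
  ext i k
  simp [sh_sh, win_sh]

lemma win_act (T : Sys A b) (F : (ℤ → A) → Equiv.Perm (Fin b → A)) (x : ℤ → A) {i : ℤ}
    (hi : i ∈ sites T.E x) : (win (T.act F x) i : Fin b → A) = F (sh i x) (win x i) :=
  win_repl (T.sep_sites x) x _ hi

/-- Composition formula. -/
lemma act_act (T : Sys A b) (F : (ℤ → A) → Equiv.Perm (Fin b → A))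
    {F' : (ℤ → A) → Equiv.Perm (Fin b → A)}
    (hF' : ∀ x w, w ∉ T.D → F' x w = w) (x : ℤ → A) :
    T.act F (T.act F' x) = T.act (fun y => F (T.act F' y) * F' y) x := by
  have h1 : T.act F (T.act F' x) =
      repl (T.act F' x) (sites T.E (T.act F' x)) (fun i => F (sh i (T.act F' x)) (win (T.act F' x) i)) := rfl
  rw [h1, T.sites_act hF']
  have h2 : T.act F' x = repl x (sites T.E x) (fun i => F' (sh i x) (win x i)) := rfl
  conv_lhs => rw [h2]
  rw [repl_repl (T.sep_sites x), ← h2]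
  unfold act
  apply repl_congr (T.sep_sites x)
  intro i hi
  have h3 : repl x (sites T.E x) (fun i => F' (sh i x) (win x i)) = T.act F' x := rfl
  rw [h3, sh_act, T.win_act F' x hi]
  rfl

lemma act_one (T : Sys A b) (x : ℤ → A) : T.act (fun _ => 1) x = x := by
  have : T.act (fun _ => 1) x = repl x (sites T.E x) (fun i => win x i) := rfl
  rw [this, repl_win (T.sep_sites x)]

/-- The group of good rules. -/
def gp (T : Sys A b) : Subgroup ((ℤ → A) → Equiv.Perm (Fin b → A)) where
  carrier := {F | T.Good F}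
  mul_mem' := by
    rintro F F' ⟨h1, h2, h3, h4⟩ ⟨h1', h2', h3', h4'⟩
    refine ⟨h1.mul h1', fun x hx => ?_, fun x w hw => ?_, fun x c hc => ?_⟩
    · simp [h2 x hx, h2' x hx]
    · simp [h3' x w hw, h3 x w hw]
    · simp [h4 x c hc, h4' x c hc]
  one_mem' := ⟨IsLocallyConstant.const 1, fun _ _ => rfl, fun _ _ _ => rfl, fun _ _ _ => rfl⟩
  inv_mem' := by
    rintro F ⟨h1, h2, h3, h4⟩
    refine ⟨h1.inv, fun x hx => ?_, fun x w hw => ?_, fun x c hc => ?_⟩
    · simp [h2 x hx]
    · simp only [Pi.inv_apply]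
      rw [Equiv.Perm.inv_eq_iff_eq, h3 x w hw]
    · simp [h4 x c hc]

lemma mem_gp (T : Sys A b) (F : (ℤ → A) → Equiv.Perm (Fin b → A)) : F ∈ T.gp ↔ T.Good F := Iff.rfl

lemma good_act (T : Sys A b) {F F' : (ℤ → A) → Equiv.Perm (Fin b → A)} (hF : T.Good F)
    (hF' : ∀ x w, w ∉ T.D → F' x w = w) (x : ℤ → A) : F (T.act F' x) = F x := by
  rw [act_eq_fill]
  exact hF.2.2.2 x _ (T.cc_mem hF' x)

lemma act_mul (T : Sys A b) {F F' : (ℤ → A) → Equiv.Perm (Fin b → A)} (hF : T.Good F)
    (hF' : T.Good F') (x : ℤ → A) : T.act (F * F') x = T.act F (T.act F' x) := by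
  rw [T.act_act F hF'.2.2.1]
  congr 1
  ext1 y
  rw [T.good_act hF hF'.2.2.1]
  rfl

variable [DiscreteTopology A]

omit [DiscreteTopology A] in
lemma continuous_sh (j : ℤ) : Continuous (sh j : (ℤ → A) → (ℤ → A)) :=
  continuous_pi fun i => continuous_apply (i + j)

lemma continuous_act (T : Sys A b) {F : (ℤ → A) → Equiv.Perm (Fin b → A)} (hF : IsLocallyConstant F) :
    Continuous (T.act F) := by
  refine continuous_pi fun k => ?_
  apply IsLocallyConstant.continuous
  rw [IsLocallyConstant.iff_eventually_eq]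
  intro x
  rcases repl_cases (b := b) (S := sites T.E x) k with ⟨i, hi, j, rfl⟩ | hk
  · have h1 : ∀ᶠ y in nhds x, sh i y ∈ T.E :=
      (continuous_sh i).continuousAt.eventually (T.clopen.isOpen.mem_nhds hi)
    have h2 : ∀ᶠ y in nhds x, F (sh i y) = F (sh i x) :=
      (continuous_sh i).continuousAt.eventually ((IsLocallyConstant.iff_eventually_eq F).1 hF (sh i x))
    have h3 : ∀ᶠ y in nhds x, (win y i : Fin b → A) = win x i := by
      have : ∀ l : Fin b, ∀ᶠ y in nhds x, y (i + (l : ℤ)) = x (i + (l : ℤ)) := by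
        intro l
        exact (continuous_apply (i + (l : ℤ))).continuousAt.eventually
          (show {a : A | a = x (i + (l : ℤ))} ∈ nhds (x (i + (l : ℤ))) by simp)
      filter_upwards [Filter.eventually_all.2 this] with y hy
      ext l
      exact hy l
    filter_upwards [h1, h2, h3] with y hy1 hy2 hy3
    unfold act
    rw [repl_at (T.sep_sites y) _ _ hy1, repl_at (T.sep_sites x) _ _ hi, hy2, hy3]
  · have h1 : ∀ᶠ y in nhds x, ∀ j : Fin b, sh (k - (j : ℤ)) y ∉ T.E := by
      apply Filter.eventually_all.2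
      intro j
      exact (continuous_sh (k - (j : ℤ))).continuousAt.eventually
        (T.clopen.compl.isOpen.mem_nhds (hk j))
    have h2 : ∀ᶠ y in nhds x, y k = x k :=
      (continuous_apply k).continuousAt.eventually (show {a : A | a = x k} ∈ nhds (x k) by simp)
    filter_upwards [h1, h2] with y hy1 hy2
    unfold act
    rw [repl_off _ _ hk, repl_off _ _ (fun j => hy1 j), hy2]

/-- The automorphism given by a good rule. -/
noncomputable def hom (T : Sys A b) : T.gp →* G A where
  toFun F :=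
    ⟨{ toFun := T.act F.1
       invFun := T.act (F⁻¹ : T.gp).1
       left_inv := by
         intro x
         rw [← T.act_mul (F⁻¹ : T.gp).2 F.2]
         have : (F⁻¹ : T.gp).1 * F.1 = fun _ => 1 := by
           ext1 y; simp
         rw [this, act_one]
       right_inv := by
         intro x
         rw [← T.act_mul F.2 (F⁻¹ : T.gp).2]
         have : F.1 * (F⁻¹ : T.gp).1 = fun _ => 1 := by
           ext1 y; simp
         rw [this, act_one] },
      by
        refine ⟨fun x => ?_, ?_, ?_⟩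
        · exact (T.sh_act F.1 1 x).symm
        · exact T.continuous_act F.2.1
        · exact T.continuous_act (F⁻¹ : T.gp).2.1⟩
  map_one' := by
    apply Subtype.ext
    apply Equiv.ext
    intro x
    exact T.act_one x
  map_mul' := by
    intro F F'
    apply Subtype.ext
    apply Equiv.ext
    intro x
    exact T.act_mul F.2 F'.2 x

lemma hom_apply (T : Sys A b) (F : T.gp) (x : ℤ → A) : (T.hom F).1 x = T.act F.1 x := rfl

end Sys

end System

end FShift
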