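import Pool.Agent.MP2b057c.OrbDefs
import Pool.Agent.MP2b057c.Seq

set_option autoImplicit false
set_option linter.unusedSectionVars false

/-!
Package C: counting the orbits of least period `s`.
-/

namespace FShift

open scoped Classical

section C
variable {A : Type} [Fintype A]

lemma count_res {s : ℕ} (hs : 0 < s) (k : ℤ) : ∃ i : Fin s, (s : ℤ) ∣ k - ((i : ℕ) : ℤ) := by
  have hs' : (0 : ℤ) < s := by exact_mod_cast hs
  have h1 := Int.emod_nonneg k hs'.ne'
  have h2 := Int.emod_lt_of_pos k hs'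
  refine ⟨⟨(k % (s : ℤ)).toNat, by omega⟩, ?_⟩
  simp only
  rw [Int.toNat_of_nonneg h1]
  exact Int.dvd_self_sub_emod

/-- A point of period `s` is determined by its first `s` letters. -/
lemma count_inj (s : ℕ) : Function.Injective
    (fun (x : PP A s) (i : Fin s) => x.1 ((i : ℕ) : ℤ)) := by
  intro x y hxy
  have hs : 0 < s := x.2.1
  apply Subtype.ext
  funext k
  obtain ⟨i, hi⟩ := count_res hs k
  rw [per_dvd x.2.2.1 hi, per_dvd y.2.2.1 hi]
  exact congrFun hxy i

instance count_finPP (s : ℕ) : Finite (PP A s) := Finite.of_injective _ (count_inj (A := A) s)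

lemma count_mk_surj (s : ℕ) : Function.Surjective
    (fun x : PP A s => (Quotient.mk (orbSetoid A s) x : Orb A s)) := by
  intro q
  induction q using orb_ind with
  | h x hx => exact ⟨⟨x, hx⟩, rfl⟩

theorem finite_orb (s : ℕ) : Finite (Orb A s) :=
  Finite.of_surjective _ (count_mk_surj (A := A) s)

theorem card_orb_le (s : ℕ) : Nat.card (Orb A s) ≤ Fintype.card A ^ s := by
  calc Nat.card (Orb A s) ≤ Nat.card (PP A s) :=
        Nat.card_le_card_of_surjective _ (count_mk_surj (A := A) s)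
    _ ≤ Nat.card (Fin s → A) := Nat.card_le_card_of_injective _ (count_inj (A := A) s)
    _ = Fintype.card A ^ s := by
        rw [Nat.card_eq_fintype_card, Fintype.card_fun, Fintype.card_fin]

/-- The periodic point with letter `a` at the multiples of `s` and the word `u` in between. -/
noncomputable def cper (s : ℕ) (a : A) (u : Fin (s - 1) → A) (k : ℤ) : A :=
  if h : (k % (s : ℤ)).toNat - 1 < s - 1 ∧ ¬ (s : ℤ) ∣ k then
    u ⟨(k % (s : ℤ)).toNat - 1, h.1⟩ else a

lemma cper_per (s : ℕ) (a : A) (u : Fin (s - 1) → A) (k : ℤ) :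
    cper s a u (k + (s : ℤ)) = cper s a u k := by
  unfold cper
  have h1 : (k + (s : ℤ)) % (s : ℤ) = k % (s : ℤ) := by simp
  have h2 : ((s : ℤ) ∣ k + (s : ℤ)) ↔ (s : ℤ) ∣ k := by simp
  simp only [h1, h2]

lemma cper_zero (s : ℕ) (a : A) (u : Fin (s - 1) → A) : cper s a u 0 = a := by
  unfold cper
  rw [dif_neg]
  rintro ⟨_, h⟩
  exact h (dvd_zero _)

lemma cper_off {s : ℕ} (a a' : A) (u : Fin (s - 1) → A) {k : ℤ} (hs : 0 < s)
    (hk : ¬ (s : ℤ) ∣ k) :
    cper s a u k = cper s a' u k := by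
  unfold cper
  have hs' : (0 : ℤ) < s := by exact_mod_cast hs
  have h1 := Int.emod_nonneg k hs'.ne'
  have h2 := Int.emod_lt_of_pos k hs'
  have h3 : k % (s : ℤ) ≠ 0 := fun h => hk (Int.dvd_of_emod_eq_zero h)
  have h4 : (k % (s : ℤ)).toNat - 1 < s - 1 ∧ ¬ (s : ℤ) ∣ k := ⟨by omega, hk⟩
  rw [dif_pos h4, dif_pos h4]

lemma cper_val {s : ℕ} (a : A) (u : Fin (s - 1) → A) (i : Fin (s - 1)) :
    cper s a u ((i : ℕ) + 1 : ℤ) = u i := by
  unfold cper
  have hi := i.2
  have h1 : (((i : ℕ) : ℤ) + 1) % (s : ℤ) = (i : ℕ) + 1 :=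
    Int.emod_eq_of_lt (by omega) (by omega)
  have h2 : ¬ (s : ℤ) ∣ ((i : ℕ) : ℤ) + 1 := by
    intro h
    have := Int.le_of_dvd (by omega) h
    omega
  have h3 : ((((i : ℕ) : ℤ) + 1) % (s : ℤ)).toNat - 1 = i := by
    rw [h1]; omega
  rw [dif_pos ⟨by rw [h3]; exact hi, h2⟩]
  congr 1
  exact Fin.ext h3

lemma cper_LP_or {s : ℕ} (hs : 0 < s) {a a' : A} (h : a ≠ a') (u : Fin (s - 1) → A) :
    LP s (cper s a u) ∨ LP s (cper s a' u) := by
  have h1 := prim_or (s := (s : ℤ)) (cper s a u) (cper s a' u) (cper_per s a' u)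
    (fun k hk => cper_off a a' u hs hk) (by rw [cper_zero, cper_zero]; exact h)
  rcases h1 with h1 | h1
  · left
    exact ⟨hs, cper_per s a u, h1⟩
  · right
    exact ⟨hs, cper_per s a' u, h1⟩

lemma count_good (hA : Fintype.card A = 3) {s : ℕ} (hs : 0 < s) (u : Fin (s - 1) → A) :
    2 ≤ (Finset.univ.filter fun a : A => LP s (cper s a u)).card := by
  have h1 : (Finset.univ.filter fun a : A => ¬ LP s (cper s a u)).card ≤ 1 := by
    rw [Finset.card_le_one]
    intro a ha a' ha'
    by_contra hne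
    rw [Finset.mem_filter] at ha ha'
    rcases cper_LP_or hs hne u with h | h
    · exact ha.2 h
    · exact ha'.2 h
  have h2 := Finset.card_filter_add_card_filter_not (s := (Finset.univ : Finset A))
    (fun a : A => LP s (cper s a u))
  rw [Finset.card_univ, hA] at h2
  omega

lemma count_PP_ge (hA : Fintype.card A = 3) (s : ℕ) (hs : 0 < s) :
    2 * 3 ^ (s - 1) ≤ Nat.card (PP A s) := by
  -- the good pairs
  let Gd : Type := Σ u : Fin (s - 1) → A, {a : A // a ∈ Finset.univ.filter
    fun a : A => LP s (cper s a u)}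
  have h1 : 2 * 3 ^ (s - 1) ≤ Fintype.card Gd := by
    rw [Fintype.card_sigma]
    calc 2 * 3 ^ (s - 1) = ∑ _u : Fin (s - 1) → A, 2 := by
          rw [Finset.sum_const, Finset.card_univ, Fintype.card_fun, hA, Fintype.card_fin,
            smul_eq_mul, mul_comm]
      _ ≤ _ := by
          apply Finset.sum_le_sum
          intro u _
          rw [Fintype.card_coe]
          exact count_good hA hs u
  have h2 : Function.Injective (fun p : Gd =>
      (⟨cper s p.2.1 p.1, (Finset.mem_filter.1 p.2.2).2⟩ : PP A s)) := by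
    rintro ⟨u, a, ha⟩ ⟨v, b, hb⟩ h
    have h3 : cper s a u = cper s b v := congrArg Subtype.val h
    have h4 : a = b := by
      have := congrFun h3 0
      rwa [cper_zero, cper_zero] at this
    have h5 : u = v := by
      funext i
      have := congrFun h3 ((i : ℕ) + 1 : ℤ)
      rwa [cper_val, cper_val] at this
    subst h4 h5
    rfl
  calc 2 * 3 ^ (s - 1) ≤ Fintype.card Gd := h1
    _ = Nat.card Gd := (Nat.card_eq_fintype_card).symm
    _ ≤ Nat.card (PP A s) := Nat.card_le_card_of_injective _ h2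

lemma isPer_sh {s : ℤ} {x : ℤ → A} (j : ℤ) (h : IsPer s x) : IsPer s (sh j x) := by
  intro k
  simp only [sh_apply]
  have := h (k + j)
  rw [show k + s + j = k + j + s by ring]
  exact this

lemma isPer_sh_iff {s : ℤ} {x : ℤ → A} (j : ℤ) : IsPer s (sh j x) ↔ IsPer s x := by
  constructor
  · intro h
    have h1 := isPer_sh (-j) h
    rw [sh_sh] at h1
    simpa using h1
  · exact isPer_sh j

lemma LP_sh {s : ℕ} {x : ℤ → A} (j : ℤ) (h : LP s x) : LP s (sh j x) :=
  ⟨h.1, isPer_sh j h.2.1, fun i hi => h.2.2 i ((isPer_sh_iff j).1 hi)⟩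

lemma count_PP_le (s : ℕ) (hs : 0 < s) : Nat.card (PP A s) ≤ s * Nat.card (Orb A s) := by
  haveI := finite_orb (A := A) s
  have hrep : ∀ q : Orb A s, ∃ x : PP A s, (Quotient.mk (orbSetoid A s) x : Orb A s) = q :=
    fun q => count_mk_surj s q
  choose rep hrep using hrep
  have hsurj : Function.Surjective (fun p : Fin s × Orb A s =>
      (⟨sh ((p.1 : ℕ) : ℤ) (rep p.2).1, LP_sh _ (rep p.2).2⟩ : PP A s)) := by
    intro x
    have h1 := hrep (Quotient.mk (orbSetoid A s) x : Orb A s)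
    have h2 : SameOrb (rep (Quotient.mk (orbSetoid A s) x : Orb A s)).1 x.1 :=
      Quotient.exact (s := orbSetoid A s) h1
    obtain ⟨j, hj⟩ := h2
    obtain ⟨i, hi⟩ := count_res hs j
    refine ⟨(i, (Quotient.mk (orbSetoid A s) x : Orb A s)), ?_⟩
    apply Subtype.ext
    simp only
    rw [hj]
    funext k
    simp only [sh_apply]
    apply per_dvd (rep (Quotient.mk (orbSetoid A s) x : Orb A s)).2.2.1
    have e : k + ((i : ℕ) : ℤ) - (k + j) = -(j - ((i : ℕ) : ℤ)) := by ring
    rw [e]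
    exact (dvd_neg).2 hi
  calc Nat.card (PP A s) ≤ Nat.card (Fin s × Orb A s) :=
        Nat.card_le_card_of_surjective _ hsurj
    _ = s * Nat.card (Orb A s) := by
        rw [Nat.card_prod, Nat.card_eq_fintype_card, Fintype.card_fin]

theorem card_orb_ge (hA : Fintype.card A = 3) (s : ℕ) (hs : 0 < s) :
    2 * 3 ^ (s - 1) ≤ s * Nat.card (Orb A s) :=
  (count_PP_ge hA s hs).trans (count_PP_le s hs)

end C

end FShift
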