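import Pool.Agent.MP2b057c.ChainDefs

set_option autoImplicit false
set_option linter.unusedSectionVars false

/-!
Full shifts: an automorphism which does not change points deep inside chains commutes modulo `M` with
the gates acting deep inside chains.
-/

namespace FShift

open scoped Classical commutatorElement

variable {A : Type} [Fintype A] [TopologicalSpace A] [DiscreteTopology A]
variable {o : A} {R : ℕ} (C : Chain o R)

namespace Chain

/-- The automorphism `f` does not change points deep inside a chain. -/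
def DeepFix (C : Chain o R) (D : Finset (Fin 8 → A)) (N₂ : ℕ) (f : G A) : Prop :=
  ∀ (x : ℤ → A) (k : ℤ), (∃ i : ℤ, ∀ j : ℤ, |j - k| ≤ (N₂ : ℤ) → C.Pt D x i (j - i)) → f.1 x k = x k

lemma pt_repl {D : Finset (Fin 8 → A)} (hD : D ⊆ C.D1) {y : ℤ → A} {S : Set ℤ}
    (hS : ∀ i ∈ S, ∃ w ∈ D, cont o R y i = some w) {c : ℤ → Fin 8 → A} (hc : ∀ i ∈ S, c i ∈ D)
    {i k : ℤ} (h : C.Pt D y i k) : C.Pt D (repl y S c) i k := by
  have hcell : ∀ i ∈ S, IsCell o R y i := by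
    intro i hi
    obtain ⟨w, _, hw⟩ := hS i hi
    exact (cont_eq_some.1 hw).1
  unfold Pt at h ⊢
  rw [msk_repl C.hR hcell (fun i hi => C.hD1 (hD (hc i hi))),
    cont_repl C.hR hcell (fun i hi => C.hD1 (hD (hc i hi)))]
  refine ⟨h.1, fun hk2 => ?_, fun hk2 => ?_⟩
  · split_ifs with h2
    · exact ⟨_, hc _ h2, rfl⟩
    · exact h.2.1 hk2
  · rw [if_neg]
    · exact h.2.2 hk2
    · intro h2
      apply hk2
      rw [← C.cells k]
      obtain ⟨w, hw, h3⟩ := hS _ h2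
      rw [h.2.2 hk2] at h3
      exact ⟨w, hD hw, h3⟩

lemma Z_repl {D : Finset (Fin 8 → A)} (hD : D ⊆ C.D1) {y : ℤ → A} {S : Set ℤ}
    (hS : ∀ i ∈ S, ∃ w ∈ D, cont o R y i = some w) {c : ℤ → Fin 8 → A} (hc : ∀ i ∈ S, c i ∈ D)
    (N : ℕ) : C.Z D N (repl y S c) = C.Z D N y := by
  have hcell : ∀ i ∈ S, IsCell o R y i := by
    intro i hi
    obtain ⟨w, _, hw⟩ := hS i hi
    exact (cont_eq_some.1 hw).1
  have hsep : Sep 8 S := sep_of_cells C.hR hcell
  apply Set.Subset.antisymm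
  · intro i hi
    have e : y = repl (repl y S c) S (fun i => (win y i : Fin 8 → A)) := by
      rw [repl_repl hsep, repl_win hsep]
    rw [e]
    intro k hk
    refine C.pt_repl hD ?_ ?_ (hi k hk)
    · intro i hi
      refine ⟨c i, hc i hi, ?_⟩
      rw [cont_repl C.hR hcell (fun i hi => C.hD1 (hD (hc i hi))), if_pos hi]
    · intro i hi
      obtain ⟨w, hw, h⟩ := hS i hi
      show (win y i : Fin 8 → A) ∈ D
      rw [(cont_eq_some.1 h).2]
      exact hw
  · intro i hi k hk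
    exact C.pt_repl hD hS hc (hi k hk)

lemma sep_Z {D : Finset (Fin 8 → A)} {K : ℕ} {y : ℤ → A} : Sep 8 (C.Z D K y) := by
  apply sep_of_cells C.hR (x := y)
  intro i hi
  obtain ⟨w, _, hw⟩ := C.Z_cell hi
  exact (cont_eq_some.1 hw).1

lemma Z_anti {D : Finset (Fin 8 → A)} {K N : ℕ} (h : K ≤ N) {y : ℤ → A} : C.Z D N y ⊆ C.Z D K y :=
  fun _ hi k hk => hi k (hk.trans (by exact_mod_cast h))

/-- (C5) -/
lemma f_repl {D : Finset (Fin 8 → A)} (hD : D ⊆ C.D1) {f : G A} {N₂ ρ K : ℕ}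
    (hf : C.DeepFix D N₂ f)
    (hρ : ∀ (x y : ℤ → A) (k : ℤ), (∀ j : ℤ, |j - k| ≤ (ρ : ℤ) → x j = y j) → f.1 x k = f.1 y k)
    (hK : N₂ + ρ + 8 ≤ K) {y : ℤ → A} {S : Set ℤ} (hS : S ⊆ C.Z D K y) {c : ℤ → Fin 8 → A}
    (hc : ∀ i ∈ S, c i ∈ D) : f.1 (repl y S c) = repl (f.1 y) S c := by
  have hS' : ∀ i ∈ S, ∃ w ∈ D, cont o R y i = some w := fun i hi => C.Z_cell (hS hi)
  have hsep : Sep 8 S := C.sep_Z.mono hS
  ext k
  by_cases hk : ∃ i : ℤ, ∀ j : ℤ, |j - k| ≤ (N₂ : ℤ) → C.Pt D y i (j - i)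
  · have hk' : ∃ i : ℤ, ∀ j : ℤ, |j - k| ≤ (N₂ : ℤ) → C.Pt D (repl y S c) i (j - i) := by
      obtain ⟨i, hi⟩ := hk
      exact ⟨i, fun j hj => C.pt_repl hD hS' hc (hi j hj)⟩
    rw [hf _ _ hk']
    rcases repl_cases (b := 8) (S := S) k with ⟨i, hi, j, rfl⟩ | hk2
    · rw [repl_at hsep _ _ hi, repl_at hsep _ _ hi]
    · rw [repl_off _ _ hk2, repl_off _ _ hk2, hf _ _ hk]
  · have far : ∀ i ∈ S, (K : ℤ) - N₂ < |k - i| := by
      intro i hi
      by_contra hcon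
      push Not at hcon
      apply hk
      refine ⟨i, fun j hj => hS hi (j - i) ?_⟩
      rw [abs_le] at hcon hj ⊢
      constructor <;> omega
    have e1 : f.1 (repl y S c) k = f.1 y k := by
      apply hρ
      intro j hj
      apply repl_off
      intro l hl
      have h1 := far _ hl
      have h2 := l.2
      have h3 : |k - (j - (l : ℤ))| ≤ (ρ : ℤ) + 8 := by
        rw [abs_le] at hj ⊢
        constructor <;> omega
      omega
    rw [e1, repl_off]
    intro l hl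
    have h1 := far _ hl
    have h2 := l.2
    have h3 : |k - (k - (l : ℤ))| ≤ 8 := by
      rw [abs_le]
      constructor <;> omega
    omega

lemma eq_of_Z {D : Finset (Fin 8 → A)} {f : G A} {N₂ : ℕ} (hf : C.DeepFix D N₂ f) {N N' : ℕ}
    (hN : N' + N₂ ≤ N) {x : ℤ → A} {i : ℤ} (h : i ∈ C.Z D N x) {k : ℤ} (hk : |k - i| ≤ (N' : ℤ)) :
    f.1 x k = x k := by
  apply hf
  refine ⟨i, fun j hj => h (j - i) ?_⟩
  rw [abs_le] at hk hj ⊢
  constructor <;> omega

lemma Z_f {D : Finset (Fin 8 → A)} {f : G A} {N₂ : ℕ} (hf : C.DeepFix D N₂ f) {N N' : ℕ}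
    (hN : N' + R + 16 + N₂ ≤ N) {x : ℤ → A} {i : ℤ} (h : i ∈ C.Z D N x) :
    i ∈ C.Z D N' (f.1 x) := by
  intro k hk
  have h1 := h k (hk.trans (by omega))
  unfold Pt at h1 ⊢
  have hk2 := abs_le.1 hk
  have e1 : msk o R (f.1 x) (i + k) = msk o R x (i + k) := by
    apply msk_local
    intro l hl
    apply C.eq_of_Z hf (N' := N' + R + 16) hN h
    rw [abs_le] at hl ⊢
    push_cast
    constructor <;> omega
  have e2 : cont o R (f.1 x) (i + k) = cont o R x (i + k) := by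
    apply cont_local
    intro l hl
    apply C.eq_of_Z hf (N' := N' + R + 16) hN h
    rw [abs_le] at hl ⊢
    push_cast
    constructor <;> omega
  rwa [e1, e2]

/-- The rule which applies `π` where `f⁻¹ x` is `N`-deep in a chain. -/
noncomputable def F2 (C : Chain o R) (D : Finset (Fin 8 → A)) (N : ℕ) (π : Equiv.Perm (Fin 8 → A))
    (f : G A) : (ℤ → A) → Equiv.Perm (Fin 8 → A) :=
  fun x => if (0 : ℤ) ∈ C.Z D N ((f⁻¹ : G A).1 x) then π else 1

lemma F2_sh (D : Finset (Fin 8 → A)) (N : ℕ) (π : Equiv.Perm (Fin 8 → A)) (f : G A) (i : ℤ)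
    (x : ℤ → A) : C.F2 D N π f (sh i x) = if i ∈ C.Z D N ((f⁻¹ : G A).1 x) then π else 1 := by
  unfold F2
  rw [G_sh, Z_sh, zero_add]

variable {C} in
lemma F2_good {D : Finset (Fin 8 → A)} (hD : D ⊆ C.D1) (hne : D.Nonempty) {f : G A} {N₂ ρ K N : ℕ}
    (hf : C.DeepFix D N₂ f) (hf' : C.DeepFix D N₂ f⁻¹)
    (hρ' : ∀ (x y : ℤ → A) (k : ℤ), (∀ j : ℤ, |j - k| ≤ (ρ : ℤ) → x j = y j) →
      (f⁻¹ : G A).1 x k = (f⁻¹ : G A).1 y k)
    (hK : N₂ + ρ + R + 30 ≤ K) (hN : K + R + 16 + N₂ ≤ N) {π : Equiv.Perm (Fin 8 → A)}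
    (hπ : ∀ w, w ∉ D → π w = w) : (C.sysN D hD hne K).Good (C.F2 D N π f) := by
  refine ⟨?_, ?_, ?_, ?_⟩
  · have h1 : IsClopen {x : ℤ → A | (0 : ℤ) ∈ C.Z D N ((f⁻¹ : G A).1 x)} :=
      isClopen_preimage_G (f⁻¹ : G A) (C.sysN D hD hne N).clopen
    rw [IsLocallyConstant.iff_eventually_eq]
    intro x
    by_cases hx : (0 : ℤ) ∈ C.Z D N ((f⁻¹ : G A).1 x)
    · filter_upwards [h1.isOpen.mem_nhds hx] with y hy
      have hy' : (0 : ℤ) ∈ C.Z D N ((f⁻¹ : G A).1 y) := hy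
      unfold F2
      rw [if_pos hx, if_pos hy']
    · filter_upwards [h1.compl.isOpen.mem_nhds hx] with y hy
      have hy' : ¬ (0 : ℤ) ∈ C.Z D N ((f⁻¹ : G A).1 y) := hy
      unfold F2
      rw [if_neg hx, if_neg hy']
  · intro x hx
    unfold F2
    rw [if_neg]
    intro h
    apply hx
    have h2 := C.Z_f hf (N' := K) hN h
    have h3 : f.1 ((f⁻¹ : G A).1 x) = x := by
      have : (f * f⁻¹ : G A).1 x = x := by rw [mul_inv_cancel]; rfl
      exact this
    rw [h3] at h2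
    exact h2
  · intro x w hw
    unfold F2
    split_ifs
    · exact hπ w hw
    · rfl
  · intro x c hc
    have hsite : sites (C.sysN D hD hne K).E x = C.Z D K x := by
      ext i
      exact mem_sysN_sites hD hne K x i
    have e1 : (f⁻¹ : G A).1 ((C.sysN D hD hne K).fill x c) =
        repl ((f⁻¹ : G A).1 x) (C.Z D K x) c := by
      unfold Sys.fill
      rw [hsite]
      exact C.f_repl hD hf' hρ' (by omega) le_rfl (fun i _ => hc i)
    unfold F2
    rw [e1, C.Z_repl hD _ (fun i _ => hc i)]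
    intro i hi
    have h1 := C.Z_f hf' (N' := 0) (by omega) hi
    exact C.Z_cell h1

variable {C} in
lemma conj_H {D : Finset (Fin 8 → A)} (hD : D ⊆ C.D1) (hne : D.Nonempty) {f : G A} {N₂ ρ K N : ℕ}
    (hf : C.DeepFix D N₂ f) (hf' : C.DeepFix D N₂ f⁻¹)
    (hρ : ∀ (x y : ℤ → A) (k : ℤ), (∀ j : ℤ, |j - k| ≤ (ρ : ℤ) → x j = y j) → f.1 x k = f.1 y k)
    (hρ' : ∀ (x y : ℤ → A) (k : ℤ), (∀ j : ℤ, |j - k| ≤ (ρ : ℤ) → x j = y j) →
      (f⁻¹ : G A).1 x k = (f⁻¹ : G A).1 y k)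
    (hK : N₂ + ρ + R + 30 ≤ K) (hN : K + R + 16 + N₂ ≤ N) {π : Equiv.Perm (Fin 8 → A)}
    (hπ : ∀ w, w ∉ D → π w = w) :
    f * C.H D hD hne N π * f⁻¹ = (C.sysN D hD hne K).ho (C.F2 D N π f) := by
  have hgood := F2_good hD hne hf hf' hρ' hK hN hπ
  apply Subtype.ext
  apply Equiv.ext
  intro x
  rw [(C.sysN D hD hne K).ho_apply hgood]
  set y := (f⁻¹ : G A).1 x with hy
  have hfy : f.1 y = x := by
    have : (f * f⁻¹ : G A).1 x = x := by rw [mul_inv_cancel]; rfl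
    exact this
  have hl : (f * C.H D hD hne N π * f⁻¹).1 x = f.1 ((C.H D hD hne N π).1 y) := rfl
  rw [hl, H_apply hD hne N hπ]
  have hsite : ∀ (N : ℕ) (x : ℤ → A), sites (C.sysN D hD hne N).E x = C.Z D N x := by
    intro N x
    ext i
    exact mem_sysN_sites hD hne N x i
  have e1 : (C.sysN D hD hne N).act ((C.sysN D hD hne N).gF Set.univ π) y =
      repl y (C.Z D N y) (fun i => π (win y i)) := by
    unfold Sys.act
    rw [hsite]
    apply repl_congr C.sep_Z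
    intro i hi
    have : (C.sysN D hD hne N).gF Set.univ π (sh i y) = π := by
      unfold Sys.gF
      rw [if_pos]
      exact ⟨(mem_sysN_sites hD hne N y i).2 hi, Set.mem_univ _⟩
    rw [this]
  have hmem : ∀ i ∈ C.Z D N y, π (win y i) ∈ D := by
    intro i hi
    obtain ⟨w, hw, h⟩ := C.Z_cell hi
    have h1 := (cont_eq_some.1 h).2
    rw [h1]
    exact (C.sysN D hD hne N).perm_mem (π := π) hπ hw
  have hsub : C.Z D N y ⊆ C.Z D K x := by
    intro i hi
    have := C.Z_f hf (N' := K) hN hi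
    rwa [hfy] at this
  rw [e1, C.f_repl hD hf hρ (K := N) (by omega) le_rfl hmem, hfy]
  have e2 : (C.sysN D hD hne K).act (C.F2 D N π f) x =
      repl x (C.Z D K x) (fun i => C.F2 D N π f (sh i x) (win x i)) := by
    unfold Sys.act
    rw [hsite]
  rw [e2, repl_sub C.sep_Z hsub]
  apply repl_congr C.sep_Z
  intro i _
  rw [F2_sh, ← hy]
  by_cases hi : i ∈ C.Z D N y
  · rw [if_pos hi, if_pos hi]
    congr 1
    ext l
    have hl := l.2
    have := C.eq_of_Z hf (N' := 8) (by omega) hi (k := i + (l : ℤ)) (by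
      rw [abs_le]
      push_cast
      constructor <;> omega)
    rw [hfy] at this
    exact this.symm
  · rw [if_neg hi, if_neg hi]
    rfl

lemma pt_add_dvd {D : Finset (Fin 8 → A)} {x : ℤ → A} {i j k : ℤ} (hj : (C.s : ℤ) ∣ j) :
    C.Pt D x (i + j) k ↔ C.Pt D x i (j + k) := by
  unfold Pt
  have e1 : msk o R C.ξ (j + k) = msk o R C.ξ k := per_dvd C.msk_per (by simpa using hj)
  have e2 : cont o R C.ξ (j + k) = cont o R C.ξ k := per_dvd C.cont_per (by simpa using hj)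
  have e3 : (C.s : ℤ) ∣ j + k ↔ (C.s : ℤ) ∣ k := (Int.dvd_add_right hj)
  rw [e1, e2, e3, add_assoc]

end Chain

/-- Step 5 of (D3): an automorphism which does not change points deep inside `Dh`-chains commutes
modulo `M` with the gates acting deep inside `Dh`-chains. -/
theorem Chain.deep_comm {M : Subgroup (G A)} (hM : M.Normal) (hfin : M.FiniteIndex)
    (Dh : Finset (Fin 8 → A)) (hDh : Dh ⊆ C.D1) (hnh : Dh.Nonempty) (h5 : 5 ≤ Dh.card)
    (f : G A) (N₂ : ℕ) (hf : ∀ (x : ℤ → A) (k : ℤ),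
      (∃ i : ℤ, ∀ j : ℤ, |j - k| ≤ (N₂ : ℤ) → C.Pt Dh x i (j - i)) → f.1 x k = x k ∧ (f⁻¹).1 x k = x k)
    {p q r : Fin 8 → A} (hp : p ∈ Dh) (hq : q ∈ Dh) (hr : r ∈ Dh) (hpq : p ≠ q) (hqr : q ≠ r)
    (hpr : p ≠ r) :
    ∃ N₀ : ℕ, ∀ N, N₀ ≤ N → ⁅f, C.H Dh hDh hnh N (cyc p q r)⁆ ∈ M := by
  have hf1 : C.DeepFix Dh N₂ f := fun x k h => (hf x k h).1
  have hf2 : C.DeepFix Dh N₂ f⁻¹ := fun x k h => (hf x k h).2
  have h1 : C.DeepFix Dh N₂ 1 := fun x k _ => rfl
  have h1' : C.DeepFix Dh N₂ (1⁻¹ : G A) := by rw [inv_one]; exact h1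
  obtain ⟨ρ1, hρ1⟩ := G_radius f
  obtain ⟨ρ2, hρ2⟩ := G_radius f⁻¹
  set ρ := max ρ1 ρ2 with hρdef
  have hρ : ∀ (x y : ℤ → A) (k : ℤ), (∀ j : ℤ, |j - k| ≤ (ρ : ℤ) → x j = y j) → f.1 x k = f.1 y k :=
    fun x y k h => hρ1 x y k (fun j hj => h j (hj.trans (by exact_mod_cast le_max_left _ _)))
  have hρ' : ∀ (x y : ℤ → A) (k : ℤ), (∀ j : ℤ, |j - k| ≤ (ρ : ℤ) → x j = y j) →
      (f⁻¹ : G A).1 x k = (f⁻¹ : G A).1 y k :=
    fun x y k h => hρ2 x y k (fun j hj => h j (hj.trans (by exact_mod_cast le_max_right _ _)))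
  have hρ1' : ∀ (x y : ℤ → A) (k : ℤ), (∀ j : ℤ, |j - k| ≤ (ρ : ℤ) → x j = y j) →
      (1 : G A).1 x k = (1 : G A).1 y k := fun x y k h => h k (by simp)
  have hρ1'' : ∀ (x y : ℤ → A) (k : ℤ), (∀ j : ℤ, |j - k| ≤ (ρ : ℤ) → x j = y j) →
      (1⁻¹ : G A).1 x k = (1⁻¹ : G A).1 y k := by rw [inv_one]; exact hρ1'
  set K := N₂ + ρ + R + 30 with hK
  set T := C.sysN Dh hDh hnh K with hT
  set n := M.index with hn
  have hs := C.spos
  refine ⟨K + R + 16 + N₂ + (n + 1) * C.s + K + R + 16 + N₂ + 1, fun N hN => ?_⟩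
  set π := cyc p q r with hπ
  have hπD : ∀ w, w ∉ Dh → π w = w := T.cyc_mem_PD hp hq hr
  have hNK : K + R + 16 + N₂ ≤ N := by
    have : K + R + 16 + N₂ ≤ K + R + 16 + N₂ + (n + 1) * C.s + K + R + 16 + N₂ + 1 := by
      nlinarith [Nat.zero_le ((n + 1) * C.s)]
    omega
  have g2 : T.Good (C.F2 Dh N π f) := F2_good hDh hnh hf1 hf2 hρ' le_rfl hNK hπD
  have g1 : T.Good (C.F2 Dh N π 1) := F2_good hDh hnh h1 h1' hρ1'' le_rfl hNK hπD
  have e2 := conj_H hDh hnh hf1 hf2 hρ hρ' le_rfl hNK hπD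
  have e1 := conj_H hDh hnh h1 h1' hρ1' hρ1'' le_rfl hNK hπD
  rw [one_mul, inv_one, mul_one] at e1
  have e : ⁅f, C.H Dh hDh hnh N π⁆ = T.ho (C.F2 Dh N π f * (C.F2 Dh N π 1)⁻¹) := by
    rw [T.ho_mul g2 (T.gp.inv_mem g1), T.ho_inv g1, ← e1, ← e2, commutatorElement_def]
  rw [e]
  have g : T.Good (C.F2 Dh N π f * (C.F2 Dh N π 1)⁻¹) := T.gp.mul_mem g2 (T.gp.inv_mem g1)
  refine T.mem_of_vis hM h5 g hp hq hr hpq hqr hpr ?_ ?_
  · intro x
    simp only [Pi.mul_apply, Pi.inv_apply, F2]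
    split_ifs <;> simp [hπ]
  · intro η hη
    -- it is enough that the two rules agree at `η`
    suffices h : ((0 : ℤ) ∈ C.Z Dh N ((f⁻¹ : G A).1 η) ∨ (0 : ℤ) ∈ C.Z Dh N η) →
        (f⁻¹ : G A).1 η = η by
      simp only [Pi.mul_apply, Pi.inv_apply, F2]
      have hone : ((1⁻¹ : G A)).1 η = η := by rw [inv_one]; rfl
      rw [hone]
      by_cases h0 : (0 : ℤ) ∈ C.Z Dh N ((f⁻¹ : G A).1 η) ∨ (0 : ℤ) ∈ C.Z Dh N η
      · rw [h h0]
        split_ifs <;> simp
      · push Not at h0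
        rw [if_neg h0.1, if_neg h0.2]
        simp
    intro h0
    set N' := (n + 1) * C.s + K with hN'
    have hN'N : N' + R + 16 + N₂ ≤ N := by omega
    have h2 : (0 : ℤ) ∈ C.Z Dh N' η := by
      rcases h0 with h0 | h0
      · have := C.Z_f hf1 (N' := N') hN'N h0
        have hfy : f.1 ((f⁻¹ : G A).1 η) = η := by
          have : (f * f⁻¹ : G A).1 η = η := by rw [mul_inv_cancel]; rfl
          exact this
        rwa [hfy] at this
      · exact C.Z_anti (by omega) h0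
    -- many sites
    have hsite : ∀ m : ℕ, m ≤ n + 1 → sh ((m : ℤ) * C.s) η ∈ T.E := by
      intro m hm
      have h3 : ((m : ℤ) * C.s) ∈ sites T.E η := by
        rw [mem_sysN_sites]
        intro k hk
        have h4 := (C.pt_add_dvd (D := Dh) (x := η) (i := 0) (j := (m : ℤ) * C.s) (k := k)
          (dvd_mul_left _ _)).2
        rw [zero_add] at h4
        apply h4
        apply h2
        have h5 : (m : ℤ) * C.s ≤ (n + 1 : ℕ) * C.s := by
          have : m * C.s ≤ (n + 1) * C.s := Nat.mul_le_mul_right _ hm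
          exact_mod_cast this
        have h6 : 0 ≤ (m : ℤ) * C.s := by positivity
        rw [abs_le] at hk ⊢
        rw [hN']
        push_cast at h5 ⊢
        constructor <;> linarith
      exact h3
    have hper : ∃ m : ℕ, 0 < m ∧ m ≤ n + 1 ∧ IsPer ((m : ℤ) * C.s) η := by
      have key : ∀ i j : ℕ, i ≤ n + 1 → i < j → j ≤ n + 1 → sh ((i : ℤ) * C.s) η = sh ((j : ℤ) * C.s) η →
          ∃ m : ℕ, 0 < m ∧ m ≤ n + 1 ∧ IsPer ((m : ℤ) * C.s) η := by
        intro i j hi hij hj h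
        refine ⟨j - i, by omega, by omega, fun k => ?_⟩
        have := congrFun h (k - (i : ℤ) * C.s)
        simp only [sh_apply, sub_add_cancel] at this
        rw [this]
        congr 1
        rw [Nat.cast_sub hij.le]
        ring
      rcases T.exists_shift_eq hM hfin h5 hη n Nat.lt_two_pow_self (fun r => (((r.1 + 1 : ℕ) : ℤ) * C.s))
        (fun r => hsite (r.1 + 1) (by have := r.2; omega)) with ⟨r, hr⟩ | ⟨r, r', hrr, h⟩
      · apply key 0 (r.1 + 1) (by omega) (by omega) (by have := r.2; omega)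
        rw [Nat.cast_zero, zero_mul, sh_zero]
        exact hr.symm
      · have hne : r.1 ≠ r'.1 := fun h => hrr (Fin.ext h)
        rcases lt_or_gt_of_ne hne with hlt | hlt
        · exact key (r.1 + 1) (r'.1 + 1) (by have := r.2; omega) (by omega) (by have := r'.2; omega) h
        · exact key (r'.1 + 1) (r.1 + 1) (by have := r'.2; omega) (by omega) (by have := r.2; omega) h.symm
    obtain ⟨m, hm0, hm1, hm⟩ := hper
    set P : ℤ := (m : ℤ) * C.s with hP
    have hPpos : 0 < P := by positivity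
    have hPN : P ≤ (N' : ℤ) := by
      have h7 : m * C.s ≤ (n + 1) * C.s := Nat.mul_le_mul_right _ hm1
      have h8 : (m : ℤ) * C.s ≤ ((n + 1 : ℕ) : ℤ) * C.s := by exact_mod_cast h7
      rw [hP, hN']
      push_cast at h8 ⊢
      linarith [Int.natCast_nonneg K]
    have hPd : (C.s : ℤ) ∣ P := dvd_mul_left _ _
    -- everything is in the chain
    have hall : ∀ k : ℤ, C.Pt Dh η 0 k := by
      intro k
      have a1 := Int.emod_nonneg k hPpos.ne'
      have a2 := Int.emod_lt_of_pos k hPpos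
      have a3 : C.Pt Dh η 0 (k % P) := h2 (k % P) (by rw [abs_of_nonneg a1]; omega)
      have a4 : k = P * (k / P) + k % P := (Int.mul_ediv_add_emod k P).symm
      have hη' : sh (P * (k / P)) η = η := by
        ext l
        rw [sh_apply, mul_comm]
        exact per_mul hm (k / P) l
      have a5 : C.Pt Dh (sh (P * (k / P)) η) 0 (k % P) := by rw [hη']; exact a3
      rw [C.pt_sh, C.pt_add_dvd (hPd.mul_right _), ← a4] at a5
      exact a5
    ext k
    apply hf2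
    refine ⟨0, fun j _ => ?_⟩
    rw [sub_zero]
    exact hall j

end FShift
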