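import Pool.Agent.MP2b057c.OrbDefs
import Pool.Agent.MP2b057c.ChainPt

set_option autoImplicit false
set_option linter.unusedSectionVars false

/-!
Full shifts: a conjugate of a commutator of gates does not change the letters deep inside a chain
whose contents are not met by the orbits of the conjugated chain points.
-/

namespace FShift

open scoped Classical commutatorElement

variable {A : Type} [Fintype A] [TopologicalSpace A] [DiscreteTopology A]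

section DeepFix
variable {o : A} {R : ℕ} (C : Chain o R)

lemma isPer_sh_aux {j i : ℤ} {x : ℤ → A} (h : IsPer j x) : IsPer j (sh i x) := by
  intro k
  simp only [sh_apply]
  rw [show k + j + i = (k + i) + j by ring]
  exact h _

/-- The letters of a point with a run are the letters of the chain point. -/
lemma Chain.run_letters {c : Fin 8 → A} (hc : c ∈ C.D1) {L : ℕ} {z : ℤ → A} {i : ℤ}
    (h : C.Run L z i c) {p : ℤ} (hp : |p - i| + 7 ≤ (L : ℤ)) : z p = sh (-i) (C.pt c) p := by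
  have hp' := abs_le.1 (show |p - i| ≤ (L : ℤ) - 7 by omega)
  have key : ∀ t : ℤ, |t - i| ≤ (L : ℤ) → msk o R z t = msk o R (sh (-i) (C.pt c)) t ∧
      cont o R z t = cont o R (sh (-i) (C.pt c)) t := by
    intro t ht
    have h1 := h (t - i) ht
    rw [show i + (t - i) = t by ring] at h1
    rw [msk_sh, cont_sh, show t + -i = t - i by ring, C.msk_pt hc]
    exact h1
  refine apply_eq_of_info (key p (by rw [abs_le]; omega)).1 (fun l => (key _ ?_).2)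
  have := l.2
  rw [abs_le]
  omega

/-- No long runs of `g⁻¹ x` deep inside a chain of `x`. -/
lemma Chain.no_run (Dh : Finset (Fin 8 → A)) (hDh : Dh ⊆ C.D1) (g : G A) {ρ : ℕ}
    (hρ : ∀ (x y : ℤ → A) (k : ℤ), (∀ j : ℤ, |j - k| ≤ (ρ : ℤ) → x j = y j) → g.1 x k = g.1 y k)
    {c : Fin 8 → A} (hc : c ∈ C.D1) (hg : ∀ b ∈ Dh, ¬ SameOrb (C.pt b) (g.1 (C.pt c)))
    {L : ℕ} (hL : ρ + 3 * C.s + R + 50 ≤ L) {x : ℤ → A} {i i0 : ℤ}
    (hrun : C.Run L ((g⁻¹).1 x) i c)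
    (hpt : ∀ j : ℤ, |j - i| ≤ (L : ℤ) → C.Pt Dh x i0 (j - i0)) : False := by
  have hs := C.spos
  have hx : g.1 ((g⁻¹).1 x) = x := by
    show (g * g⁻¹).1 x = x
    rw [mul_inv_cancel]
    rfl
  set z := (g⁻¹).1 x with hz
  set y := sh (-i) (C.pt c) with hy
  set q := g.1 y with hq
  have e1 : ∀ p : ℤ, |p - i| ≤ (L : ℤ) - 7 → z p = y p := by
    intro p hp
    exact C.run_letters hc hrun (by omega)
  have e2 : ∀ p : ℤ, |p - i| ≤ (L : ℤ) - 7 - ρ → x p = q p := by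
    intro p hp
    rw [← hx, hq]
    apply hρ
    intro j hj
    apply e1
    rw [abs_le] at hp hj ⊢
    omega
  have e3 : ∀ p : ℤ, |p - i| ≤ (L : ℤ) - 23 - ρ - R → msk o R x p = msk o R q p := by
    intro p hp
    apply msk_local
    intro k hk
    apply e2
    rw [abs_le] at hp hk ⊢
    omega
  have e4 : ∀ p : ℤ, |p - i| ≤ (L : ℤ) - 23 - ρ - R → cont o R x p = cont o R q p := by
    intro p hp
    apply cont_local
    intro k hk
    apply e2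
    rw [abs_le] at hp hk ⊢
    omega
  have hper : IsPer (C.s : ℤ) q := by
    rw [hq, isPer_G]
    exact isPer_sh_aux (C.isPer_pt hc)
  -- a full period
  have hs' : (0 : ℤ) < C.s := by exact_mod_cast hs
  have h1 := Int.emod_nonneg (i0 - i) hs'.ne'
  have h2 := Int.emod_lt_of_pos (i0 - i) hs'
  set i1 : ℤ := i + (i0 - i) % C.s with hi1
  have h3 : (C.s : ℤ) ∣ i1 - i0 := by
    have := Int.dvd_self_sub_emod (x := i0 - i) (m := (C.s : ℤ))
    rw [show i1 - i0 = -(i0 - i - (i0 - i) % C.s) by rw [hi1]; ring]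
    exact (dvd_neg).2 this
  have hP : ∀ k : ℤ, 0 ≤ k → k < C.s → C.Pt Dh q i1 k := by
    intro k hk1 hk2
    have hL' : (ρ : ℤ) + 3 * C.s + R + 50 ≤ L := by exact_mod_cast hL
    have hb : |i1 + k - i| ≤ (L : ℤ) - 23 - ρ - R := by
      rw [abs_le]
      omega
    have h4 := hpt (i1 + k) (by rw [abs_le] at hb ⊢; omega)
    unfold Chain.Pt at h4 ⊢
    rw [show i0 + (i1 + k - i0) = i1 + k by ring, e3 _ hb, e4 _ hb] at h4
    have h5 : (C.s : ℤ) ∣ (i1 + k - i0) - k := by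
      rw [show (i1 + k - i0) - k = i1 - i0 by ring]
      exact h3
    have h6 : (C.s : ℤ) ∣ (i1 + k - i0) ↔ (C.s : ℤ) ∣ k := by
      constructor
      · intro h
        have := dvd_sub h h5
        rwa [show i1 + k - i0 - (i1 + k - i0 - k) = k by ring] at this
      · intro h
        have := dvd_add h h5
        rwa [show k + (i1 + k - i0 - k) = i1 + k - i0 by ring] at this
    rw [C.mskξ_dvd h5, C.contξ_dvd h5, h6] at h4
    exact h4
  obtain ⟨b, hb, hbq⟩ := C.eq_pt_of_period Dh hDh hper hP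
  apply hg b hb
  refine ⟨i - i1, ?_⟩
  rw [← hbq, sh_sh, show i - i1 + i1 = i by ring, hq, ← G_sh, hy, sh_sh]
  simp

/-- Step 4 of (D3): `f' = g f g⁻¹` and its inverse do not change a point deep inside a `Dh`-chain. -/
theorem Chain.deep_fix_of
    (LF_loc : ∀ (Da Db : Finset (Fin 8 → A)) (hDa : Da ⊆ C.D1) (hDb : Db ⊆ C.D1)
      (hna : Da.Nonempty) (hnb : Db.Nonempty) (a : Fin 8 → A) (_ : Da ∩ Db = {a}) (L : ℕ),
      ∃ N₀ : ℕ, ∀ N, N₀ ≤ N → ∀ π ρ : Equiv.Perm (Fin 8 → A), (∀ w, w ∉ Da → π w = w) →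
        (∀ w, w ∉ Db → ρ w = w) → ∃ m : ℕ, ∀ (x : ℤ → A) (k : ℤ),
        (∀ i : ℤ, |i - k| ≤ (m : ℤ) → ∀ c ∈ Da ∪ Db, ¬ C.Run L x i c) →
        ⁅C.H Da hDa hna N π, C.H Db hDb hnb N ρ⁆.1 x k = x k ∧
        (⁅C.H Da hDa hna N π, C.H Db hDb hnb N ρ⁆⁻¹).1 x k = x k)
    (Da Db Dh : Finset (Fin 8 → A)) (hDa : Da ⊆ C.D1)
    (hDb : Db ⊆ C.D1) (hDh : Dh ⊆ C.D1)
    (hna : Da.Nonempty) (hnb : Db.Nonempty) (a : Fin 8 → A) (hab : Da ∩ Db = {a}) (g : G A)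
    (hg : ∀ c ∈ Da ∪ Db, ∀ b ∈ Dh, ¬ SameOrb (C.pt b) (g.1 (C.pt c))) :
    ∃ N₀ : ℕ, ∀ N, N₀ ≤ N → ∀ π ρ : Equiv.Perm (Fin 8 → A), (∀ w, w ∉ Da → π w = w) →
      (∀ w, w ∉ Db → ρ w = w) → ∃ N₂ : ℕ, ∀ (x : ℤ → A) (k : ℤ),
      (∃ i : ℤ, ∀ j : ℤ, |j - k| ≤ (N₂ : ℤ) → C.Pt Dh x i (j - i)) →
      (g * ⁅C.H Da hDa hna N π, C.H Db hDb hnb N ρ⁆ * g⁻¹).1 x k = x k ∧
      ((g * ⁅C.H Da hDa hna N π, C.H Db hDb hnb N ρ⁆ * g⁻¹)⁻¹).1 x k = x k := by
  obtain ⟨r, hr⟩ := G_radius g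
  obtain ⟨N₀, hN₀⟩ := LF_loc Da Db hDa hDb hna hnb a hab (r + 3 * C.s + R + 50)
  refine ⟨N₀, fun N hN π ρ hπ hρ => ?_⟩
  obtain ⟨m, hm⟩ := hN₀ N hN π ρ hπ hρ
  refine ⟨m + r + (r + 3 * C.s + R + 50), fun x k hx => ?_⟩
  obtain ⟨i0, hi0⟩ := hx
  set f : G A := ⁅C.H Da hDa hna N π, C.H Db hDb hnb N ρ⁆ with hf
  have hfix : ∀ j : ℤ, |j - k| ≤ (r : ℤ) →
      f.1 ((g⁻¹).1 x) j = (g⁻¹).1 x j ∧ (f⁻¹).1 ((g⁻¹).1 x) j = (g⁻¹).1 x j := by
    intro j hj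
    apply hm
    intro i hi c hc hrun
    have hc1 : c ∈ C.D1 := by
      rcases Finset.mem_union.1 hc with h | h
      · exact hDa h
      · exact hDb h
    refine C.no_run Dh hDh g hr hc1 (hg c hc) le_rfl hrun (i0 := i0) ?_
    intro j' hj'
    apply hi0
    rw [abs_le] at hj hi hj' ⊢
    push_cast at hj' ⊢
    omega
  have hgg : g.1 ((g⁻¹).1 x) = x := by
    show (g * g⁻¹).1 x = x
    rw [mul_inv_cancel]
    rfl
  constructor
  · show g.1 (f.1 ((g⁻¹).1 x)) k = x k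
    rw [hr _ ((g⁻¹).1 x) k (fun j hj => (hfix j hj).1), hgg]
  · rw [show (g * f * g⁻¹)⁻¹ = g * f⁻¹ * g⁻¹ by group]
    show g.1 ((f⁻¹).1 ((g⁻¹).1 x)) k = x k
    rw [hr _ ((g⁻¹).1 x) k (fun j hj => (hfix j hj).2), hgg]

end DeepFix

end FShift
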