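import Pool.Agent.MP2b057c.ChainDefs

set_option autoImplicit false
set_option linter.unusedSectionVars false

/-!
Package LF: commutators of two gates fix the points without long runs.
-/

namespace FShift

open scoped Classical commutatorElement

variable {A : Type} [Fintype A] [TopologicalSpace A] [DiscreteTopology A]

section LF
variable {o : A} {R : ℕ} (C : Chain o R)

namespace Chain

lemma msk_dvd {k l : ℤ} (h : (C.s : ℤ) ∣ k - l) : msk o R C.ξ k = msk o R C.ξ l :=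
  per_dvd C.msk_per h

lemma cont_dvd {k l : ℤ} (h : (C.s : ℤ) ∣ k - l) : cont o R C.ξ k = cont o R C.ξ l :=
  per_dvd C.cont_per h

lemma Pt_dvd {D : Finset (Fin 8 → A)} {x : ℤ → A} {i i' k k' : ℤ} (e : i + k = i' + k')
    (h : (C.s : ℤ) ∣ i - i') (hp : C.Pt D x i k) : C.Pt D x i' k' := by
  have h' : (C.s : ℤ) ∣ k - k' := by
    rw [show k - k' = -(i - i') by linarith]
    exact (dvd_neg).2 h
  obtain ⟨h1, h2, h3⟩ := hp
  refine ⟨?_, ?_, ?_⟩
  · rw [← e, h1]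
    exact C.msk_dvd h'
  · intro hk
    rw [← e]
    apply h2
    have := dvd_add h' hk
    simpa using this
  · intro hk
    have hk2 : ¬ (C.s : ℤ) ∣ k := by
      intro hk2
      apply hk
      have := dvd_sub hk2 h'
      simpa using this
    rw [← e, h3 hk2, C.cont_dvd h']

lemma Pt_mono {D D' : Finset (Fin 8 → A)} (hDD : D ⊆ D') {x : ℤ → A} {i k : ℤ}
    (hp : C.Pt D x i k) : C.Pt D' x i k :=
  ⟨hp.1, fun h => by
    obtain ⟨w, hw, e⟩ := hp.2.1 h
    exact ⟨w, hDD hw, e⟩, hp.2.2⟩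

lemma Pt_cell {D : Finset (Fin 8 → A)} (hD : D ⊆ C.D1) {x : ℤ → A} {i k : ℤ}
    (hp : C.Pt D x i k) :
    (∃ w ∈ C.D1, cont o R x (i + k) = some w) ↔ (C.s : ℤ) ∣ k := by
  constructor
  · intro h
    by_contra hk
    rw [hp.2.2 hk] at h
    exact hk ((C.cells k).1 h)
  · intro h
    obtain ⟨w, hw, e⟩ := hp.2.1 h
    exact ⟨w, hD hw, e⟩

lemma exists_mod {s : ℕ} (hs : 0 < s) {P Q : ℤ} (r : ℤ) (h : (s : ℤ) ≤ Q - P + 1) :
    ∃ p, P ≤ p ∧ p ≤ Q ∧ (s : ℤ) ∣ p - r := by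
  have hs' : (0 : ℤ) < s := by exact_mod_cast hs
  have h2 := Int.emod_nonneg (r - P) hs'.ne'
  have h3 := Int.emod_lt_of_pos (r - P) hs'
  refine ⟨P + (r - P) % s, by omega, by omega, ?_⟩
  have := Int.dvd_self_sub_emod (x := r - P) (m := (s : ℤ))
  rw [show P + (r - P) % s - r = -(r - P - (r - P) % s) by ring]
  exact (dvd_neg).2 this

/-- (R0) two alignments which agree on a period are congruent. -/
lemma align {D D' : Finset (Fin 8 → A)} (hD : D ⊆ C.D1) (hD' : D' ⊆ C.D1) {x : ℤ → A}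
    {i i' P Q : ℤ} (hPQ : (C.s : ℤ) ≤ Q - P + 1)
    (h : ∀ p, P ≤ p → p ≤ Q → C.Pt D x i (p - i))
    (h' : ∀ p, P ≤ p → p ≤ Q → C.Pt D' x i' (p - i')) : (C.s : ℤ) ∣ i - i' := by
  obtain ⟨p, hp1, hp2, hp3⟩ := exists_mod C.spos i hPQ
  have h1 := (C.Pt_cell hD (h p hp1 hp2)).2 hp3
  rw [show i + (p - i) = i' + (p - i') by ring] at h1
  have h2 := (C.Pt_cell hD' (h' p hp1 hp2)).1 h1
  have := dvd_sub h2 hp3
  rw [show p - i' - (p - i) = i - i' by ring] at this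
  exact this

lemma run_iff {L : ℕ} {x : ℤ → A} {i : ℤ} {c : Fin 8 → A} (hc : c ∈ C.D1) :
    C.Run L x i c ↔ ∀ k : ℤ, |k| ≤ (L : ℤ) → C.Pt {c} x i k := by
  unfold Run Pt
  refine forall_congr' fun k => forall_congr' fun _ => ?_
  rw [C.cont_pt hc k]
  refine and_congr_right fun _ => ?_
  by_cases h : (C.s : ℤ) ∣ k
  · simp [h]
  · simp [h]

/-- (R1) near gates of different type force a run. -/
lemma run_of_near {Da Db : Finset (Fin 8 → A)} (hDa : Da ⊆ C.D1) (hDb : Db ⊆ C.D1)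
    {a : Fin 8 → A} (hab : Da ∩ Db = {a}) {L N : ℕ} (hN : 2 * L + C.s ≤ N) {x : ℤ → A} {i i' : ℤ}
    (hi : i ∈ C.Z Da N x) (hi' : i' ∈ C.Z Db N x) (hii : |i - i'| ≤ (N : ℤ)) :
    ∃ j, C.Run L x j a := by
  have ha : a ∈ Da ∩ Db := by rw [hab]; simp
  have haD1 : a ∈ C.D1 := hDa (Finset.mem_inter.1 ha).1
  rw [abs_le] at hii
  have hs := C.spos
  have e1 : ∀ p, max i i' - N ≤ p → p ≤ min i i' + N → C.Pt Da x i (p - i) := by
    intro p hp1 hp2
    apply hi
    rw [abs_le]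
    constructor
    · have := le_max_left i i'; omega
    · have := min_le_left i i'; omega
  have e2 : ∀ p, max i i' - N ≤ p → p ≤ min i i' + N → C.Pt Db x i' (p - i') := by
    intro p hp1 hp2
    apply hi'
    rw [abs_le]
    constructor
    · have := le_max_right i i'; omega
    · have := min_le_right i i'; omega
  have hdiff : max i i' - min i i' ≤ (N : ℤ) := by
    rcases le_total i i' with h | h
    · rw [max_eq_right h, min_eq_left h]; omega
    · rw [max_eq_left h, min_eq_right h]; omega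
  have hal : (C.s : ℤ) ∣ i - i' := by
    apply C.align hDa hDb (P := max i i' - N) (Q := min i i' + N) _ e1 e2
    omega
  obtain ⟨p0, hp1, hp2, hp3⟩ := exists_mod (P := max i i' - N + L) (Q := min i i' + N - L) hs i
    (by omega)
  refine ⟨p0, (C.run_iff haD1).2 fun k hk => ?_⟩
  rw [abs_le] at hk
  have f1 := C.Pt_dvd (i' := p0) (k' := k) (by ring) (by
    rw [show i - p0 = -(p0 - i) by ring]; exact (dvd_neg).2 hp3) (e1 (p0 + k) (by omega) (by omega))
  have f2 := C.Pt_dvd (i' := p0) (k' := k) (by ring) (by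
    rw [show i' - p0 = -((p0 - i) + (i - i')) by ring]; exact (dvd_neg).2 (dvd_add hp3 hal))
    (e2 (p0 + k) (by omega) (by omega))
  refine ⟨f1.1, fun hk2 => ?_, f1.2.2⟩
  obtain ⟨w, hw, h1⟩ := f1.2.1 hk2
  obtain ⟨w', hw', h2⟩ := f2.2.1 hk2
  rw [h1] at h2
  obtain rfl : w = w' := Option.some.inj h2
  have : w ∈ Da ∩ Db := Finset.mem_inter.2 ⟨hw, hw'⟩
  rw [hab] at this
  exact ⟨w, this, h1⟩

/-- (R2) a gate does not create long runs. -/
lemma norun_H {D : Finset (Fin 8 → A)} (hD : D ⊆ C.D1) (hne : D.Nonempty) (N : ℕ)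
    {π : Equiv.Perm (Fin 8 → A)} (hπ : ∀ w, w ∉ D → π w = w) {x : ℤ → A} {L L' : ℕ}
    (hL' : 3 * L + 2 * C.s ≤ L') {S : Finset (Fin 8 → A)} (hS : S ⊆ C.D1) (hDS : D ⊆ S)
    (hx : ∀ i : ℤ, ∀ c ∈ S, ¬ C.Run L x i c) :
    ∀ i : ℤ, ∀ c ∈ S, ¬ C.Run L' ((C.H D hD hne N π).1 x) i c := by
  intro i c hc hrun
  have hs := C.spos
  set y := (C.H D hD hne N π).1 x with hy
  have hcD1 := hS hc
  rw [C.run_iff hcD1] at hrun
  have hZ : C.Z D N y = C.Z D N x := Z_H hD hne N hπ x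
  -- the run in absolute positions
  have hr : ∀ p, i - L' ≤ p → p ≤ i + L' → C.Pt {c} y i (p - i) := by
    intro p h1 h2
    apply hrun
    rw [abs_le]
    constructor <;> omega
  have hc1 : ({c} : Finset (Fin 8 → A)) ⊆ C.D1 := by
    intro w hw
    rw [Finset.mem_singleton] at hw
    rw [hw]
    exact hcD1
  -- cells of `Z` in the region of the run are aligned and have the content `c`
  have hal : ∀ z ∈ C.Z D N x, i - L' ≤ z → z ≤ i + L' → (C.s : ℤ) ∣ z - i ∧ c ∈ D := by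
    intro z hz h1 h2
    rw [← hZ] at hz
    obtain ⟨w, hw, e⟩ := C.Z_cell hz
    have h3 := (C.Pt_cell hc1 (hr z h1 h2))
    rw [show i + (z - i) = z by ring] at h3
    have h4 := h3.1 ⟨w, hD hw, e⟩
    refine ⟨h4, ?_⟩
    obtain ⟨w', hw', e'⟩ := (hr z h1 h2).2.1 h4
    rw [show i + (z - i) = z by ring, e] at e'
    rw [Finset.mem_singleton] at hw'
    rw [← hw', ← Option.some.inj e']
    exact hw
  have hcontH : ∀ p, cont o R y p = if p ∈ C.Z D N x then (cont o R x p).map π else cont o R x p :=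
    fun p => cont_H hD hne N hπ x p
  have hmskH : ∀ p, msk o R y p = msk o R x p := fun p => msk_H hD hne N hπ x p
  -- a part without cells of `Z`
  have hpart : ∀ p0 : ℤ, (C.s : ℤ) ∣ p0 - i → i - L' ≤ p0 - L → p0 + L ≤ i + L' →
      ∃ z ∈ C.Z D N x, p0 - L ≤ z ∧ z ≤ p0 + L := by
    intro p0 hp0 h1 h2
    by_contra hcon
    push Not at hcon
    apply hx p0 c hc
    rw [C.run_iff hcD1]
    intro k hk
    rw [abs_le] at hk
    have f1 := C.Pt_dvd (i' := p0) (k' := k) (by ring) (by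
      rw [show i - p0 = -(p0 - i) by ring]; exact (dvd_neg).2 hp0)
      (hr (p0 + k) (by omega) (by omega))
    have hn : p0 + k ∉ C.Z D N x := by
      intro hz
      have := hcon _ hz (by omega)
      omega
    unfold Pt at f1 ⊢
    rw [hmskH, hcontH, if_neg hn] at f1
    exact f1
  obtain ⟨pm, hpm1, hpm2, hpm3⟩ := exists_mod (P := i - L' + L) (Q := i - L' + L + C.s) hs i
    (by omega)
  obtain ⟨pp, hpp1, hpp2, hpp3⟩ := exists_mod (P := i + L' - L - C.s) (Q := i + L' - L) hs i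
    (by omega)
  obtain ⟨zm, hzm, hzm1, hzm2⟩ := hpart pm hpm3 (by omega) (by omega)
  obtain ⟨zp, hzp, hzp1, hzp2⟩ := hpart pp hpp3 (by omega) (by omega)
  obtain ⟨hzmi, hcD⟩ := hal zm hzm (by omega) (by omega)
  obtain ⟨hzpi, _⟩ := hal zp hzp (by omega) (by omega)
  -- convexity
  have hconv : ∀ p, (C.s : ℤ) ∣ p - i → zm ≤ p → p ≤ zp → p ∈ C.Z D N x := by
    intro p hp h1 h2
    rw [← hZ]
    intro k hk
    rw [abs_le] at hk
    rw [← hZ] at hzm hzp
    by_cases c1 : p + k ≤ zm + N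
    · refine C.Pt_dvd (i := zm) (k := p + k - zm) (by ring) ?_ (hzm _ ?_)
      · rw [show zm - p = (zm - i) - (p - i) by ring]
        exact dvd_sub hzmi hp
      · rw [abs_le]; constructor <;> omega
    · by_cases c2 : zp - N ≤ p + k
      · refine C.Pt_dvd (i := zp) (k := p + k - zp) (by ring) ?_ (hzp _ ?_)
        · rw [show zp - p = (zp - i) - (p - i) by ring]
          exact dvd_sub hzpi hp
        · rw [abs_le]; constructor <;> omega
      · apply C.Pt_mono (D := {c})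
        · intro w hw
          rw [Finset.mem_singleton] at hw
          rw [hw]
          exact hcD
        · refine C.Pt_dvd (i := i) (k := p + k - i) (by ring) ?_ (hr _ (by omega) (by omega))
          rw [show i - p = -(p - i) by ring]
          exact (dvd_neg).2 hp
  -- the middle part is a run of `x`
  have hπc : π⁻¹ c ∈ D := by
    by_contra hn
    have h1 := hπ _ hn
    have h2 : π (π⁻¹ c) = c := by simp
    rw [h2] at h1
    rw [← h1] at hn
    exact hn hcD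
  apply hx i (π⁻¹ c) (hDS hπc)
  rw [C.run_iff (hD hπc)]
  intro k hk
  rw [abs_le] at hk
  have f1 := hr (i + k) (by omega) (by omega)
  rw [show i + k - i = k by ring] at f1
  refine ⟨?_, ?_, ?_⟩
  · rw [← hmskH]
    exact f1.1
  · intro hk2
    obtain ⟨w, hw, e⟩ := f1.2.1 hk2
    rw [Finset.mem_singleton] at hw
    subst hw
    have hz : i + k ∈ C.Z D N x := hconv _ (by simpa using hk2) (by omega) (by omega)
    rw [hcontH, if_pos hz] at e
    refine ⟨π⁻¹ w, Finset.mem_singleton_self _, ?_⟩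
    rw [Option.map_eq_some_iff] at e
    obtain ⟨v, hv, e⟩ := e
    rw [hv, ← e]
    simp
  · intro hk2
    have hn : i + k ∉ C.Z D N x := by
      intro hz
      apply hk2
      have := (hal _ hz (by omega) (by omega)).1
      simpa using this
    have := f1.2.2 hk2
    rwa [hcontH, if_neg hn] at this

/-- (R3) -/
lemma Z_other {Da Db : Finset (Fin 8 → A)} (hDa : Da ⊆ C.D1) (hDb : Db ⊆ C.D1)
    (hna : Da.Nonempty)
    {a : Fin 8 → A} (hab : Da ∩ Db = {a}) {L L' N : ℕ} (hL' : 3 * L + 2 * C.s ≤ L')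
    (hN : 2 * L' + C.s ≤ N) {x : ℤ → A}
    {π : Equiv.Perm (Fin 8 → A)} (hπ : ∀ w, w ∉ Da → π w = w)
    (hx : ∀ i : ℤ, ∀ c ∈ Da ∪ Db, ¬ C.Run L x i c) :
    C.Z Db N ((C.H Da hDa hna N π).1 x) = C.Z Db N x := by
  have ha : a ∈ Da ∩ Db := by rw [hab]; simp
  have haU : a ∈ Da ∪ Db := Finset.mem_union_left _ (Finset.mem_inter.1 ha).1
  have hy := C.norun_H hDa hna N hπ hL' (Finset.union_subset hDa hDb) Finset.subset_union_left hx
  ext i
  constructor
  · intro hi k hk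
    have h1 : i + k ∉ C.Z Da N x := by
      intro hz
      rw [← Z_H hDa hna N hπ x] at hz
      obtain ⟨j, hj⟩ := C.run_of_near hDa hDb hab hN hz hi (by simpa using hk)
      exact hy j a haU hj
    have h2 := hi k hk
    unfold Pt at h2 ⊢
    rw [msk_H hDa hna N hπ, cont_H hDa hna N hπ, if_neg h1] at h2
    exact h2
  · intro hi k hk
    have h1 : i + k ∉ C.Z Da N x := by
      intro hz
      obtain ⟨j, hj⟩ := C.run_of_near (L := L) hDa hDb hab (by omega) hz hi (by simpa using hk)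
      exact hx j a haU hj
    have h2 := hi k hk
    unfold Pt at h2 ⊢
    rw [msk_H hDa hna N hπ, cont_H hDa hna N hπ, if_neg h1]
    exact h2

theorem LF (Da Db : Finset (Fin 8 → A)) (hDa : Da ⊆ C.D1) (hDb : Db ⊆ C.D1)
    (hna : Da.Nonempty) (hnb : Db.Nonempty) (a : Fin 8 → A) (hab : Da ∩ Db = {a}) (L : ℕ) :
    ∃ N₀ : ℕ, ∀ N, N₀ ≤ N → ∀ π ρ : Equiv.Perm (Fin 8 → A), (∀ w, w ∉ Da → π w = w) →
      (∀ w, w ∉ Db → ρ w = w) → ∀ x : ℤ → A, (∀ i : ℤ, ∀ c ∈ Da ∪ Db, ¬ C.Run L x i c) →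
      ⁅C.H Da hDa hna N π, C.H Db hDb hnb N ρ⁆.1 x = x := by
  obtain ⟨L1, hL1⟩ : ∃ L1, L1 = 3 * L + 2 * C.s := ⟨_, rfl⟩
  obtain ⟨L2, hL2⟩ : ∃ L2, L2 = 3 * L1 + 2 * C.s := ⟨_, rfl⟩
  obtain ⟨L3, hL3⟩ : ∃ L3, L3 = 3 * L2 + 2 * C.s := ⟨_, rfl⟩
  obtain ⟨L4, hL4⟩ : ∃ L4, L4 = 3 * L3 + 2 * C.s := ⟨_, rfl⟩
  refine ⟨2 * L4 + C.s, fun N hN π ρ hπ hρ x hx => ?_⟩
  have hπ' : ∀ w, w ∉ Da → π⁻¹ w = w := fun w hw => by
    rw [Equiv.Perm.inv_eq_iff_eq, hπ w hw]
  have hρ' : ∀ w, w ∉ Db → ρ⁻¹ w = w := fun w hw => by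
    rw [Equiv.Perm.inv_eq_iff_eq, hρ w hw]
  have ha : a ∈ Da ∩ Db := by rw [hab]; simp
  have haU : a ∈ Da ∪ Db := Finset.mem_union_left _ (Finset.mem_inter.1 ha).1
  have hba : Db ∩ Da = {a} := by rw [Finset.inter_comm]; exact hab
  have hU : Da ∪ Db ⊆ C.D1 := Finset.union_subset hDa hDb
  -- the four steps
  set x1 := (C.H Db hDb hnb N ρ⁻¹).1 x with h1
  set x2 := (C.H Da hDa hna N π⁻¹).1 x1 with h2
  set x3 := (C.H Db hDb hnb N ρ).1 x2 with h3
  set x4 := (C.H Da hDa hna N π).1 x3 with h4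
  have hcomm : ⁅C.H Da hDa hna N π, C.H Db hDb hnb N ρ⁆.1 x = x4 := by
    rw [h4, h3, h2, h1, H_inv hDb hnb N hρ, H_inv hDa hna N hπ, commutatorElement_def]
    rfl
  rw [hcomm]
  have n1 : ∀ i : ℤ, ∀ c ∈ Da ∪ Db, ¬ C.Run L1 x1 i c :=
    C.norun_H hDb hnb N hρ' hL1.ge hU Finset.subset_union_right hx
  have n2 : ∀ i : ℤ, ∀ c ∈ Da ∪ Db, ¬ C.Run L2 x2 i c :=
    C.norun_H hDa hna N hπ' hL2.ge hU Finset.subset_union_left n1
  have ux : ∀ i : ℤ, ∀ c ∈ Db ∪ Da, ¬ C.Run L x i c := by rwa [Finset.union_comm]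
  have u2 : ∀ i : ℤ, ∀ c ∈ Db ∪ Da, ¬ C.Run L2 x2 i c := by rwa [Finset.union_comm]
  have zb1 : C.Z Db N x1 = C.Z Db N x := Z_H hDb hnb N hρ' x
  have za1 : C.Z Da N x1 = C.Z Da N x :=
    C.Z_other hDb hDa hnb hba hL1.ge (by omega) hρ' ux
  have za2 : C.Z Da N x2 = C.Z Da N x1 := Z_H hDa hna N hπ' x1
  have zb2 : C.Z Db N x2 = C.Z Db N x1 :=
    C.Z_other hDa hDb hna hab hL2.ge (by omega) hπ' n1
  have za3 : C.Z Da N x3 = C.Z Da N x2 :=
    C.Z_other hDb hDa hnb hba hL3.ge (by omega) hρ u2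
  have hdisj : ∀ p, p ∈ C.Z Da N x → p ∉ C.Z Db N x := by
    intro p hp hp'
    obtain ⟨j, hj⟩ := C.run_of_near (L := L) hDa hDb hab (by omega) hp hp' (by simp)
    exact hx j a haU hj
  apply eq_of_info (o := o) (R := R)
  · intro k
    rw [h4, msk_H hDa hna N hπ, h3, msk_H hDb hnb N hρ, h2, msk_H hDa hna N hπ', h1,
      msk_H hDb hnb N hρ']
  · intro k
    have hmap : ∀ (τ : Equiv.Perm (Fin 8 → A)) (v : Option (Fin 8 → A)),
        (v.map (⇑(τ⁻¹ : Equiv.Perm (Fin 8 → A)))).map τ = v := by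
      intro τ v
      cases v with
      | none => rfl
      | some w => simp
    rw [h4, cont_H hDa hna N hπ, h3, cont_H hDb hnb N hρ, h2, cont_H hDa hna N hπ', h1,
      cont_H hDb hnb N hρ', ← h1, ← h2, ← h3, za3, za2, zb2, za1, zb1]
    by_cases ca : k ∈ C.Z Da N x
    · have cb := hdisj k ca
      simp only [ca, cb, if_true, if_false]
      exact hmap π _
    · by_cases cb : k ∈ C.Z Db N x
      · simp only [ca, cb, if_true, if_false]
        exact hmap ρ _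
      · simp only [ca, cb, if_false]

/-- local version: `f` and its inverse do not change `x` at `k` if there is no run near `k` -/
theorem LF_loc (hoe : ∃ e : A, e ≠ o) (Da Db : Finset (Fin 8 → A)) (hDa : Da ⊆ C.D1)
    (hDb : Db ⊆ C.D1)
    (hna : Da.Nonempty) (hnb : Db.Nonempty) (a : Fin 8 → A) (hab : Da ∩ Db = {a}) (L : ℕ) :
    ∃ N₀ : ℕ, ∀ N, N₀ ≤ N → ∀ π ρ : Equiv.Perm (Fin 8 → A), (∀ w, w ∉ Da → π w = w) →
      (∀ w, w ∉ Db → ρ w = w) → ∃ m : ℕ, ∀ (x : ℤ → A) (k : ℤ),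
      (∀ i : ℤ, |i - k| ≤ (m : ℤ) → ∀ c ∈ Da ∪ Db, ¬ C.Run L x i c) →
      ⁅C.H Da hDa hna N π, C.H Db hDb hnb N ρ⁆.1 x k = x k ∧
      (⁅C.H Da hDa hna N π, C.H Db hDb hnb N ρ⁆⁻¹).1 x k = x k := by
  obtain ⟨e, he⟩ := hoe
  obtain ⟨N₀, hN₀⟩ := C.LF Da Db hDa hDb hna hnb a hab (L + C.s + R + 16)
  refine ⟨N₀, fun N hN π ρ hπ hρ => ?_⟩
  set f := ⁅C.H Da hDa hna N π, C.H Db hDb hnb N ρ⁆ with hf
  obtain ⟨r1, hr1⟩ := G_radius f
  obtain ⟨r2, hr2⟩ := G_radius f⁻¹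
  have hs := C.spos
  have hR := C.hR
  obtain ⟨m, hm1, hm2⟩ : ∃ m : ℕ, r1 ≤ m ∧ r2 ≤ m := ⟨r1 + r2, by omega, by omega⟩
  refine ⟨m, fun x k hx => ?_⟩
  set x' : ℤ → A := fun j => if |j - k| ≤ (m : ℤ) then x j else e with hx'
  have hin : ∀ j, |j - k| ≤ (m : ℤ) → x' j = x j := fun j hj => by
    simp only [hx', if_pos hj]
  have hout : ∀ j, x' j = o → |j - k| ≤ (m : ℤ) := by
    intro j hj
    by_contra hn
    simp only [hx', if_neg hn] at hj
    exact he hj
  have hcell : ∀ p, IsCell o R x' p → k - m + R ≤ p ∧ p + R + 7 ≤ k + m := by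
    intro p hp
    have g1 := hout _ (hp.1 R (by omega) le_rfl)
    have g2 := hout _ (hp.2.1 (R - 1) (by omega) (by omega))
    rw [abs_le] at g1 g2
    constructor <;> omega
  have hno : ∀ i : ℤ, ∀ c ∈ Da ∪ Db, ¬ C.Run (L + C.s + R + 16) x' i c := by
    intro i c hc hrun
    have hcD1 : c ∈ C.D1 := Finset.union_subset hDa hDb hc
    rw [C.run_iff hcD1] at hrun
    -- cells of the run
    have hcl : ∀ p, i - (L + C.s + R + 16 : ℕ) ≤ p → p ≤ i + (L + C.s + R + 16 : ℕ) →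
        (C.s : ℤ) ∣ p - i → k - m + R ≤ p ∧ p + R + 7 ≤ k + m := by
      intro p h1 h2 h3
      apply hcell
      obtain ⟨w, _, h4⟩ := (hrun (p - i) (by rw [abs_le]; constructor <;> omega)).2.1 h3
      rw [show i + (p - i) = p by ring] at h4
      exact (cont_eq_some.1 h4).1
    obtain ⟨pm, hpm1, hpm2, hpm3⟩ := exists_mod (P := i - (L + C.s + R + 16 : ℕ))
      (Q := i - (L + C.s + R + 16 : ℕ) + C.s) hs i (by omega)
    obtain ⟨pp, hpp1, hpp2, hpp3⟩ := exists_mod (P := i + (L + C.s + R + 16 : ℕ) - C.s)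
      (Q := i + (L + C.s + R + 16 : ℕ)) hs i (by omega)
    have b1 := hcl pm hpm1 (by omega) hpm3
    have b2 := hcl pp (by omega) hpp2 hpp3
    have b3 := hcl i (by omega) (by omega) (by simp)
    push_cast at *
    apply hx i (by rw [abs_le]; constructor <;> omega) c hc
    rw [C.run_iff hcD1]
    intro l hl
    have hl' := abs_le.1 hl
    have h1 := hrun l (by rw [abs_le]; constructor <;> omega)
    have e1 : msk o R x' (i + l) = msk o R x (i + l) := by
      apply msk_local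
      intro j hj
      rw [abs_le] at hj
      apply hin
      rw [abs_le]
      constructor <;> omega
    have e2 : cont o R x' (i + l) = cont o R x (i + l) := by
      apply cont_local
      intro j hj
      rw [abs_le] at hj
      apply hin
      rw [abs_le]
      constructor <;> omega
    unfold Pt at h1 ⊢
    rwa [e1, e2] at h1
  have hfix : f.1 x' = x' := hN₀ N hN π ρ hπ hρ x' hno
  have hfix' : (f⁻¹).1 x' = x' := by
    have h1 : (f⁻¹).1 (f.1 x') = x' := by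
      show (f⁻¹ * f).1 x' = x'
      rw [inv_mul_cancel]
      rfl
    rwa [hfix] at h1
  have hk : x' k = x k := hin k (by simp)
  constructor
  · rw [hr1 x x' k (fun j hj => (hin j (hj.trans (by exact_mod_cast hm1))).symm), hfix, hk]
  · rw [hr2 x x' k (fun j hj => (hin j (hj.trans (by exact_mod_cast hm2))).symm), hfix', hk]

end Chain

end LF

end FShift
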