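import Pool.Agent.MP2b057c.DThreeCore
import Pool.Agent.MP2b057c.DeepFix
import Pool.Agent.MP2b057c.DeepComm
import Pool.Agent.MP2b057c.LF
import Pool.Agent.MP2b057c.ChainPt

set_option autoImplicit false
set_option linter.unusedSectionVars false

/-!
Full shifts: elements of a normal subgroup of finite index preserve the orbits of the chain points.
-/

namespace FShift

open scoped Classical commutatorElement

variable {A : Type} [Fintype A] [TopologicalSpace A] [DiscreteTopology A] {o : A} {R : ℕ}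
  (C : Chain o R)

theorem Chain.D3 (hoe : ∃ e : A, e ≠ o) {M : Subgroup (G A)} (hM : M.Normal) (hfin : M.FiniteIndex)
    (hgood : C.Good M)
    {a : Fin 8 → A} (ha : a ∈ C.D1) (g : G A) (hg : g ∈ M) : SameOrb (C.pt a) (g.1 (C.pt a)) :=
  C.D3_of hM hgood (fun h1 h2 h3 => C.pt_orb h1 h2 h3)
    (C.deep_fix_of (fun Da Db hDa hDb hna hnb a hab L => C.LF_loc hoe Da Db hDa hDb hna hnb a hab L))
    (fun Dh hDh hnh h5 f N₂ hf _ _ _ hp hq hr hpq hqr hpr =>
      C.deep_comm hM hfin Dh hDh hnh h5 f N₂ hf hp hq hr hpq hqr hpr) ha g hg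

/-- (I) -/
theorem Chain.moves {a : Fin 8 → A} (ha : a ∈ C.D1) (k : ℕ) (hk : 0 < k)
    (hks : k ≠ C.s) : ∃ f ∈ J A k, ¬ SameOrb (C.pt a) (f.1 (C.pt a)) := by
  refine C.moves_of ?_ ?_ ?_ ?_ ?_ ?_ ha k hk hks
  · exact fun h => C.lp_pt h
  · exact fun h1 h2 h3 => C.pt_orb h1 h2 h3
  · exact fun D hD hne N ha _ hπ => C.H_pt D hD hne N ha hπ
  · exact fun D hD hne N ha haD _ hπ => C.H_pt_off D hD hne N ha haD hπ
  · exact fun ha _ hk _ hy _ hL _ h => C.run_period ha hk hy hL h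
  · exact fun Da Db hDa hDb hna hnb a hab L => C.LF Da Db hDa hDb hna hnb a hab L

end FShift
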