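import Pool.Agent.MP2b057c.OrbDefs
import Pool.Agent.MP2b057c.ChainDefs

set_option autoImplicit false
set_option linter.unusedSectionVars false

/-!
Full shifts: elements of a normal subgroup of finite index preserve the orbits of the chain points
(D3), from the statements about deep positions, and gates moving the chain points but no orbit of
another period.
-/

namespace FShift

open scoped Classical commutatorElement

variable {A : Type} [Fintype A] [TopologicalSpace A] [DiscreteTopology A]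

lemma SameOrb.symm' {x y : ℤ → A} (h : SameOrb x y) : SameOrb y x := by
  obtain ⟨j, hj⟩ := h
  exact ⟨-j, by rw [hj, sh_sh]; simp⟩

lemma SameOrb.trans' {x y z : ℤ → A} (h : SameOrb x y) (h' : SameOrb y z) : SameOrb x z := by
  obtain ⟨i, hi⟩ := h
  obtain ⟨j, hj⟩ := h'
  exact ⟨j + i, by rw [hj, hi, sh_sh]⟩

lemma SameOrb.of_G {g : G A} {x y : ℤ → A} (h : SameOrb (g.1 x) (g.1 y)) : SameOrb x y := by
  obtain ⟨j, hj⟩ := h
  refine ⟨j, g.1.injective ?_⟩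
  rw [G_sh]
  exact hj

lemma cyc_fix {W : Type} {D : Finset W} {p q r : W} (hp : p ∈ D) (hq : q ∈ D) (hr : r ∈ D) (w : W)
    (hw : w ∉ D) : cyc p q r w = w := by
  apply cyc_apply_off
  · rintro rfl; exact hw hp
  · rintro rfl; exact hw hq
  · rintro rfl; exact hw hr

section D3
variable {o : A} {R : ℕ} (C : Chain o R)

/-- The choice of the letters. -/
theorem Chain.choose_letters
    (pt_orb : ∀ {a b : Fin 8 → A}, a ∈ C.D1 → b ∈ C.D1 → SameOrb (C.pt a) (C.pt b) → a = b)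
    {a : Fin 8 → A} (ha : a ∈ C.D1) (g : G A) (hg : ¬ SameOrb (C.pt a) (g.1 (C.pt a))) :
    ∃ U V P : Finset (Fin 8 → A), U ⊆ C.D1 ∧ V ⊆ C.D1 ∧ P ⊆ C.D1 ∧ U.card = 4 ∧ V.card = 4 ∧
      P.card = 4 ∧ a ∉ U ∧ a ∉ V ∧ a ∉ P ∧ Disjoint U V ∧ Disjoint U P ∧ Disjoint V P ∧
      (∀ c ∈ insert a U ∪ insert a V, ∀ b ∈ insert a P, ¬ SameOrb (C.pt b) (g.1 (C.pt c))) := by
  set B1 := C.D1.filter fun e => SameOrb (C.pt a) (g.1 (C.pt e)) with hB1
  have hB1c : B1.card ≤ 1 := by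
    rw [Finset.card_le_one]
    intro x hx y hy
    rw [hB1, Finset.mem_filter] at hx hy
    exact pt_orb hx.1 hy.1 (SameOrb.of_G (g := g) (hx.2.symm'.trans' hy.2))
  set T := C.D1 \ insert a B1 with hT
  have hTc : 8 ≤ T.card := by
    have h1 : (insert a B1).card ≤ 2 := (Finset.card_insert_le _ _).trans (by omega)
    have h2 := Finset.le_card_sdiff (insert a B1) C.D1
    rw [← hT] at h2
    have h3 := C.card
    omega
  obtain ⟨U, hU, hUc⟩ := Finset.exists_subset_card_eq (show 4 ≤ T.card by omega)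
  obtain ⟨V, hV, hVc⟩ := Finset.exists_subset_card_eq (s := T \ U) (n := 4) (by
    have := Finset.le_card_sdiff U T
    omega)
  have hUD : ∀ u ∈ U, u ∈ C.D1 ∧ u ≠ a ∧ ¬ SameOrb (C.pt a) (g.1 (C.pt u)) := by
    intro u hu
    have := hU hu
    rw [hT, Finset.mem_sdiff, Finset.mem_insert, not_or] at this
    refine ⟨this.1, this.2.1, fun h => this.2.2 ?_⟩
    rw [hB1, Finset.mem_filter]
    exact ⟨this.1, h⟩
  have hVD : ∀ u ∈ V, u ∈ C.D1 ∧ u ≠ a ∧ ¬ SameOrb (C.pt a) (g.1 (C.pt u)) := by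
    intro u hu
    have := hV hu
    rw [hT, Finset.mem_sdiff, Finset.mem_sdiff, Finset.mem_insert, not_or] at this
    refine ⟨this.1.1, this.1.2.1, fun h => this.1.2.2 ?_⟩
    rw [hB1, Finset.mem_filter]
    exact ⟨this.1.1, h⟩
  have hUV : Disjoint U V := by
    rw [Finset.disjoint_left]
    intro x hx hx'
    exact (Finset.mem_sdiff.1 (hV hx')).2 hx
  set S := insert a U ∪ insert a V with hS
  have hSc : S.card ≤ 9 := by
    have h1 : S = insert a (U ∪ V) := by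
      rw [hS]
      ext x
      simp only [Finset.mem_union, Finset.mem_insert]
      tauto
    rw [h1]
    refine (Finset.card_insert_le _ _).trans ?_
    have := Finset.card_union_le U V
    omega
  have hSa : ∀ c ∈ S, ¬ SameOrb (C.pt a) (g.1 (C.pt c)) := by
    intro c hc
    rw [hS, Finset.mem_union, Finset.mem_insert, Finset.mem_insert] at hc
    rcases hc with (rfl | hc) | (rfl | hc)
    · exact hg
    · exact (hUD c hc).2.2
    · exact hg
    · exact (hVD c hc).2.2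
  set B2 := C.D1.filter fun b => ∃ e ∈ S, SameOrb (C.pt b) (g.1 (C.pt e)) with hB2
  have hB2c : B2.card ≤ 9 := by
    refine le_trans ?_ hSc
    have hex : ∀ b, ∃ e, b ∈ B2 → e ∈ S ∧ SameOrb (C.pt b) (g.1 (C.pt e)) := by
      intro b
      by_cases hb : b ∈ B2
      · obtain ⟨e, he, h⟩ := (Finset.mem_filter.1 (hB2 ▸ hb)).2
        exact ⟨e, fun _ => ⟨he, h⟩⟩
      · exact ⟨b, fun h => absurd h hb⟩
    choose φ hφ using hex
    refine Finset.card_le_card_of_injOn φ (fun b hb => (hφ b hb).1) ?_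
    intro b hb b' hb' he
    have h1 := (hφ b hb).2
    have h2 := (hφ b' hb').2
    rw [← he] at h2
    exact pt_orb (Finset.mem_filter.1 (hB2 ▸ hb)).1 (Finset.mem_filter.1 (hB2 ▸ hb')).1
      (h1.trans' h2.symm')
  obtain ⟨P, hP, hPc⟩ := Finset.exists_subset_card_eq (s := (C.D1 \ S) \ B2) (n := 4) (by
    have h1 := Finset.le_card_sdiff S C.D1
    have h2 := Finset.le_card_sdiff B2 (C.D1 \ S)
    have h3 := C.card
    omega)
  have hPD : ∀ u ∈ P, u ∈ C.D1 ∧ u ∉ S ∧ u ∉ B2 := by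
    intro u hu
    have := hP hu
    rw [Finset.mem_sdiff, Finset.mem_sdiff] at this
    exact ⟨this.1.1, this.1.2, this.2⟩
  refine ⟨U, V, P, fun u hu => (hUD u hu).1, fun u hu => (hVD u hu).1, fun u hu => (hPD u hu).1,
    hUc, hVc, hPc, fun h => (hUD a h).2.1 rfl, fun h => (hVD a h).2.1 rfl, fun h => ?_, hUV, ?_, ?_,
    ?_⟩
  · apply (hPD a h).2.1
    rw [hS]
    simp
  · rw [Finset.disjoint_left]
    intro x hx hx'
    apply (hPD x hx').2.1
    rw [hS]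
    simp [hx]
  · rw [Finset.disjoint_left]
    intro x hx hx'
    apply (hPD x hx').2.1
    rw [hS]
    simp [hx]
  · intro c hc b hb
    rw [Finset.mem_insert] at hb
    rcases hb with rfl | hb
    · exact hSa c hc
    · intro h
      apply (hPD b hb).2.2
      rw [hB2, Finset.mem_filter]
      exact ⟨(hPD b hb).1, c, hc, h⟩

theorem Chain.D3_of {M : Subgroup (G A)} (hM : M.Normal) (hgood : C.Good M)
    (pt_orb : ∀ {a b : Fin 8 → A}, a ∈ C.D1 → b ∈ C.D1 → SameOrb (C.pt a) (C.pt b) → a = b)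
    (deep_fix : ∀ (Da Db Dh : Finset (Fin 8 → A)) (hDa : Da ⊆ C.D1)
      (hDb : Db ⊆ C.D1) (_ : Dh ⊆ C.D1)
      (hna : Da.Nonempty) (hnb : Db.Nonempty) (a : Fin 8 → A) (_ : Da ∩ Db = {a}) (g : G A)
      (_ : ∀ c ∈ Da ∪ Db, ∀ b ∈ Dh, ¬ SameOrb (C.pt b) (g.1 (C.pt c))),
      ∃ N₀ : ℕ, ∀ N, N₀ ≤ N → ∀ π ρ : Equiv.Perm (Fin 8 → A), (∀ w, w ∉ Da → π w = w) →
        (∀ w, w ∉ Db → ρ w = w) → ∃ N₂ : ℕ, ∀ (x : ℤ → A) (k : ℤ),
        (∃ i : ℤ, ∀ j : ℤ, |j - k| ≤ (N₂ : ℤ) → C.Pt Dh x i (j - i)) →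
        (g * ⁅C.H Da hDa hna N π, C.H Db hDb hnb N ρ⁆ * g⁻¹).1 x k = x k ∧
        ((g * ⁅C.H Da hDa hna N π, C.H Db hDb hnb N ρ⁆ * g⁻¹)⁻¹).1 x k = x k)
    (deep_comm : ∀ (Dh : Finset (Fin 8 → A)) (hDh : Dh ⊆ C.D1) (hnh : Dh.Nonempty)
      (_ : 5 ≤ Dh.card)
      (f : G A) (N₂ : ℕ) (_ : ∀ (x : ℤ → A) (k : ℤ),
        (∃ i : ℤ, ∀ j : ℤ, |j - k| ≤ (N₂ : ℤ) → C.Pt Dh x i (j - i)) →
          f.1 x k = x k ∧ (f⁻¹).1 x k = x k)
      {p q r : Fin 8 → A} (_ : p ∈ Dh) (_ : q ∈ Dh) (_ : r ∈ Dh) (_ : p ≠ q) (_ : q ≠ r)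
      (_ : p ≠ r), ∃ N₀ : ℕ, ∀ N, N₀ ≤ N → ⁅f, C.H Dh hDh hnh N (cyc p q r)⁆ ∈ M)
    {a : Fin 8 → A} (ha : a ∈ C.D1) (g : G A) (hg : g ∈ M) : SameOrb (C.pt a) (g.1 (C.pt a)) := by
  by_contra hcon
  obtain ⟨U, V, P, hU, hV, hP, hUc, hVc, hPc, haU, haV, haP, hUV, hUP, hVP, hS⟩ :=
    C.choose_letters pt_orb ha g hcon
  obtain ⟨b, hb, b', hb', hbb⟩ := Finset.one_lt_card.1 (show 1 < U.card by omega)
  obtain ⟨c, hc, c', hc', hcc⟩ := Finset.one_lt_card.1 (show 1 < V.card by omega)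
  obtain ⟨p, hp, q, hq, hpq⟩ := Finset.one_lt_card.1 (show 1 < P.card by omega)
  have nab : a ≠ b := fun h => haU (h ▸ hb)
  have nab' : a ≠ b' := fun h => haU (h ▸ hb')
  have nac : a ≠ c := fun h => haV (h ▸ hc)
  have nac' : a ≠ c' := fun h => haV (h ▸ hc')
  have nap : a ≠ p := fun h => haP (h ▸ hp)
  have naq : a ≠ q := fun h => haP (h ▸ hq)
  have nUV : ∀ {u v}, u ∈ U → v ∈ V → u ≠ v := fun hu hv h =>
    Finset.disjoint_left.1 hUV hu (h ▸ hv)
  have nUP : ∀ {u v}, u ∈ U → v ∈ P → u ≠ v := fun hu hv h =>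
    Finset.disjoint_left.1 hUP hu (h ▸ hv)
  have nVP : ∀ {u v}, u ∈ V → v ∈ P → u ≠ v := fun hu hv h =>
    Finset.disjoint_left.1 hVP hu (h ▸ hv)
  set Da := insert a U with hDa'
  set Db := insert a V with hDb'
  set Dh := insert a P with hDh'
  have hDa : Da ⊆ C.D1 := Finset.insert_subset ha hU
  have hDb : Db ⊆ C.D1 := Finset.insert_subset ha hV
  have hDh : Dh ⊆ C.D1 := Finset.insert_subset ha hP
  have hDac : 5 ≤ Da.card := by rw [hDa', Finset.card_insert_of_notMem haU, hUc]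
  have hDbc : 5 ≤ Db.card := by rw [hDb', Finset.card_insert_of_notMem haV, hVc]
  have hDhc : 5 ≤ Dh.card := by rw [hDh', Finset.card_insert_of_notMem haP, hPc]
  have hna : Da.Nonempty := ⟨a, by simp [hDa']⟩
  have hnb : Db.Nonempty := ⟨a, by simp [hDb']⟩
  have hnh : Dh.Nonempty := ⟨a, by simp [hDh']⟩
  have hn1 : C.D1.Nonempty := ⟨a, ha⟩
  have hab : Da ∩ Db = {a} := by
    ext x
    rw [Finset.mem_inter, hDa', hDb', Finset.mem_insert, Finset.mem_insert, Finset.mem_singleton]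
    constructor
    · rintro ⟨h | h, h' | h'⟩
      · exact h
      · exact h
      · exact h'
      · exact absurd rfl (nUV h h')
    · intro h
      exact ⟨Or.inl h, Or.inl h⟩
  have maa : a ∈ Da := by simp [hDa']
  have mab : b ∈ Da := by simp [hDa', hb]
  have mab' : b' ∈ Da := by simp [hDa', hb']
  have mba : a ∈ Db := by simp [hDb']
  have mbc : c ∈ Db := by simp [hDb', hc]
  have mbc' : c' ∈ Db := by simp [hDb', hc']
  have mha : a ∈ Dh := by simp [hDh']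
  have mhp : p ∈ Dh := by simp [hDh', hp]
  have mhq : q ∈ Dh := by simp [hDh', hq]
  obtain ⟨N₀, hN₀⟩ := deep_fix Da Db Dh hDa hDb hDh hna hnb a hab g hS
  obtain ⟨N₁, hG1, hG2⟩ := hgood
  obtain ⟨N₂, hN₂⟩ := hN₀ (max N₀ N₁) (le_max_left _ _) (cyc a b b') (cyc a c c')
    (cyc_fix maa mab mab') (cyc_fix mba mbc mbc')
  obtain ⟨N₃, hN₃⟩ := deep_comm Dh hDh hnh hDhc _ N₂ hN₂ mha mhp mhq nap hpq naq
  have key := hN₃ (max N₃ N₁) (le_max_left _ _)
  -- computation modulo `M`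
  have hMn := hM
  set φ := QuotientGroup.mk' M with hφ
  have hφ1 : ∀ x, x ∈ M ↔ φ x = 1 := fun x => (QuotientGroup.eq_one_iff x).symm
  have hcong : ∀ (D : Finset (Fin 8 → A)) (hD : D ⊆ C.D1) (hne : D.Nonempty), 5 ≤ D.card →
      ∀ N, N₁ ≤ N → ∀ p ∈ D, ∀ q ∈ D, ∀ r ∈ D, p ≠ q → q ≠ r → p ≠ r →
      φ (C.H D hD hne N (cyc p q r)) =
        φ (C.H C.D1 (Finset.Subset.refl _) hn1 N₁ (cyc p q r)) := by
    intro D hD hne h5 N hN p hp q hq r hr h1 h2 h3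
    have h := hG2 D hD hne h5 N hN C.D1 (Finset.Subset.refl _) hn1 (by rw [C.card]; norm_num) N₁
      le_rfl p hp q hq r hr (hD hp) (hD hq) (hD hr) h1 h2 h3
    rw [hφ1, map_mul, map_inv, mul_inv_eq_one] at h
    exact h
  have hb1 := hDa mab
  have hb1' := hDa mab'
  have hc1 := hDb mbc
  have hc1' := hDb mbc'
  have hp1 := hDh mhp
  have hq1 := hDh mhq
  have e1 := hcong Da hDa hna hDac (max N₀ N₁) (le_max_right _ _) a maa b mab b' mab' nab hbb nab'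
  have e2 := hcong Db hDb hnb hDbc (max N₀ N₁) (le_max_right _ _) a mba c mbc c' mbc' nac hcc nac'
  have e3 := hcong Dh hDh hnh hDhc (max N₃ N₁) (le_max_right _ _) a mha p mhp q mhq nap hpq naq
  have hgM : φ g = 1 := (hφ1 g).1 hg
  rw [hφ1] at key
  rw [map_commutatorElement, map_mul, map_mul, map_inv, hgM, inv_one, one_mul, mul_one,
    map_commutatorElement, e1, e2, e3, ← map_commutatorElement, ← map_commutatorElement,
    Chain.H_comm (Finset.Subset.refl _) hn1 N₁ (cyc_fix ha hb1 hb1') (cyc_fix ha hc1 hc1'),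
    cyc_comm nab nab' nac nac' hbb (nUV hb hc) (nUV hb hc') (nUV hb' hc) (nUV hb' hc') hcc,
    Chain.H_comm (Finset.Subset.refl _) hn1 N₁ (cyc_fix ha hb1 hc1) (cyc_fix ha hp1 hq1),
    cyc_comm nab nac nap naq (nUV hb hc) (nUP hb hp) (nUP hb hq) (nVP hc hp) (nVP hc hq) hpq,
    ← hφ1] at key
  exact hG1 C.D1 (Finset.Subset.refl _) hn1 (by rw [C.card]; norm_num) N₁ le_rfl a ha b hb1 p hp1
    nab (nUP hb hp) nap key

theorem Chain.moves_of
    (lp_pt : ∀ {a : Fin 8 → A}, a ∈ C.D1 → LP C.s (C.pt a))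
    (pt_orb : ∀ {a b : Fin 8 → A}, a ∈ C.D1 → b ∈ C.D1 → SameOrb (C.pt a) (C.pt b) → a = b)
    (H_pt : ∀ {a : Fin 8 → A} (D : Finset (Fin 8 → A)) (hD : D ⊆ C.D1) (hne : D.Nonempty) (N : ℕ)
      (_ : a ∈ D) {π : Equiv.Perm (Fin 8 → A)} (_ : ∀ w, w ∉ D → π w = w),
      (C.H D hD hne N π).1 (C.pt a) = C.pt (π a))
    (H_pt_off : ∀ {a : Fin 8 → A} (D : Finset (Fin 8 → A)) (hD : D ⊆ C.D1) (hne : D.Nonempty)
      (N : ℕ) (_ : a ∈ C.D1) (_ : a ∉ D) {π : Equiv.Perm (Fin 8 → A)} (_ : ∀ w, w ∉ D → π w = w),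
      (C.H D hD hne N π).1 (C.pt a) = C.pt a)
    (run_period : ∀ {a : Fin 8 → A} (_ : a ∈ C.D1) {k : ℕ} (_ : 0 < k) {y : ℤ → A}
      (_ : IsPer (k : ℤ) y) {L : ℕ} (_ : k + C.s + R + 16 ≤ L) {i : ℤ} (_ : C.Run L y i a),
      sh i y = C.pt a)
    (LF : ∀ (Da Db : Finset (Fin 8 → A)) (hDa : Da ⊆ C.D1) (hDb : Db ⊆ C.D1)
      (hna : Da.Nonempty) (hnb : Db.Nonempty) (a : Fin 8 → A) (_ : Da ∩ Db = {a}) (L : ℕ),
      ∃ N₀ : ℕ, ∀ N, N₀ ≤ N → ∀ π ρ : Equiv.Perm (Fin 8 → A), (∀ w, w ∉ Da → π w = w) →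
        (∀ w, w ∉ Db → ρ w = w) → ∀ x : ℤ → A, (∀ i : ℤ, ∀ c ∈ Da ∪ Db, ¬ C.Run L x i c) →
        ⁅C.H Da hDa hna N π, C.H Db hDb hnb N ρ⁆.1 x = x)
    {a : Fin 8 → A} (ha : a ∈ C.D1) (k : ℕ) (hk : 0 < k)
    (hks : k ≠ C.s) : ∃ f ∈ J A k, ¬ SameOrb (C.pt a) (f.1 (C.pt a)) := by
  have h4 : 4 ≤ (C.D1.erase a).card := by
    rw [Finset.card_erase_of_mem ha, C.card]
    norm_num
  obtain ⟨U, hU, hUc⟩ := Finset.exists_subset_card_eq (s := C.D1.erase a) (n := 2) (by omega)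
  obtain ⟨V, hV, hVc⟩ := Finset.exists_subset_card_eq (s := C.D1.erase a \ U) (n := 2) (by
    have := Finset.le_card_sdiff U (C.D1.erase a)
    omega)
  obtain ⟨b, hb, b', hb', hbb⟩ := Finset.one_lt_card.1 (show 1 < U.card by omega)
  obtain ⟨c, hc, c', hc', hcc⟩ := Finset.one_lt_card.1 (show 1 < V.card by omega)
  have hUD : ∀ u ∈ U, u ∈ C.D1 ∧ u ≠ a := fun u hu =>
    ⟨(Finset.mem_erase.1 (hU hu)).2, (Finset.mem_erase.1 (hU hu)).1⟩
  have hVD : ∀ u ∈ V, u ∈ C.D1 ∧ u ≠ a ∧ u ∉ U := fun u hu =>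
    ⟨(Finset.mem_erase.1 (Finset.mem_sdiff.1 (hV hu)).1).2,
      (Finset.mem_erase.1 (Finset.mem_sdiff.1 (hV hu)).1).1, (Finset.mem_sdiff.1 (hV hu)).2⟩
  set Da : Finset (Fin 8 → A) := insert a U with hDa'
  set Db : Finset (Fin 8 → A) := insert a V with hDb'
  have hDa : Da ⊆ C.D1 := Finset.insert_subset ha fun u hu => (hUD u hu).1
  have hDb : Db ⊆ C.D1 := Finset.insert_subset ha fun u hu => (hVD u hu).1
  have hna : Da.Nonempty := ⟨a, by simp [hDa']⟩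
  have hnb : Db.Nonempty := ⟨a, by simp [hDb']⟩
  have hab : Da ∩ Db = {a} := by
    ext x
    rw [Finset.mem_inter, hDa', hDb', Finset.mem_insert, Finset.mem_insert, Finset.mem_singleton]
    constructor
    · rintro ⟨h | h, h' | h'⟩
      · exact h
      · exact h
      · exact h'
      · exact absurd h (hVD x h').2.2
    · intro h
      exact ⟨Or.inl h, Or.inl h⟩
  have maa : a ∈ Da := by simp [hDa']
  have mab : b ∈ Da := by simp [hDa', hb]
  have mab' : b' ∈ Da := by simp [hDa', hb']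
  have mba : a ∈ Db := by simp [hDb']
  have mbc : c ∈ Db := by simp [hDb', hc]
  have mbc' : c' ∈ Db := by simp [hDb', hc']
  have nab : a ≠ b := (hUD b hb).2.symm
  have nac : a ≠ c := (hVD c hc).2.1.symm
  have nab' : a ≠ b' := (hUD b' hb').2.symm
  have nac' : a ≠ c' := (hVD c' hc').2.1.symm
  obtain ⟨N, hN⟩ := LF Da Db hDa hDb hna hnb a hab (k + C.s + R + 16)
  have hπ : ∀ w, w ∉ Da → cyc a b b' w = w := cyc_fix maa mab mab'
  have hρ : ∀ w, w ∉ Db → cyc a c c' w = w := cyc_fix mba mbc mbc'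
  have hπi : ∀ w, w ∉ Da → (cyc a b b')⁻¹ w = w := fun w hw => by
    rw [Equiv.Perm.inv_eq_iff_eq, hπ w hw]
  have hρi : ∀ w, w ∉ Db → (cyc a c c')⁻¹ w = w := fun w hw => by
    rw [Equiv.Perm.inv_eq_iff_eq, hρ w hw]
  have hN' := hN N le_rfl (cyc a b b') (cyc a c c') hπ hρ
  refine ⟨⁅C.H Da hDa hna N (cyc a b b'), C.H Db hDb hnb N (cyc a c c')⁆, ?_, ?_⟩
  · intro x hx
    refine ⟨0, ?_⟩
    rw [sh_zero]
    refine hN' x ?_
    intro i d hd hrun
    have hdD : d ∈ C.D1 := by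
      rcases Finset.mem_union.1 hd with h | h
      · exact hDa h
      · exact hDb h
    have h1 := run_period hdD hk hx.2.1 le_rfl hrun
    have h2 := lp_pt hdD
    rw [← h1] at h2
    -- `LP` of a shift
    apply hks
    have h3 : IsPer (C.s : ℤ) x := by
      intro l
      have := h2.2.1 (l - i)
      simp only [sh_apply] at this
      rw [show l - i + C.s + i = l + C.s by ring, show l - i + i = l by ring] at this
      exact this
    have h4 : IsPer (k : ℤ) (sh i x) := by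
      intro l
      have := hx.2.1 (l + i)
      simp only [sh_apply]
      rw [show l + k + i = l + i + k by ring]
      exact this
    have h5 := hx.2.2 _ h3
    have h6 := h2.2.2 _ h4
    exact Nat.dvd_antisymm (by exact_mod_cast h5) (by exact_mod_cast h6)
  · have hc'Da : c' ∉ Da := by
      rw [hDa', Finset.mem_insert, not_or]
      exact ⟨nac'.symm, (hVD c' hc').2.2⟩
    have s1 : ((C.H Db hDb hnb N (cyc a c c'))⁻¹).1 (C.pt a) = C.pt c' := by
      rw [← Chain.H_inv hDb hnb N hρ, H_pt Db hDb hnb N mba hρi]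
      congr 1
      rw [Equiv.Perm.inv_eq_iff_eq, cyc_apply_right]
    have s2 : ((C.H Da hDa hna N (cyc a b b'))⁻¹).1 (C.pt c') = C.pt c' := by
      rw [← Chain.H_inv hDa hna N hπ, H_pt_off Da hDa hna N (hDb mbc') hc'Da hπi]
    have s3 : (C.H Db hDb hnb N (cyc a c c')).1 (C.pt c') = C.pt a := by
      rw [H_pt Db hDb hnb N mbc' hρ, cyc_apply_right]
    have s4 : (C.H Da hDa hna N (cyc a b b')).1 (C.pt a) = C.pt b := by
      rw [H_pt Da hDa hna N maa hπ, cyc_apply_left nab nab']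
    have e : (⁅C.H Da hDa hna N (cyc a b b'), C.H Db hDb hnb N (cyc a c c')⁆).1 (C.pt a) =
        (C.H Da hDa hna N (cyc a b b')).1 ((C.H Db hDb hnb N (cyc a c c')).1
          (((C.H Da hDa hna N (cyc a b b'))⁻¹).1
            (((C.H Db hDb hnb N (cyc a c c'))⁻¹).1 (C.pt a)))) := rfl
    rw [e, s1, s2, s3, s4]
    intro h
    exact nab (pt_orb ha (hDa mab) h)

end D3

end FShift
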