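import Mathlib

set_option autoImplicit false

/-!
Full shifts: basic definitions for the automorphism group of a full shift.
-/

namespace FShift

open scoped Classical

section Basic

variable {A : Type}

/-- The shift by `j`. -/
def sh (j : ℤ) (x : ℤ → A) : ℤ → A := fun i => x (i + j)

/-- The window of length `b` at `i`. -/
def win {b : ℕ} (x : ℤ → A) (i : ℤ) : Fin b → A := fun j => x (i + (j : ℤ))

/-- The places where the shifted point lies in `E`. -/
def sites (E : Set (ℤ → A)) (x : ℤ → A) : Set ℤ := {i | sh i x ∈ E}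

/-- `S` is a set of integers with gaps at least `b`. -/
def Sep (b : ℕ) (S : Set ℤ) : Prop := ∀ i ∈ S, ∀ j ∈ S, i ≠ j → (b : ℤ) ≤ |i - j|

/-- Replace the windows at the places of `S` by the words `c i`. -/
noncomputable def repl {b : ℕ} (x : ℤ → A) (S : Set ℤ) (c : ℤ → Fin b → A) : ℤ → A :=
  fun k => if h : ∃ j : Fin b, k - (j : ℤ) ∈ S then c (k - (h.choose : ℤ)) h.choose else x k

/-- The 3-cycle `p → q → r → p`. -/
noncomputable def cyc {W : Type} (p q r : W) : Equiv.Perm W := Equiv.swap p q * Equiv.swap q r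

/-- `j` is a period of `x`. -/
def IsPer (j : ℤ) (x : ℤ → A) : Prop := ∀ k, x (k + j) = x k

/-- `x` has least period `s`. -/
def LP (s : ℕ) (x : ℤ → A) : Prop := 0 < s ∧ IsPer (s : ℤ) x ∧ ∀ j : ℤ, IsPer j x → (s : ℤ) ∣ j

/-- `y` lies in the shift orbit of `x`. -/
def SameOrb (x y : ℤ → A) : Prop := ∃ j : ℤ, y = sh j x

@[simp] lemma sh_apply (j : ℤ) (x : ℤ → A) (i : ℤ) : sh j x i = x (i + j) := rfl

@[simp] lemma win_apply {b : ℕ} (x : ℤ → A) (i : ℤ) (j : Fin b) : win x i j = x (i + (j : ℤ)) := rfl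

@[simp] lemma sh_zero (x : ℤ → A) : sh 0 x = x := by ext i; simp

lemma sh_sh (i j : ℤ) (x : ℤ → A) : sh i (sh j x) = sh (i + j) x := by
  ext k; simp [add_assoc]

lemma mem_sites {E : Set (ℤ → A)} {x : ℤ → A} {i : ℤ} : i ∈ sites E x ↔ sh i x ∈ E := Iff.rfl

lemma sites_sh (E : Set (ℤ → A)) (x : ℤ → A) (i j : ℤ) : i ∈ sites E (sh j x) ↔ i + j ∈ sites E x := by
  simp [sites, sh_sh]

lemma win_sh {b : ℕ} (x : ℤ → A) (i j : ℤ) : (win (sh j x) i : Fin b → A) = win x (i + j) := by
  ext k; simp [add_right_comm]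

end Basic

section Group

variable (A : Type) [TopologicalSpace A]

/-- The automorphism group of the full shift, as a group of permutations of `ℤ → A`. -/
def Aut : Subgroup (Equiv.Perm (ℤ → A)) where
  carrier := {f | (∀ x, f (sh 1 x) = sh 1 (f x)) ∧ Continuous f ∧ Continuous f.symm}
  mul_mem' := by
    rintro f g ⟨hf1, hf2, hf3⟩ ⟨hg1, hg2, hg3⟩
    refine ⟨fun x => ?_, ?_, ?_⟩
    · simp [Equiv.Perm.mul_apply, hg1, hf1]
    · exact hf2.comp hg2
    · exact hg3.comp hf3
  one_mem' := ⟨fun _ => rfl, continuous_id, continuous_id⟩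
  inv_mem' := by
    rintro f ⟨hf1, hf2, hf3⟩
    refine ⟨fun x => ?_, hf3, hf2⟩
    apply f.injective
    rw [hf1]
    simp

/-- The automorphism group of the full shift. -/
abbrev G : Type := Aut A

variable {A}

lemma G_sh (g : G A) (j : ℤ) (x : ℤ → A) : g.1 (sh j x) = sh j (g.1 x) := by
  have h1 : ∀ (g : G A) (n : ℕ) (x : ℤ → A), g.1 (sh (n : ℤ) x) = sh (n : ℤ) (g.1 x) := by
    intro g n
    induction n with
    | zero => intro x; simp
    | succ n ih =>
      intro x
      have e : ∀ y : ℤ → A, sh ((n + 1 : ℕ) : ℤ) y = sh (n : ℤ) (sh 1 y) := by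
        intro y; rw [sh_sh]; push_cast; rfl
      rw [e, e, ih, g.2.1]
  rcases Int.eq_nat_or_neg j with ⟨n, rfl | rfl⟩
  · exact h1 g n x
  · have h2 := h1 g n (sh (-(n : ℤ)) x)
    rw [sh_sh] at h2
    simp only [add_neg_cancel, sh_zero] at h2
    rw [h2, sh_sh]
    simp

variable (A)

/-- The subgroup of the automorphisms which preserve each orbit of least period `s`. -/
def J (s : ℕ) : Subgroup (G A) where
  carrier := {g | ∀ x, LP s x → SameOrb x (g.1 x)}
  mul_mem' := by
    intro f g hf hg x hx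
    obtain ⟨j, hj⟩ := hg x hx
    obtain ⟨i, hi⟩ := hf x hx
    refine ⟨j + i, ?_⟩
    have : (f * g).1 x = f.1 (g.1 x) := rfl
    rw [this, hj, G_sh, hi, sh_sh]
  one_mem' := fun x _ => ⟨0, by simp⟩
  inv_mem' := by
    intro f hf x hx
    obtain ⟨i, hi⟩ := hf x hx
    refine ⟨-i, ?_⟩
    apply f.1.injective
    have h1 : (f : Equiv.Perm (ℤ → A)) ((f⁻¹ : G A).1 x) = x := by
      simp
    rw [h1, G_sh, hi, sh_sh]
    simp

end Group

section System

variable (A : Type) [TopologicalSpace A]

/-- A system of free windows (of length `b`) with free contents `D`. -/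
structure Sys (b : ℕ) where
  /-- the points with a free window at `0` -/
  E : Set (ℤ → A)
  /-- the contents -/
  D : Finset (Fin b → A)
  /-- the default content -/
  d : Fin b → A
  hd : d ∈ D
  clopen : IsClopen E
  win_mem : ∀ x ∈ E, (win x 0 : Fin b → A) ∈ D
  sep : ∀ x ∈ E, ∀ j : ℤ, j ≠ 0 → sh j x ∈ E → (b : ℤ) ≤ |j|
  inv : ∀ x ∈ E, ∀ c : ℤ → Fin b → A, (∀ i, c i ∈ D) → repl x (sites E x) c ∈ E

variable {A} {b : ℕ}

namespace Sys

/-- Replace the contents of all free windows. -/
noncomputable def fill (T : Sys A b) (x : ℤ → A) (c : ℤ → Fin b → A) : ℤ → A :=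
  repl x (sites T.E x) c

/-- Erase the contents of all free windows. -/
noncomputable def skel (T : Sys A b) (x : ℤ → A) : ℤ → A := T.fill x (fun _ => T.d)

/-- Apply `F` to the contents of the free windows. -/
noncomputable def act (T : Sys A b) (F : (ℤ → A) → Equiv.Perm (Fin b → A)) (x : ℤ → A) : ℤ → A :=
  repl x (sites T.E x) (fun i => F (sh i x) (win x i))

/-- Good rules: locally constant, trivial off the free windows, moving only contents in `D`,
and not depending on the contents of the free windows. -/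
def Good (T : Sys A b) (F : (ℤ → A) → Equiv.Perm (Fin b → A)) : Prop :=
  IsLocallyConstant F ∧ (∀ x, x ∉ T.E → F x = 1) ∧ (∀ x w, w ∉ T.D → F x w = w) ∧
    ∀ (x : ℤ → A) (c : ℤ → Fin b → A), (∀ i, c i ∈ T.D) → F (T.fill x c) = F x

/-- Permutations of the words which fix the words outside `D`. -/
def PD (T : Sys A b) : Subgroup (Equiv.Perm (Fin b → A)) where
  carrier := {π | ∀ w, w ∉ T.D → π w = w}
  mul_mem' := by
    intro f g hf hg w hw
    rw [Equiv.Perm.mul_apply, hg w hw, hf w hw]
  one_mem' := fun _ _ => rfl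
  inv_mem' := by
    intro f hf w hw
    rw [Equiv.Perm.inv_eq_iff_eq, hf w hw]

/-- The rule which applies `π` at the free windows whose erased surroundings lie in `V`. -/
noncomputable def gF (T : Sys A b) (V : Set (ℤ → A)) (π : Equiv.Perm (Fin b → A)) :
    (ℤ → A) → Equiv.Perm (Fin b → A) :=
  fun x => if x ∈ T.E ∧ T.skel x ∈ V then π else 1

end Sys

end System

end FShift
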