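import Pool.Agent.MP2b057c.OrbDefs

set_option autoImplicit false
set_option linter.unusedSectionVars false

/-!
Full shifts: the final assembly, with the properties of the groups as hypotheses.
-/

namespace FShift

section Translate

/-- The type of the shift-commuting homeomorphisms, as in the problem. -/
abbrev HomeoS (n : ℕ) : Type := {f : (ℤ → Fin n) ≃ₜ (ℤ → Fin n) //
  ∀ x : ℤ → Fin n, f (fun i => x (i + 1)) = fun i => f x (i + 1)}

/-- Shift-commuting homeomorphisms and the group `G (Fin n)`. -/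
def toG (n : ℕ) : HomeoS n ≃ G (Fin n) where
  toFun f := ⟨f.1.toEquiv, fun x => f.2 x, f.1.continuous, f.1.symm.continuous⟩
  invFun g := ⟨{ g.1 with
      continuous_toFun := g.2.2.1
      continuous_invFun := g.2.2.2 }, fun x => g.2.1 x⟩
  left_inv _ := rfl
  right_inv _ := rfl

lemma toG_apply {n : ℕ} (f : HomeoS n) (x : ℤ → Fin n) : (toG n f).1 x = f.1 x := rfl

lemma toG_symm_apply {n : ℕ} (g : G (Fin n)) (x : ℤ → Fin n) : ((toG n).symm g).1 x = g.1 x := rfl

/-- A composition preserving bijection gives an isomorphism of groups. -/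
noncomputable def isoOf {m n : ℕ} (Φ : HomeoS m ≃ HomeoS n)
    (h : ∀ a b c : HomeoS m, (∀ x : ℤ → Fin m, c.1 x = a.1 (b.1 x)) →
      ∀ y : ℤ → Fin n, (Φ c).1 y = (Φ a).1 ((Φ b).1 y)) : G (Fin m) ≃* G (Fin n) where
  toFun g := toG n (Φ ((toG m).symm g))
  invFun g := toG m (Φ.symm ((toG n).symm g))
  left_inv g := by simp
  right_inv g := by simp
  map_mul' := by
    intro g g'
    apply Subtype.ext
    apply Equiv.ext
    intro y
    exact h ((toG m).symm g) ((toG m).symm g') ((toG m).symm (g * g')) (fun x => rfl) y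

end Translate

section Main

variable {A : Type} [TopologicalSpace A]

/-- A non-central element is not a power of the shift. -/
lemma not_shift_of_not_comm {κ κ' : G A} (h : κ * κ' ≠ κ' * κ) (j : ℤ) :
    ∃ x, κ.1 x ≠ sh j x := by
  by_contra hcon
  push Not at hcon
  apply h
  apply Subtype.ext
  apply Equiv.ext
  intro x
  show κ.1 (κ'.1 x) = κ'.1 (κ.1 x)
  rw [hcon, hcon, G_sh]

lemma J_finiteIndex (s : ℕ) [Finite (Orb A s)] : (J A s).FiniteIndex := by
  rw [← orbHom_ker]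
  infer_instance

/-- A normal subgroup which preserves one orbit preserves all orbits of the same least period,
when the group acts transitively. -/
lemma le_J_of_trans {s : ℕ} (hsurj : Function.Surjective (orbHom A s)) (M : Subgroup (G A))
    (hM : M.Normal) {x : ℤ → A} (hx : LP s x) (h : ∀ g ∈ M, SameOrb x (g.1 x)) : M ≤ J A s := by
  classical
  intro g hg y hy
  obtain ⟨u, hu⟩ := hsurj (Equiv.swap (orbMk x hx) (orbMk y hy))
  have h1 : orbHom A s u (orbMk x hx) = orbMk y hy := by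
    rw [hu, Equiv.swap_apply_left]
  have h2 : u⁻¹ * g * u ∈ M := by
    have := hM.conj_mem g hg u⁻¹
    simpa using this
  have h3 := h _ h2
  have h4 : orbHom A s (u⁻¹ * g * u) (orbMk x hx) = orbMk x hx := by
    rw [orbHom_mk]
    exact ((orbMk_eq hx _).2 h3).symm
  have h5 : orbHom A s g (orbMk y hy) = orbMk y hy := by
    have e : g * u = u * (u⁻¹ * g * u) := by group
    have h6 : orbHom A s (g * u) (orbMk x hx) = orbHom A s (u * (u⁻¹ * g * u)) (orbMk x hx) := by
      rw [e]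
    rw [map_mul, map_mul, Equiv.Perm.mul_apply, Equiv.Perm.mul_apply, h4, h1] at h6
    exact h6
  rw [orbHom_mk] at h5
  exact (orbMk_eq hy _).1 h5.symm

lemma index_J_of_surj {s : ℕ} (hsurj : Function.Surjective (orbHom A s)) [Finite (Orb A s)] :
    (J A s).index = (Nat.card (Orb A s)).factorial := by
  rw [← orbHom_ker, Subgroup.index_ker, MonoidHom.range_eq_top.2 hsurj, Subgroup.card_top,
    Nat.card_perm]

lemma index_J_le (s : ℕ) [Finite (Orb A s)] :
    (J A s).index ≤ (Nat.card (Orb A s)).factorial := by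
  rw [← orbHom_ker, Subgroup.index_ker, ← Nat.card_perm]
  exact Subgroup.card_le_card_group _

end Main

section Growth

lemma growth (K : ℕ) : ∃ m : ℕ, ∀ f : ℕ, m ≤ f → f * 2 ^ (K + f) < 2 * 3 ^ (f - 1) := by
  have h := tendsto_pow_const_div_const_pow_of_one_lt 1 (r := (3 / 2 : ℝ)) (by norm_num)
  have hpos : (0 : ℝ) < 1 / (3 / 2 * 2 ^ K) := by positivity
  have h1 := (h.eventually (gt_mem_nhds hpos))
  rw [Filter.eventually_atTop] at h1
  obtain ⟨m, hm⟩ := h1
  refine ⟨m + 1, fun f hf => ?_⟩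
  have h2 := hm f (by omega)
  rw [pow_one] at h2
  have h3 : (f : ℝ) * (3 / 2 * 2 ^ K) < (3 / 2) ^ f := by
    rw [div_lt_div_iff₀ (by positivity) (by positivity)] at h2
    linarith
  obtain ⟨g, rfl⟩ : ∃ g, f = g + 1 := ⟨f - 1, by omega⟩
  have h4 : ((g + 1 : ℕ) : ℝ) * 2 ^ (K + (g + 1)) < 2 * 3 ^ g := by
    have h5 : (2 : ℝ) ^ (g + 1) * ((((g + 1 : ℕ) : ℝ)) * (3 / 2 * 2 ^ K)) <
        2 ^ (g + 1) * (3 / 2) ^ (g + 1) := by
      apply mul_lt_mul_of_pos_left h3 (by positivity)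
    rw [← mul_pow] at h5
    have h6 : (2 * (3 / 2) : ℝ) ^ (g + 1) = 3 * 3 ^ g := by
      rw [pow_succ]; norm_num; ring
    rw [h6] at h5
    have h7 : (2 : ℝ) ^ (K + (g + 1)) = 2 ^ K * 2 ^ (g + 1) := pow_add _ _ _
    rw [h7]
    nlinarith
  have h8 : g + 1 - 1 = g := by omega
  rw [h8]
  exact_mod_cast h4

lemma pigeon (K : ℕ) (f : ℕ → ℕ) (hf : ∀ k l, K ≤ k → K ≤ l → f k = f l → k = l) (m : ℕ) :
    ∃ k, K ≤ k ∧ k ≤ K + m ∧ m ≤ f k := by
  by_contra hcon
  push Not at hcon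
  have h1 : Set.MapsTo f (Finset.Icc K (K + m) : Finset ℕ) (Finset.range m : Finset ℕ) := by
    intro k hk
    simp only [Finset.coe_Icc, Set.mem_Icc] at hk
    have := hcon k hk.1 hk.2
    simpa using this
  have h2 : Set.InjOn f (Finset.Icc K (K + m) : Finset ℕ) := by
    intro k hk l hl e
    simp only [Finset.coe_Icc, Set.mem_Icc] at hk hl
    exact hf k l hk.1 hl.1 e
  have h3 := Finset.card_le_card_of_injOn f h1 h2
  simp at h3
  omega

end Growth

/-- The final assembly. -/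
theorem no_iso (h2 : MTprop (Fin 2)) (h3 : MTprop (Fin 3))
    (Z2 : ∀ κ : G (Fin 2), (∀ j : ℤ, ∃ x, κ.1 x ≠ sh j x) →
      ∃ s₁ : ℕ, ∀ s : ℕ, s₁ ≤ s → κ ∉ J (Fin 2) s)
    (Z3 : ∀ κ : G (Fin 3), (∀ j : ℤ, ∃ x, κ.1 x ≠ sh j x) →
      ∃ s₁ : ℕ, ∀ s : ℕ, s₁ ≤ s → κ ∉ J (Fin 3) s)
    (hfin2 : ∀ s, Finite (Orb (Fin 2) s)) (hfin3 : ∀ s, Finite (Orb (Fin 3) s))
    (hle : ∀ s, Nat.card (Orb (Fin 2) s) ≤ 2 ^ s)
    (hge : ∀ s, 0 < s → 2 * 3 ^ (s - 1) ≤ s * Nat.card (Orb (Fin 3) s))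
    (hsurj : ∀ s, 0 < s → Function.Surjective (orbHom (Fin 3) s))
    (Ψ : G (Fin 2) ≃* G (Fin 3)) : False := by
  obtain ⟨a, a', haa, hM2⟩ := h2 8
  have hΨa : Ψ a * Ψ a' ≠ Ψ a' * Ψ a := by
    intro h
    apply haa
    apply Ψ.injective
    rw [map_mul, map_mul, h]
  obtain ⟨s1, hs1⟩ := Z3 (Ψ a) (not_shift_of_not_comm hΨa)
  obtain ⟨b, b', hbb, hM3⟩ := h3 (max 8 s1)
  have hΨb : Ψ.symm b * Ψ.symm b' ≠ Ψ.symm b' * Ψ.symm b := by
    intro h
    apply hbb
    apply Ψ.symm.injective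
    rw [map_mul, map_mul, h]
  obtain ⟨k1, hk1⟩ := Z2 (Ψ.symm b) (not_shift_of_not_comm hΨb)
  -- for each large `k` there is `s`
  have key : ∀ k, k1 + 1 ≤ k → ∃ s, max 8 s1 ≤ s ∧
      J (Fin 2) k ≤ (J (Fin 3) s).comap Ψ.toMonoidHom := by
    intro k hk
    have hfi : (J (Fin 2) k).FiniteIndex := by
      have := hfin2 k
      exact J_finiteIndex k
    have hsurjΨ : Function.Surjective Ψ.toMonoidHom := Ψ.surjective
    have hMn : ((J (Fin 2) k).map Ψ.toMonoidHom).Normal :=
      Subgroup.Normal.map (J_normal k) _ hsurjΨ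
    have hMf : ((J (Fin 2) k).map Ψ.toMonoidHom).FiniteIndex := by
      constructor
      have hd : ((J (Fin 2) k).map Ψ.toMonoidHom).index ∣ (J (Fin 2) k).index :=
        Subgroup.index_map_dvd _ hsurjΨ
      intro h0
      rw [h0] at hd
      exact hfi.index_ne_zero (Nat.eq_zero_of_zero_dvd hd)
    have hbM : b ∉ (J (Fin 2) k).map Ψ.toMonoidHom := by
      rintro ⟨g, hg, hgb⟩
      have : g = Ψ.symm b := by
        rw [← hgb]
        exact (Ψ.symm_apply_apply g).symm
      rw [this] at hg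
      exact hk1 k (by omega) hg
    obtain ⟨s, x, hs, hx, hxM, -⟩ := hM3 _ hMn hMf hbM
    refine ⟨s, hs, ?_⟩
    have hspos : 0 < s := hx.1
    have := le_J_of_trans (hsurj s hspos) _ hMn hx hxM
    intro g hg
    exact this ⟨g, hg, rfl⟩
  -- uniqueness of `k`
  have uniq : ∀ s, s1 ≤ s → ∀ k l, 0 < k → 0 < l →
      J (Fin 2) k ≤ (J (Fin 3) s).comap Ψ.toMonoidHom →
      J (Fin 2) l ≤ (J (Fin 3) s).comap Ψ.toMonoidHom → k = l := by
    intro s hs k l hk hl hkN hlN
    have hNn : ((J (Fin 3) s).comap Ψ.toMonoidHom).Normal := inferInstance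
    have hNf : ((J (Fin 3) s).comap Ψ.toMonoidHom).FiniteIndex := by
      have := hfin3 s
      constructor
      rw [Subgroup.index_comap_of_surjective _ Ψ.surjective]
      exact (J_finiteIndex (A := Fin 3) s).index_ne_zero
    have haN : a ∉ (J (Fin 3) s).comap Ψ.toMonoidHom := fun h => hs1 s hs h
    obtain ⟨k', x', -, hx', hxN, hch⟩ := hM2 _ hNn hNf haN
    have h1 : ∀ m, 0 < m → J (Fin 2) m ≤ (J (Fin 3) s).comap Ψ.toMonoidHom → m = k' := by
      intro m hm hmN
      by_contra hne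
      obtain ⟨f, hf, hfx⟩ := hch m hm hne
      exact hfx (hxN f (hmN hf))
    rw [h1 k hk hkN, h1 l hl hlN]
  classical
  -- the function
  choose! f hf using key
  have hinj : ∀ k l, k1 + 1 ≤ k → k1 + 1 ≤ l → f k = f l → k = l := by
    intro k l hk hl e
    refine uniq (f k) (le_trans (le_max_right _ _) (hf k hk).1) k l (by omega) (by omega)
      (hf k hk).2 ?_
    rw [e]
    exact (hf l hl).2
  have hcard : ∀ k, k1 + 1 ≤ k → Nat.card (Orb (Fin 3) (f k)) ≤ 2 ^ k := by
    intro k hk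
    have := hfin3 (f k)
    have := hfin2 k
    have hspos : 0 < f k := by
      have := (hf k hk).1
      have h8 : 8 ≤ max 8 s1 := le_max_left _ _
      omega
    have e1 : ((J (Fin 3) (f k)).comap Ψ.toMonoidHom).index =
        (Nat.card (Orb (Fin 3) (f k))).factorial := by
      rw [Subgroup.index_comap_of_surjective _ Ψ.surjective, index_J_of_surj (hsurj _ hspos)]
    have e2 : ((J (Fin 3) (f k)).comap Ψ.toMonoidHom).index ≤ (J (Fin 2) k).index := by
      apply Nat.le_of_dvd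
      · exact Nat.pos_of_ne_zero (J_finiteIndex (A := Fin 2) k).index_ne_zero
      · exact Subgroup.index_dvd_of_le (hf k hk).2
    have e3 := index_J_le (A := Fin 2) k
    have e4 : (Nat.card (Orb (Fin 3) (f k))).factorial ≤ (Nat.card (Orb (Fin 2) k)).factorial := by
      rw [← e1]
      exact e2.trans e3
    rcases Nat.eq_zero_or_pos (Nat.card (Orb (Fin 2) k)) with h0 | hp
    · rw [h0] at e4
      have e5 : Nat.card (Orb (Fin 3) (f k)) ≤ (Nat.card (Orb (Fin 3) (f k))).factorial :=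
        Nat.self_le_factorial _
      have e6 : 1 ≤ 2 ^ k := Nat.one_le_two_pow
      have e7 : Nat.factorial 0 = 1 := rfl
      omega
    · by_contra hcon
      push Not at hcon
      have h5 : Nat.card (Orb (Fin 2) k) < Nat.card (Orb (Fin 3) (f k)) :=
        lt_of_le_of_lt (hle k) hcon
      have h6 := (Nat.factorial_lt hp).2 h5
      omega
  obtain ⟨m, hm⟩ := growth (k1 + 1)
  obtain ⟨k, hk, hkm, hmf⟩ := pigeon (k1 + 1) f hinj (m + 1)
  have hspos : 0 < f k := by omega
  have h1 := hge (f k) hspos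
  have h2' := hcard k hk
  have h3' := hm (f k) (by omega)
  have h4 : f k * Nat.card (Orb (Fin 3) (f k)) ≤ f k * 2 ^ (k1 + 1 + f k) := by
    apply Nat.mul_le_mul_left
    refine h2'.trans ?_
    apply Nat.pow_le_pow_right (by norm_num)
    omega
  omega

end FShift
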