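import Pool.Agent.MP2b057c.Gap

set_option autoImplicit false
set_option linter.unusedSectionVars false

/-!
Full shifts: a visible point of a system of cells has free cells arbitrarily far to the right.
-/

namespace FShift

open scoped Classical commutatorElement

section GapSys

variable {A : Type} {o : A} {R : ℕ} [Fintype A] [TopologicalSpace A] [DiscreteTopology A]
variable {D : Finset (Fin 8 → A)}

lemma repl_single_at {b : ℕ} (x : ℤ → A) (i : ℤ) (c : ℤ → Fin b → A) (l : Fin b) :
    repl x {i} c (i + (l : ℤ)) = c i l :=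
  repl_at (sep_singleton b i) x c (Set.mem_singleton i) l

lemma repl_single_win {b : ℕ} (x : ℤ → A) (i : ℤ) :
    repl x {i} (fun _ => (win x i : Fin b → A)) = x := by
  have h1 := repl_win (sep_singleton b i) x
  conv_rhs => rw [← h1]
  apply repl_congr (sep_singleton b i)
  intro i' hi'
  rw [Set.mem_singleton_iff] at hi'
  rw [hi']

lemma PS.nm_site {T : Sys A 8} {q L : ℤ} {y0 y1 : Fin 17 → A} {x : ℤ → A} {i j : ℤ}
    (h : PS T R q L y0 y1 x i) (hj : j ∈ sites T.E x) : NM R j i := by
  apply h.2.2.2 (win x i) h.2.2.1 j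
  rw [repl_single_win]
  exact hj

lemma PS.gap {T : Sys A 8} {q L : ℤ} {y0 y1 : Fin 17 → A} {x : ℤ → A} {i i' : ℤ}
    (h : PS T R q L y0 y1 x i) (h' : PS T R q L y0 y1 x i') (hlt : i < i') : L + q ≤ i' - i := by
  by_contra hcon
  exact h.2.1 (i' - q) (by omega) (by omega) h'.1

lemma PS_sep {T : Sys A 8} {q L : ℤ} {y0 y1 : Fin 17 → A} {x : ℤ → A} (hqL : 2 * (R : ℤ) + 25 ≤ L + q)
    {S : Set ℤ} (hS : ∀ i ∈ S, PS T R q L y0 y1 x i) : Sep 17 S := by
  intro i hi j hj hij
  push_cast
  rcases lt_or_gt_of_ne hij with h | h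
  · have := (hS i hi).gap (hS j hj) h
    rw [abs_sub_comm, abs_of_pos (by omega)]
    omega
  · have := (hS j hj).gap (hS i hi) h
    rw [abs_of_pos (by omega)]
    omega

/-- Exchanging the letters in the windows of `PS` does not change the free cells. -/
lemma PS_sites (hR : 8 ≤ R) (hD : D ⊆ Wd o) (hne : D.Nonempty) {q L : ℤ} {y0 y1 : Fin 17 → A}
    {x : ℤ → A} (hqL : 2 * (R : ℤ) + 25 ≤ L + q) {S : Set ℤ}
    (hS : ∀ i ∈ S, PS (dsys o hR hD hne) R q L y0 y1 x i) {c : ℤ → Fin 17 → A}
    (hc : ∀ i ∈ S, c i = y0 ∨ c i = y1) :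
    sites (dsys o hR hD hne).E (repl x S c) = sites (dsys o hR hD hne).E x := by
  have hsep := PS_sep hqL hS
  have off : ∀ j : ℤ, (∀ i ∈ S, NM R j i) → ∀ k : ℤ, j - R ≤ k → k < j + 8 + R →
      repl x S c k = x k := by
    intro j hj k h1 h2
    apply repl_off'
    intro i hi
    push_cast
    rcases hj i hi with h | h
    · left; omega
    · right; omega
  ext j
  constructor
  · intro hj
    by_cases hex : ∃ i ∈ S, ¬ NM R j i
    · exfalso
      obtain ⟨i, hi, hnm⟩ := hex
      have hnm' := hnm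
      unfold NM at hnm'
      push Not at hnm'
      obtain ⟨a1, a2⟩ := hnm'
      apply hnm
      apply (hS i hi).2.2.2 (c i) (hc i hi) j
      refine dsys_site_foot hR hD hne ?_ hj
      intro k h1 h2
      by_cases hk : i ≤ k ∧ k < i + 17
      · have hl : (k - i).toNat < 17 := by omega
        have e1 : k = i + (((⟨(k - i).toNat, hl⟩ : Fin 17) : ℕ) : ℤ) := by
          simp only; omega
        rw [e1, repl_at hsep x c hi, repl_single_at]
      · rw [repl_single_off x i _ (by push_cast; omega)]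
        apply repl_off'
        intro i' hi'
        push_cast
        rcases lt_trichotomy i i' with h | h | h
        · have := (hS i hi).gap (hS i' hi') h
          omega
        · subst h
          omega
        · have := (hS i' hi').gap (hS i hi) h
          omega
    · push Not at hex
      exact dsys_site_foot hR hD hne (off j hex) hj
  · intro hj
    have h1 : ∀ i ∈ S, NM R j i := fun i hi => (hS i hi).nm_site hj
    exact dsys_site_foot hR hD hne (fun k a b => (off j h1 k a b).symm) hj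

lemma PS_sh {T : Sys A 8} {q L : ℤ} {y0 y1 : Fin 17 → A} {x : ℤ → A} {i a : ℤ} :
    PS T R q L y0 y1 (sh a x) i ↔ PS T R q L y0 y1 x (i + a) := by
  have e : ∀ y : Fin 17 → A, repl (sh a x) {i} (fun _ => y) = sh a (repl x {i + a} (fun _ => y)) := by
    intro y
    rw [sh_repl _ _ _ (sep_singleton 17 (i + a))]
    congr 1
    ext k
    simp
  unfold PS
  simp only [sites_sh, win_sh, e]
  constructor
  · rintro ⟨h1, h2, h3, h4⟩
    refine ⟨by rw [show i + a - q = i - q + a by ring]; exact h1, ?_, h3, ?_⟩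
    · intro j hj1 hj2 hj3
      apply h2 (j - a) (by omega) (by omega)
      rw [sub_add_cancel]; exact hj3
    · intro y hy j hj
      have := h4 y hy (j - a) (by rw [sub_add_cancel]; exact hj)
      unfold NM at this ⊢
      omega
  · rintro ⟨h1, h2, h3, h4⟩
    refine ⟨by rw [show i - q + a = i + a - q by ring]; exact h1, ?_, h3, ?_⟩
    · intro j hj1 hj2 hj3
      exact h2 (j + a) (by omega) (by omega) hj3
    · intro y hy j hj
      have := h4 y hy (j + a) hj
      unfold NM at this ⊢
      omega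

lemma PS_local (hR : 8 ≤ R) (hD : D ⊆ Wd o) (hne : D.Nonempty) {q L : ℤ} (hq : 0 ≤ q) (hL : 0 ≤ L)
    {y0 y1 : Fin 17 → A} {x y : ℤ → A}
    (hxy : ∀ k : ℤ, |k| ≤ q + L + 2 * R + 40 → x k = y k)
    (h : PS (dsys o hR hD hne) R q L y0 y1 x 0) : PS (dsys o hR hD hne) R q L y0 y1 y 0 := by
  obtain ⟨h1, h2, h3, h4⟩ := h
  refine ⟨?_, ?_, ?_, ?_⟩
  · refine dsys_site_foot hR hD hne ?_ h1
    intro k a b
    apply hxy
    rw [abs_le]; omega
  · intro j hj1 hj2 hj3
    apply h2 j hj1 hj2
    refine dsys_site_foot hR hD hne ?_ hj3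
    intro k a b
    symm
    apply hxy
    rw [abs_le]; omega
  · have : (win y 0 : Fin 17 → A) = win x 0 := by
      ext l
      have := l.2
      symm
      apply hxy
      rw [abs_le]; omega
    rw [this]
    exact h3
  · intro z hz j hj
    by_contra hnm
    apply hnm
    unfold NM at hnm
    push Not at hnm
    apply h4 z hz j
    refine dsys_site_foot hR hD hne ?_ hj
    intro k a b
    by_cases hk : 0 ≤ k ∧ k < 17
    · have hl : k.toNat < 17 := by omega
      have e1 : k = 0 + (((⟨k.toNat, hl⟩ : Fin 17) : ℕ) : ℤ) := by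
        simp only; omega
      rw [e1, repl_single_at, repl_single_at]
    · rw [repl_single_off y 0 _ (by push_cast; omega), repl_single_off x 0 _ (by push_cast; omega)]
      symm
      apply hxy
      rw [abs_le]; omega

/-- `PS` is preserved by exchanges. -/
lemma PS_repl (hR : 8 ≤ R) (hD : D ⊆ Wd o) (hne : D.Nonempty) {q L : ℤ} {y0 y1 : Fin 17 → A}
    {x : ℤ → A} (hqL : 2 * (R : ℤ) + 25 ≤ L + q) {S : Set ℤ}
    (hS : ∀ i ∈ S, PS (dsys o hR hD hne) R q L y0 y1 x i) {c : ℤ → Fin 17 → A}
    (hc : ∀ i ∈ S, c i = y0 ∨ c i = y1) {i : ℤ} (hi : i ∈ S) :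
    PS (dsys o hR hD hne) R q L y0 y1 (repl x S c) i := by
  have hsep := PS_sep hqL hS
  have hs := PS_sites hR hD hne hqL hS hc
  obtain ⟨h1, h2, h3, h4⟩ := hS i hi
  refine ⟨by rw [hs]; exact h1, by rw [hs]; exact h2, ?_, ?_⟩
  · rw [win_repl hsep x c hi]
    exact hc i hi
  · intro y hy j hj
    set c' : ℤ → Fin 17 → A := fun i' => if i' = i then y else c i' with hc'
    have e : repl (repl x S c) {i} (fun _ => y) = repl x S c' := by
      have hsub : ({i} : Set ℤ) ⊆ S := by
        intro i' hi'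
        rw [Set.mem_singleton_iff] at hi'
        rw [hi']; exact hi
      rw [repl_sub hsep hsub, repl_repl hsep]
      apply repl_congr hsep
      intro i' hi'
      simp only [hc', Set.mem_singleton_iff]
      split_ifs with h
      · rfl
      · exact win_repl hsep x c hi'
    rw [e, PS_sites hR hD hne hqL hS (c := c')] at hj
    · exact (hS i hi).nm_site hj
    · intro i' hi'
      simp only [hc']
      split_ifs with h
      · exact hy
      · exact hc i' hi'

/-- The system of the windows of `PS`. -/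
noncomputable def gsys (hR : 8 ≤ R) (hD : D ⊆ Wd o) (hne : D.Nonempty) {q L : ℤ} (hq : 0 ≤ q)
    (hL : 0 ≤ L) (hqL : 2 * (R : ℤ) + 25 ≤ L + q) (y0 y1 : Fin 17 → A) : Sys A 17 where
  E := {x | PS (dsys o hR hD hne) R q L y0 y1 x 0}
  D := {y0, y1}
  d := y0
  hd := Finset.mem_insert_self _ _
  clopen := by
    apply isClopen_of_radius _ (q + L + 2 * R + 40).toNat
    intro x y h hx
    apply PS_local hR hD hne hq hL _ hx
    intro k hk
    apply h
    omega
  win_mem := by
    intro x hx
    rw [Finset.mem_insert, Finset.mem_singleton]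
    exact hx.2.2.1
  sep := by
    intro x hx j hj hjx
    have h1 : PS (dsys o hR hD hne) R q L y0 y1 x (0 + j) := PS_sh.1 hjx
    rw [zero_add] at h1
    have h0 : PS (dsys o hR hD hne) R q L y0 y1 x 0 := hx
    have h2 := PS_sep (S := {0, j}) hqL (x := x) (T := dsys o hR hD hne) (y0 := y0) (y1 := y1) (by
      rintro i (rfl | hi)
      · exact h0
      · rw [Set.mem_singleton_iff] at hi
        rw [hi]; exact h1) j (by simp) 0 (by simp) hj
    simpa using h2
  inv := by
    intro x hx c hc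
    have hS : ∀ i ∈ sites {x | PS (dsys o hR hD hne) R q L y0 y1 x 0} x,
        PS (dsys o hR hD hne) R q L y0 y1 x i := by
      intro i hi
      have : PS (dsys o hR hD hne) R q L y0 y1 x (0 + i) := PS_sh.1 hi
      rwa [zero_add] at this
    have h0 : (0 : ℤ) ∈ sites {x | PS (dsys o hR hD hne) R q L y0 y1 x 0} x := by
      show sh 0 x ∈ {x | PS (dsys o hR hD hne) R q L y0 y1 x 0}
      rw [sh_zero]
      exact hx
    apply PS_repl hR hD hne hqL hS _ h0
    intro i _
    have := hc i
    rwa [Finset.mem_insert, Finset.mem_singleton] at this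

lemma mem_gsys (hR : 8 ≤ R) (hD : D ⊆ Wd o) (hne : D.Nonempty) {q L : ℤ} (hq : 0 ≤ q)
    (hL : 0 ≤ L) (hqL : 2 * (R : ℤ) + 25 ≤ L + q) (y0 y1 : Fin 17 → A) (x : ℤ → A) (i : ℤ) :
    i ∈ sites (gsys hR hD hne hq hL hqL y0 y1).E x ↔ PS (dsys o hR hD hne) R q L y0 y1 x i := by
  have : i ∈ sites (gsys hR hD hne hq hL hqL y0 y1).E x ↔
    PS (dsys o hR hD hne) R q L y0 y1 (sh i x) 0 := Iff.rfl
  rw [this, PS_sh, zero_add]

/-- Changing the contents of the free cells preserves `PS`. -/
lemma PS_fill (hR : 8 ≤ R) (hD : D ⊆ Wd o) (hne : D.Nonempty) {q L : ℤ} {y0 y1 : Fin 17 → A}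
    (hqL : 2 * (R : ℤ) + 25 ≤ L + q) {x : ℤ → A} {i : ℤ}
    (h : PS (dsys o hR hD hne) R q L y0 y1 x i) {c : ℤ → Fin 8 → A}
    (hc : ∀ j, c j ∈ (dsys o hR hD hne).D) :
    PS (dsys o hR hD hne) R q L y0 y1 ((dsys o hR hD hne).fill x c) i ∧
      (win ((dsys o hR hD hne).fill x c) i : Fin 17 → A) = win x i := by
  set T := dsys o hR hD hne with hT
  have hs := T.sites_fill x c hc
  have hoff : ∀ k : ℤ, i ≤ k → k < i + 17 → ∀ j ∈ sites T.E x, k < j ∨ j + 8 ≤ k := by
    intro k h1 h2 j hj
    rcases h.nm_site hj with h3 | h3 <;> omega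
  have hw : (win (T.fill x c) i : Fin 17 → A) = win x i := by
    ext l
    have := l.2
    apply repl_off'
    intro j hj
    push_cast
    exact hoff _ (by omega) (by omega) j hj
  refine ⟨⟨by rw [hs]; exact h.1, by rw [hs]; exact h.2.1, by rw [hw]; exact h.2.2.1, ?_⟩, hw⟩
  intro y hy j hj
  have hsing : ∀ i' ∈ ({i} : Set ℤ), PS T R q L y0 y1 x i' := by
    intro i' hi'
    rw [Set.mem_singleton_iff] at hi'
    rw [hi']; exact h
  have hs1 : sites T.E (repl x {i} (fun _ => y)) = sites T.E x :=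
    PS_sites hR hD hne hqL hsing (fun _ _ => hy)
  have e : repl (T.fill x c) {i} (fun _ => y) = T.fill (repl x {i} (fun _ => y)) c := by
    unfold Sys.fill
    rw [hs1]
    ext k
    by_cases hk : i ≤ k ∧ k < i + 17
    · have hl : (k - i).toNat < 17 := by omega
      have e1 : k = i + (((⟨(k - i).toNat, hl⟩ : Fin 17) : ℕ) : ℤ) := by
        simp only; omega
      have e2 : repl (repl x {i} (fun _ => y)) (sites T.E x) c k = repl x {i} (fun _ => y) k := by
        apply repl_off'
        intro j hj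
        push_cast
        exact hoff k hk.1 hk.2 j hj
      rw [e2, e1, repl_single_at, repl_single_at]
    · have hk' : k < i ∨ i + (17 : ℕ) ≤ k := by push_cast; omega
      rw [repl_single_off _ i _ hk']
      rcases repl_cases (b := 8) (S := sites T.E x) k with ⟨j, hj, l, rfl⟩ | hk2
      · rw [repl_at (T.sep_sites x) _ _ hj, repl_at (T.sep_sites x) _ _ hj]
      · rw [repl_off _ _ hk2, repl_off _ _ hk2, repl_single_off _ i _ hk']
  rw [e, T.sites_fill _ c hc, hs1] at hj
  exact h.nm_site hj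

lemma PS_fill_iff (hR : 8 ≤ R) (hD : D ⊆ Wd o) (hne : D.Nonempty) {q L : ℤ} {y0 y1 : Fin 17 → A}
    (hqL : 2 * (R : ℤ) + 25 ≤ L + q) {x : ℤ → A} {i : ℤ} {c : ℤ → Fin 8 → A}
    (hc : ∀ j, c j ∈ (dsys o hR hD hne).D) :
    PS (dsys o hR hD hne) R q L y0 y1 ((dsys o hR hD hne).fill x c) i ↔
      PS (dsys o hR hD hne) R q L y0 y1 x i := by
  constructor
  · intro h
    set T := dsys o hR hD hne with hT
    set c' : ℤ → Fin 8 → A := fun j => if j ∈ sites T.E x then win x j else T.d with hc'
    have hc'D : ∀ j, c' j ∈ T.D := by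
      intro j
      simp only [hc']
      split_ifs with h1
      · exact T.win_mem_sites x h1
      · exact T.hd
    have e : T.fill (T.fill x c) c' = x := by
      rw [T.fill_fill x c c' hc]
      conv_rhs => rw [← T.fill_win x]
      apply T.fill_congr
      intro j hj
      simp only [hc', if_pos hj]
    have := (PS_fill hR hD hne hqL h hc'D).1
    rwa [← hT, e] at this
  · intro h
    exact (PS_fill hR hD hne hqL h hc).1

end GapSys

section Main

variable {A : Type} {o : A} {R : ℕ} [Fintype A] [TopologicalSpace A] [DiscreteTopology A]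
variable {D : Finset (Fin 8 → A)}

lemma swap_mem_gsys (hR : 8 ≤ R) (hD : D ⊆ Wd o) (hne : D.Nonempty) {q L : ℤ} (hq : 0 ≤ q)
    (hL : 0 ≤ L) (hqL : 2 * (R : ℤ) + 25 ≤ L + q) (y0 y1 : Fin 17 → A) :
    Equiv.swap y0 y1 ∈ (gsys hR hD hne hq hL hqL y0 y1).PD := by
  intro w hw
  have hw' : w ∉ ({y0, y1} : Finset (Fin 17 → A)) := hw
  rw [Finset.mem_insert, Finset.mem_singleton] at hw'
  push Not at hw'
  exact Equiv.swap_apply_of_ne_of_ne hw'.1 hw'.2

/-- The exchange of `y0` and `y1`. -/
noncomputable def gam (hR : 8 ≤ R) (hD : D ⊆ Wd o) (hne : D.Nonempty) {q L : ℤ} (hq : 0 ≤ q)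
    (hL : 0 ≤ L) (hqL : 2 * (R : ℤ) + 25 ≤ L + q) (y0 y1 : Fin 17 → A) : G A :=
  (gsys hR hD hne hq hL hqL y0 y1).ga Set.univ (Equiv.swap y0 y1)

lemma gam_apply (hR : 8 ≤ R) (hD : D ⊆ Wd o) (hne : D.Nonempty) {q L : ℤ} (hq : 0 ≤ q)
    (hL : 0 ≤ L) (hqL : 2 * (R : ℤ) + 25 ≤ L + q) (y0 y1 : Fin 17 → A) (x : ℤ → A) :
    (gam hR hD hne hq hL hqL y0 y1).1 x =
      repl x {i | PS (dsys o hR hD hne) R q L y0 y1 x i} (fun i => Equiv.swap y0 y1 (win x i)) := by
  unfold gam
  rw [Sys.ga_apply _ isClopen_univ (swap_mem_gsys hR hD hne hq hL hqL y0 y1)]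
  unfold Sys.act
  have e : sites (gsys hR hD hne hq hL hqL y0 y1).E x =
      {i | PS (dsys o hR hD hne) R q L y0 y1 x i} := by
    ext i
    rw [mem_gsys]
    rfl
  rw [e]
  have hsep : Sep 17 {i | PS (dsys o hR hD hne) R q L y0 y1 x i} := PS_sep hqL (fun i hi => hi)
  apply repl_congr hsep
  intro i hi
  rw [← e] at hi
  unfold Sys.gF
  rw [if_pos ⟨hi, Set.mem_univ _⟩]

lemma swap_cases {W : Type} [DecidableEq W] {y0 y1 w : W} (h : w = y0 ∨ w = y1) :
    Equiv.swap y0 y1 w = y0 ∨ Equiv.swap y0 y1 w = y1 := by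
  rcases h with rfl | rfl
  · right; exact Equiv.swap_apply_left _ _
  · left; exact Equiv.swap_apply_right _ _

lemma gam_compat (hR : 8 ≤ R) (hD : D ⊆ Wd o) (hne : D.Nonempty) {q L : ℤ} (hq : 0 ≤ q)
    (hL : 0 ≤ L) (hqL : 2 * (R : ℤ) + 25 ≤ L + q) (y0 y1 : Fin 17 → A) :
    (dsys o hR hD hne).Compat (gam hR hD hne hq hL hqL y0 y1) := by
  set T := dsys o hR hD hne with hT
  have hsites : ∀ x, sites T.E ((gam hR hD hne hq hL hqL y0 y1).1 x) = sites T.E x := by
    intro x
    rw [gam_apply]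
    exact PS_sites hR hD hne hqL (fun i hi => hi) (fun i hi => swap_cases hi.2.2.1)
  constructor
  · intro x
    have h0 : (0 : ℤ) ∈ sites T.E ((gam hR hD hne hq hL hqL y0 y1).1 x) ↔ (0 : ℤ) ∈ sites T.E x := by
      rw [hsites]
    simpa [sites] using h0
  · intro x c hc
    have hset : {i | PS T R q L y0 y1 (T.fill x c) i} = {i | PS T R q L y0 y1 x i} := by
      ext i
      exact PS_fill_iff hR hD hne hqL hc
    have hsep : Sep 17 {i | PS T R q L y0 y1 x i} := PS_sep hqL (fun i hi => hi)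
    have hs := hsites x
    rw [gam_apply, ← hT, hset]
    unfold Sys.fill
    rw [hs, gam_apply, ← hT]
    ext k
    rcases repl_cases (b := 17) (S := {i | PS T R q L y0 y1 x i}) k with ⟨i, hi, l, rfl⟩ | hk
    · rw [repl_at hsep _ _ hi]
      have h1 := (PS_fill hR hD hne hqL hi hc).2
      rw [← hT] at h1
      unfold Sys.fill at h1
      rw [h1]
      have h2 : repl (repl x {i | PS T R q L y0 y1 x i} (fun i => Equiv.swap y0 y1 (win x i)))
          (sites T.E x) c (i + (l : ℤ)) =
          repl x {i | PS T R q L y0 y1 x i} (fun i => Equiv.swap y0 y1 (win x i)) (i + (l : ℤ)) := by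
        apply repl_off'
        intro j hj
        have := l.2
        push_cast
        rcases (show PS T R q L y0 y1 x i from hi).nm_site hj with h3 | h3 <;> omega
      rw [h2, repl_at hsep _ _ hi]
    · rw [repl_off _ _ hk]
      rcases repl_cases (b := 8) (S := sites T.E x) k with ⟨j, hj, l, rfl⟩ | hk2
      · rw [repl_at (T.sep_sites x) _ _ hj, repl_at (T.sep_sites x) _ _ hj]
      · rw [repl_off _ _ hk2, repl_off _ _ hk2, repl_off _ _ hk]

end Main

section B

variable {A : Type} [Fintype A] [TopologicalSpace A] [DiscreteTopology A]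

/-- A visible point of a system of cells has free cells arbitrarily far to the right. -/
theorem vis_site_gt {o e : A} (hoe : o ≠ e) {R : ℕ} (hR : 8 ≤ R) {D : Finset (Fin 8 → A)} (hD : D ⊆ Wd o)
    (hne : D.Nonempty) (h5 : 5 ≤ D.card) {M : Subgroup (G A)} (hM : M.Normal) (hfin : M.FiniteIndex)
    {ξ : ℤ → A} (hξ : ξ ∈ (dsys o hR hD hne).vis M) (m : ℤ) :
    ∃ j, m < j ∧ j ∈ sites (dsys o hR hD hne).E ξ := by
  by_contra hcon
  push Not at hcon
  set T := dsys o hR hD hne with hT
  -- the last site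
  have h0 : (0 : ℤ) ∈ sites T.E ξ := by
    show sh 0 ξ ∈ T.E
    rw [sh_zero]
    exact T.vis_mem_E hξ
  obtain ⟨m0, hm0, hmax⟩ : ∃ m0 ∈ sites T.E ξ, ∀ j ∈ sites T.E ξ, j ≤ m0 := by
    have hb : ∃ b : ℤ, ∀ z : ℤ, z ∈ sites T.E ξ → z ≤ b := by
      refine ⟨m, fun z hz => ?_⟩
      by_contra h
      exact hcon z (by omega) hz
    obtain ⟨ub, h1, h2⟩ := Int.exists_greatest_of_bdd hb ⟨0, h0⟩
    exact ⟨ub, h1, h2⟩
  -- the parameters
  set L : ℤ := 2 * R + 60 with hLdef
  have hL : 0 ≤ L := by omega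
  set q : ℕ → ℤ := fun n => 2 * R + 40 + 17 * n with hqdef
  have hq : ∀ n, 0 ≤ q n := fun n => by simp only [hqdef]; positivity
  have hqge : ∀ n, 2 * (R : ℤ) + 40 ≤ q n := fun n => by
    simp only [hqdef]; omega
  have hqL : ∀ n, 2 * (R : ℤ) + 25 ≤ L + q n := fun n => by
    have := hqge n
    omega
  set y0 : ℕ → Fin 17 → A := fun n => win ξ (m0 + q n) with hy0
  set y1 : ℕ → Fin 17 → A := fun n => if y0 n = kw1 e then kw2 o e else kw1 e with hy1
  have hy1k : ∀ n, y1 n = kw1 e ∨ y1 n = kw2 o e := by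
    intro n
    simp only [hy1]
    split_ifs
    · right; rfl
    · left; rfl
  have hy1ne : ∀ n, y1 n ≠ y0 n := by
    intro n
    simp only [hy1]
    split_ifs with h
    · rw [h]; exact (kw_ne hoe).symm
    · exact fun h' => h h'.symm
  have hPS : ∀ n, PS T R (q n) L (y0 n) (y1 n) ξ (m0 + q n) := by
    intro n
    have hqn := hqge n
    refine ⟨by rw [add_sub_cancel_right]; exact hm0, ?_, Or.inl rfl, ?_⟩
    · intro j hj1 hj2 hj3
      have := hmax j hj3
      omega
    · intro y hy j hj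
      rcases hy with rfl | rfl
      · have e1 : repl ξ {m0 + q n} (fun _ => y0 n) = ξ := repl_single_win ξ (m0 + q n)
        rw [e1] at hj
        have := hmax j hj
        left
        omega
      · apply kill hR hoe (z := repl ξ {m0 + q n} (fun _ => y1 n))
        · rw [win_repl (sep_singleton 17 _) _ _ (Set.mem_singleton _)]
          exact hy1k n
        · exact isCell_of_site hj
  set η : ℕ → (ℤ → A) := fun n =>
    (gam hR hD hne (hq n) hL (hqL n) (y0 n) (y1 n)).1 ξ with hη
  have hηvis : ∀ n, η n ∈ T.vis M := fun n =>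
    (gam_compat hR hD hne (hq n) hL (hqL n) (y0 n) (y1 n)).vis_mem hM hξ
  have hsep : ∀ n, Sep 17 {i | PS T R (q n) L (y0 n) (y1 n) ξ i} := fun n =>
    PS_sep (hqL n) (fun i hi => hi)
  have hwin : ∀ n, (win (η n) (m0 + q n) : Fin 17 → A) = y1 n := by
    intro n
    simp only [hη]
    rw [gam_apply, ← hT, win_repl (hsep n) _ _ (hPS n)]
    exact Equiv.swap_apply_left _ _
  have hagree : ∀ n k, m0 < k → (k < m0 + q n ∨ m0 + q n + 17 ≤ k) → η n k = ξ k := by
    intro n k hk1 hk2
    simp only [hη]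
    rw [gam_apply, ← hT]
    apply repl_off'
    intro i hi
    push_cast
    have hi' : PS T R (q n) L (y0 n) (y1 n) ξ i := hi
    have h1 := hmax _ hi'.1
    rcases lt_trichotomy i (m0 + q n) with h | h | h
    · have := hi'.gap (hPS n) h
      right
      omega
    · subst h
      exact hk2
    · omega
  have hinj : Function.Injective η := by
    have key : ∀ n n', n < n' → η n ≠ η n' := by
      intro n n' hlt heq
      apply hy1ne n
      rw [← hwin n, heq]
      ext l
      have hl := l.2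
      have hqn := hqge n
      apply hagree n'
      · omega
      · left
        simp only [hqdef]
        have : (n : ℤ) + 1 ≤ n' := by exact_mod_cast hlt
        omega
    intro n n' heq
    by_contra hne'
    rcases lt_or_gt_of_ne hne' with h | h
    · exact key n n' h heq
    · exact key n' n h heq.symm
  have hinf : (T.vis M).Infinite := by
    apply Set.infinite_of_injective_forall_mem hinj hηvis
  exact hinf (T.vis_finite hM hfin h5)

end B

end FShift
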