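import Pool.Agent.MP2b057c.OrbDefs
import Pool.Agent.MP2b057c.Seq
import Pool.Agent.MP2b057c.Count

set_option autoImplicit false
set_option linter.unusedSectionVars false

/-!
Package T: the automorphism group acts on the orbits of least period `s` as the full symmetric
group, if there are at least three letters.
-/

namespace FShift

open scoped Classical

section T
variable {A : Type}

/-- The pattern with holes: the letters of `x` off the multiples of `s`, and `x 0` or `x' 0` at the
multiples of `s`. -/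
def tE (s : ℕ) (x x' : ℤ → A) : Set (ℤ → A) :=
  {z | ∀ k : ℤ, |k| ≤ 2 * (s : ℤ) →
    (¬ (s : ℤ) ∣ k → z k = x k) ∧ ((s : ℤ) ∣ k → z k = x 0 ∨ z k = x' 0)}

lemma tE_dvd {s : ℕ} {x x' : ℤ → A} (hx : LP s x) (hx' : LP s x')
    (hag : ∀ k : ℤ, ¬ (s : ℤ) ∣ k → x k = x' k) (hne : x 0 ≠ x' 0) {z : ℤ → A} {i j : ℤ}
    (hi : sh i z ∈ tE s x x') (hj : sh j z ∈ tE s x x') (hij : |j - i| ≤ 2 * (s : ℤ)) :
    (s : ℤ) ∣ j - i := by
  have hs : (0 : ℤ) < s := by exact_mod_cast hx.1
  rw [abs_le] at hij
  refine no_conf hs x x' hx.2.1 hx'.2.1 hag hne hx.2.2 hx'.2.2 (sh i z)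
    (max (-(2 * (s : ℤ))) (j - i - 2 * s)) (min (2 * (s : ℤ)) (j - i + 2 * s)) (j - i) ?_ ?_ ?_
  · rcases le_total 0 (j - i) with h | h
    · rw [max_eq_right (by omega), min_eq_left (by omega)]; omega
    · rw [max_eq_left (by omega), min_eq_right (by omega)]; omega
  · intro k ha hb
    exact hi k (by rw [abs_le]; constructor <;> omega)
  · intro k ha hb
    have := hj (k - (j - i)) (by rw [abs_le]; constructor <;> omega)
    simp only [sh_apply] at this ⊢
    rw [show k - (j - i) + j = k + i by ring] at this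
    exact this

variable [TopologicalSpace A] [DiscreteTopology A] [Fintype A]

/-- The system of windows of length one. -/
noncomputable def tSys {s : ℕ} {x x' : ℤ → A} (hx : LP s x) (hx' : LP s x')
    (hag : ∀ k : ℤ, ¬ (s : ℤ) ∣ k → x k = x' k) (hne : x 0 ≠ x' 0) : Sys A 1 where
  E := tE s x x'
  D := {fun _ => x 0, fun _ => x' 0}
  d := fun _ => x 0
  hd := by simp
  clopen := by
    apply isClopen_of_radius _ (2 * s)
    intro z z' h hz k hk
    rw [← h k (by push_cast; exact hk)]
    exact hz k hk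
  win_mem := by
    intro z hz
    have h := (hz 0 (by simp)).2 (dvd_zero _)
    have e : (win z 0 : Fin 1 → A) = fun _ => z 0 := by
      ext j
      have : j = 0 := Subsingleton.elim _ _
      subst this
      simp
    rw [e]
    rcases h with h | h
    · rw [h]; simp
    · rw [h]; simp
  sep := by
    intro z _ j hj _
    have := Int.one_le_abs hj
    exact_mod_cast this
  inv := by
    intro z hz c hc k hk
    have hs : (0 : ℤ) < s := by exact_mod_cast hx.1
    have hsep : Sep 1 (sites (tE s x x') z) := by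
      intro i _ j _ hij
      have := Int.one_le_abs (sub_ne_zero.2 hij)
      exact_mod_cast this
    have h0 : sh 0 z ∈ tE s x x' := by rw [sh_zero]; exact hz
    constructor
    · intro hsk
      rw [repl_off]
      · exact (hz k hk).1 hsk
      · intro j
        have : j = 0 := Subsingleton.elim _ _
        subst this
        intro hk'
        simp only [Fin.val_zero, Nat.cast_zero, sub_zero] at hk'
        have := tE_dvd hx hx' hag hne h0 hk' (by simpa using hk)
        rw [sub_zero] at this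
        exact hsk this
    · intro hsk
      by_cases hk' : k ∈ sites (tE s x x') z
      · have h1 := repl_at hsep z c hk' (0 : Fin 1)
        simp only [Fin.val_zero, Nat.cast_zero, add_zero] at h1
        rw [h1]
        have h2 := hc k
        simp only [Finset.mem_insert, Finset.mem_singleton] at h2
        rcases h2 with h2 | h2
        · left; rw [h2]
        · right; rw [h2]
      · rw [repl_off]
        · exact (hz k hk).2 hsk
        · intro j
          have : j = 0 := Subsingleton.elim _ _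
          subst this
          simpa using hk'

/-- The rule: exchange the two letters at the free windows. -/
noncomputable def tF {s : ℕ} {x x' : ℤ → A} (hx : LP s x) (hx' : LP s x')
    (hag : ∀ k : ℤ, ¬ (s : ℤ) ∣ k → x k = x' k) (hne : x 0 ≠ x' 0) :
    (ℤ → A) → Equiv.Perm (Fin 1 → A) :=
  fun z => if z ∈ (tSys hx hx' hag hne).E then
    Equiv.swap (fun _ => x 0) (fun _ => x' 0) else 1

lemma tF_good {s : ℕ} {x x' : ℤ → A} (hx : LP s x) (hx' : LP s x')
    (hag : ∀ k : ℤ, ¬ (s : ℤ) ∣ k → x k = x' k) (hne : x 0 ≠ x' 0) :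
    (tSys hx hx' hag hne).Good (tF hx hx' hag hne) := by
  refine ⟨?_, ?_, ?_, ?_⟩
  · apply isLocallyConstant_of_radius _ (2 * s)
    intro z z' h
    have e : z ∈ (tSys hx hx' hag hne).E ↔ z' ∈ (tSys hx hx' hag hne).E := by
      constructor
      · intro hz k hk
        rw [← h k (by push_cast; exact hk)]
        exact hz k hk
      · intro hz k hk
        rw [h k (by push_cast; exact hk)]
        exact hz k hk
    unfold tF
    simp only [e]
  · intro z hz
    unfold tF
    rw [if_neg hz]
  · intro z w hw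
    have hw' : w ≠ (fun _ => x 0) ∧ w ≠ (fun _ => x' 0) := by
      constructor
      · rintro rfl
        apply hw
        show _ ∈ ({fun _ => x 0, fun _ => x' 0} : Finset (Fin 1 → A))
        simp
      · rintro rfl
        apply hw
        show _ ∈ ({fun _ => x 0, fun _ => x' 0} : Finset (Fin 1 → A))
        simp
    unfold tF
    split_ifs
    · exact Equiv.swap_apply_of_ne_of_ne hw'.1 hw'.2
    · rfl
  · intro z c hc
    unfold tF
    simp only [(tSys hx hx' hag hne).fill_mem_iff z c hc]

/-- The automorphism. -/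
noncomputable def tg {s : ℕ} {x x' : ℤ → A} (hx : LP s x) (hx' : LP s x')
    (hag : ∀ k : ℤ, ¬ (s : ℤ) ∣ k → x k = x' k) (hne : x 0 ≠ x' 0) : G A :=
  (tSys hx hx' hag hne).hom ⟨tF hx hx' hag hne, tF_good hx hx' hag hne⟩

lemma tg_off {s : ℕ} {x x' : ℤ → A} (hx : LP s x) (hx' : LP s x')
    (hag : ∀ k : ℤ, ¬ (s : ℤ) ∣ k → x k = x' k) (hne : x 0 ≠ x' 0) (z : ℤ → A) (k : ℤ)
    (hk : sh k z ∉ tE s x x') : (tg hx hx' hag hne).1 z k = z k := by
  unfold tg
  rw [Sys.hom_apply]
  unfold Sys.act
  rw [repl_off]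
  intro j
  have : j = 0 := Subsingleton.elim _ _
  subst this
  rw [Fin.val_zero, Nat.cast_zero, sub_zero]
  exact hk

lemma tg_on {s : ℕ} {x x' : ℤ → A} (hx : LP s x) (hx' : LP s x')
    (hag : ∀ k : ℤ, ¬ (s : ℤ) ∣ k → x k = x' k) (hne : x 0 ≠ x' 0) (z : ℤ → A) (k : ℤ)
    (hk : sh k z ∈ tE s x x') :
    (z k = x 0 → (tg hx hx' hag hne).1 z k = x' 0) ∧
      (z k = x' 0 → (tg hx hx' hag hne).1 z k = x 0) := by
  have h1 : (tg hx hx' hag hne).1 z k =
      Equiv.swap (fun _ => x 0) (fun _ => x' 0) (win z k : Fin 1 → A) 0 := by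
    unfold tg
    rw [Sys.hom_apply]
    unfold Sys.act
    have h2 := repl_at ((tSys hx hx' hag hne).sep_sites z) z
      (fun i => tF hx hx' hag hne (sh i z) (win z i)) (i := k) hk (0 : Fin 1)
    simp only [Fin.val_zero, Nat.cast_zero, add_zero] at h2
    refine h2.trans ?_
    unfold tF
    rw [if_pos]
    exact hk
  have e : (win z k : Fin 1 → A) = fun _ => z k := by
    ext j
    have : j = 0 := Subsingleton.elim _ _
    subst this
    simp
  rw [e] at h1
  constructor
  · intro h
    rw [h1, h, Equiv.swap_apply_left]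
  · intro h
    rw [h1, h, Equiv.swap_apply_right]

/-- A residue in the range. -/
lemma t_res {s : ℕ} (hs : 0 < s) (k : ℤ) : ∃ r : ℤ, |r| ≤ 2 * (s : ℤ) ∧ (s : ℤ) ∣ k - r := by
  obtain ⟨i, hi⟩ := count_res hs k
  refine ⟨((i : ℕ) : ℤ), ?_, hi⟩
  have := i.2
  rw [abs_le]
  constructor <;> omega

/-- Sites of periodic points of the pattern. -/
lemma t_sites {s : ℕ} {x x' : ℤ → A} (hx : LP s x) (hx' : LP s x')
    (hag : ∀ k : ℤ, ¬ (s : ℤ) ∣ k → x k = x' k) (hne : x 0 ≠ x' 0) {z : ℤ → A}
    (hz : IsPer (s : ℤ) z) (hzE : z ∈ tE s x x') (k : ℤ) :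
    sh k z ∈ tE s x x' ↔ (s : ℤ) ∣ k := by
  obtain ⟨r, hr1, hr2⟩ := t_res hx.1 k
  have e : sh k z = sh r z := by
    ext i
    simp only [sh_apply]
    apply per_dvd hz
    rw [show i + k - (i + r) = k - r by ring]
    exact hr2
  constructor
  · intro h
    rw [e] at h
    have h1 := tE_dvd hx hx' hag hne (z := z) (i := 0) (j := r) (by rwa [sh_zero]) h
      (by rwa [sub_zero])
    rw [sub_zero] at h1
    have := dvd_add hr2 h1
    simpa using this
  · intro h
    have e' : sh k z = z := by
      ext i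
      simp only [sh_apply]
      apply per_dvd hz
      rw [show i + k - i = k by ring]
      exact h
    rw [e']
    exact hzE

/-- `tg` maps `x` to `x'`. -/
lemma tg_x {s : ℕ} {x x' : ℤ → A} (hx : LP s x) (hx' : LP s x')
    (hag : ∀ k : ℤ, ¬ (s : ℤ) ∣ k → x k = x' k) (hne : x 0 ≠ x' 0) :
    (tg hx hx' hag hne).1 x = x' := by
  have hE : x ∈ tE s x x' := by
    intro k _
    exact ⟨fun _ => rfl, fun h => Or.inl (per_dvd hx.2.1 (by simpa using h))⟩
  ext k
  by_cases hk : (s : ℤ) ∣ k
  · have h1 := tg_on hx hx' hag hne x k ((t_sites hx hx' hag hne hx.2.1 hE k).2 hk)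
    rw [h1.1 (per_dvd hx.2.1 (by simpa using hk))]
    exact (per_dvd hx'.2.1 (by simpa using hk)).symm
  · rw [tg_off hx hx' hag hne x k (fun h => hk ((t_sites hx hx' hag hne hx.2.1 hE k).1 h))]
    exact hag k hk

/-- `tg` maps `x'` to `x`. -/
lemma tg_x' {s : ℕ} {x x' : ℤ → A} (hx : LP s x) (hx' : LP s x')
    (hag : ∀ k : ℤ, ¬ (s : ℤ) ∣ k → x k = x' k) (hne : x 0 ≠ x' 0) :
    (tg hx hx' hag hne).1 x' = x := by
  have hE : x' ∈ tE s x x' := by
    intro k _
    exact ⟨fun h => (hag k h).symm, fun h => Or.inr (per_dvd hx'.2.1 (by simpa using h))⟩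
  ext k
  by_cases hk : (s : ℤ) ∣ k
  · have h1 := tg_on hx hx' hag hne x' k ((t_sites hx hx' hag hne hx'.2.1 hE k).2 hk)
    rw [h1.2 (per_dvd hx'.2.1 (by simpa using hk))]
    exact (per_dvd hx.2.1 (by simpa using hk)).symm
  · rw [tg_off hx hx' hag hne x' k (fun h => hk ((t_sites hx hx' hag hne hx'.2.1 hE k).1 h))]
    exact (hag k hk).symm

/-- `tg` fixes the other points of period `s`. -/
lemma tg_z {s : ℕ} {x x' : ℤ → A} (hx : LP s x) (hx' : LP s x')
    (hag : ∀ k : ℤ, ¬ (s : ℤ) ∣ k → x k = x' k) (hne : x 0 ≠ x' 0) {z : ℤ → A}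
    (hz : IsPer (s : ℤ) z) (h1 : ¬ SameOrb x z) (h2 : ¬ SameOrb x' z) :
    (tg hx hx' hag hne).1 z = z := by
  ext k
  apply tg_off
  intro hk
  have hp : IsPer (s : ℤ) (sh k z) := isPer_sh k hz
  have key : ∀ y : ℤ → A, IsPer (s : ℤ) y → (∀ i : ℤ, ¬ (s : ℤ) ∣ i → x i = y i) →
      sh k z 0 = y 0 → sh k z = y := by
    intro y hy hxy h0
    ext i
    obtain ⟨r, hr1, hr2⟩ := t_res hx.1 i
    rw [per_dvd hp hr2, per_dvd hy hr2]
    by_cases hr : (s : ℤ) ∣ r
    · rw [per_dvd hp (l := 0) (by simpa using hr), per_dvd hy (l := 0) (by simpa using hr), h0]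
    · rw [← hxy r hr]
      exact (hk r hr1).1 hr
  have hz' : z = sh (-k) (sh k z) := by rw [sh_sh]; simp
  rcases (hk 0 (by simp)).2 (dvd_zero _) with h | h
  · apply h1
    have := key x hx.2.1 (fun _ _ => rfl) h
    exact ⟨-k, by rw [← this]; exact hz'⟩
  · apply h2
    have := key x' hx'.2.1 hag h
    exact ⟨-k, by rw [← this]; exact hz'⟩

lemma orbHom_tg {s : ℕ} {x x' : ℤ → A} (hx : LP s x) (hx' : LP s x')
    (hag : ∀ k : ℤ, ¬ (s : ℤ) ∣ k → x k = x' k) (hne : x 0 ≠ x' 0) :
    orbHom A s (tg hx hx' hag hne) = Equiv.swap (orbMk x hx) (orbMk x' hx') := by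
  ext q
  induction q using orb_ind with
  | h z hz =>
    by_cases h1 : SameOrb x z
    · have e : orbMk z hz = orbMk x hx := ((orbMk_eq hx hz).2 h1).symm
      rw [e, Equiv.swap_apply_left, orbHom_mk]
      simp only [tg_x]
    · by_cases h2 : SameOrb x' z
      · have e : orbMk z hz = orbMk x' hx' := ((orbMk_eq hx' hz).2 h2).symm
        rw [e, Equiv.swap_apply_right, orbHom_mk]
        simp only [tg_x']
      · rw [Equiv.swap_apply_of_ne_of_ne, orbHom_mk]
        · simp only [tg_z hx hx' hag hne hz.2.1 h1 h2]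
        · intro h; exact h1 ((orbMk_eq hx hz).1 h.symm)
        · intro h; exact h2 ((orbMk_eq hx' hz).1 h.symm)

/-- Linked orbits: the transposition is in the image. -/
def TRel (s : ℕ) (q q' : Orb A s) : Prop := Equiv.swap q q' ∈ (orbHom A s).range

lemma TRel.refl {s : ℕ} (q : Orb A s) : TRel s q q := by
  unfold TRel
  rw [Equiv.swap_self]
  exact (orbHom A s).range.one_mem

lemma TRel.symm {s : ℕ} {q q' : Orb A s} (h : TRel s q q') : TRel s q' q := by
  unfold TRel at *
  rwa [Equiv.swap_comm]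

lemma TRel.trans {s : ℕ} {q q' q'' : Orb A s} (h : TRel s q q') (h' : TRel s q' q'') :
    TRel s q q'' := by
  by_cases e1 : q = q''
  · subst e1; exact TRel.refl _
  by_cases e2 : q = q'
  · subst e2; exact h'
  by_cases e3 : q' = q''
  · subst e3; exact h
  unfold TRel at *
  rw [Equiv.swap_comm q q'', ← Equiv.swap_mul_swap_mul_swap e2 e1]
  exact mul_mem (mul_mem h' h) h'

/-- Change the letter at the residue class of `r`. -/
noncomputable def tupd (s : ℕ) (z : ℤ → A) (r : ℤ) (a : A) : ℤ → A :=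
  fun k => if (s : ℤ) ∣ k - r then a else z k

lemma tupd_per {s : ℕ} {z : ℤ → A} (hz : IsPer (s : ℤ) z) (r : ℤ) (a : A) :
    IsPer (s : ℤ) (tupd s z r a) := by
  intro k
  unfold tupd
  have h : ((s : ℤ) ∣ k + s - r) ↔ ((s : ℤ) ∣ k - r) := by
    rw [show k + (s : ℤ) - r = k - r + s by ring]
    simp
  simp only [h, hz k]

lemma tupd_at (s : ℕ) (z : ℤ → A) (r : ℤ) (a : A) : tupd s z r a r = a := by
  unfold tupd
  simp

/-- One edge of the graph. -/
lemma TRel.edge {s : ℕ} {z z' : ℤ → A} (hz : LP s z) (hz' : LP s z') (r : ℤ)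
    (h : ∀ k : ℤ, ¬ (s : ℤ) ∣ k - r → z k = z' k) : TRel s (orbMk z hz) (orbMk z' hz') := by
  by_cases hne : z r = z' r
  · have e : z = z' := by
      ext k
      by_cases hk : (s : ℤ) ∣ k - r
      · rw [per_dvd hz.2.1 hk, per_dvd hz'.2.1 hk, hne]
      · exact h k hk
    subst e
    exact TRel.refl _
  · have h1 : orbMk z hz = orbMk (sh r z) (LP_sh r hz) := (orbMk_eq _ _).2 ⟨r, rfl⟩
    have h2 : orbMk z' hz' = orbMk (sh r z') (LP_sh r hz') := (orbMk_eq _ _).2 ⟨r, rfl⟩
    rw [h1, h2]
    refine ⟨tg (LP_sh r hz) (LP_sh r hz') ?_ ?_, orbHom_tg _ _ _ _⟩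
    · intro k hk
      simp only [sh_apply]
      apply h
      simpa using hk
    · simpa using hne

/-- Points with the letter `a2` exactly at the multiples of `s`. -/
def TNice (s : ℕ) (a2 : A) (z : ℤ → A) : Prop :=
  0 < s ∧ IsPer (s : ℤ) z ∧ ∀ k : ℤ, z k = a2 ↔ (s : ℤ) ∣ k

lemma TNice.LP {s : ℕ} {a2 : A} {z : ℤ → A} (h : TNice s a2 z) : LP s z := by
  refine ⟨h.1, h.2.1, fun j hj => ?_⟩
  rw [← h.2.2 j]
  have := hj 0
  rw [zero_add] at this
  rw [this]
  exact (h.2.2 0).2 (dvd_zero _)

/-- The weight of a letter. -/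
noncomputable def tw (a0 a2 a : A) : ℕ := if a = a0 then 0 else if a = a2 then 2 else 1

/-- The weight of a point. -/
noncomputable def tΦ (s : ℕ) (a0 a2 : A) (z : ℤ → A) : ℕ :=
  ∑ i ∈ Finset.range s, tw a0 a2 (z i)

lemma tΦ_lt {s : ℕ} {a0 a2 : A} {z : ℤ → A} {i : ℕ} (hi : i < s) {a : A}
    (h : tw a0 a2 a < tw a0 a2 (z i)) : tΦ s a0 a2 (tupd s z i a) < tΦ s a0 a2 z := by
  unfold tΦ
  apply Finset.sum_lt_sum
  · intro j hj
    rw [Finset.mem_range] at hj
    by_cases hd : (s : ℤ) ∣ (j : ℤ) - i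
    · have : j = i := by
        obtain ⟨m, hm⟩ := hd
        have hm0 : m = 0 := by
          by_contra hne
          rcases lt_or_gt_of_ne hne with h1 | h1
          · have : (s : ℤ) * m ≤ (s : ℤ) * (-1) := by
              apply mul_le_mul_of_nonneg_left <;> omega
            omega
          · have : (s : ℤ) * 1 ≤ (s : ℤ) * m := by
              apply mul_le_mul_of_nonneg_left <;> omega
            omega
        rw [hm0] at hm
        omega
      subst this
      rw [tupd_at]
      exact h.le
    · unfold tupd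
      rw [if_neg hd]
  · refine ⟨i, Finset.mem_range.2 hi, ?_⟩
    rw [tupd_at]
    exact h

/-- The standard point. -/
noncomputable def tstd (s : ℕ) (a0 a2 : A) : ℤ → A := fun k => if (s : ℤ) ∣ k then a2 else a0

lemma tstd_nice {s : ℕ} (hs : 0 < s) {a0 a2 : A} (h : a0 ≠ a2) : TNice s a2 (tstd s a0 a2) := by
  refine ⟨hs, fun k => ?_, fun k => ?_⟩
  · unfold tstd
    have : ((s : ℤ) ∣ k + s) ↔ (s : ℤ) ∣ k := by simp
    simp only [this]
  · unfold tstd
    by_cases hk : (s : ℤ) ∣ k
    · simp [hk]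
    · simp [hk, h]

lemma t_conn {s : ℕ} (hs : 0 < s) {a0 a1 a2 : A} (h01 : a0 ≠ a1) (h02 : a0 ≠ a2) (h12 : a1 ≠ a2)
    (n : ℕ) : ∀ (z : ℤ → A) (hz : LP s z), z 0 = a2 → tΦ s a0 a2 z = n →
      TRel s (orbMk z hz) (orbMk (tstd s a0 a2) (tstd_nice hs h02).LP) := by
  induction n using Nat.strong_induction_on with
  | _ n ih =>
    intro z hz hz0 hn
    by_cases hA : ∃ i : ℕ, 0 < i ∧ i < s ∧ z i = a2
    · obtain ⟨i, hi0, his, hia⟩ := hA
      -- at least one of the two replacements is primitive
      have hsi : ¬ (s : ℤ) ∣ (0 : ℤ) - i := by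
        intro hd
        rw [zero_sub, dvd_neg] at hd
        have := Int.le_of_dvd (by omega) hd
        omega
      have hor := prim_or (s := (s : ℤ)) (sh i (tupd s z i a0)) (sh i (tupd s z i a1))
        (isPer_sh _ (tupd_per hz.2.1 _ _)) (by
          intro k hk
          simp only [sh_apply]
          unfold tupd
          rw [if_neg (by simpa using hk), if_neg (by simpa using hk)]) (by
          simp only [sh_apply, zero_add, tupd_at]
          exact h01)
      have step : ∀ a : A, tw a0 a2 a < 2 → LP s (tupd s z i a) →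
          TRel s (orbMk z hz) (orbMk (tstd s a0 a2) (tstd_nice hs h02).LP) := by
        intro a ha hLP
        have hlt : tΦ s a0 a2 (tupd s z i a) < n := by
          rw [← hn]
          apply tΦ_lt his
          rw [hia]
          unfold tw at ha ⊢
          rw [if_neg (Ne.symm h02), if_pos rfl]
          exact ha
        refine TRel.trans (TRel.edge hz hLP i ?_) (ih _ hlt _ hLP ?_ rfl)
        · intro k hk
          unfold tupd
          rw [if_neg hk]
        · unfold tupd
          rw [if_neg hsi, hz0]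
      rcases hor with hor | hor
      · apply step a0
        · unfold tw; simp
        · refine ⟨hs, tupd_per hz.2.1 _ _, fun j hj => hor j ?_⟩
          exact (isPer_sh_iff (i : ℤ)).2 hj
      · apply step a1
        · unfold tw
          rw [if_neg (Ne.symm h01), if_neg h12]
          norm_num
        · refine ⟨hs, tupd_per hz.2.1 _ _, fun j hj => hor j ?_⟩
          exact (isPer_sh_iff (i : ℤ)).2 hj
    · push Not at hA
      have hnice : ∀ y : ℤ → A, IsPer (s : ℤ) y → y 0 = a2 →
          (∀ i : ℕ, 0 < i → i < s → y i ≠ a2) → TNice s a2 y := by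
        intro y hy hy0 hyi
        refine ⟨hs, hy, fun k => ⟨fun h => ?_, fun h => ?_⟩⟩
        · obtain ⟨i, hi⟩ := count_res hs k
          rw [per_dvd hy hi] at h
          by_cases hi0 : (i : ℕ) = 0
          · rw [hi0] at hi
            simpa using hi
          · exact absurd h (hyi i (Nat.pos_of_ne_zero hi0) i.2)
        · rw [per_dvd hy (l := 0) (by simpa using h), hy0]
      by_cases hB : ∃ i : ℕ, 0 < i ∧ i < s ∧ z i ≠ a0
      · obtain ⟨i, hi0, his, hia⟩ := hB
        have hsi : ¬ (s : ℤ) ∣ (0 : ℤ) - i := by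
          intro hd
          rw [zero_sub, dvd_neg] at hd
          have := Int.le_of_dvd (by omega) hd
          omega
        have h0 : tupd s z i a0 0 = a2 := by
          unfold tupd
          rw [if_neg hsi, hz0]
        have hN : TNice s a2 (tupd s z i a0) := by
          apply hnice _ (tupd_per hz.2.1 _ _) h0
          intro j hj hjs
          unfold tupd
          split_ifs
          · exact h02
          · exact hA j hj hjs
        have hlt : tΦ s a0 a2 (tupd s z i a0) < n := by
          rw [← hn]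
          apply tΦ_lt his
          unfold tw
          rw [if_pos rfl, if_neg hia]
          split_ifs <;> norm_num
        refine TRel.trans (TRel.edge hz hN.LP i ?_) (ih _ hlt _ hN.LP h0 rfl)
        intro k hk
        unfold tupd
        rw [if_neg hk]
      · push Not at hB
        have e : z = tstd s a0 a2 := by
          ext k
          obtain ⟨i, hi⟩ := count_res hs k
          rw [per_dvd hz.2.1 hi, per_dvd (tstd_nice hs h02).2.1 hi]
          by_cases hi0 : (i : ℕ) = 0
          · rw [hi0]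
            rw [Nat.cast_zero, hz0]
            exact (((tstd_nice hs h02).2.2 0).2 (dvd_zero _)).symm
          · rw [hB i (Nat.pos_of_ne_zero hi0) i.2]
            unfold tstd
            rw [if_neg]
            intro hd
            have := Int.le_of_dvd (by omega) hd
            have := i.2
            omega
        subst e
        exact TRel.refl _

lemma t_conn' {s : ℕ} (hs : 0 < s) {a0 a1 a2 : A} (h01 : a0 ≠ a1) (h02 : a0 ≠ a2) (h12 : a1 ≠ a2)
    (z : ℤ → A) (hz : LP s z) :
    TRel s (orbMk z hz) (orbMk (tstd s a0 a2) (tstd_nice hs h02).LP) := by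
  by_cases h : ∃ r : ℤ, z r = a2
  · obtain ⟨r, hr⟩ := h
    have h1 : orbMk z hz = orbMk (sh r z) (LP_sh r hz) := (orbMk_eq _ _).2 ⟨r, rfl⟩
    rw [h1]
    exact t_conn hs h01 h02 h12 _ _ _ (by simpa using hr) rfl
  · push Not at h
    have hN : TNice s a2 (tupd s z 0 a2) := by
      refine ⟨hs, tupd_per hz.2.1 _ _, fun k => ?_⟩
      unfold tupd
      rw [sub_zero]
      by_cases hk : (s : ℤ) ∣ k
      · simp [hk]
      · simp [hk, h k]
    refine TRel.trans (TRel.edge hz hN.LP 0 ?_) (t_conn hs h01 h02 h12 _ _ hN.LP (tupd_at _ _ _ _) rfl)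
    intro k hk
    unfold tupd
    rw [if_neg hk]

theorem orbHom_surj (h3 : 3 ≤ Fintype.card A) (s : ℕ) (hs : 0 < s) :
    Function.Surjective (orbHom A s) := by
  haveI := finite_orb (A := A) s
  obtain ⟨a0, a1, a2, h01, h02, h12⟩ := Fintype.two_lt_card_iff.1 (show 2 < Fintype.card A by omega)
  rw [← MonoidHom.range_eq_top, eq_top_iff, ← Equiv.Perm.closure_isSwap, Subgroup.closure_le]
  rintro τ ⟨q, q', _, rfl⟩
  induction q using orb_ind with
  | h z hz =>
    induction q' using orb_ind with
    | h z' hz' =>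
      exact (t_conn' hs h01 h02 h12 z hz).trans (t_conn' hs h01 h02 h12 z' hz').symm

end T

end FShift
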