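import Pool.Agent.MP2b057c.W3

set_option autoImplicit false
set_option linter.unusedSectionVars false

/-!
Full shifts: the chain of a normal subgroup of finite index which misses a gate.
-/

namespace FShift

open scoped Classical commutatorElement

variable {A : Type} [Fintype A] [TopologicalSpace A] [DiscreteTopology A]

lemma LP_unique {s s' : ℕ} {x : ℤ → A} (h : LP s x) (h' : LP s' x) : s = s' := by
  have h1 := h.2.2 _ h'.2.1
  have h2 := h'.2.2 _ h.2.1
  have h3 : s ∣ s' := by exact_mod_cast h1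
  have h4 : s' ∣ s := by exact_mod_cast h2
  exact Nat.dvd_antisymm h3 h4

/-- A word with ends `e` for each six bits. -/
noncomputable def bitWord (o e : A) (f : Fin 6 → Bool) : Fin 8 → A := fun i =>
  if h : 1 ≤ i.1 ∧ i.1 ≤ 6 then (if f ⟨i.1 - 1, by omega⟩ then e else o) else e

lemma bitWord_inj {o e : A} (hoe : o ≠ e) : Function.Injective (bitWord o e) := by
  intro f g h
  ext i
  have h1 := congrFun h ⟨i.1 + 1, by omega⟩
  unfold bitWord at h1
  have h2 : 1 ≤ i.1 + 1 ∧ i.1 + 1 ≤ 6 := by omega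
  simp only [h2, add_tsub_cancel_right, Fin.eta] at h1
  cases hf : f i <;> cases hg : g i <;> simp_all

lemma card_Wd {o e : A} (hoe : o ≠ e) : 64 ≤ (Wd o).card := by
  have h1 : (Finset.univ.image (bitWord o e)).card = 64 := by
    rw [Finset.card_image_of_injective _ (bitWord_inj hoe), Finset.card_univ]
    simp
  rw [← h1]
  apply Finset.card_le_card
  intro w hw
  obtain ⟨f, _, rfl⟩ := Finset.mem_image.1 hw
  rw [mem_Wd]
  constructor
  · unfold bitWord
    rw [dif_neg (by simp)]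
    exact hoe.symm
  · unfold bitWord
    rw [dif_neg (by simp)]
    exact hoe.symm

/-- A point with one cell. -/
noncomputable def onePt (o : A) (w : Fin 8 → A) : ℤ → A := fun k =>
  if h : 0 ≤ k ∧ k < 8 then w ⟨k.toNat, by omega⟩ else o

lemma cont_onePt {o : A} {R : ℕ} {w : Fin 8 → A} (hw : w ∈ Wd o) :
    cont o R (onePt o w) 0 = some w := by
  rw [cont_eq_some]
  have h0 := (mem_Wd.1 hw).1
  have h7 := (mem_Wd.1 hw).2
  refine ⟨⟨fun k h1 h2 => ?_, fun k h1 h2 => ?_, ?_, ?_⟩, ?_⟩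
  · unfold onePt
    rw [dif_neg (by omega)]
  · unfold onePt
    rw [dif_neg (by omega)]
  · unfold onePt
    rw [dif_pos (by omega)]
    exact h0
  · unfold onePt
    rw [dif_pos (by omega)]
    exact h7
  · ext l
    have := l.2
    simp only [win_apply, zero_add]
    unfold onePt
    rw [dif_pos (by omega)]
    rfl

theorem main_W_aux (o e : A) (hoe : o ≠ e) (R : ℕ) (hR : 8 ≤ R)
    (hB : ∀ M : Subgroup (G A), M.Normal → M.FiniteIndex → SitesProp A o R hR M) :
    ∃ h h' : G A, h * h' ≠ h' * h ∧ ∀ M : Subgroup (G A), M.Normal → M.FiniteIndex → h ∉ M →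
      ∃ C : Chain o R, C.Good M := by
  have hcard := card_Wd hoe
  obtain ⟨D0, hD0, hD0c⟩ := Finset.exists_subset_card_eq (show 46 ≤ (Wd o).card by omega)
  have hne0 : D0.Nonempty := by rw [← Finset.card_pos, hD0c]; norm_num
  have hv : ∃ v1 ∈ Wd o, ∃ v2 ∈ Wd o, v1 ∉ D0 ∧ v2 ∉ D0 ∧ v1 ≠ v2 := by
    have h1 : 1 < (Wd o \ D0).card := by
      have := Finset.le_card_sdiff D0 (Wd o)
      omega
    obtain ⟨v1, hv1, v2, hv2, hne⟩ := Finset.one_lt_card.1 h1
    rw [Finset.mem_sdiff] at hv1 hv2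
    exact ⟨v1, hv1.1, v2, hv2.1, hv1.2, hv2.2, hne⟩
  obtain ⟨D1, hD1, hD1c⟩ := Finset.exists_subset_card_eq (show 23 ≤ D0.card by omega)
  have hne1 : D1.Nonempty := by rw [← Finset.card_pos, hD1c]; norm_num
  have hout : ∃ κ ∈ D0, κ ∉ D1 := by
    have h1 : 0 < (D0 \ D1).card := by
      have := Finset.le_card_sdiff D1 D0
      omega
    obtain ⟨κ, hκ⟩ := Finset.card_pos.1 h1
    rw [Finset.mem_sdiff] at hκ
    exact ⟨κ, hκ.1, hκ.2⟩
  set T0 := dsys o hR hD0 hne0 with hT0
  have h5 : 5 ≤ T0.D.card := by rw [hT0, dsys_D, hD0c]; norm_num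
  obtain ⟨p, hp, q, hq, r, hr, hpq, hqr, hpr⟩ := exists_triple T0.D (by omega)
  obtain ⟨q', hq', r', hr', n1, n2, n3, n4, n5, n6, n7⟩ := exists_two_more T0.D h5 p q r
  refine ⟨T0.ga Set.univ (cyc p q q'), T0.ga Set.univ (cyc p r r'), ?_, ?_⟩
  · intro h
    have h1 : ⁅T0.ga Set.univ (cyc p q q'), T0.ga Set.univ (cyc p r r')⁆ = 1 := by
      rw [commutatorElement_def, h]; group
    rw [T0.ga_comm isClopen_univ isClopen_univ (T0.cyc_mem_PD hp hq hq') (T0.cyc_mem_PD hp hr hr'),
      cyc_comm hpq n2 hpr n5 n3 hqr n6 n4.symm n1 n7, Set.inter_self] at h1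
    have hpW : p ∈ Wd o := hD0 hp
    have h2 : cont o R ((T0.ga Set.univ (cyc p q r)).1 (onePt o p)) 0 = some q := by
      have hgood := T0.gF_good isClopen_univ (T0.cyc_mem_PD hp hq hr)
      have hCS : IsCS o R T0 := isCS_dsys hR hD0 hne0
      have hsite : (0 : ℤ) ∈ sites T0.E (onePt o p) := by
        rw [hT0, dsys_mem_sites]
        exact ⟨p, hp, cont_onePt hpW⟩
      have hwin : (win (onePt o p) 0 : Fin 8 → A) = p :=
        (cont_eq_some.1 (cont_onePt (R := R) hpW)).2
      rw [T0.ga_apply isClopen_univ (T0.cyc_mem_PD hp hq hr), hCS.cont_act hgood.2.2.1, if_pos hsite]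
      have : T0.gF Set.univ (cyc p q r) (sh 0 (onePt o p)) = cyc p q r := by
        unfold Sys.gF
        rw [if_pos ⟨hsite, Set.mem_univ _⟩]
      rw [this, hwin, cyc_apply_left hpq hpr]
    rw [h1] at h2
    have h3 : cont o R (onePt o p) 0 = some q := h2
    rw [cont_onePt hpW, Option.some_inj] at h3
    exact hpq h3
  · intro M hM hfin hnot
    -- there is a visible point
    have hvne : (T0.vis M).Nonempty := by
      by_contra hemp
      rw [Set.not_nonempty_iff_eq_empty] at hemp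
      apply hnot
      refine T0.mem_of_vis hM h5 (T0.gF_good isClopen_univ (T0.cyc_mem_PD hp hq hq')) hp hq hq' hpq
        n3 n2 ?_ ?_
      · intro x
        unfold Sys.gF
        split_ifs
        · exact Or.inr (Or.inl rfl)
        · exact Or.inl rfl
      · intro ξ hξ
        rw [hemp] at hξ
        exact absurd hξ (Set.notMem_empty _)
    have hvf := T0.vis_finite hM hfin h5
    have hLP : ∀ ξ ∈ T0.vis M, ∃ s, LP s ξ := fun ξ hξ =>
      vis_LP hR hM hfin (hB M hM hfin) hD0 hne0 h5 hξ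
    let per : (ℤ → A) → ℕ := fun ξ => if h : ∃ s, LP s ξ then h.choose else 0
    have hper : ∀ ξ ∈ T0.vis M, LP (per ξ) ξ := by
      intro ξ hξ
      have h := hLP ξ hξ
      show LP (if h : ∃ s, LP s ξ then h.choose else 0) ξ
      rw [dif_pos h]
      exact h.choose_spec
    obtain ⟨ξ0, hξ0, hmax0⟩ := Set.exists_max_image (T0.vis M) per hvf hvne
    have hlp := hper ξ0 hξ0
    have hmax : ∀ ξ ∈ T0.vis M, ∀ s', LP s' ξ → s' ≤ per ξ0 := by
      intro ξ hξ s' hs'
      rw [LP_unique hs' (hper ξ hξ)]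
      exact hmax0 ξ hξ
    obtain ⟨ξ1, hξ1, hsk, hlp1, hcells⟩ := W2 hR hM hfin (hB M hM hfin) hD0 hne0 hv hξ0 hlp hmax
      (hD1.trans hD0) hne1 hD1 (by rw [hD1c]; norm_num) hout
    have hsR : R + 8 ≤ per ξ0 := by
      have c0 : IsCell o R ξ1 0 := by
        obtain ⟨w, _, hw⟩ := (hcells 0).2 (dvd_zero _)
        exact (cont_eq_some.1 hw).1
      have c1 : IsCell o R ξ1 (per ξ0 : ℤ) := by
        obtain ⟨w, _, hw⟩ := (hcells (per ξ0 : ℤ)).2 (dvd_refl _)
        exact (cont_eq_some.1 hw).1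
      have hpos := hlp1.1
      have h1 := cell_sep hR c1 c0 (by omega)
      rw [sub_zero, abs_of_nonneg (by omega)] at h1
      exact_mod_cast h1
    let C : Chain o R :=
      { hR := hR
        D1 := D1
        hD1 := hD1.trans hD0
        card := hD1c
        s := per ξ0
        hs := hsR
        ξ := ξ1
        lp := hlp1
        cells := hcells }
    exact ⟨C, W3 hR hM hfin (hB M hM hfin) hD0 hne0 hv hlp hmax C hne1 hD1 rfl hξ1 hsk⟩

end FShift
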