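import Pool.Agent.MP2b057c.Local

set_option autoImplicit false
set_option linter.unusedSectionVars false

/-!
Full shifts: an automorphism which is not a power of the shift moves orbits of all large
least periods.
-/

namespace FShift

open scoped Classical

section Z

variable {A : Type}

/-- The template word: the letters `e` at both ends, the windows `ξ t` in between. -/
noncomputable def zTem (o e : A) (ρ : ℕ) (m : ℤ) (ξ : ℤ → ℤ → A) (i : ℤ) : A :=
  if i = 0 ∨ i = m - 1 then e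
  else if 0 < i ∧ i < m - 1 then ξ ((i - 1) / (2 * ρ + 1) - ρ) ((i - 1) % (2 * ρ + 1) - ρ)
  else o

/-- The periodic point. -/
noncomputable def zPt (o e : A) (ρ : ℕ) (m : ℤ) (ξ : ℤ → ℤ → A) (s : ℤ) (i : ℤ) : A :=
  zTem o e ρ m ξ (i % s)

variable {o e : A} {ρ : ℕ} {m s : ℤ} {ξ : ℤ → ℤ → A}

lemma zPt_per (k j : ℤ) : zPt o e ρ m ξ s (k + s * j) = zPt o e ρ m ξ s k := by
  unfold zPt
  rw [Int.add_mul_emod_self_left]

lemma zPt_o (hm : 2 ≤ m) {k : ℤ} (h1 : m ≤ k) (h2 : k < s) : zPt o e ρ m ξ s k = o := by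
  unfold zPt
  rw [Int.emod_eq_of_lt (by omega) h2]
  unfold zTem
  rw [if_neg (by omega), if_neg (by omega)]

lemma zPt_o' (hm : 2 ≤ m) {k : ℤ} (h1 : m + s ≤ k) (h2 : k < s + s) :
    zPt o e ρ m ξ s k = o := by
  have h := zPt_per (o := o) (e := e) (ρ := ρ) (m := m) (s := s) (ξ := ξ) (k - s) 1
  rw [show k - s + s * 1 = k by ring] at h
  rw [h]
  exact zPt_o hm (by omega) (by omega)

lemma zPt_zero : zPt o e ρ m ξ s 0 = e := by
  unfold zPt zTem
  simp

lemma zPt_s : zPt o e ρ m ξ s s = e := by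
  have h := zPt_per (o := o) (e := e) (ρ := ρ) (m := m) (s := s) (ξ := ξ) 0 1
  rw [show (0 : ℤ) + s * 1 = s by ring] at h
  rw [h, zPt_zero]

lemma zPt_last (hm : 2 ≤ m) (hs : m ≤ s) : zPt o e ρ m ξ s (m - 1) = e := by
  unfold zPt
  rw [Int.emod_eq_of_lt (by omega) (by omega)]
  unfold zTem
  simp

lemma zPt_last' (hm : 2 ≤ m) (hs : m ≤ s) : zPt o e ρ m ξ s (s + m - 1) = e := by
  have h := zPt_per (o := o) (e := e) (ρ := ρ) (m := m) (s := s) (ξ := ξ) (m - 1) 1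
  rw [show m - 1 + s * 1 = s + m - 1 by ring] at h
  rw [h, zPt_last hm hs]

lemma zPt_win (hm : m = (2 * (ρ : ℤ) + 1) * (2 * (ρ : ℤ) + 1) + 2) (hs : m ≤ s) {t r : ℤ}
    (ht : -(ρ : ℤ) ≤ t) (ht' : t ≤ ρ) (hr : -(ρ : ℤ) ≤ r) (hr' : r ≤ ρ) :
    zPt o e ρ m ξ s ((2 * (ρ : ℤ) + 1) * (t + ρ) + ρ + 1 + r) = ξ t r := by
  have hρ : (0 : ℤ) ≤ ρ := by positivity
  have h0 : 0 ≤ (2 * (ρ : ℤ) + 1) * (t + ρ) := by
    apply mul_nonneg <;> omega
  have h1 : (2 * (ρ : ℤ) + 1) * (t + ρ) ≤ (2 * (ρ : ℤ) + 1) * (2 * ρ) := by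
    apply mul_le_mul_of_nonneg_left <;> omega
  have h2 : (2 * (ρ : ℤ) + 1) * (2 * ρ) + (2 * (ρ : ℤ) + 1) = m - 2 := by rw [hm]; ring
  unfold zPt
  rw [Int.emod_eq_of_lt (by omega) (by omega)]
  unfold zTem
  rw [if_neg (by omega), if_pos (by omega)]
  have e1 : (2 * (ρ : ℤ) + 1) * (t + ρ) + ρ + 1 + r - 1 = (r + ρ) + (2 * (ρ : ℤ) + 1) * (t + ρ) := by
    ring
  rw [e1, Int.add_mul_ediv_left _ _ (by omega), Int.add_mul_emod_self_left,
    Int.ediv_eq_zero_of_lt (by omega) (by omega), Int.emod_eq_of_lt (by omega) (by omega)]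
  congr 1 <;> ring

lemma zPt_LP (hoe : o ≠ e) (hm : 2 ≤ m) {s : ℕ} (hs : 2 * m + 1 ≤ (s : ℤ)) :
    LP s (zPt o e ρ m ξ s) := by
  refine ⟨by omega, ?_, ?_⟩
  · intro k
    have := zPt_per (o := o) (e := e) (ρ := ρ) (m := m) (s := (s : ℤ)) (ξ := ξ) k 1
    rwa [mul_one] at this
  · intro j hj
    by_contra hd
    have hpos : 0 < (s : ℤ) := by omega
    have h1 := Int.emod_nonneg j hpos.ne'
    have h2 := Int.emod_lt_of_pos j hpos
    have h3 : j % s ≠ 0 := fun h => hd (Int.dvd_of_emod_eq_zero h)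
    have h4 := Int.emod_add_mul_ediv j s
    set j' := j % s with hj'
    -- `j'` is a period
    have hp : ∀ k, zPt o e ρ m ξ s (k + j') = zPt o e ρ m ξ s k := by
      intro k
      have h5 := hj k
      have h6 := zPt_per (o := o) (e := e) (ρ := ρ) (m := m) (s := (s : ℤ)) (ξ := ξ) (k + j')
        (j / s)
      rw [show k + j' + (s : ℤ) * (j / s) = k + j by linarith] at h6
      rw [← h6, h5]
    rcases le_or_gt j' (s - m) with h5 | h5
    · have h6 := hp (s - j')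
      rw [sub_add_cancel, zPt_s, zPt_o hm (by omega) (by omega)] at h6
      exact hoe h6.symm
    · have h6 := hp (s + m - 1 - j')
      rw [sub_add_cancel, zPt_last' hm (by omega), zPt_o hm (by omega) (by omega)] at h6
      exact hoe h6.symm

variable [TopologicalSpace A] [DiscreteTopology A] [Fintype A]

theorem lemma_Z (o e : A) (hoe : o ≠ e) (κ : G A) (hκ : ∀ j : ℤ, ∃ x, κ.1 x ≠ sh j x) :
    ∃ s₁ : ℕ, ∀ s : ℕ, s₁ ≤ s → κ ∉ J A s := by
  obtain ⟨ρ, hρ⟩ := G_radius κ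
  -- windows which witness that `κ` is not the shift by `j`
  have hw : ∀ j : ℤ, ∃ x : ℤ → A, κ.1 x 0 ≠ x j := by
    intro j
    obtain ⟨x, hx⟩ := hκ j
    obtain ⟨k, hk⟩ := Function.ne_iff.1 hx
    refine ⟨sh k x, ?_⟩
    rw [G_sh]
    simp only [sh_apply, zero_add] at hk ⊢
    rwa [add_comm j k]
  choose ξ hξ using hw
  set m : ℤ := (2 * (ρ : ℤ) + 1) * (2 * (ρ : ℤ) + 1) + 2 with hm
  have hρ0 : (0 : ℤ) ≤ ρ := by positivity
  have hm2 : 2 ≤ m := by
    have : 0 ≤ (2 * (ρ : ℤ) + 1) * (2 * (ρ : ℤ) + 1) := by positivity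
    omega
  refine ⟨(2 * m + 2 * ρ + 3).toNat, fun s hs hmem => ?_⟩
  have hs' : 2 * m + 2 * ρ + 3 ≤ (s : ℤ) := by omega
  set x := zPt o e ρ m ξ s with hx
  have hLP : LP s x := zPt_LP hoe hm2 (by omega)
  obtain ⟨j, hj⟩ := hmem x hLP
  -- reduce `j` modulo `s`
  have hpos : 0 < (s : ℤ) := by omega
  have h1 := Int.emod_nonneg j hpos.ne'
  have h2 := Int.emod_lt_of_pos j hpos
  have h4 := Int.emod_add_mul_ediv j s
  set j' := j % s with hj'
  have hκx : ∀ k, κ.1 x k = x (k + j') := by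
    intro k
    rw [hj, sh_apply, hx]
    have h6 := zPt_per (o := o) (e := e) (ρ := ρ) (m := m) (s := (s : ℤ)) (ξ := ξ) (k + j')
      (j / s)
    rw [show k + j' + (s : ℤ) * (j / s) = k + j by linarith] at h6
    exact h6
  -- the image of the constant run
  set c := κ.1 (fun _ => o) 0 with hc
  have hconst : ∀ k : ℤ, κ.1 (fun _ => o) k = c := by
    intro k
    have h5 := G_sh κ k (fun _ => o)
    have h6 : sh k (fun _ : ℤ => o) = fun _ => o := by
      ext i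
      simp
    rw [h6] at h5
    have h7 := congrFun h5 0
    rw [sh_apply, zero_add] at h7
    exact h7.symm
  have hrun : ∀ k : ℤ, m + ρ ≤ k → k + ρ < s → x (k + j') = c := by
    intro k hk1 hk2
    rw [← hκx, ← hconst k]
    apply hρ
    intro i hi
    obtain ⟨hi1, hi2⟩ := abs_le.1 hi
    exact zPt_o hm2 (by omega) (by omega)
  have hco : c = o := by
    rcases le_or_gt (s : ℤ) (m + ρ + j') with h5 | h5
    · rw [← hrun (m + ρ + m) (by omega) (by omega)]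
      exact zPt_o' hm2 (by omega) (by omega)
    · rw [← hrun (m + ρ) (by omega) (by omega)]
      exact zPt_o hm2 (by omega) (by omega)
  have hcase : j' ≤ ρ ∨ s - ρ ≤ j' := by
    by_contra hcon
    push Not at hcon
    obtain ⟨c1, c2⟩ := hcon
    rcases le_or_gt j' (s - m - ρ) with h5 | h5
    · have h6 := hrun (s - j') (by omega) (by omega)
      rw [sub_add_cancel, hco, hx, zPt_s] at h6
      exact hoe h6.symm
    · have h6 := hrun (s + m - 1 - j') (by omega) (by omega)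
      rw [sub_add_cancel, hco, hx, zPt_last' hm2 (by omega)] at h6
      exact hoe h6.symm
  obtain ⟨j₀, hj1, hj2, hj3⟩ : ∃ j₀ : ℤ, -(ρ : ℤ) ≤ j₀ ∧ j₀ ≤ ρ ∧
      ∀ k, κ.1 x k = x (k + j₀) := by
    rcases hcase with h5 | h5
    · exact ⟨j', by omega, h5, hκx⟩
    · refine ⟨j' - s, by omega, by omega, fun k => ?_⟩
      rw [hκx, hx]
      have h6 := zPt_per (o := o) (e := e) (ρ := ρ) (m := m) (s := (s : ℤ)) (ξ := ξ)
        (k + (j' - s)) 1
      rw [show k + (j' - s) + (s : ℤ) * 1 = k + j' by ring] at h6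
      exact h6
  -- the window of `ξ j₀`
  set k₀ : ℤ := (2 * (ρ : ℤ) + 1) * (j₀ + ρ) + ρ + 1 with hk₀
  have hwin : ∀ r : ℤ, -(ρ : ℤ) ≤ r → r ≤ ρ → x (k₀ + r) = ξ j₀ r := fun r hr hr' =>
    zPt_win hm (by omega) hj1 hj2 hr hr'
  have h5 : κ.1 x k₀ = κ.1 (sh (-k₀) (ξ j₀)) k₀ := by
    apply hρ
    intro i hi
    obtain ⟨hi1, hi2⟩ := abs_le.1 hi
    have := hwin (i - k₀) (by omega) (by omega)
    rw [add_sub_cancel] at this
    rw [this, sh_apply]
    rfl
  rw [G_sh, sh_apply, add_neg_cancel] at h5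
  have h6 := hj3 k₀
  rw [hwin j₀ hj1 hj2, h5] at h6
  exact hξ j₀ h6

end Z

end FShift
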