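import Pool.Agent.MP2b057c.DThree
import Pool.Agent.MP2b057c.Gap2
import Pool.Agent.MP2b057c.WMain
import Pool.Agent.MP2b057c.FinalCore
import Pool.Agent.MP2b057c.Count
import Pool.Agent.MP2b057c.T
import Pool.Agent.MP2b057c.Z

set_option autoImplicit false
set_option linter.unusedSectionVars false

/-!
Full shifts: the automorphism groups of the full 2-shift and the full 3-shift are not isomorphic.
-/

namespace FShift

open scoped Classical commutatorElement

section MT

variable {A : Type} [Fintype A] [TopologicalSpace A] [DiscreteTopology A]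

theorem main_MT (o e : A) (hoe : o ≠ e) : MTprop A := by
  intro R
  obtain ⟨h, h', hne, hW⟩ := main_W_aux o e hoe (max R 8) (le_max_right _ _)
    (fun M hM hfin D hD hne h5 ξ hξ m => vis_site_gt hoe (le_max_right _ _) hD hne h5 hM hfin hξ m)
  refine ⟨h, h', hne, fun M hM hfin hh => ?_⟩
  obtain ⟨C, hC⟩ := hW M hM hfin hh
  obtain ⟨a, ha⟩ : C.D1.Nonempty := by
    rw [← Finset.card_pos, C.card]; norm_num
  refine ⟨C.s, C.pt a, ?_, C.lp_pt ha, fun g hg => C.D3 ⟨e, hoe.symm⟩ hM hfin hC ha g hg,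
    fun k hk hks => C.moves ha k hk hks⟩
  have := C.hs
  have := le_max_left R 8
  omega

end MT

theorem final_assembly :
    ¬ (∃ Φ : {f : (ℤ → Fin 2) ≃ₜ (ℤ → Fin 2) //
            ∀ x : ℤ → Fin 2, f (fun i => x (i + 1)) = fun i => f x (i + 1)} ≃
          {g : (ℤ → Fin 3) ≃ₜ (ℤ → Fin 3) //
            ∀ x : ℤ → Fin 3, g (fun i => x (i + 1)) = fun i => g x (i + 1)},
      ∀ a b c : {f : (ℤ → Fin 2) ≃ₜ (ℤ → Fin 2) //
            ∀ x : ℤ → Fin 2, f (fun i => x (i + 1)) = fun i => f x (i + 1)},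
        (∀ x : ℤ → Fin 2, c.1 x = a.1 (b.1 x)) →
          ∀ y : ℤ → Fin 3, (Φ c).1 y = (Φ a).1 ((Φ b).1 y)) := by
  rintro ⟨Φ, hΦ⟩
  have h2 : MTprop (Fin 2) := main_MT (0 : Fin 2) 1 (by decide)
  have h3 : MTprop (Fin 3) := main_MT (0 : Fin 3) 1 (by decide)
  refine no_iso h2 h3 (fun κ hκ => lemma_Z (0 : Fin 2) 1 (by decide) κ hκ)
    (fun κ hκ => lemma_Z (0 : Fin 3) 1 (by decide) κ hκ)
    (fun s => finite_orb s) (fun s => finite_orb s) ?_ ?_ ?_ (isoOf Φ hΦ)
  · intro s
    have := card_orb_le (A := Fin 2) s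
    simpa using this
  · intro s hs
    exact card_orb_ge (A := Fin 3) (by simp) s hs
  · intro s hs
    exact orbHom_surj (A := Fin 3) (by simp) s hs

end FShift
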