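import Pool.Agent.MP2b057c.Defs

set_option autoImplicit false
set_option linter.unusedSectionVars false

/-!
Group theoretic lemmas: counting with commuting non-commuting pairs, and 3-cycles.
-/

namespace FShift

open scoped Classical commutatorElement

section Count

variable {Γ : Type*} [Group Γ]

lemma pow_le_card {Q : Type*} [Group Q] [Finite Q] (N : ℕ) (a b : Fin N → Q)
    (hab : ∀ i j, i ≠ j → a i * b j = b j * a i) (hne : ∀ i, a i * b i ≠ b i * a i) :
    2 ^ N ≤ Nat.card Q := by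
  set C : ℕ → Subgroup Q := fun k => Subgroup.centralizer {q | ∃ i : Fin N, i.1 < k ∧ q = a i} with hC
  have hle : ∀ k, C (k + 1) ≤ C k := by
    intro k
    apply Subgroup.centralizer_le
    rintro q ⟨i, hi, rfl⟩
    exact ⟨i, by omega, rfl⟩
  have hlt : ∀ k, k < N → 2 * Nat.card (C (k + 1)) ≤ Nat.card (C k) := by
    intro k hk
    have h1 : b ⟨k, hk⟩ ∈ C k := by
      rw [Subgroup.mem_centralizer_iff]
      rintro q ⟨i, hi, rfl⟩
      exact hab i ⟨k, hk⟩ (by intro h; rw [h] at hi; simp at hi)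
    have h2 : b ⟨k, hk⟩ ∉ C (k + 1) := by
      intro h
      rw [Subgroup.mem_centralizer_iff] at h
      exact hne ⟨k, hk⟩ (h _ ⟨⟨k, hk⟩, by simp, rfl⟩)
    obtain ⟨m, hm⟩ := Subgroup.card_dvd_of_le (hle k)
    have hpos : 0 < Nat.card (C (k + 1)) := Nat.card_pos
    have hposk : 0 < Nat.card (C k) := Nat.card_pos
    rcases Nat.lt_or_ge m 2 with h | h
    · exfalso
      have hm1 : m = 1 ∨ m = 0 := by omega
      rcases hm1 with rfl | rfl
      · rw [mul_one] at hm
        have := Subgroup.eq_of_le_of_card_ge (hle k) hm.le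
        rw [this] at h2
        exact h2 h1
      · rw [mul_zero] at hm; omega
    · rw [hm, mul_comm]
      exact Nat.mul_le_mul_left _ h
  have ind : ∀ k, k ≤ N → 2 ^ k * Nat.card (C k) ≤ Nat.card Q := by
    intro k
    induction k with
    | zero =>
      intro _
      rw [pow_zero, one_mul]
      exact Subgroup.card_le_card_group _
    | succ k ih =>
      intro hk
      have h1 := ih (by omega)
      have h2 := hlt k (by omega)
      calc 2 ^ (k + 1) * Nat.card (C (k + 1)) = 2 ^ k * (2 * Nat.card (C (k + 1))) := by ring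
        _ ≤ 2 ^ k * Nat.card (C k) := Nat.mul_le_mul_left _ h2
        _ ≤ _ := h1
  have h1 := ind N le_rfl
  have hpos : 0 < Nat.card (C N) := Nat.card_pos
  calc 2 ^ N = 2 ^ N * 1 := by ring
    _ ≤ 2 ^ N * Nat.card (C N) := Nat.mul_le_mul_left _ hpos
    _ ≤ _ := h1

/-- Commuting pairs of non-commuting elements modulo a normal subgroup of finite index. -/
lemma pow_le_index (M : Subgroup Γ) (hn : M.Normal) (hM : M.FiniteIndex) (N : ℕ) (a b : Fin N → Γ)
    (hab : ∀ i j, i ≠ j → a i * b j = b j * a i) (hne : ∀ i, ⁅a i, b i⁆ ∉ M) :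
    2 ^ N ≤ M.index := by
  have := hn
  have := hM
  have : Finite (Γ ⧸ M) := inferInstance
  rw [Subgroup.index]
  refine pow_le_card N (fun i => (a i : Γ ⧸ M)) (fun i => (b i : Γ ⧸ M)) ?_ ?_
  · intro i j hij
    have := hab i j hij
    show ((a i : Γ ⧸ M) * (b j : Γ ⧸ M)) = (b j : Γ ⧸ M) * (a i : Γ ⧸ M)
    rw [← QuotientGroup.mk_mul, ← QuotientGroup.mk_mul, this]
  · intro i h
    apply hne i
    have h' : ((a i * b i : Γ) : Γ ⧸ M) = ((b i * a i : Γ) : Γ ⧸ M) := by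
      rw [QuotientGroup.mk_mul, QuotientGroup.mk_mul]; exact h
    rw [← QuotientGroup.eq_one_iff, commutatorElement_def]
    have e : (a i * b i * (a i)⁻¹ * (b i)⁻¹ : Γ) = (a i * b i) * (b i * a i)⁻¹ := by group
    rw [e, QuotientGroup.mk_mul, QuotientGroup.mk_inv, h', mul_inv_cancel]

end Count

section Cyc

variable {W : Type}

lemma cyc_apply_left {p q r : W} (hpq : p ≠ q) (hpr : p ≠ r) : cyc p q r p = q := by
  unfold cyc
  rw [Equiv.Perm.mul_apply, Equiv.swap_apply_of_ne_of_ne hpq hpr, Equiv.swap_apply_left]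

lemma cyc_apply_mid {p q r : W} (hqr : q ≠ r) (hpr : p ≠ r) : cyc p q r q = r := by
  unfold cyc
  rw [Equiv.Perm.mul_apply, Equiv.swap_apply_left, Equiv.swap_apply_of_ne_of_ne hpr.symm hqr.symm]

lemma cyc_apply_right {p q r : W} : cyc p q r r = p := by
  unfold cyc
  rw [Equiv.Perm.mul_apply, Equiv.swap_apply_right, Equiv.swap_apply_right]

lemma cyc_apply_off {p q r w : W} (h1 : w ≠ p) (h2 : w ≠ q) (h3 : w ≠ r) : cyc p q r w = w := by
  unfold cyc
  rw [Equiv.Perm.mul_apply, Equiv.swap_apply_of_ne_of_ne h2 h3, Equiv.swap_apply_of_ne_of_ne h1 h2]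

lemma cyc_conj (τ : Equiv.Perm W) (p q r : W) : τ * cyc p q r * τ⁻¹ = cyc (τ p) (τ q) (τ r) := by
  unfold cyc
  rw [Equiv.swap_apply_apply, Equiv.swap_apply_apply]
  group

/-- The commutator of two 3-cycles which share one letter. -/
lemma cyc_comm {p q q' r r' : W} (h1 : p ≠ q) (h2 : p ≠ q') (h3 : p ≠ r) (h4 : p ≠ r')
    (h5 : q ≠ q') (h6 : q ≠ r) (h7 : q ≠ r') (h8 : q' ≠ r) (h9 : q' ≠ r') (h10 : r ≠ r') :
    ⁅cyc p q q', cyc p r r'⁆ = cyc p q r := by
  rw [commutatorElement_def]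
  rw [mul_inv_eq_iff_eq_mul, mul_inv_eq_iff_eq_mul]
  ext w
  simp only [Equiv.Perm.mul_apply]
  by_cases hp : w = p
  · subst hp
    rw [cyc_apply_left h3 h4, cyc_apply_off h3.symm h6.symm h8.symm, cyc_apply_left h1 h2,
      cyc_apply_off h1.symm h6 h7, cyc_apply_mid h6 h3]
  by_cases hq : w = q
  · subst hq
    rw [cyc_apply_off h1.symm h6 h7, cyc_apply_mid h5 h2, cyc_apply_off h2.symm h8 h9,
      cyc_apply_off h2.symm h5.symm h8]
  by_cases hq' : w = q'
  · subst hq'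
    rw [cyc_apply_off h2.symm h8 h9, cyc_apply_right, cyc_apply_left h3 h4, cyc_apply_right]
  by_cases hr : w = r
  · subst hr
    rw [cyc_apply_mid h10 h4, cyc_apply_off h4.symm h7.symm h9.symm,
      cyc_apply_off h3.symm h6.symm h8.symm, cyc_apply_mid h10 h4, cyc_apply_off h4.symm h7.symm h10.symm]
  by_cases hr' : w = r'
  · subst hr'
    rw [cyc_apply_right, cyc_apply_left h1 h2, cyc_apply_off h4.symm h7.symm h9.symm, cyc_apply_right,
      cyc_apply_left h1 h3]
  · rw [cyc_apply_off hp hr hr', cyc_apply_off hp hq hq', cyc_apply_off hp hr hr',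
      cyc_apply_off hp hq hr]

/-- There is a permutation in `PD` moving a triple to another one. -/
lemma exists_perm_triple (D : Finset W) {p q r p' q' r' : W} (hp : p ∈ D) (hq : q ∈ D) (hr : r ∈ D)
    (hp' : p' ∈ D) (hq' : q' ∈ D) (hr' : r' ∈ D) (hpq : p ≠ q) (hqr : q ≠ r) (hpr : p ≠ r)
    (hpq' : p' ≠ q') (hqr' : q' ≠ r') (hpr' : p' ≠ r') :
    ∃ τ : Equiv.Perm W, (∀ w, w ∉ D → τ w = w) ∧ τ p = p' ∧ τ q = q' ∧ τ r = r' := by
  have swap_fix : ∀ {u v : W}, u ∈ D → v ∈ D → ∀ w, w ∉ D → Equiv.swap u v w = w := by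
    intro u v hu hv w hw
    apply Equiv.swap_apply_of_ne_of_ne
    · rintro rfl; exact hw hu
    · rintro rfl; exact hw hv
  have swap_mem : ∀ {u v w : W}, u ∈ D → v ∈ D → w ∈ D → Equiv.swap u v w ∈ D := by
    intro u v w hu hv hw
    rw [Equiv.swap_apply_def]
    split_ifs <;> assumption
  set τ1 := Equiv.swap p p' with hτ1
  set q1 := τ1 q with hq1
  have hq1D : q1 ∈ D := swap_mem hp hp' hq
  have hq1p : q1 ≠ p' := by
    intro h
    have : τ1 q = τ1 p := by rw [hτ1, Equiv.swap_apply_left, ← hτ1]; exact h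
    exact hpq (τ1.injective this).symm
  set τ2 := Equiv.swap q1 q' with hτ2
  set r2 := τ2 (τ1 r) with hr2
  have hr2D : r2 ∈ D := swap_mem hq1D hq' (swap_mem hp hp' hr)
  have hr2q : r2 ≠ q' := by
    intro h
    have : τ2 (τ1 r) = τ2 q1 := by rw [hτ2, Equiv.swap_apply_left, ← hτ2]; exact h
    have := τ1.injective (τ2.injective this)
    exact hqr this.symm
  have hτ2p : τ2 p' = p' := Equiv.swap_apply_of_ne_of_ne hq1p.symm hpq'
  have hr2p : r2 ≠ p' := by
    intro h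
    have h' : τ2 (τ1 r) = τ2 (τ1 p) := by
      rw [hτ1, Equiv.swap_apply_left, ← hτ1, hτ2p]; exact h
    exact hpr (τ1.injective (τ2.injective h')).symm
  refine ⟨Equiv.swap r2 r' * τ2 * τ1, ?_, ?_, ?_, ?_⟩
  · intro w hw
    simp only [Equiv.Perm.mul_apply]
    rw [swap_fix hp hp' w hw, swap_fix hq1D hq' w hw, swap_fix hr2D hr' w hw]
  · simp only [Equiv.Perm.mul_apply]
    rw [hτ1, Equiv.swap_apply_left, hτ2p, Equiv.swap_apply_of_ne_of_ne hr2p.symm hpr']
  · simp only [Equiv.Perm.mul_apply]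
    rw [← hq1, hτ2, Equiv.swap_apply_left, Equiv.swap_apply_of_ne_of_ne hr2q.symm hqr']
  · simp only [Equiv.Perm.mul_apply]
    rw [← hr2, Equiv.swap_apply_left]

/-- Two more letters. -/
lemma exists_two_more (D : Finset W) (h5 : 5 ≤ D.card) (p q r : W) :
    ∃ q' ∈ D, ∃ r' ∈ D, q' ≠ r' ∧ p ≠ q' ∧ q ≠ q' ∧ r ≠ q' ∧ p ≠ r' ∧ q ≠ r' ∧ r ≠ r' := by
  have h1 : 2 ≤ (D \ {p, q, r}).card := by
    have h3 : ({p, q, r} : Finset W).card ≤ 3 := Finset.card_le_three
    have := Finset.le_card_sdiff ({p, q, r} : Finset W) D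
    omega
  obtain ⟨q', hq', r', hr', hne⟩ := Finset.one_lt_card.1 (show 1 < (D \ {p, q, r}).card by omega)
  simp only [Finset.mem_sdiff, Finset.mem_insert, Finset.mem_singleton, not_or] at hq' hr'
  exact ⟨q', hq'.1, r', hr'.1, hne, fun h => hq'.2.1 h.symm, fun h => hq'.2.2.1 h.symm,
    fun h => hq'.2.2.2 h.symm, fun h => hr'.2.1 h.symm, fun h => hr'.2.2.1 h.symm,
    fun h => hr'.2.2.2 h.symm⟩

/-- Five distinct letters. -/
lemma exists_triple (D : Finset W) (h5 : 3 ≤ D.card) :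
    ∃ p ∈ D, ∃ q ∈ D, ∃ r ∈ D, p ≠ q ∧ q ≠ r ∧ p ≠ r := by
  obtain ⟨p, hp, q, hq, hne⟩ := Finset.one_lt_card.1 (show 1 < D.card by omega)
  have h1 : 1 ≤ (D \ {p, q}).card := by
    have h3 : ({p, q} : Finset W).card ≤ 2 := Finset.card_le_two
    have := Finset.le_card_sdiff ({p, q} : Finset W) D
    omega
  obtain ⟨r, hr⟩ := Finset.card_pos.1 (show 0 < (D \ {p, q}).card by omega)
  simp only [Finset.mem_sdiff, Finset.mem_insert, Finset.mem_singleton, not_or] at hr
  exact ⟨p, hp, q, hq, r, hr.1, hne, fun h => hr.2.2 h.symm, fun h => hr.2.1 h.symm⟩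

end Cyc

end FShift
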