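import Pool.Agent.MP2b057c.Core

set_option autoImplicit false
set_option linter.unusedSectionVars false

/-!
Full shifts: locally constant functions depend on finitely many coordinates.
-/

namespace FShift

open scoped Classical

variable {A : Type} [TopologicalSpace A] [DiscreteTopology A]

/-- The cylinder of radius `ρ` around `x`. -/
def cyl (x : ℤ → A) (ρ : ℕ) : Set (ℤ → A) := {y | ∀ k : ℤ, |k| ≤ (ρ : ℤ) → y k = x k}

omit [TopologicalSpace A] [DiscreteTopology A] in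
lemma mem_cyl_self (x : ℤ → A) (ρ : ℕ) : x ∈ cyl x ρ := fun _ _ => rfl

lemma isOpen_cyl (x : ℤ → A) (ρ : ℕ) : IsOpen (cyl x ρ) := by
  have h : cyl x ρ = Set.pi (Finset.Icc (-(ρ : ℤ)) ρ : Set ℤ) (fun k => {x k}) := by
    ext y
    simp only [cyl, Set.mem_ofPred_eq, Set.mem_pi, Finset.coe_Icc, Set.mem_Icc, Set.mem_singleton_iff,
      abs_le]
  rw [h]
  exact isOpen_set_pi (Finset.finite_toSet _) (fun k _ => isOpen_discrete _)

lemma isLocallyConstant_of_radius {T : Type*} (f : (ℤ → A) → T) (ρ : ℕ)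
    (h : ∀ x y : ℤ → A, (∀ k : ℤ, |k| ≤ (ρ : ℤ) → x k = y k) → f x = f y) : IsLocallyConstant f := by
  rw [IsLocallyConstant.iff_eventually_eq]
  intro x
  filter_upwards [(isOpen_cyl x ρ).mem_nhds (mem_cyl_self x ρ)] with y hy
  exact h y x hy

lemma isClopen_of_radius (V : Set (ℤ → A)) (ρ : ℕ)
    (h : ∀ x y : ℤ → A, (∀ k : ℤ, |k| ≤ (ρ : ℤ) → x k = y k) → x ∈ V → y ∈ V) : IsClopen V := by
  have h1 : ∀ x y : ℤ → A, (∀ k : ℤ, |k| ≤ (ρ : ℤ) → x k = y k) → (x ∈ V ↔ y ∈ V) :=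
    fun x y hxy => ⟨h x y hxy, h y x (fun k hk => (hxy k hk).symm)⟩
  constructor
  · rw [← isOpen_compl_iff, isOpen_iff_mem_nhds]
    intro x hx
    filter_upwards [(isOpen_cyl x ρ).mem_nhds (mem_cyl_self x ρ)] with y hy
    intro hyV
    exact hx ((h1 y x hy).1 hyV)
  · rw [isOpen_iff_mem_nhds]
    intro x hx
    filter_upwards [(isOpen_cyl x ρ).mem_nhds (mem_cyl_self x ρ)] with y hy
    exact (h1 y x hy).2 hx

lemma isClopen_cyl (x : ℤ → A) (ρ : ℕ) : IsClopen (cyl x ρ) := by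
  apply isClopen_of_radius _ ρ
  intro y z hyz hy k hk
  rw [← hyz k hk, hy k hk]

/-- Each neighbourhood of a point contains a cylinder. -/
lemma exists_cyl_subset {x : ℤ → A} {V : Set (ℤ → A)} (hV : IsOpen V) (hx : x ∈ V) :
    ∃ ρ : ℕ, cyl x ρ ⊆ V := by
  obtain ⟨I, u, h1, h2⟩ := isOpen_pi_iff.1 hV x hx
  refine ⟨I.sup Int.natAbs, fun y hy => h2 ?_⟩
  intro k hk
  have : y k = x k := by
    apply hy
    have := Finset.le_sup (f := Int.natAbs) hk
    rw [Int.abs_eq_natAbs]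
    exact_mod_cast this
  rw [this]
  exact (h1 k hk).2

lemma cyl_anti {x : ℤ → A} {ρ ρ' : ℕ} (h : ρ ≤ ρ') : cyl x ρ' ⊆ cyl x ρ :=
  fun _ hy k hk => hy k (hk.trans (by exact_mod_cast h))

variable [Finite A]

/-- A locally constant function on the full shift depends on finitely many coordinates. -/
lemma exists_radius {T : Type*} (f : (ℤ → A) → T) (hf : IsLocallyConstant f) :
    ∃ ρ : ℕ, ∀ x y : ℤ → A, (∀ k : ℤ, |k| ≤ (ρ : ℤ) → x k = y k) → f x = f y := by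
  have h1 : ∀ x : ℤ → A, ∃ ρ : ℕ, ∀ y ∈ cyl x ρ, f y = f x := by
    intro x
    obtain ⟨V, hV, hxV, h⟩ := hf.exists_open x
    obtain ⟨ρ, hρ⟩ := exists_cyl_subset hV hxV
    exact ⟨ρ, fun y hy => h y (hρ hy)⟩
  choose ρ hρ using h1
  obtain ⟨t, ht⟩ := isCompact_univ.elim_finite_subcover (fun x => cyl x (ρ x))
    (fun x => isOpen_cyl x _) (fun x _ => Set.mem_iUnion.2 ⟨x, mem_cyl_self _ _⟩)
  refine ⟨t.sup ρ, fun x y hxy => ?_⟩
  obtain ⟨z, hz⟩ := Set.mem_iUnion.1 (ht (Set.mem_univ x))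
  obtain ⟨hzt, hz⟩ := Set.mem_iUnion.1 hz
  rw [hρ z x hz, hρ z y]
  intro k hk
  have hle : ρ z ≤ t.sup ρ := Finset.le_sup hzt
  rw [← hxy k (hk.trans (by exact_mod_cast hle))]
  exact hz k hk

/-- Curtis–Hedlund–Lyndon. -/
lemma G_radius (g : G A) : ∃ ρ : ℕ, ∀ (x y : ℤ → A) (k : ℤ),
    (∀ j : ℤ, |j - k| ≤ (ρ : ℤ) → x j = y j) → g.1 x k = g.1 y k := by
  have h : IsLocallyConstant (fun x : ℤ → A => g.1 x 0) := by
    apply (IsLocallyConstant.iff_continuous _).2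
    exact (continuous_apply 0).comp g.2.2.1
  obtain ⟨ρ, hρ⟩ := exists_radius _ h
  refine ⟨ρ, fun x y k hxy => ?_⟩
  have e : ∀ z : ℤ → A, g.1 z k = g.1 (sh k z) 0 := by
    intro z; rw [G_sh]; simp
  rw [e, e]
  apply hρ
  intro j hj
  simp only [sh_apply]
  apply hxy
  simpa using hj

lemma isClopen_preimage_G (g : G A) {V : Set (ℤ → A)} (hV : IsClopen V) :
    IsClopen (g.1 ⁻¹' V) := hV.preimage g.2.2.1

end FShift
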