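import Pool.Agent.MP2b057c.WAux

set_option autoImplicit false
set_option linter.unusedSectionVars false

/-!
Full shifts: exchanging a free content with an outer content at one phase of a periodic chain.
-/

namespace FShift

open scoped Classical commutatorElement

variable {A : Type} [Fintype A] [TopologicalSpace A] [DiscreteTopology A] {o : A} {R : ℕ}

/-- The information sequence of `ζ` with the content `w` at the multiples of `s`. -/
noncomputable def iseq (o : A) (R : ℕ) (ζ : ℤ → A) (s : ℕ) (w : Fin 8 → A) (k : ℤ) :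
    A × Option (Fin 8 → A) :=
  (msk o R ζ k, if (s : ℤ) ∣ k then some w else cont o R ζ k)

lemma iseq_per {ζ : ℤ → A} {s : ℕ} (h : IsPer (s : ℤ) ζ) (w : Fin 8 → A) (k : ℤ) :
    iseq o R ζ s w (k + s) = iseq o R ζ s w k := by
  unfold iseq
  have h1 : sh (s : ℤ) ζ = ζ := isPer_iff.1 h
  have h2 : msk o R ζ (k + s) = msk o R ζ k := by rw [← msk_sh, h1]
  have h3 : cont o R ζ (k + s) = cont o R ζ k := by rw [← cont_sh, h1]
  have h4 : (s : ℤ) ∣ k + s ↔ (s : ℤ) ∣ k := by simp
  rw [h2, h3]
  simp only [h4]

variable (o R) in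
/-- The data for the exchange. -/
structure MixData where
  hR : 8 ≤ R
  /-- the free contents -/
  D0 : Finset (Fin 8 → A)
  hD0 : D0 ⊆ Wd o
  /-- the default content -/
  d : Fin 8 → A
  hd : d ∈ D0
  /-- the outer content -/
  v : Fin 8 → A
  hv : v ∈ Wd o
  hvD : v ∉ D0
  /-- the period -/
  s : ℕ
  spos : 0 < s
  /-- the periodic point -/
  ζ : ℤ → A
  per : IsPer (s : ℤ) ζ
  prim0 : ∀ j : ℤ, (∀ k, iseq o R ζ s d (k + j) = iseq o R ζ s d k) → (s : ℤ) ∣ j
  prim1 : ∀ j : ℤ, (∀ k, iseq o R ζ s v (k + j) = iseq o R ζ s v k) → (s : ℤ) ∣ j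

namespace MixData

variable (C : MixData o R)

/-- `x` looks like the chain with holes around `i`. -/
def At (x : ℤ → A) (i : ℤ) : Prop := ∀ k : ℤ, |k| ≤ 2 * (C.s : ℤ) →
  msk o R x (i + k) = msk o R C.ζ k ∧
  (¬ (C.s : ℤ) ∣ k → er C.D0 C.d (cont o R x (i + k)) = cont o R C.ζ k) ∧
  ((C.s : ℤ) ∣ k → er C.D0 C.d (cont o R x (i + k)) = some C.d ∨
    er C.D0 C.d (cont o R x (i + k)) = some C.v)

lemma at_sh (x : ℤ → A) (i j : ℤ) : C.At (sh j x) i ↔ C.At x (i + j) := by
  unfold At
  simp only [msk_sh, cont_sh]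
  have : ∀ k : ℤ, i + k + j = i + j + k := fun k => by ring
  simp only [this]

lemma d_ne_v : C.d ≠ C.v := fun h => C.hvD (h ▸ C.hd)

lemma msk_zero (k : ℤ) (hk : (C.s : ℤ) ∣ k) : msk o R C.ζ k = msk o R C.ζ 0 := by
  have h := iseq_per (o := o) (R := R) C.per C.d
  have h2 := per_dvd h (k := k) (l := 0) (by simpa using hk)
  exact congrArg Prod.fst h2

/-- Alignments are unique modulo `s`. -/
lemma at_dvd {x : ℤ → A} {i j : ℤ} (hi : C.At x i) (hj : C.At x j) (hij : |j - i| ≤ 2 * (C.s : ℤ)) :
    (C.s : ℤ) ∣ j - i := by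
  have hs : (0 : ℤ) < C.s := by exact_mod_cast C.spos
  have hle := abs_le.1 hij
  refine no_conf hs (iseq o R C.ζ C.s C.d) (iseq o R C.ζ C.s C.v) (iseq_per C.per _)
    (iseq_per C.per _) ?_ ?_ C.prim0 C.prim1
    (fun k => (msk o R x (i + k), er C.D0 C.d (cont o R x (i + k))))
    (max (-(2 * (C.s : ℤ))) (j - i - 2 * C.s)) (min (2 * (C.s : ℤ)) (j - i + 2 * C.s) + 1) (j - i)
    (by omega) ?_ ?_
  · intro k hk
    unfold iseq
    simp only [if_neg hk]
  · intro h
    have := congrArg Prod.snd h
    unfold iseq at this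
    simp only [dvd_zero, if_true, Option.some_inj] at this
    exact C.d_ne_v this
  · intro k h1 h2
    have h := hi k (by rw [abs_le]; omega)
    refine ⟨fun hk => ?_, fun hk => ?_⟩
    · unfold iseq
      rw [if_neg hk, h.1, h.2.1 hk]
    · unfold iseq
      simp only [dvd_zero, if_true]
      rw [h.1, C.msk_zero k hk]
      rcases h.2.2 hk with h3 | h3
      · left; rw [h3]
      · right; rw [h3]
  · intro k h1 h2
    have h := hj (k - (j - i)) (by rw [abs_le]; omega)
    rw [show j + (k - (j - i)) = i + k by ring] at h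
    refine ⟨fun hk => ?_, fun hk => ?_⟩
    · unfold iseq
      rw [if_neg hk, h.1, h.2.1 hk]
    · unfold iseq
      simp only [dvd_zero, if_true]
      rw [h.1, C.msk_zero _ hk]
      rcases h.2.2 hk with h3 | h3
      · left; rw [h3]
      · right; rw [h3]

lemma er_cases {c : Option (Fin 8 → A)} (h : er C.D0 C.d c = some C.d ∨ er C.D0 C.d c = some C.v) :
    ∃ w ∈ insert C.v C.D0, c = some w := by
  by_cases hc : ∃ w ∈ C.D0, c = some w
  · obtain ⟨w, hw, rfl⟩ := hc
    exact ⟨w, Finset.mem_insert_of_mem hw, rfl⟩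
  · rw [er_off hc] at h
    rcases h with h | h
    · exact ⟨C.d, Finset.mem_insert_of_mem C.hd, h⟩
    · exact ⟨C.v, Finset.mem_insert_self _ _, h⟩

lemma er_of_mem {w : Fin 8 → A} (hw : w ∈ insert C.v C.D0) :
    er C.D0 C.d (some w) = some C.d ∨ er C.D0 C.d (some w) = some C.v := by
  rcases Finset.mem_insert.1 hw with rfl | h
  · right; exact er_some_off C.hvD
  · left; exact er_some h

lemma at_cell {x : ℤ → A} {i : ℤ} (h : C.At x i) : ∃ w ∈ insert C.v C.D0, cont o R x i = some w := by
  have := (h 0 (by simp)).2.2 (dvd_zero _)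
  rw [add_zero] at this
  exact C.er_cases this

lemma sub_Wd : insert C.v C.D0 ⊆ Wd o := by
  intro w hw
  rcases Finset.mem_insert.1 hw with rfl | h
  · exact C.hv
  · exact C.hD0 h

/-- The exchange system. -/
noncomputable def csys : Sys A 8 :=
  CSys.sys (o := o) (R := R)
    { E := {x | C.At x 0}
      D := insert C.v C.D0
      clopen := by
        apply isClopen_of_radius _ (2 * C.s + R + 16)
        intro x y h hx k hk
        have h1 := hx k hk
        have hk2 := abs_le.1 hk
        have e1 : msk o R x (0 + k) = msk o R y (0 + k) := by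
          apply msk_local
          intro l hl
          apply h
          rw [abs_le] at hl ⊢
          push_cast
          constructor <;> omega
        have e2 : cont o R x (0 + k) = cont o R y (0 + k) := by
          apply cont_local
          intro l hl
          apply h
          rw [abs_le] at hl ⊢
          push_cast
          constructor <;> omega
        rwa [e1, e2] at h1
      hne := ⟨C.v, Finset.mem_insert_self _ _⟩
      hD := C.sub_Wd
      cell := by
        intro x hx
        exact C.at_cell hx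
      inv := by
        intro x hx c hc k hk
        have hsites : ∀ i ∈ sites {x | C.At x 0} x, C.At x i := by
          intro i hi
          have := mem_sites.1 hi
          have h2 : C.At (sh i x) 0 := this
          rwa [at_sh, zero_add] at h2
        have hcell : ∀ i ∈ sites {x | C.At x 0} x, IsCell o R x i := by
          intro i hi
          obtain ⟨w, _, hw⟩ := C.at_cell (hsites i hi)
          exact (cont_eq_some.1 hw).1
        have h1 := hx k hk
        rw [msk_repl C.hR hcell (fun i _ => C.sub_Wd (hc i)),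
          cont_repl C.hR hcell (fun i _ => C.sub_Wd (hc i))]
        refine ⟨h1.1, fun hk2 => ?_, fun hk2 => ?_⟩
        · rw [if_neg]
          · exact h1.2.1 hk2
          · intro h2
            apply hk2
            have h3 := C.at_dvd hx (hsites _ h2) (by simpa using hk)
            simpa using h3
        · split_ifs with h2
          · exact C.er_of_mem (hc _)
          · exact h1.2.2 hk2 } C.hR

lemma mem_csys_sites (x : ℤ → A) (i : ℤ) : i ∈ sites (C.csys).E x ↔ C.At x i := by
  have : i ∈ sites (C.csys).E x ↔ C.At (sh i x) 0 := Iff.rfl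
  rw [this, at_sh, zero_add]

lemma isCS_csys : IsCS o R C.csys where
  hR := C.hR
  hD := C.sub_Wd
  hE := by
    intro x hx
    obtain ⟨w, _, hw⟩ := C.at_cell (show C.At x 0 from hx)
    exact (cont_eq_some.1 hw).1

/-- The exchange of `κ` and `v`. -/
noncomputable def ex (κ : Fin 8 → A) : G A := C.csys.ga Set.univ (Equiv.swap κ C.v)

variable {κ : Fin 8 → A} (hκ : κ ∈ C.D0)

include hκ

lemma swap_PD : Equiv.swap κ C.v ∈ C.csys.PD := by
  intro w hw
  apply Equiv.swap_apply_of_ne_of_ne
  · rintro rfl; exact hw (Finset.mem_insert_of_mem hκ)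
  · rintro rfl; exact hw (Finset.mem_insert_self _ _)

lemma cont_ex (x : ℤ → A) (i : ℤ) : cont o R ((C.ex κ).1 x) i =
    if C.At x i then (cont o R x i).map (Equiv.swap κ C.v) else cont o R x i := by
  unfold ex
  rw [C.csys.ga_apply isClopen_univ (C.swap_PD hκ), C.isCS_csys.cont_act
    (C.csys.gF_good isClopen_univ (C.swap_PD hκ)).2.2.1]
  simp only [mem_csys_sites]
  split_ifs with h
  · rw [C.isCS_csys.cont_site ((C.mem_csys_sites x i).2 h)]
    have h1 : C.csys.gF Set.univ (Equiv.swap κ C.v) (sh i x) = Equiv.swap κ C.v := by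
      unfold Sys.gF
      rw [if_pos]
      exact ⟨(C.mem_csys_sites x i).2 h, Set.mem_univ _⟩
    rw [h1]
    rfl
  · rfl

lemma msk_ex (x : ℤ → A) (k : ℤ) : msk o R ((C.ex κ).1 x) k = msk o R x k := by
  unfold ex
  rw [C.csys.ga_apply isClopen_univ (C.swap_PD hκ), C.isCS_csys.msk_act
    (C.csys.gF_good isClopen_univ (C.swap_PD hκ)).2.2.1]

/-- The exchange is compatible with the system of the cells with content in `D'`. -/
lemma compat_ex {D' : Finset (Fin 8 → A)} (hD' : D' ⊆ Wd o) (hne' : D'.Nonempty) (hs : D' ⊆ C.D0)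
    (hκ' : κ ∉ D') : (dsys o C.hR hD' hne').Compat (C.ex κ) := by
  have hvD' : C.v ∉ D' := fun h => C.hvD (hs h)
  have hsw : ∀ w, Equiv.swap κ C.v w ∈ D' ↔ w ∈ D' := by
    intro w
    by_cases h1 : w = κ
    · subst h1
      rw [Equiv.swap_apply_left]
      exact ⟨fun h => absurd h hvD', fun h => absurd h hκ'⟩
    · by_cases h2 : w = C.v
      · subst h2
        rw [Equiv.swap_apply_right]
        exact ⟨fun h => absurd h hκ', fun h => absurd h hvD'⟩
      · rw [Equiv.swap_apply_of_ne_of_ne h1 h2]
  have hfix : ∀ w ∈ D', Equiv.swap κ C.v w = w := by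
    intro w hw
    apply Equiv.swap_apply_of_ne_of_ne
    · rintro rfl; exact hκ' hw
    · rintro rfl; exact hvD' hw
  -- membership of the content
  have hmem : ∀ (x : ℤ → A) (i : ℤ), (∃ w ∈ D', cont o R ((C.ex κ).1 x) i = some w) ↔
      ∃ w ∈ D', cont o R x i = some w := by
    intro x i
    rw [C.cont_ex hκ]
    split_ifs with h
    · constructor
      · rintro ⟨w, hw, h1⟩
        rw [Option.map_eq_some_iff] at h1
        obtain ⟨u, hu, hu2⟩ := h1
        exact ⟨u, (hsw u).1 (hu2 ▸ hw), hu⟩
      · rintro ⟨w, hw, h1⟩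
        exact ⟨Equiv.swap κ C.v w, (hsw w).2 hw, by rw [h1]; rfl⟩
    · rfl
  have hCS := isCS_dsys (o := o) C.hR hD' hne'
  constructor
  · intro x
    exact hmem x 0
  · intro x c hc
    -- the sites of the exchange do not change
    have hAt : ∀ i, C.At ((dsys o C.hR hD' hne').fill x c) i ↔ C.At x i := by
      intro i
      unfold At
      have e1 : ∀ k, msk o R ((dsys o C.hR hD' hne').fill x c) k = msk o R x k :=
        fun k => hCS.msk_fill x c hc k
      have e2 : ∀ k, er C.D0 C.d (cont o R ((dsys o C.hR hD' hne').fill x c) k) =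
          er C.D0 C.d (cont o R x k) := by
        intro k
        rw [hCS.cont_fill x c hc]
        split_ifs with h
        · rw [dsys_mem_sites] at h
          obtain ⟨w, hw, h1⟩ := h
          rw [h1, er_some (hs hw), er_some (hs (hc k))]
        · rfl
      simp only [e1, e2]
    apply eq_of_info
    · intro k
      rw [C.msk_ex hκ, hCS.msk_fill x c hc, hCS.msk_fill _ c hc, C.msk_ex hκ]
    · intro k
      rw [C.cont_ex hκ, hCS.cont_fill x c hc, hCS.cont_fill _ c hc, C.cont_ex hκ]
      simp only [hAt]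
      have hsites : k ∈ sites (dsys o C.hR hD' hne').E ((C.ex κ).1 x) ↔
          k ∈ sites (dsys o C.hR hD' hne').E x := by
        rw [dsys_mem_sites, dsys_mem_sites]
        exact hmem x k
      simp only [hsites]
      by_cases h1 : C.At x k
      · by_cases h2 : k ∈ sites (dsys o C.hR hD' hne').E x
        · rw [if_pos h1, if_pos h2, if_pos h2, Option.map_some, hfix _ (hc k)]
        · rw [if_pos h1, if_neg h2, if_neg h2, if_pos h1]
      · rw [if_neg h1, if_neg h1]

end MixData

end FShift
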