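import Pool.Agent.MP2b057c.Local

set_option autoImplicit false
set_option linter.unusedSectionVars false

/-!
Full shifts: the action on the orbits of least period `s`.
-/

namespace FShift

variable (A : Type)

/-- Points of least period `s`. -/
abbrev PP (s : ℕ) : Type := {x : ℤ → A // LP s x}

/-- Same shift orbit. -/
def orbSetoid (s : ℕ) : Setoid (PP A s) where
  r x y := SameOrb x.1 y.1
  iseqv :=
    { refl := fun x => ⟨0, by simp⟩
      symm := by
        rintro x y ⟨j, hj⟩
        exact ⟨-j, by rw [hj, sh_sh]; simp⟩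
      trans := by
        rintro x y z ⟨i, hi⟩ ⟨j, hj⟩
        exact ⟨j + i, by rw [hj, hi, sh_sh]⟩ }

/-- The orbits of least period `s`. -/
def Orb (s : ℕ) : Type := Quotient (orbSetoid A s)

variable {A}

/-- The class of a point. -/
def orbMk {s : ℕ} (x : ℤ → A) (hx : LP s x) : Orb A s := Quotient.mk (orbSetoid A s) ⟨x, hx⟩

lemma orbMk_eq {s : ℕ} {x y : ℤ → A} (hx : LP s x) (hy : LP s y) :
    orbMk x hx = orbMk y hy ↔ SameOrb x y :=
  Quotient.eq (r := orbSetoid A s) (x := ⟨x, hx⟩) (y := ⟨y, hy⟩)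

lemma orb_ind {s : ℕ} {p : Orb A s → Prop} (h : ∀ (x : ℤ → A) (hx : LP s x), p (orbMk x hx))
    (q : Orb A s) : p q :=
  Quotient.ind (s := orbSetoid A s) (motive := p) (fun x => h x.1 x.2) q

variable [TopologicalSpace A]

lemma isPer_G {g : G A} {j : ℤ} {x : ℤ → A} : IsPer j (g.1 x) ↔ IsPer j x := by
  have h : ∀ y : ℤ → A, IsPer j y ↔ sh j y = y := by
    intro y
    constructor
    · intro h; ext k; exact h k
    · intro h k; exact congrFun h k
  rw [h, h, ← G_sh]
  exact g.1.injective.eq_iff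

lemma LP_G {g : G A} {s : ℕ} {x : ℤ → A} : LP s (g.1 x) ↔ LP s x := by
  unfold LP
  simp only [isPer_G]

/-- The map on orbits. -/
def orbMap {s : ℕ} (g : G A) : Orb A s → Orb A s :=
  Quotient.map (sa := orbSetoid A s) (sb := orbSetoid A s)
    (fun x : PP A s => (⟨g.1 x.1, LP_G.2 x.2⟩ : PP A s)) (by
      rintro x y ⟨j, hj⟩
      exact ⟨j, by simp only [hj, G_sh]⟩)

lemma orbMap_mk {s : ℕ} (g : G A) (x : ℤ → A) (hx : LP s x) :
    orbMap g (orbMk x hx) = orbMk (g.1 x) (LP_G.2 hx) := rfl

lemma orbMap_mul {s : ℕ} (g g' : G A) (q : Orb A s) : orbMap (g * g') q = orbMap g (orbMap g' q) := by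
  induction q using orb_ind with
  | h x hx => rfl

lemma orbMap_one {s : ℕ} (q : Orb A s) : orbMap (1 : G A) q = q := by
  induction q using orb_ind with
  | h x hx => rfl

variable (A)

/-- The action on the orbits of least period `s`. -/
def orbHom (s : ℕ) : G A →* Equiv.Perm (Orb A s) where
  toFun g :=
    { toFun := orbMap g
      invFun := orbMap g⁻¹
      left_inv := by
        intro q
        rw [← orbMap_mul, inv_mul_cancel, orbMap_one]
      right_inv := by
        intro q
        rw [← orbMap_mul, mul_inv_cancel, orbMap_one] }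
  map_one' := by
    ext q
    exact orbMap_one q
  map_mul' := by
    intro g g'
    ext q
    exact orbMap_mul g g' q

variable {A}

lemma orbHom_mk {s : ℕ} (g : G A) (x : ℤ → A) (hx : LP s x) :
    orbHom A s g (orbMk x hx) = orbMk (g.1 x) (LP_G.2 hx) := rfl

lemma orbHom_ker (s : ℕ) : (orbHom A s).ker = J A s := by
  ext g
  rw [MonoidHom.mem_ker]
  constructor
  · intro h x hx
    have h1 : orbHom A s g (orbMk x hx) = orbMk x hx := by rw [h]; rfl
    rw [orbHom_mk, orbMk_eq] at h1
    obtain ⟨j, hj⟩ := h1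
    refine ⟨-j, ?_⟩
    rw [hj, sh_sh]
    have := sh_zero (g.1 x)
    simp [← hj]
  · intro h
    ext q
    induction q using orb_ind with
    | h x hx =>
      rw [orbHom_mk]
      show _ = orbMk x hx
      rw [orbMk_eq]
      obtain ⟨j, hj⟩ := h x hx
      exact ⟨-j, by rw [hj, sh_sh]; simp⟩

instance J_normal (s : ℕ) : (J A s).Normal := by
  rw [← orbHom_ker]
  infer_instance

variable (A)

/-- The main property: a normal subgroup of finite index which misses `h` preserves the orbit of
a point of least period `s`, and this period is characterised by the groups `J A k`. -/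
def MTprop : Prop := ∀ R : ℕ, ∃ h h' : G A, h * h' ≠ h' * h ∧
  ∀ M : Subgroup (G A), M.Normal → M.FiniteIndex → h ∉ M →
    ∃ (s : ℕ) (x : ℤ → A), R ≤ s ∧ LP s x ∧ (∀ g ∈ M, SameOrb x (g.1 x)) ∧
      ∀ k : ℕ, 0 < k → k ≠ s → ∃ f ∈ J A k, ¬ SameOrb x (f.1 x)

end FShift
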