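import Pool.Agent.MP2b057c.Vis

set_option autoImplicit false
set_option linter.unusedSectionVars false

/-!
Full shifts: equivariance, refinement, lifting and pushing of visible points, and the finiteness
of the number of shifts of a visible point.
-/

namespace FShift

open scoped Classical commutatorElement

variable {A : Type} [TopologicalSpace A] [DiscreteTopology A] {b : ℕ}

namespace Sys

variable {M : Subgroup (G A)}

/-- The automorphism `Γ` is compatible with the system. -/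
def Compat (T : Sys A b) (Γ : G A) : Prop :=
  (∀ x, Γ.1 x ∈ T.E ↔ x ∈ T.E) ∧
    ∀ (x : ℤ → A) (c : ℤ → Fin b → A), (∀ i, c i ∈ T.D) → Γ.1 (T.fill x c) = T.fill (Γ.1 x) c

lemma Compat.sites {T : Sys A b} {Γ : G A} (h : T.Compat Γ) (x : ℤ → A) :
    sites T.E (Γ.1 x) = sites T.E x := by
  ext i
  rw [mem_sites, mem_sites, ← G_sh, h.1]

lemma Compat.win_eq {T : Sys A b} {Γ : G A} (h : T.Compat Γ) (x : ℤ → A) {i : ℤ}
    (hi : i ∈ FShift.sites T.E x) : (win (Γ.1 x) i : Fin b → A) = win x i := by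
  set c : ℤ → Fin b → A := fun i => if i ∈ FShift.sites T.E x then win x i else T.d with hc
  have hcD : ∀ i, c i ∈ T.D := by
    intro i
    simp only [hc]
    split_ifs with h1
    · exact T.win_mem_sites x h1
    · exact T.hd
  have h1 : T.fill x c = x := by
    have := T.fill_win x
    conv_rhs => rw [← this]
    apply T.fill_congr
    intro i hi
    simp only [hc, if_pos hi]
  have h2 := h.2 x c hcD
  rw [h1] at h2
  have hi' : i ∈ FShift.sites T.E (Γ.1 x) := by rw [h.sites]; exact hi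
  have h3 := T.win_fill (Γ.1 x) c hi'
  rw [← h2] at h3
  rw [h3]
  simp only [hc, if_pos hi]

lemma Compat.skel_eq {T : Sys A b} {Γ : G A} (h : T.Compat Γ) (x : ℤ → A) :
    Γ.1 (T.skel x) = T.skel (Γ.1 x) := h.2 x _ (fun _ => T.hd)

lemma Compat.vis_mem {T : Sys A b} {Γ : G A} (h : T.Compat Γ) (hM : M.Normal) {ξ : ℤ → A}
    (hξ : ξ ∈ T.vis M) : Γ.1 ξ ∈ T.vis M := by
  intro V' hV' hmem hdead
  have hV : IsClopen (Γ.1 ⁻¹' V') := hV'.preimage Γ.2.2.1
  apply hξ _ hV hmem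
  intro p hp q hq r hr hpq hqr hpr
  set π := cyc p q r with hπ
  have hπD : π ∈ T.PD := T.cyc_mem_PD hp hq hr
  have key : Γ * T.ga (Γ.1 ⁻¹' V') π = T.ga V' π * Γ := by
    apply Subtype.ext
    apply Equiv.ext
    intro x
    show Γ.1 ((T.ga (Γ.1 ⁻¹' V') π).1 x) = (T.ga V' π).1 (Γ.1 x)
    rw [T.ga_apply hV hπD, T.ga_apply hV' hπD, act_eq_fill, act_eq_fill,
      h.2 x _ (T.cc_mem (T.gF_good hV hπD).2.2.1 x)]
    apply T.fill_congr
    intro i hi
    have hi' : i ∈ FShift.sites T.E x := by rw [← h.sites]; exact hi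
    unfold cc
    rw [if_pos hi, if_pos hi', h.win_eq x hi']
    have e : T.gF (Γ.1 ⁻¹' V') π (sh i x) = T.gF V' π (sh i (Γ.1 x)) := by
      unfold gF
      have e1 : sh i x ∈ T.E ↔ sh i (Γ.1 x) ∈ T.E := by rw [← G_sh, h.1]
      have e2 : T.skel (sh i x) ∈ Γ.1 ⁻¹' V' ↔ T.skel (sh i (Γ.1 x)) ∈ V' := by
        rw [← G_sh, ← h.skel_eq]; rfl
      simp only [e1, e2]
    rw [e]
  have h1 := hdead p hp q hq r hr hpq hqr hpr
  have h2 := hM.conj_mem _ h1 Γ⁻¹
  have h3 : Γ⁻¹ * T.ga V' (cyc p q r) * Γ⁻¹⁻¹ = T.ga (Γ.1 ⁻¹' V') π := by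
    rw [inv_inv, mul_assoc, ← hπ, ← key]
    group
  rw [h3] at h2
  exact h2

/-- `T'` refines `T` over the clopen set `V0`. -/
structure Refines (T' T : Sys A b) (V0 : Set (ℤ → A)) : Prop where
  hE : T'.E ⊆ T.E
  hD : T'.D ⊆ T.D
  hV0 : IsClopen V0
  hloc : ∀ x ∈ T.E, T.skel x ∈ V0 → (win x 0 : Fin b → A) ∈ T'.D → x ∈ T'.E

variable {T' T : Sys A b} {V0 : Set (ℤ → A)}

lemma fill_eq_fill (hE : T'.E ⊆ T.E) (x : ℤ → A) (c : ℤ → Fin b → A) :
    T'.fill x c = T.fill x (fun i => if i ∈ sites T'.E x then c i else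
      if i ∈ sites T.E x then win x i else T.d) := by
  unfold fill
  rw [repl_sub (T.sep_sites x) (S' := sites T'.E x) (fun i hi => hE hi)]
  apply repl_congr (T.sep_sites x)
  intro i hi
  split_ifs <;> rfl

lemma fill_eq_fill_mem (hD : T'.D ⊆ T.D) (x : ℤ → A) (c : ℤ → Fin b → A)
    (hc : ∀ i, c i ∈ T'.D) (i : ℤ) : (if i ∈ sites T'.E x then c i else
      if i ∈ sites T.E x then win x i else T.d) ∈ T.D := by
  split_ifs with h1 h2
  · exact hD (hc i)
  · exact T.win_mem_sites x h2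
  · exact T.hd

lemma skel_fill' (hE : T'.E ⊆ T.E) (hD : T'.D ⊆ T.D) (x : ℤ → A) (c : ℤ → Fin b → A)
    (hc : ∀ i, c i ∈ T'.D) : T.skel (T'.fill x c) = T.skel x := by
  rw [fill_eq_fill hE, T.skel_fill _ _ (fill_eq_fill_mem hD x c hc)]

lemma mem_fill' (hE : T'.E ⊆ T.E) (hD : T'.D ⊆ T.D) (x : ℤ → A) (c : ℤ → Fin b → A)
    (hc : ∀ i, c i ∈ T'.D) : T'.fill x c ∈ T.E ↔ x ∈ T.E := by
  rw [fill_eq_fill hE, T.fill_mem_iff _ _ (fill_eq_fill_mem hD x c hc)]

lemma skel_skel' (hE : T'.E ⊆ T.E) (hD : T'.D ⊆ T.D) (x : ℤ → A) : T.skel (T'.skel x) = T.skel x :=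
  skel_fill' hE hD x _ (fun _ => T'.hd)

lemma PD_le (hD : T'.D ⊆ T.D) {π : Equiv.Perm (Fin b → A)} (hπ : π ∈ T'.PD) : π ∈ T.PD :=
  fun w hw => hπ w (fun h => hw (hD h))

/-- A gate of the coarse system as a gate of the fine system. -/
lemma Refines.ga_eq (h : Refines T' T V0) {V : Set (ℤ → A)} (hV : IsClopen V) (hsub : V ⊆ V0)
    {π : Equiv.Perm (Fin b → A)} (hπ : π ∈ T'.PD) : T.ga V π = T'.ga (T.skel ⁻¹' V) π := by
  have hπ' : π ∈ T.PD := PD_le h.hD hπ
  have hV' : IsClopen (T.skel ⁻¹' V) := hV.preimage T.continuous_skel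
  apply Subtype.ext
  apply Equiv.ext
  intro x
  rw [T.ga_apply hV hπ', T'.ga_apply hV' hπ]
  have e : ∀ y : ℤ → A, T'.gF (T.skel ⁻¹' V) π y = if y ∈ T'.E ∧ T.skel y ∈ V then π else 1 := by
    intro y
    unfold gF
    rw [Set.mem_preimage, skel_skel' h.hE h.hD]
  unfold act
  rw [repl_sub (T.sep_sites x) (S' := sites T'.E x) (fun i hi => h.hE hi)]
  apply repl_congr (T.sep_sites x)
  intro i hi
  rw [e]
  unfold gF
  have hi1 : sh i x ∈ T.E := hi
  by_cases hi' : i ∈ sites T'.E x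
  · have hi2 : sh i x ∈ T'.E := hi'
    rw [if_pos hi']
    simp only [hi1, hi2, true_and]
  · rw [if_neg hi']
    by_cases hs : T.skel (sh i x) ∈ V
    · rw [if_pos ⟨hi1, hs⟩]
      apply hπ
      intro hw
      apply hi'
      apply h.hloc (sh i x) hi1 (hsub hs)
      rw [win_sh, zero_add]
      exact hw
    · rw [if_neg (fun hh => hs hh.2)]
      rfl

/-- Lifting of visible points. -/
lemma Refines.lift [Finite A] (h : Refines T' T V0) (hM : M.Normal) (hfin : M.FiniteIndex)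
    (h5 : 5 ≤ T'.D.card) {ξ : ℤ → A} (hξ : ξ ∈ T.vis M) (hξ0 : ξ ∈ V0) :
    ∃ ξ' ∈ T'.vis M, T.skel ξ' = ξ := by
  by_contra hcon
  push Not at hcon
  have hfinite := T'.vis_finite hM hfin h5
  have hopen : IsOpen ({ξ' | ξ' ∈ T.skel '' (T'.vis M)}ᶜ) :=
    (hfinite.image T.skel).isClosed.isOpen_compl
  have hmem : ξ ∈ ({ξ' | ξ' ∈ T.skel '' (T'.vis M)}ᶜ : Set (ℤ → A)) := by
    rintro ⟨η, hη, rfl⟩
    exact hcon η hη rfl
  obtain ⟨ρ, hρ⟩ := exists_cyl_subset hopen hmem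
  set V := V0 ∩ cyl ξ ρ with hV
  have hVc : IsClopen V := h.hV0.inter (isClopen_cyl ξ ρ)
  obtain ⟨p, hp, q, hq, r, hr, hpq, hqr, hpr⟩ := exists_triple T'.D (by omega)
  have h1 := h.ga_eq hVc Set.inter_subset_left (T'.cyc_mem_PD hp hq hr)
  have h2 := T.vis_not_mem hM hξ hVc ⟨hξ0, mem_cyl_self ξ ρ⟩ (h.hD hp) (h.hD hq) (h.hD hr) hpq hqr hpr
  apply h2
  rw [h1]
  have hVc' : IsClopen (T.skel ⁻¹' V) := hVc.preimage T.continuous_skel
  refine T'.mem_of_vis hM h5 (T'.gF_good hVc' (T'.cyc_mem_PD hp hq hr)) hp hq hr hpq hqr hpr ?_ ?_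
  · intro x
    unfold gF
    split_ifs
    · exact Or.inr (Or.inl rfl)
    · exact Or.inl rfl
  · intro η hη
    unfold gF
    rw [if_neg]
    rintro ⟨_, hm⟩
    rw [Set.mem_preimage, skel_skel' h.hE h.hD] at hm
    exact hρ hm.2 ⟨η, hη, rfl⟩

/-- Pushing of visible points. -/
lemma Refines.push (h : Refines T' T V0) (hM : M.Normal)
    (h5 : 5 ≤ T'.D.card) {η : ℤ → A} (hη : η ∈ T'.vis M) (hη0 : T.skel η ∈ V0) :
    T.skel η ∈ T.vis M := by
  intro V hV hmem hdead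
  have h5' : 5 ≤ T.D.card := h5.trans (Finset.card_le_card h.hD)
  have hV1 : IsClopen (V ∩ V0) := hV.inter h.hV0
  have hd1 := T.dead_mono hM h5' hV hV1 Set.inter_subset_left hdead
  apply hη (T.skel ⁻¹' (V ∩ V0)) (hV1.preimage T.continuous_skel) ⟨hmem, hη0⟩
  intro p hp q hq r hr hpq hqr hpr
  rw [← h.ga_eq hV1 Set.inter_subset_right (T'.cyc_mem_PD hp hq hr)]
  exact hd1 p (h.hD hp) q (h.hD hq) r (h.hD hr) hpq hqr hpr

/-- The subsystem of the free windows whose erased surroundings lie in `V`. -/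
noncomputable def sub (T : Sys A b) (V : Set (ℤ → A)) (hV : IsClopen V) : Sys A b where
  E := T.E ∩ T.skel ⁻¹' V
  D := T.D
  d := T.d
  hd := T.hd
  clopen := T.clopen.inter (hV.preimage T.continuous_skel)
  win_mem := fun x hx => T.win_mem x hx.1
  sep := fun x hx j hj hjx => T.sep x hx.1 j hj hjx.1
  inv := by
    intro x hx c hc
    have e : repl x (sites (T.E ∩ T.skel ⁻¹' V) x) c =
        T.fill x (fun i => if i ∈ sites (T.E ∩ T.skel ⁻¹' V) x then c i else
          if i ∈ sites T.E x then win x i else T.d) := by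
      unfold fill
      rw [repl_sub (T.sep_sites x) (S' := sites (T.E ∩ T.skel ⁻¹' V) x) (fun i hi => hi.1)]
      apply repl_congr (T.sep_sites x)
      intro i hi
      split_ifs <;> rfl
    have hc' : ∀ i, (if i ∈ sites (T.E ∩ T.skel ⁻¹' V) x then c i else
          if i ∈ sites T.E x then win x i else T.d) ∈ T.D := by
      intro i
      split_ifs with h1 h2
      · exact hc i
      · exact T.win_mem_sites x h2
      · exact T.hd
    rw [e]
    refine ⟨(T.fill_mem_iff x _ hc').2 hx.1, ?_⟩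
    rw [Set.mem_preimage, T.skel_fill x _ hc']
    exact hx.2

lemma sub_refines (T : Sys A b) {V : Set (ℤ → A)} (hV : IsClopen V) : Refines (T.sub V hV) T V where
  hE := Set.inter_subset_left
  hD := Finset.Subset.refl _
  hV0 := hV
  hloc := fun _ hx hs _ => ⟨hx, hs⟩

lemma mem_sites_sub (T : Sys A b) {V : Set (ℤ → A)} (hV : IsClopen V) (x : ℤ → A) (i : ℤ) :
    i ∈ sites (T.sub V hV).E x ↔ i ∈ sites T.E x ∧ T.skel (sh i x) ∈ V := Iff.rfl

lemma skel_act (T : Sys A b) {F : (ℤ → A) → Equiv.Perm (Fin b → A)}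
    (hF : ∀ x w, w ∉ T.D → F x w = w) (x : ℤ → A) : T.skel (T.act F x) = T.skel x := by
  rw [act_eq_fill, T.skel_fill x _ (T.cc_mem hF x)]

/-- Rules which are trivial over `V` are compatible with the subsystem of `V`. -/
lemma compat_sub (T : Sys A b) {V : Set (ℤ → A)} (hV : IsClopen V)
    {F : (ℤ → A) → Equiv.Perm (Fin b → A)} (hF : T.Good F)
    (h1 : ∀ x, T.skel x ∈ V → F x = 1) : (T.sub V hV).Compat (T.ho F) := by
  have hF3 := hF.2.2.1
  constructor
  · intro x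
    rw [T.ho_apply hF]
    show T.act F x ∈ T.E ∧ T.skel (T.act F x) ∈ V ↔ x ∈ T.E ∧ T.skel x ∈ V
    rw [T.act_mem_iff hF3, T.skel_act hF3]
  · intro x c hc
    rw [T.ho_apply hF, T.ho_apply hF]
    have hE : (T.sub V hV).E ⊆ T.E := Set.inter_subset_left
    have hD : (T.sub V hV).D ⊆ T.D := Finset.Subset.refl _
    rw [fill_eq_fill hE x, fill_eq_fill hE (T.act F x)]
    set c' : ℤ → Fin b → A := fun i => if i ∈ sites (T.sub V hV).E x then c i else
      if i ∈ sites T.E x then win x i else T.d with hc'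
    have hc'D : ∀ i, c' i ∈ T.D := fill_eq_fill_mem hD x c hc
    rw [T.act_eq_fill F (T.fill x c'), T.fill_fill x _ _ hc'D]
    conv_rhs => rw [T.act_eq_fill F x]
    rw [T.fill_fill x _ _ (T.cc_mem hF3 x), ← T.act_eq_fill F x]
    apply T.fill_congr
    intro i hi
    have hi1 : i ∈ sites T.E (T.fill x c') := by rw [T.sites_fill x c' hc'D]; exact hi
    have hi2 : i ∈ sites T.E (T.act F x) := by rw [T.sites_act hF3]; exact hi
    have e1 : F (sh i (T.fill x c')) = F (sh i x) := by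
      rw [sh_fill]
      exact hF.2.2.2 _ _ (fun j => hc'D _)
    have e2 : i ∈ sites (T.sub V hV).E (T.act F x) ↔ i ∈ sites (T.sub V hV).E x := by
      rw [mem_sites_sub, mem_sites_sub, T.sites_act hF3, T.sh_act, T.skel_act hF3]
    unfold cc
    rw [if_pos hi1, T.win_fill x c' hi, e1]
    simp only [hc', if_pos hi, e2, if_pos hi2]
    by_cases h2 : i ∈ sites (T.sub V hV).E x
    · rw [if_pos h2, if_pos h2, h1 (sh i x) h2.2]
      rfl
    · rw [if_neg h2, if_neg h2, T.win_act F x hi]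

/-- A visible point has few shifts to its sites. -/
lemma two_pow_le_shifts [Finite A] (T : Sys A b) (hM : M.Normal) (hfin : M.FiniteIndex)
    (h5 : 5 ≤ T.D.card) {ξ : ℤ → A} (hξ : ξ ∈ T.vis M) (N : ℕ) (j : Fin N → ℤ)
    (hj : ∀ r, sh (j r) ξ ∈ T.E) (hne : ∀ r, sh (j r) ξ ≠ ξ)
    (hinj : ∀ r r', r ≠ r' → sh (j r) ξ ≠ sh (j r') ξ) : 2 ^ N ≤ M.index := by
  set s : Finset (ℤ → A) := insert ξ (Finset.univ.image (fun r => sh (j r) ξ)) with hs
  obtain ⟨ρ, hρ⟩ := exists_disjoint_radius s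
  have hsr : ∀ r, sh (j r) ξ ∈ s := fun r => Finset.mem_insert_of_mem
    (Finset.mem_image.2 ⟨r, Finset.mem_univ _, rfl⟩)
  have hsξ : ξ ∈ s := Finset.mem_insert_self _ _
  set V : Set (ℤ → A) := (⋃ r, cyl (sh (j r) ξ) ρ)ᶜ with hV
  have hVc : IsClopen V := (isClopen_iUnion_of_finite (fun r => isClopen_cyl (sh (j r) ξ) ρ)).compl
  have hξV : ξ ∈ V := by
    rw [hV, Set.mem_compl_iff, Set.mem_iUnion]
    rintro ⟨r, hr⟩
    have := hρ _ (hsr r) _ hsξ (hne r)
    exact (this ▸ (⟨hr, mem_cyl_self ξ ρ⟩ : ξ ∈ cyl (sh (j r) ξ) ρ ∩ cyl ξ ρ) : ξ ∈ (∅ : Set (ℤ → A)))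
  obtain ⟨ξ', hξ', hsk⟩ := (T.sub_refines hVc).lift hM hfin h5 hξ hξV
  -- the contents at the places `j r`
  have hsite : ∀ r, j r ∈ sites T.E ξ' := by
    intro r
    rw [← T.sites_skel ξ', hsk]
    exact hj r
  have hw : ∀ r, (win ξ' (j r) : Fin b → A) ∈ T.D := fun r => T.win_mem_sites ξ' (hsite r)
  have hex : ∀ r, ∃ w ∈ T.D, w ≠ win ξ' (j r) := by
    intro r
    exact Finset.exists_mem_ne (show 1 < T.D.card by omega) _
  choose w hwD hwne using hex
  have hswap : ∀ r, Equiv.swap (win ξ' (j r)) (w r) ∈ T.PD := by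
    intro r u hu
    apply Equiv.swap_apply_of_ne_of_ne
    · rintro rfl; exact hu (hw r)
    · rintro rfl; exact hu (hwD r)
  have hcompat : ∀ r, (T.sub V hVc).Compat
      (T.ga (cyl (sh (j r) ξ) ρ) (Equiv.swap (win ξ' (j r)) (w r))) := by
    intro r
    apply T.compat_sub hVc (T.gF_good (isClopen_cyl _ _) (hswap r))
    intro x hx
    unfold gF
    rw [if_neg]
    rintro ⟨_, h2⟩
    exact hx (Set.mem_iUnion.2 ⟨r, h2⟩)
  set η : Fin N → (ℤ → A) := fun r =>
    (T.ga (cyl (sh (j r) ξ) ρ) (Equiv.swap (win ξ' (j r)) (w r))).1 ξ' with hη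
  have hηvis : ∀ r, η r ∈ (T.sub V hVc).vis M := fun r => (hcompat r).vis_mem hM hξ'
  have hwin : ∀ r r', (win (η r) (j r') : Fin b → A) = if r = r' then w r else win ξ' (j r') := by
    intro r r'
    simp only [hη]
    rw [T.ga_apply (isClopen_cyl _ _) (hswap r), T.win_act _ _ (hsite r')]
    unfold gF
    have e1 : T.skel (sh (j r') ξ') = sh (j r') ξ := by rw [← T.sh_skel, hsk]
    rw [e1]
    have hm : sh (j r') ξ' ∈ T.E := hsite r'
    split_ifs with h1 h2 h2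
    · subst h2
      exact Equiv.swap_apply_left _ _
    · exfalso
      have h3 := hρ _ (hsr r) _ (hsr r') (hinj r r' h2)
      have h4 : sh (j r') ξ ∈ cyl (sh (j r) ξ) ρ ∩ cyl (sh (j r') ξ) ρ := ⟨h1.2, mem_cyl_self _ _⟩
      rw [h3] at h4
      exact h4
    · exfalso
      subst h2
      exact h1 ⟨hm, mem_cyl_self _ _⟩
    · rfl
  have hηinj : Function.Injective η := by
    intro r r' hrr
    by_contra hne2
    have h1 := hwin r r
    rw [if_pos rfl, hrr, hwin r' r, if_neg (Ne.symm hne2)] at h1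
    exact hwne r h1.symm
  have h2 := (T.sub V hVc).two_pow_le hM hfin h5 (Finset.univ.image η) (by
    intro x hx
    obtain ⟨r, _, rfl⟩ := Finset.mem_image.1 hx
    exact hηvis r)
  rwa [Finset.card_image_of_injective _ hηinj, Finset.card_univ, Fintype.card_fin] at h2

/-- Among many sites of a visible point two give the same shift. -/
lemma exists_shift_eq [Finite A] (T : Sys A b) (hM : M.Normal) (hfin : M.FiniteIndex)
    (h5 : 5 ≤ T.D.card) {ξ : ℤ → A} (hξ : ξ ∈ T.vis M) (N : ℕ) (hN : M.index < 2 ^ N) (j : Fin N → ℤ)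
    (hj : ∀ r, sh (j r) ξ ∈ T.E) :
    (∃ r, sh (j r) ξ = ξ) ∨ ∃ r r', r ≠ r' ∧ sh (j r) ξ = sh (j r') ξ := by
  by_contra hcon
  push Not at hcon
  exact absurd (T.two_pow_le_shifts hM hfin h5 hξ N j hj hcon.1 hcon.2) (not_le.2 hN)

/-- A visible point with infinitely many sites is periodic. -/
lemma periodic_of_infinite [Finite A] (T : Sys A b) (hM : M.Normal) (hfin : M.FiniteIndex)
    (h5 : 5 ≤ T.D.card) {ξ : ℤ → A} (hξ : ξ ∈ T.vis M) (hinf : (sites T.E ξ).Infinite) :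
    ∃ P : ℤ, P ≠ 0 ∧ IsPer P ξ := by
  obtain ⟨s, hs1, hs2⟩ := (hinf.sdiff (Set.finite_singleton (0 : ℤ))).exists_subset_card_eq M.index
  let e := s.equivFin.symm
  have hN : M.index < 2 ^ s.card := by rw [hs2]; exact Nat.lt_two_pow_self
  have key : ∀ i j : ℤ, i ≠ j → sh i ξ = sh j ξ → ∃ P : ℤ, P ≠ 0 ∧ IsPer P ξ := by
    intro i j hij h
    refine ⟨i - j, by omega, fun k => ?_⟩
    have := congrFun h (k - j)
    simp only [sh_apply, sub_add_cancel] at this
    rw [← this]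
    congr 1; ring
  rcases T.exists_shift_eq hM hfin h5 hξ s.card hN (fun r => (e r).1)
    (fun r => (hs1 (e r).2).1) with ⟨r, hr⟩ | ⟨r, r', hrr, h⟩
  · apply key (e r).1 0 (hs1 (e r).2).2
    rw [hr, sh_zero]
  · apply key (e r).1 (e r').1 _ h
    intro h'
    exact hrr (e.injective (Subtype.ext h'))

end Sys

end FShift
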