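import Pool.Agent.MP2b057c.Local
import Pool.Agent.MP2b057c.GroupAux

set_option autoImplicit false
set_option linter.unusedSectionVars false

/-!
Full shifts: gates, dead sets and visible points of a system with respect to a normal subgroup of
finite index.
-/

namespace FShift

open scoped Classical commutatorElement

variable {A : Type} [TopologicalSpace A] [DiscreteTopology A] {b : ℕ}

namespace Sys

lemma continuous_skel (T : Sys A b) : Continuous T.skel := by
  refine continuous_pi fun k => ?_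
  apply IsLocallyConstant.continuous
  rw [IsLocallyConstant.iff_eventually_eq]
  intro x
  rcases repl_cases (b := b) (S := sites T.E x) k with ⟨i, hi, j, rfl⟩ | hk
  · have h1 : ∀ᶠ y in nhds x, sh i y ∈ T.E :=
      (continuous_sh i).continuousAt.eventually (T.clopen.isOpen.mem_nhds hi)
    filter_upwards [h1] with y hy1
    unfold skel fill
    rw [repl_at (T.sep_sites y) _ _ hy1, repl_at (T.sep_sites x) _ _ hi]
  · have h1 : ∀ᶠ y in nhds x, ∀ j : Fin b, sh (k - (j : ℤ)) y ∉ T.E := by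
      apply Filter.eventually_all.2
      intro j
      exact (continuous_sh (k - (j : ℤ))).continuousAt.eventually
        (T.clopen.compl.isOpen.mem_nhds (hk j))
    have h2 : ∀ᶠ y in nhds x, y k = x k :=
      (continuous_apply k).continuousAt.eventually (show {a : A | a = x k} ∈ nhds (x k) by simp)
    filter_upwards [h1, h2] with y hy1 hy2
    unfold skel fill
    rw [repl_off _ _ hk, repl_off _ _ (fun j => hy1 j), hy2]

/-- A locally constant function of the erased point, cut off at `E`. -/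
lemma good_of_skel (T : Sys A b) (F : (ℤ → A) → Equiv.Perm (Fin b → A)) (hF : IsLocallyConstant F)
    (hD : ∀ x, F x ∈ T.PD) (hE : ∀ x, x ∉ T.E → F x = 1) (hs : ∀ x, F (T.skel x) = F x) : T.Good F := by
  refine ⟨hF, hE, fun x w hw => hD x w hw, fun x c hc => ?_⟩
  rw [← hs, T.skel_fill x c hc, hs]

lemma gF_good (T : Sys A b) {V : Set (ℤ → A)} (hV : IsClopen V) {π : Equiv.Perm (Fin b → A)}
    (hπ : π ∈ T.PD) : T.Good (T.gF V π) := by
  apply T.good_of_skel
  · have h1 : IsClopen {x | x ∈ T.E ∧ T.skel x ∈ V} := T.clopen.inter (hV.preimage T.continuous_skel)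
    rw [IsLocallyConstant.iff_eventually_eq]
    intro x
    by_cases hx : x ∈ T.E ∧ T.skel x ∈ V
    · filter_upwards [h1.isOpen.mem_nhds hx] with y hy
      unfold gF
      rw [if_pos hx, if_pos hy]
    · filter_upwards [h1.compl.isOpen.mem_nhds hx] with y hy
      have hy' : ¬ (y ∈ T.E ∧ T.skel y ∈ V) := hy
      unfold gF
      rw [if_neg hx, if_neg hy']
  · intro x
    unfold gF
    split_ifs
    · exact hπ
    · exact T.PD.one_mem
  · intro x hx
    unfold gF
    rw [if_neg (fun h => hx h.1)]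
  · intro x
    unfold gF
    simp only [T.skel_mem_iff, T.skel_skel]

/-- The automorphism of a rule (`1` if the rule is not good). -/
noncomputable def ho (T : Sys A b) (F : (ℤ → A) → Equiv.Perm (Fin b → A)) : G A :=
  if h : T.Good F then T.hom ⟨F, h⟩ else 1

/-- The gate of `V` and `π`. -/
noncomputable def ga (T : Sys A b) (V : Set (ℤ → A)) (π : Equiv.Perm (Fin b → A)) : G A :=
  T.ho (T.gF V π)

lemma ho_apply (T : Sys A b) {F : (ℤ → A) → Equiv.Perm (Fin b → A)} (hF : T.Good F) (x : ℤ → A) :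
    (T.ho F).1 x = T.act F x := by
  unfold ho
  rw [dif_pos hF, hom_apply]

lemma ho_mul (T : Sys A b) {F F' : (ℤ → A) → Equiv.Perm (Fin b → A)} (hF : T.Good F)
    (hF' : T.Good F') : T.ho (F * F') = T.ho F * T.ho F' := by
  have h : T.Good (F * F') := T.gp.mul_mem hF hF'
  unfold ho
  rw [dif_pos hF, dif_pos hF', dif_pos h, ← map_mul]
  rfl

lemma ho_inv (T : Sys A b) {F : (ℤ → A) → Equiv.Perm (Fin b → A)} (hF : T.Good F) :
    T.ho F⁻¹ = (T.ho F)⁻¹ := by
  have h : T.Good F⁻¹ := T.gp.inv_mem hF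
  unfold ho
  rw [dif_pos hF, dif_pos h, ← map_inv]
  rfl

lemma ho_one (T : Sys A b) : T.ho 1 = 1 := by
  have h : T.Good (1 : (ℤ → A) → Equiv.Perm (Fin b → A)) := T.gp.one_mem
  unfold ho
  rw [dif_pos h]
  exact map_one T.hom

lemma ho_comm (T : Sys A b) {F F' : (ℤ → A) → Equiv.Perm (Fin b → A)} (hF : T.Good F)
    (hF' : T.Good F') : T.ho ⁅F, F'⁆ = ⁅T.ho F, T.ho F'⁆ := by
  rw [commutatorElement_def, commutatorElement_def,
    T.ho_mul (T.gp.mul_mem (T.gp.mul_mem hF hF') (T.gp.inv_mem hF)) (T.gp.inv_mem hF'),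
    T.ho_mul (T.gp.mul_mem hF hF') (T.gp.inv_mem hF), T.ho_mul hF hF', T.ho_inv hF, T.ho_inv hF']

lemma ga_apply (T : Sys A b) {V : Set (ℤ → A)} (hV : IsClopen V) {π : Equiv.Perm (Fin b → A)}
    (hπ : π ∈ T.PD) (x : ℤ → A) : (T.ga V π).1 x = T.act (T.gF V π) x :=
  T.ho_apply (T.gF_good hV hπ) x

lemma ga_mul (T : Sys A b) {V : Set (ℤ → A)} (hV : IsClopen V) {π ρ : Equiv.Perm (Fin b → A)}
    (hπ : π ∈ T.PD) (hρ : ρ ∈ T.PD) : T.ga V (π * ρ) = T.ga V π * T.ga V ρ := by
  unfold ga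
  rw [← T.ho_mul (T.gF_good hV hπ) (T.gF_good hV hρ)]
  congr 1
  ext1 x
  simp only [gF, Pi.mul_apply]
  split_ifs <;> simp

lemma ga_inv (T : Sys A b) {V : Set (ℤ → A)} (hV : IsClopen V) {π : Equiv.Perm (Fin b → A)}
    (hπ : π ∈ T.PD) : T.ga V π⁻¹ = (T.ga V π)⁻¹ := by
  unfold ga
  rw [← T.ho_inv (T.gF_good hV hπ)]
  congr 1
  ext1 x
  simp only [gF, Pi.inv_apply]
  split_ifs <;> simp

lemma ga_comm (T : Sys A b) {V V' : Set (ℤ → A)} (hV : IsClopen V) (hV' : IsClopen V')
    {π ρ : Equiv.Perm (Fin b → A)}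
    (hπ : π ∈ T.PD) (hρ : ρ ∈ T.PD) : ⁅T.ga V π, T.ga V' ρ⁆ = T.ga (V ∩ V') ⁅π, ρ⁆ := by
  unfold ga
  rw [← T.ho_comm (T.gF_good hV hπ) (T.gF_good hV' hρ)]
  congr 1
  ext1 x
  simp only [commutatorElement_def, gF, Pi.mul_apply, Pi.inv_apply, Set.mem_inter_iff]
  by_cases h1 : x ∈ T.E
  · by_cases h2 : T.skel x ∈ V
    · by_cases h3 : T.skel x ∈ V'
      · simp [h1, h2, h3]
      · simp [h1, h2, h3]
    · simp [h1, h2]
  · simp [h1]

lemma ga_empty (T : Sys A b) (π : Equiv.Perm (Fin b → A)) : T.ga ∅ π = 1 := by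
  unfold ga
  have : T.gF ∅ π = 1 := by
    ext1 x
    simp [gF]
  rw [this, ho_one]

lemma cyc_mem_PD (T : Sys A b) {p q r : Fin b → A} (hp : p ∈ T.D) (hq : q ∈ T.D) (hr : r ∈ T.D) :
    cyc p q r ∈ T.PD := by
  intro w hw
  apply cyc_apply_off
  · rintro rfl; exact hw hp
  · rintro rfl; exact hw hq
  · rintro rfl; exact hw hr

/-- `V` is dead: all gates of `V` with 3-cycles lie in `M`. -/
def Dead (T : Sys A b) (M : Subgroup (G A)) (V : Set (ℤ → A)) : Prop :=
  ∀ p ∈ T.D, ∀ q ∈ T.D, ∀ r ∈ T.D, p ≠ q → q ≠ r → p ≠ r → T.ga V (cyc p q r) ∈ M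

/-- Visible points. -/
def vis (T : Sys A b) (M : Subgroup (G A)) : Set (ℤ → A) :=
  {ξ | ∀ V : Set (ℤ → A), IsClopen V → ξ ∈ V → ¬ T.Dead M V}

variable {M : Subgroup (G A)}

/-- One 3-cycle decides. -/
lemma dead_of_one (T : Sys A b) (hM : M.Normal) {V : Set (ℤ → A)} (hV : IsClopen V)
    {p q r : Fin b → A} (hp : p ∈ T.D) (hq : q ∈ T.D) (hr : r ∈ T.D) (hpq : p ≠ q) (hqr : q ≠ r)
    (hpr : p ≠ r) (h : T.ga V (cyc p q r) ∈ M) : T.Dead M V := by
  intro p' hp' q' hq' r' hr' hpq' hqr' hpr'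
  obtain ⟨τ, hτ, e1, e2, e3⟩ := exists_perm_triple T.D hp hq hr hp' hq' hr' hpq hqr hpr hpq' hqr' hpr'
  have h1 := hM.conj_mem _ h (T.ga V τ)
  have hτ' : τ ∈ T.PD := hτ
  rw [← T.ga_inv hV hτ', ← T.ga_mul hV hτ' (T.cyc_mem_PD hp hq hr),
    ← T.ga_mul hV (T.PD.mul_mem hτ' (T.cyc_mem_PD hp hq hr)) (T.PD.inv_mem hτ'), cyc_conj, e1, e2, e3] at h1
  exact h1

lemma dead_mono (T : Sys A b) (hM : M.Normal) (h5 : 5 ≤ T.D.card) {V V' : Set (ℤ → A)}
    (hV : IsClopen V) (hV' : IsClopen V') (hs : V' ⊆ V) (h : T.Dead M V) : T.Dead M V' := by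
  intro p hp q hq r hr hpq hqr hpr
  obtain ⟨q', hq', r', hr', n1, n2, n3, n4, n5, n6, n7⟩ := exists_two_more T.D h5 p q r
  have e : T.ga V' (cyc p q r) = ⁅T.ga V (cyc p q q'), T.ga V' (cyc p r r')⁆ := by
    rw [T.ga_comm hV hV' (T.cyc_mem_PD hp hq hq') (T.cyc_mem_PD hp hr hr'),
      Set.inter_eq_self_of_subset_right hs,
      cyc_comm hpq n2 hpr n5 n3 hqr n6 n4.symm n1 n7]
  rw [e, commutatorElement_def]
  have h1 : T.ga V (cyc p q q') ∈ M := h p hp q hq q' hq' hpq n3 n2
  have h2 := hM.conj_mem _ (M.inv_mem h1) (T.ga V' (cyc p r r'))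
  have h3 := M.mul_mem h1 h2
  simpa [mul_assoc] using h3

/-- If `ξ` is visible then no small neighbourhood has a 3-cycle gate in `M`. -/
lemma vis_not_mem (T : Sys A b) (hM : M.Normal) {ξ : ℤ → A} (hξ : ξ ∈ T.vis M)
    {V : Set (ℤ → A)} (hV : IsClopen V) (hξV : ξ ∈ V)
    {p q r : Fin b → A} (hp : p ∈ T.D) (hq : q ∈ T.D) (hr : r ∈ T.D) (hpq : p ≠ q) (hqr : q ≠ r)
    (hpr : p ≠ r) : T.ga V (cyc p q r) ∉ M :=
  fun h => hξ V hV hξV (T.dead_of_one hM hV hp hq hr hpq hqr hpr h)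

lemma vis_mem_E (T : Sys A b) {ξ : ℤ → A} (hξ : ξ ∈ T.vis M) : ξ ∈ T.E := by
  by_contra h
  apply hξ T.Eᶜ T.clopen.compl h
  intro p _ q _ r _ _ _ _
  have : T.gF T.Eᶜ (cyc p q r) = 1 := by
    ext1 x
    unfold gF
    rw [if_neg]
    · rfl
    · rintro ⟨h1, h2⟩
      exact h2 ((T.skel_mem_iff x).2 h1)
  unfold ga
  rw [this, ho_one]
  exact M.one_mem

/-- Two points which agree on no cylinder. -/
lemma exists_cyl_disjoint_skel (T : Sys A b) {ξ : ℤ → A} (h : T.skel ξ ≠ ξ) :
    ∃ V : Set (ℤ → A), IsClopen V ∧ ξ ∈ V ∧ ∀ x ∈ V, T.skel x ≠ x := by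
  have h1 : IsOpen {x | T.skel x ≠ x} := isOpen_ne_fun T.continuous_skel continuous_id
  obtain ⟨ρ, hρ⟩ := exists_cyl_subset h1 h
  exact ⟨cyl ξ ρ, isClopen_cyl ξ ρ, mem_cyl_self ξ ρ, hρ⟩

lemma vis_skel (T : Sys A b) {ξ : ℤ → A} (hξ : ξ ∈ T.vis M) : T.skel ξ = ξ := by
  by_contra h
  obtain ⟨V, hV, hξV, hV2⟩ := T.exists_cyl_disjoint_skel h
  apply hξ V hV hξV
  intro p _ q _ r _ _ _ _
  have : T.gF V (cyc p q r) = 1 := by
    ext1 x
    unfold gF
    rw [if_neg]
    · rfl
    · rintro ⟨_, h2⟩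
      exact hV2 _ h2 (T.skel_skel x)
  unfold ga
  rw [this, ho_one]
  exact M.one_mem

/-- Disjoint cylinders around finitely many points. -/
lemma exists_disjoint_radius (s : Finset (ℤ → A)) :
    ∃ ρ : ℕ, ∀ x ∈ s, ∀ y ∈ s, x ≠ y → cyl x ρ ∩ cyl y ρ = ∅ := by
  have h1 : ∀ x y : ℤ → A, ∃ n : ℕ, x ≠ y → ∃ k : ℤ, |k| ≤ (n : ℤ) ∧ x k ≠ y k := by
    intro x y
    by_cases h : x = y
    · exact ⟨0, fun h' => absurd h h'⟩
    · obtain ⟨k, hk⟩ := Function.ne_iff.1 h
      exact ⟨k.natAbs, fun _ => ⟨k, by rw [Int.abs_eq_natAbs], hk⟩⟩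
  choose n hn using h1
  refine ⟨s.sup (fun x => s.sup (fun y => n x y)), fun x hx y hy hxy => ?_⟩
  obtain ⟨k, hk, hne⟩ := hn x y hxy
  ext z
  simp only [Set.mem_inter_iff, Set.mem_empty_iff_false, iff_false, not_and]
  intro hz hz'
  have hle : (n x y : ℤ) ≤ ((s.sup (fun x => s.sup (fun y => n x y)) : ℕ) : ℤ) := by
    have h2 : n x y ≤ s.sup (fun y => n x y) := Finset.le_sup (f := fun y => n x y) hy
    have h3 : s.sup (fun y => n x y) ≤ s.sup (fun x => s.sup (fun y => n x y)) :=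
      Finset.le_sup (f := fun x => s.sup (fun y => n x y)) hx
    exact_mod_cast h2.trans h3
  apply hne
  rw [← hz k (hk.trans hle), ← hz' k (hk.trans hle)]

/-- There are at most `log₂ [G : M]` visible points. -/
lemma two_pow_le (T : Sys A b) (hM : M.Normal) (hfin : M.FiniteIndex) (h5 : 5 ≤ T.D.card)
    (s : Finset (ℤ → A)) (hs : ∀ ξ ∈ s, ξ ∈ T.vis M) : 2 ^ s.card ≤ M.index := by
  obtain ⟨ρ, hρ⟩ := exists_disjoint_radius s
  obtain ⟨p, hp, q, hq, r, hr, hpq, hqr, hpr⟩ := exists_triple T.D (by omega)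
  obtain ⟨q', hq', r', hr', n1, n2, n3, n4, n5, n6, n7⟩ := exists_two_more T.D h5 p q r
  let e := s.equivFin.symm
  refine pow_le_index M hM hfin s.card (fun i => T.ga (cyl (e i).1 ρ) (cyc p q q'))
    (fun i => T.ga (cyl (e i).1 ρ) (cyc p r r')) ?_ ?_
  · intro i j hij
    have h1 : (e i).1 ≠ (e j).1 := by
      intro h
      exact hij (e.injective (Subtype.ext h))
    have h2 := T.ga_comm (isClopen_cyl (e i).1 ρ) (isClopen_cyl (e j).1 ρ) (T.cyc_mem_PD hp hq hq')
      (T.cyc_mem_PD hp hr hr')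
    rw [hρ _ (e i).2 _ (e j).2 h1, ga_empty, commutatorElement_def, mul_inv_eq_one,
      mul_inv_eq_iff_eq_mul] at h2
    exact h2
  · intro i
    show ⁅T.ga (cyl (e i).1 ρ) (cyc p q q'), T.ga (cyl (e i).1 ρ) (cyc p r r')⁆ ∉ M
    rw [T.ga_comm (isClopen_cyl (e i).1 ρ) (isClopen_cyl (e i).1 ρ) (T.cyc_mem_PD hp hq hq')
      (T.cyc_mem_PD hp hr hr'), Set.inter_self, cyc_comm hpq n2 hpr n5 n3 hqr n6 n4.symm n1 n7]
    exact T.vis_not_mem hM (hs _ (e i).2) (isClopen_cyl _ _) (mem_cyl_self _ _) hp hq hr hpq hqr hpr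

lemma vis_finite (T : Sys A b) (hM : M.Normal) (hfin : M.FiniteIndex) (h5 : 5 ≤ T.D.card) :
    (T.vis M).Finite := by
  by_contra h
  obtain ⟨s, hs1, hs2⟩ := Set.Infinite.exists_subset_card_eq h M.index
  have h1 := T.two_pow_le hM hfin h5 s (fun ξ hξ => hs1 hξ)
  rw [hs2] at h1
  exact absurd h1 (not_le.2 Nat.lt_two_pow_self)

lemma act_congr (T : Sys A b) {F F' : (ℤ → A) → Equiv.Perm (Fin b → A)}
    (h : ∀ x ∈ T.E, F x (win x 0) = F' x (win x 0)) (x : ℤ → A) : T.act F x = T.act F' x := by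
  unfold act
  apply repl_congr (T.sep_sites x)
  intro i hi
  have h1 := h (sh i x) hi
  rwa [win_sh, zero_add] at h1

/-- The restriction of a rule to a set of erased points. -/
noncomputable def restr (T : Sys A b) (F : (ℤ → A) → Equiv.Perm (Fin b → A)) (V : Set (ℤ → A)) :
    (ℤ → A) → Equiv.Perm (Fin b → A) := fun x => if T.skel x ∈ V then F x else 1

lemma restr_good (T : Sys A b) {F : (ℤ → A) → Equiv.Perm (Fin b → A)} (hF : T.Good F)
    {V : Set (ℤ → A)} (hV : IsClopen V) : T.Good (T.restr F V) := by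
  refine ⟨?_, ?_, ?_, ?_⟩
  · rw [IsLocallyConstant.iff_eventually_eq]
    intro x
    have h1 := hV.preimage T.continuous_skel
    have h2 := (IsLocallyConstant.iff_eventually_eq F).1 hF.1 x
    by_cases hx : T.skel x ∈ V
    · filter_upwards [h1.isOpen.mem_nhds hx, h2] with y hy hy2
      have hy' : T.skel y ∈ V := hy
      unfold restr
      rw [if_pos hx, if_pos hy', hy2]
    · filter_upwards [h1.compl.isOpen.mem_nhds hx] with y hy
      have hy' : T.skel y ∉ V := hy
      unfold restr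
      rw [if_neg hx, if_neg hy']
  · intro x hx
    unfold restr
    rw [hF.2.1 x hx, ite_self]
  · intro x w hw
    unfold restr
    split_ifs
    · exact hF.2.2.1 x w hw
    · rfl
  · intro x c hc
    unfold restr
    rw [T.skel_fill x c hc, hF.2.2.2 x c hc]

/-- A good rule with values in `{1, π, π⁻¹}` which is trivial at all visible points lies in `M`. -/
lemma mem_of_vis [Finite A] (T : Sys A b) (hM : M.Normal) (h5 : 5 ≤ T.D.card)
    {F : (ℤ → A) → Equiv.Perm (Fin b → A)} (hF : T.Good F)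
    {p q r : Fin b → A} (hp : p ∈ T.D) (hq : q ∈ T.D) (hr : r ∈ T.D) (hpq : p ≠ q) (hqr : q ≠ r)
    (hpr : p ≠ r) (hval : ∀ x, F x = 1 ∨ F x = cyc p q r ∨ F x = (cyc p q r)⁻¹)
    (hvis : ∀ ξ ∈ T.vis M, F ξ = 1) : T.ho F ∈ M := by
  set P : Set (ℤ → A) → Prop := fun S => ∃ V, IsClopen V ∧ S ⊆ V ∧
    ∀ V', IsClopen V' → V' ⊆ V → T.ho (T.restr F V') ∈ M with hP
  have hempty : ∀ V', V' ⊆ (∅ : Set (ℤ → A)) → T.ho (T.restr F V') ∈ M := by
    intro V' hV'
    have h1 : V' = ∅ := Set.subset_empty_iff.1 hV'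
    subst h1
    have : T.restr F ∅ = 1 := by
      ext1 x; simp [restr]
    rw [this, ho_one]; exact M.one_mem
  have main : P Set.univ := by
    apply isCompact_univ.induction_on (p := P)
    · exact ⟨∅, isClopen_empty, le_rfl, fun V' _ h => hempty V' h⟩
    · rintro S S' hSS' ⟨V, h1, h2, h3⟩
      exact ⟨V, h1, hSS'.trans h2, h3⟩
    · rintro S S' ⟨V, h1, h2, h3⟩ ⟨W, h1', h2', h3'⟩
      refine ⟨V ∪ W, h1.union h1', Set.union_subset_union h2 h2', fun V' hV' hsub => ?_⟩
      have e : T.restr F V' = T.restr F (V' ∩ V) * T.restr F (V' \ V) := by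
        ext1 x
        simp only [restr, Pi.mul_apply, Set.mem_inter_iff, Set.mem_sdiff]
        by_cases ha : T.skel x ∈ V' <;> by_cases hb : T.skel x ∈ V <;> simp [ha, hb]
      rw [e, T.ho_mul (T.restr_good hF (hV'.inter h1)) (T.restr_good hF (hV'.diff h1))]
      apply M.mul_mem
      · exact h3 _ (hV'.inter h1) Set.inter_subset_right
      · apply h3' _ (hV'.diff h1)
        rintro x ⟨hx1, hx2⟩
        rcases hsub hx1 with h | h
        · exact absurd h hx2
        · exact h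
    · intro y _
      by_cases hy : y ∈ T.vis M
      · -- near a visible point the rule is trivial
        have hFy := hvis y hy
        refine ⟨{x | F x = 1}, ?_, {x | F x = 1}, ?_, le_rfl, ?_⟩
        · rw [nhdsWithin_univ]
          have := (IsLocallyConstant.iff_eventually_eq F).1 hF.1 y
          filter_upwards [this] with x hx
          show F x = 1
          rw [hx, hFy]
        · exact hF.1.isClopen_fiber 1
        · intro V' hV' hsub
          have : T.restr F V' = 1 := by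
            ext1 x
            simp only [restr, Pi.one_apply]
            split_ifs with h
            · have h1 : F (T.skel x) = 1 := hsub h
              rw [← h1]
              exact (hF.2.2.2 x _ (fun _ => T.hd)).symm
            · rfl
          rw [this, ho_one]; exact M.one_mem
      · -- a dead neighbourhood
        simp only [vis, Set.mem_ofPred_eq] at hy
        push Not at hy
        obtain ⟨V, hV, hyV, hdead⟩ := hy
        refine ⟨V, ?_, V, hV, le_rfl, ?_⟩
        · rw [nhdsWithin_univ]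
          exact hV.isOpen.mem_nhds hyV
        · intro V' hV' hsub
          set π := cyc p q r with hπ
          have hπD : π ∈ T.PD := T.cyc_mem_PD hp hq hr
          have hVp : IsClopen (V' ∩ {x | F x = π}) := hV'.inter (hF.1.isClopen_fiber π)
          have hVm : IsClopen (V' ∩ {x | F x = π⁻¹} ∩ {x | F x ≠ π}) :=
            (hV'.inter (hF.1.isClopen_fiber π⁻¹)).inter (hF.1.isClopen_fiber π).compl
          have hskel : ∀ x, F (T.skel x) = F x := fun x => hF.2.2.2 x _ (fun _ => T.hd)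
          have e : T.restr F V' = T.gF (V' ∩ {x | F x = π}) π *
              T.gF (V' ∩ {x | F x = π⁻¹} ∩ {x | F x ≠ π}) π⁻¹ := by
            ext1 x
            simp only [restr, gF, Pi.mul_apply, Set.mem_inter_iff, Set.mem_ofPred_eq, hskel]
            by_cases hxE : x ∈ T.E
            · by_cases hxV : T.skel x ∈ V'
              · rw [if_pos hxV]
                by_cases hFp : F x = π
                · have c1 : x ∈ T.E ∧ T.skel x ∈ V' ∧ F x = π := ⟨hxE, hxV, hFp⟩
                  have c2 : ¬ (x ∈ T.E ∧ (T.skel x ∈ V' ∧ F x = π⁻¹) ∧ F x ≠ π) := fun h => h.2.2 hFp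
                  rw [if_pos c1, if_neg c2, mul_one, hFp]
                · have c1 : ¬ (x ∈ T.E ∧ T.skel x ∈ V' ∧ F x = π) := fun h => hFp h.2.2
                  by_cases hFm : F x = π⁻¹
                  · have c2 : x ∈ T.E ∧ (T.skel x ∈ V' ∧ F x = π⁻¹) ∧ F x ≠ π :=
                      ⟨hxE, ⟨hxV, hFm⟩, hFp⟩
                    rw [if_neg c1, if_pos c2, one_mul, hFm]
                  · have c2 : ¬ (x ∈ T.E ∧ (T.skel x ∈ V' ∧ F x = π⁻¹) ∧ F x ≠ π) :=
                      fun h => hFm h.2.1.2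
                    have h1 : F x = 1 := by
                      rcases hval x with h | h | h
                      · exact h
                      · exact absurd h hFp
                      · exact absurd h hFm
                    rw [if_neg c1, if_neg c2, one_mul, h1]
              · simp [hxV]
            · simp [hxE, hF.2.1 x hxE]
          rw [e, T.ho_mul (T.gF_good hVp hπD) (T.gF_good hVm (T.PD.inv_mem hπD))]
          have d1 := T.dead_mono hM h5 hV hVp (Set.inter_subset_left.trans hsub) hdead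
          have d2 := T.dead_mono hM h5 hV hVm
            ((Set.inter_subset_left.trans Set.inter_subset_left).trans hsub) hdead
          apply M.mul_mem
          · exact d1 p hp q hq r hr hpq hqr hpr
          · have h2 := d2 p hp q hq r hr hpq hqr hpr
            have h3 := T.ga_inv hVm hπD
            unfold ga at h3 h2
            rw [h3]
            exact M.inv_mem h2
  obtain ⟨V, hV, hVu, h⟩ := main
  have h1 := h Set.univ isClopen_univ (by exact hVu)
  have e : T.restr F Set.univ = F := by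
    ext1 x; simp [restr]
  rwa [e] at h1

end Sys

end FShift
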