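import Pool.Agent.MP2b057c.Mix

set_option autoImplicit false
set_option linter.unusedSectionVars false

/-!
Full shifts: visible points of finer systems over a visible point of maximal period are periodic with
the same period.
-/

namespace FShift

open scoped Classical commutatorElement

variable {A : Type} [Fintype A] [TopologicalSpace A] [DiscreteTopology A] {o : A} {R : ℕ}

lemma iseq_prim_of_LP {ζ : ℤ → A} {s : ℕ} (h : LP s ζ) {d : Fin 8 → A}
    (hd : ∀ k : ℤ, (s : ℤ) ∣ k → cont o R ζ k = some d) (j : ℤ)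
    (hj : ∀ k, iseq o R ζ s d (k + j) = iseq o R ζ s d k) : (s : ℤ) ∣ j := by
  have e : ∀ k, iseq o R ζ s d k = (msk o R ζ k, cont o R ζ k) := by
    intro k
    unfold iseq
    split_ifs with hk
    · rw [hd k hk]
    · rfl
  apply h.2.2
  rw [isPer_iff]
  apply eq_of_info (o := o) (R := R)
  · intro k
    have := congrArg Prod.fst (hj k)
    rw [e, e] at this
    rw [msk_sh]
    exact this
  · intro k
    have := congrArg Prod.snd (hj k)
    rw [e, e] at this
    rw [cont_sh]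
    exact this

/-- The conclusion of package B. -/
def SitesProp (A : Type) [Fintype A] [TopologicalSpace A] [DiscreteTopology A] (o : A) (R : ℕ)
    (hR : 8 ≤ R) (M : Subgroup (G A)) : Prop :=
  ∀ (D : Finset (Fin 8 → A)) (hD : D ⊆ Wd o) (hne : D.Nonempty), 5 ≤ D.card →
    ∀ ξ ∈ (dsys o hR hD hne).vis M, ∀ m : ℤ, ∃ j, m < j ∧ j ∈ sites (dsys o hR hD hne).E ξ

lemma vis_LP (hR : 8 ≤ R) {M : Subgroup (G A)} (hM : M.Normal) (hfin : M.FiniteIndex)
    (hB : SitesProp A o R hR M) {D : Finset (Fin 8 → A)} (hD : D ⊆ Wd o) (hne : D.Nonempty)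
    (h5 : 5 ≤ D.card) {ξ : ℤ → A} (hξ : ξ ∈ (dsys o hR hD hne).vis M) : ∃ s : ℕ, LP s ξ := by
  apply exists_LP
  apply (dsys o hR hD hne).periodic_of_infinite hM hfin h5 hξ
  apply Set.infinite_of_forall_exists_gt
  intro m
  obtain ⟨j, h1, h2⟩ := hB D hD hne h5 ξ hξ m
  exact ⟨j, h2, h1⟩

/-- (W1) -/
theorem W1 (hR : 8 ≤ R) {M : Subgroup (G A)} (hM : M.Normal) (hfin : M.FiniteIndex)
    (hB : SitesProp A o R hR M) {D0 : Finset (Fin 8 → A)} (hD0 : D0 ⊆ Wd o) (hne0 : D0.Nonempty)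
    (hv : ∃ v1 ∈ Wd o, ∃ v2 ∈ Wd o, v1 ∉ D0 ∧ v2 ∉ D0 ∧ v1 ≠ v2)
    {ξ0 : ℤ → A} {s : ℕ} (hlp : LP s ξ0)
    (hmax : ∀ ξ ∈ (dsys o hR hD0 hne0).vis M, ∀ s', LP s' ξ → s' ≤ s)
    {D' : Finset (Fin 8 → A)} (hD' : D' ⊆ Wd o) (hne' : D'.Nonempty) (hs : D' ⊆ D0)
    (h5 : 5 ≤ D'.card) {ξ' : ℤ → A} (hξ' : ξ' ∈ (dsys o hR hD' hne').vis M)
    (hsk : (dsys o hR hD0 hne0).skel ξ' = ξ0) : IsPer (s : ℤ) ξ' := by
  by_contra hcon
  set T0 := dsys o hR hD0 hne0 with hT0
  set T' := dsys o hR hD' hne' with hT'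
  set d := T0.d with hd
  have hdD : d ∈ D0 := T0.hd
  have hspos : (0 : ℤ) < s := by exact_mod_cast hlp.1
  have hper0 := hlp.2.1
  have hmsk : ∀ k, msk o R ξ' k = msk o R ξ0 k := by
    intro k; rw [← hsk, dsys_msk_skel]
  have hcont : ∀ k, er D0 d (cont o R ξ' k) = cont o R ξ0 k := by
    intro k; rw [← hsk, dsys_cont_skel]
  have hmper : ∀ k, msk o R ξ0 (k + s) = msk o R ξ0 k := by
    intro k; rw [← msk_sh, isPer_iff.1 hper0]
  have hcper : ∀ k, cont o R ξ0 (k + s) = cont o R ξ0 k := by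
    intro k; rw [← cont_sh, isPer_iff.1 hper0]
  -- a position with different contents
  have h1 : ∃ p, cont o R ξ' (p + s) ≠ cont o R ξ' p := by
    by_contra hall
    push Not at hall
    apply hcon
    rw [isPer_iff]
    apply eq_of_info (o := o) (R := R)
    · intro k; rw [msk_sh, hmsk, hmsk, hmper]
    · intro k; rw [cont_sh, hall]
  obtain ⟨p, hp⟩ := h1
  have hDp : ∀ k, (∃ w ∈ D0, cont o R ξ' k = some w) ↔ cont o R ξ0 k = some d ∧
      ∃ w ∈ D0, cont o R ξ' k = some w := by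
    intro k
    constructor
    · intro h
      refine ⟨?_, h⟩
      obtain ⟨w, hw, h2⟩ := h
      rw [← hcont, h2, er_some hw]
    · exact fun h => h.2
  have hkey : ∀ k, cont o R ξ0 k = some d ↔ ∃ w ∈ D0, cont o R ξ' k = some w := by
    intro k
    constructor
    · intro h
      rw [← hcont] at h
      by_contra hn
      rw [er_off hn] at h
      exact hn ⟨d, hdD, h⟩
    · rintro ⟨w, hw, h2⟩
      rw [← hcont, h2, er_some hw]
  have hpD : cont o R ξ0 p = some d := by
    by_contra hn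
    apply hp
    have hn' : cont o R ξ0 (p + s) ≠ some d := by rw [hcper]; exact hn
    have e1 : ¬ ∃ w ∈ D0, cont o R ξ' p = some w := fun h => hn ((hkey p).2 h)
    have e2 : ¬ ∃ w ∈ D0, cont o R ξ' (p + s) = some w := fun h => hn' ((hkey _).2 h)
    have f1 := hcont p
    have f2 := hcont (p + s)
    rw [er_off e1] at f1
    rw [er_off e2] at f2
    rw [f1, f2, hcper]
  have hpD' : cont o R ξ0 (p + s) = some d := by rw [hcper]; exact hpD
  obtain ⟨w1, hw1, c1⟩ := (hkey p).1 hpD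
  obtain ⟨w2, hw2, c2⟩ := (hkey _).1 hpD'
  have hw12 : w1 ≠ w2 := by
    rintro rfl
    exact hp (c2.trans c1.symm)
  -- contents in `D'` are the default content
  have hdef : ∀ k w, w ∈ D' → cont o R ξ' k = some w → w = T'.d := by
    intro k w hw h
    have h2 := T'.vis_skel hξ'
    have h3 : cont o R (T'.skel ξ') k = er D' T'.d (cont o R ξ' k) := by
      rw [hT', dsys_cont_skel]
    rw [h2, h, er_some hw, Option.some_inj] at h3
    exact h3
  -- choose the positions
  obtain ⟨p1, p2, κ, w', hp12, hκD, hκD', hc1, hw'D, hc2, hw'κ⟩ :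
      ∃ (p1 p2 : ℤ) (κ w' : Fin 8 → A), (p2 = p1 + s ∨ p2 = p1 - s) ∧ κ ∈ D0 ∧ κ ∉ D' ∧
        cont o R ξ' p1 = some κ ∧ w' ∈ D0 ∧ cont o R ξ' p2 = some w' ∧ w' ≠ κ := by
    by_cases h : w1 ∈ D'
    · refine ⟨p + s, p, w2, w1, Or.inr (by ring), hw2, ?_, c2, hw1, c1, hw12⟩
      intro h'
      exact hw12 ((hdef p w1 h c1).trans (hdef _ w2 h' c2).symm)
    · exact ⟨p, p + s, w1, w2, Or.inl rfl, hw1, h, c1, hw2, c2, hw12.symm⟩
  have hper' : ∀ k, cont o R ξ0 (p2 + k) = cont o R ξ0 (p1 + k) := by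
    intro k
    rcases hp12 with h | h
    · rw [h, show p1 + s + k = (p1 + k) + s by ring, hcper]
    · rw [h, show p1 + k = (p1 - s + k) + s by ring, hcper]
  set ζ := sh p1 ξ0 with hζ
  have hζlp : LP s ζ := hlp.sh p1
  have hζper := hζlp.2.1
  have hζd : ∀ k : ℤ, (s : ℤ) ∣ k → cont o R ζ k = some d := by
    rintro k ⟨m, rfl⟩
    rw [hζ, cont_sh]
    have h1 : cont o R ξ0 p1 = some d := (hkey p1).2 ⟨κ, hκD, hc1⟩
    rw [← h1]
    exact per_dvd hcper ⟨m, by ring⟩
  -- choose `v`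
  obtain ⟨v, hvW, hvD, hprim⟩ : ∃ v ∈ Wd o, v ∉ D0 ∧
      ∀ j : ℤ, (∀ k, iseq o R ζ s v (k + j) = iseq o R ζ s v k) → (s : ℤ) ∣ j := by
    obtain ⟨v1, hv1, v2, hv2, hv1D, hv2D, hv12⟩ := hv
    rcases prim_or (s := (s : ℤ)) (iseq o R ζ s v1) (iseq o R ζ s v2) (iseq_per hζper _)
      (by intro k hk; unfold iseq; simp only [if_neg hk])
      (by
        intro h
        have := congrArg Prod.snd h
        unfold iseq at this
        simp only [dvd_zero, if_true, Option.some_inj] at this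
        exact hv12 this) with h | h
    · exact ⟨v1, hv1, hv1D, h⟩
    · exact ⟨v2, hv2, hv2D, h⟩
  let C : MixData o R :=
    { hR := hR
      D0 := D0
      hD0 := hD0
      d := d
      hd := hdD
      v := v
      hv := hvW
      hvD := hvD
      s := s
      spos := hlp.1
      ζ := ζ
      per := hζper
      prim0 := iseq_prim_of_LP hζlp hζd
      prim1 := hprim }
  have hvis := (C.compat_ex hκD hD' hne' hs hκD').vis_mem hM hξ'
  set ξ2 := (C.ex κ).1 ξ' with hξ2
  -- push to the coarse system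
  have href := dsys_refines hR hD0 hne0 hD' hne' hs
  have hpush := href.push hM h5 hvis (Set.mem_univ _)
  set ξs := T0.skel ξ2 with hξs
  obtain ⟨s', hs'⟩ := vis_LP hR hM hfin hB hD0 hne0 (h5.trans (Finset.card_le_card hs)) hpush
  have hs'le : s' ≤ s := hmax _ hpush s' hs'
  have hs'per := hs'.2.1
  have hs'pos := hs'.1
  have hcs : ∀ k, cont o R ξs k = er D0 d (cont o R ξ2 k) := by
    intro k; rw [hξs, hT0, dsys_cont_skel]
  have hsper : ∀ k, cont o R ξs (k + s') = cont o R ξs k := by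
    intro k; rw [← cont_sh, isPer_iff.1 hs'per]
  -- alignments
  have hAt : ∀ k : ℤ, (s : ℤ) ∣ k - p1 → C.At ξ' k := by
    intro k hk j _
    have e : ∀ z, z = k + j → True := fun _ _ => trivial
    have hk1 : msk o R ξ0 (k + j) = msk o R ζ j := by
      rw [hζ, msk_sh]
      exact per_dvd hmper (by rw [show k + j - (j + p1) = k - p1 by ring]; exact hk)
    have hk2 : cont o R ξ0 (k + j) = cont o R ζ j := by
      rw [hζ, cont_sh]
      exact per_dvd hcper (by rw [show k + j - (j + p1) = k - p1 by ring]; exact hk)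
    refine ⟨?_, fun _ => ?_, fun hj => ?_⟩
    · rw [hmsk, hk1]
    · show er D0 d _ = _
      rw [hcont, hk2]
    · left
      show er D0 d _ = _
      rw [hcont, hk2]
      exact hζd j hj
  have hAt' : ∀ k : ℤ, C.At ξ' k → (s : ℤ) ∣ k - p1 := by
    intro k hk
    -- a multiple close to `k`
    have h2 := Int.emod_nonneg (k - p1) hspos.ne'
    have h3 := Int.emod_lt_of_pos (k - p1) hspos
    have h4 : (s : ℤ) ∣ (k - (k - p1) % s) - p1 := by
      have := Int.dvd_self_sub_emod (x := k - p1) (m := (s : ℤ))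
      rw [show k - (k - p1) % s - p1 = k - p1 - (k - p1) % s by ring]
      exact this
    have h5 := C.at_dvd (hAt _ h4) hk (by
      rw [abs_le]
      show -(2 * (s : ℤ)) ≤ _ ∧ _ ≤ 2 * (s : ℤ)
      constructor <;> omega)
    have h6 := dvd_add h5 h4
    have e : k - (k - (k - p1) % ↑s) + (k - (k - p1) % ↑s - p1) = k - p1 := by ring
    rw [e] at h6
    exact h6
  have hp1 : cont o R ξs p1 = some v := by
    rw [hcs, hξ2, C.cont_ex hκD, if_pos (hAt p1 (by simp)), hc1, Option.map_some,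
      Equiv.swap_apply_left]
    exact er_some_off hvD
  have hp2 : cont o R ξs p2 = some d := by
    rw [hcs, hξ2, C.cont_ex hκD, if_pos (hAt p2 (by rcases hp12 with h | h <;> rw [h] <;> simp)), hc2,
      Option.map_some, Equiv.swap_apply_of_ne_of_ne hw'κ (by
        rintro rfl; exact hvD hw'D)]
    exact er_some hw'D
  have hdv : d ≠ v := fun h => hvD (h ▸ hdD)
  by_cases hdvd : (s : ℤ) ∣ s'
  · have hss : s' = s := by
      have h1 : s ∣ s' := by exact_mod_cast hdvd
      exact le_antisymm hs'le (Nat.le_of_dvd hs'pos h1)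
    rw [hss] at hsper
    apply hdv
    rcases hp12 with h | h
    · rw [h, hsper, hp1, Option.some_inj] at hp2
      exact hp2.symm
    · have h7 := hsper p2
      rw [h, show p1 - (s : ℤ) + s = p1 by ring, hp1, ← h, hp2, Option.some_inj] at h7
      exact h7.symm
  · -- the shifted positions are not holes
    have hno : ∀ k : ℤ, (s : ℤ) ∣ k - p1 → ¬ C.At ξ' (k + s') := by
      intro k hk h
      apply hdvd
      have h1 := hAt' _ h
      have := dvd_sub h1 hk
      rwa [show k + (s' : ℤ) - p1 - (k - p1) = s' by ring] at this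
    have e1 : cont o R ξs (p1 + s') = cont o R ξ0 (p1 + s') := by
      rw [hcs, hξ2, C.cont_ex hκD, if_neg (hno p1 (by simp)), hcont]
    have e2 : cont o R ξs (p2 + s') = cont o R ξ0 (p2 + s') := by
      rw [hcs, hξ2, C.cont_ex hκD, if_neg (hno p2 (by rcases hp12 with h | h <;> rw [h] <;> simp)),
        hcont]
    apply hdv
    have h8 : some d = some v := by
      rw [← hp2, ← hsper p2, e2, hper', ← e1, hsper, hp1]
    exact Option.some_inj.1 h8

end FShift
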