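import Pool.Agent.MP2b057c.W1

set_option autoImplicit false
set_option linter.unusedSectionVars false

/-!
Full shifts: reduction to a visible point with only one free cell per period.
-/

namespace FShift

open scoped Classical commutatorElement

variable {A : Type} [Fintype A] [TopologicalSpace A] [DiscreteTopology A] {o : A} {R : ℕ}

section Reduce

variable (hR : 8 ≤ R) {D0 D1 : Finset (Fin 8 → A)} (hD0 : D0 ⊆ Wd o) (hne0 : D0.Nonempty)
  (hD1 : D1 ⊆ Wd o) (hne1 : D1.Nonempty) (hs : D1 ⊆ D0)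

/-- The system of the cells with content in `D1` whose coarse surroundings lie in `V`. -/
noncomputable def sysP (V : Set (ℤ → A)) (hV : IsClopen V) : Sys A 8 :=
  (dsys o hR hD1 hne1).sub ((dsys o hR hD0 hne0).skel ⁻¹' V)
    (hV.preimage (dsys o hR hD0 hne0).continuous_skel)

include hs in
lemma skel_dsys_dsys (x : ℤ → A) :
    (dsys o hR hD0 hne0).skel ((dsys o hR hD1 hne1).skel x) = (dsys o hR hD0 hne0).skel x :=
  Sys.skel_skel' (dsys_refines hR hD0 hne0 hD1 hne1 hs).hE hs x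

include hs in
lemma mem_sysP (V : Set (ℤ → A)) (hV : IsClopen V) (x : ℤ → A) (i : ℤ) :
    i ∈ sites (sysP hR hD0 hne0 hD1 hne1 V hV).E x ↔
      (∃ w ∈ D1, cont o R x i = some w) ∧ (dsys o hR hD0 hne0).skel (sh i x) ∈ V := by
  unfold sysP
  rw [Sys.mem_sites_sub, dsys_mem_sites, Set.mem_preimage, skel_dsys_dsys hR hD0 hne0 hD1 hne1 hs]

lemma isCS_sysP (V : Set (ℤ → A)) (hV : IsClopen V) :
    IsCS o R (sysP hR hD0 hne0 hD1 hne1 V hV) where
  hR := hR
  hD := hD1
  hE := by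
    intro x hx
    obtain ⟨w, _, hw⟩ := hx.1
    exact (cont_eq_some.1 hw).1

include hs in
/-- Coarse gates which are trivial over `V` are compatible with `sysP`. -/
lemma compat_sysP (V : Set (ℤ → A)) (hV : IsClopen V) {V' : Set (ℤ → A)} (hV' : IsClopen V')
    (hdisj : ∀ x ∈ V', x ∉ V) {π : Equiv.Perm (Fin 8 → A)} (hπ : ∀ w, w ∉ D0 → π w = w) :
    (sysP hR hD0 hne0 hD1 hne1 V hV).Compat ((dsys o hR hD0 hne0).ga V' π) := by
  set T0 := dsys o hR hD0 hne0 with hT0
  set P := sysP hR hD0 hne0 hD1 hne1 V hV with hP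
  have hCS0 : IsCS o R T0 := isCS_dsys hR hD0 hne0
  have hCSP : IsCS o R P := isCS_sysP hR hD0 hne0 hD1 hne1 V hV
  have hgood := T0.gF_good hV' (π := π) hπ
  have hga : ∀ x, (T0.ga V' π).1 x = T0.act (T0.gF V' π) x := fun x => T0.ga_apply hV' hπ x
  have hcont : ∀ x i, cont o R ((T0.ga V' π).1 x) i =
      if i ∈ sites T0.E x ∧ T0.skel (sh i x) ∈ V' then (cont o R x i).map π else cont o R x i := by
    intro x i
    rw [hga, hCS0.cont_act hgood.2.2.1]
    by_cases h1 : i ∈ sites T0.E x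
    · rw [if_pos h1]
      by_cases h2 : T0.skel (sh i x) ∈ V'
      · rw [if_pos ⟨h1, h2⟩, hCS0.cont_site h1]
        have : T0.gF V' π (sh i x) = π := by
          unfold Sys.gF
          rw [if_pos ⟨h1, h2⟩]
        rw [this]; rfl
      · rw [if_neg (fun h => h2 h.2), hCS0.cont_site h1]
        have : T0.gF V' π (sh i x) = 1 := by
          unfold Sys.gF
          rw [if_neg (fun h => h2 h.2)]
        rw [this]; rfl
    · rw [if_neg h1, if_neg (fun h => h1 h.1)]
  have hmsk : ∀ x i, msk o R ((T0.ga V' π).1 x) i = msk o R x i := by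
    intro x i
    rw [hga, hCS0.msk_act hgood.2.2.1]
  have hskel : ∀ x, T0.skel ((T0.ga V' π).1 x) = T0.skel x := by
    intro x; rw [hga, T0.skel_act hgood.2.2.1]
  have hEP : P.E ⊆ T0.E := fun x hx => (dsys_refines hR hD0 hne0 hD1 hne1 hs).hE hx.1
  have hsites : ∀ x i, i ∈ sites P.E ((T0.ga V' π).1 x) ↔ i ∈ sites P.E x := by
    intro x i
    rw [hP, mem_sysP hR hD0 hne0 hD1 hne1 hs, mem_sysP hR hD0 hne0 hD1 hne1 hs, ← G_sh, hskel, hcont]
    constructor
    · rintro ⟨h1, h2⟩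
      rw [if_neg (fun h => hdisj _ h.2 h2)] at h1
      exact ⟨h1, h2⟩
    · rintro ⟨h1, h2⟩
      rw [if_neg (fun h => hdisj _ h.2 h2)]
      exact ⟨h1, h2⟩
  constructor
  · intro x
    have := hsites x 0
    rw [mem_sites, mem_sites, sh_zero, sh_zero] at this
    exact this
  · intro x c hc
    have hskf : ∀ i, T0.skel (sh i (P.fill x c)) = T0.skel (sh i x) := by
      intro i
      rw [← T0.sh_skel, Sys.skel_fill' (T := T0) (T' := P) hEP hs x c hc, T0.sh_skel]
    have hsf : ∀ i, i ∈ sites T0.E (P.fill x c) ↔ i ∈ sites T0.E x := by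
      intro i
      have h1 := hskf i
      rw [mem_sites, mem_sites, ← T0.skel_mem_iff, h1, T0.skel_mem_iff]
    apply eq_of_info (o := o) (R := R)
    · intro k
      rw [hmsk, hCSP.msk_fill x c hc, hCSP.msk_fill _ c hc, hmsk]
    · intro k
      rw [hcont, hCSP.cont_fill x c hc, hCSP.cont_fill _ c hc, hcont]
      simp only [hsf, hskf, hsites]
      by_cases h1 : k ∈ sites P.E x
      · have h2 := (mem_sysP hR hD0 hne0 hD1 hne1 hs V hV x k).1 h1
        rw [if_pos h1, if_pos h1, if_neg (fun h => hdisj _ h.2 h2.2)]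
      · rw [if_neg h1, if_neg h1]

end Reduce

/-- (W2) -/
theorem W2 (hR : 8 ≤ R) {M : Subgroup (G A)} (hM : M.Normal) (hfin : M.FiniteIndex)
    (hB : SitesProp A o R hR M) {D0 : Finset (Fin 8 → A)} (hD0 : D0 ⊆ Wd o) (hne0 : D0.Nonempty)
    (hv : ∃ v1 ∈ Wd o, ∃ v2 ∈ Wd o, v1 ∉ D0 ∧ v2 ∉ D0 ∧ v1 ≠ v2)
    {ξ0 : ℤ → A} (hξ0 : ξ0 ∈ (dsys o hR hD0 hne0).vis M) {s : ℕ} (hlp : LP s ξ0)
    (hmax : ∀ ξ ∈ (dsys o hR hD0 hne0).vis M, ∀ s', LP s' ξ → s' ≤ s)
    {D1 : Finset (Fin 8 → A)} (hD1 : D1 ⊆ Wd o) (hne1 : D1.Nonempty) (hs : D1 ⊆ D0)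
    (h5 : 5 ≤ D1.card) (hout : ∃ κ ∈ D0, κ ∉ D1) :
    ∃ ξ1 ∈ (dsys o hR hD1 hne1).vis M, (dsys o hR hD0 hne0).skel ξ1 = ξ0 ∧ LP s ξ1 ∧
      ∀ k : ℤ, (∃ w ∈ D1, cont o R ξ1 k = some w) ↔ (s : ℤ) ∣ k := by
  set T0 := dsys o hR hD0 hne0 with hT0
  set T1 := dsys o hR hD1 hne1 with hT1
  have hspos : (0 : ℤ) < s := by exact_mod_cast hlp.1
  have hper1 : ∀ ξ' ∈ T1.vis M, T0.skel ξ' = ξ0 → IsPer (s : ℤ) ξ' := fun ξ' h1 h2 =>
    W1 hR hM hfin hB hD0 hne0 hv hlp hmax hD1 hne1 hs h5 h1 h2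
  have href := dsys_refines hR hD0 hne0 hD1 hne1 hs
  -- the number of free cells in a period
  let cnt : (ℤ → A) → ℕ := fun x =>
    ((Finset.range s).filter (fun k => ∃ w ∈ D1, cont o R x ((k : ℕ) : ℤ) = some w)).card
  have hex : ∃ n : ℕ, ∃ ξ' ∈ T1.vis M, T0.skel ξ' = ξ0 ∧ cnt ξ' = n := by
    obtain ⟨ξ', h1, h2⟩ := href.lift hM hfin h5 hξ0 (Set.mem_univ _)
    exact ⟨_, ξ', h1, h2, rfl⟩
  obtain ⟨ξ1, hξ1, hsk1, hcnt⟩ := Nat.find_spec hex
  have hmin : ∀ ξ' ∈ T1.vis M, T0.skel ξ' = ξ0 → cnt ξ1 ≤ cnt ξ' := by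
    intro ξ' h1 h2
    rw [hcnt]
    exact Nat.find_min' hex ⟨ξ', h1, h2, rfl⟩
  have hper := hper1 ξ1 hξ1 hsk1
  have hcper : ∀ k, cont o R ξ1 (k + s) = cont o R ξ1 k := by
    intro k; rw [← cont_sh, isPer_iff.1 hper]
  have hlp1 : LP s ξ1 := by
    refine ⟨hlp.1, hper, fun j hj => hlp.2.2 j ?_⟩
    rw [isPer_iff] at hj ⊢
    rw [← hsk1, T0.sh_skel, hj]
  -- the cell at `0`
  have h0 : ∃ w ∈ D1, cont o R ξ1 0 = some w := T1.vis_mem_E hξ1
  -- no other free cell in a period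
  have hno : ∀ p : ℕ, p < s → 0 < p → ¬ ∃ w ∈ D1, cont o R ξ1 (p : ℤ) = some w := by
    intro p hps hp0 hp
    set Vp : Set (ℤ → A) := cyl (sh (p : ℤ) ξ0) s with hVp
    have hVpc : IsClopen Vp := isClopen_cyl _ _
    have hVp1 : ∀ q : ℤ, sh q ξ0 ∈ Vp → (s : ℤ) ∣ q - p := by
      intro q hq
      apply hlp.2.2
      apply isPer_of_sh_eq
      ext k
      refine eq_of_eq_on hspos (z := sh q ξ0) (z' := sh (p : ℤ) ξ0) (hlp.sh q).2.1 (hlp.sh p).2.1
        (a := 0) (b := s) (by omega) ?_ k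
      intro k h1 h2
      exact hq k (by rw [abs_le]; omega)
    have hV : IsClopen Vpᶜ := hVpc.compl
    set P := sysP hR hD0 hne0 hD1 hne1 Vpᶜ hV with hP
    have hrefP : Sys.Refines P T1 (T0.skel ⁻¹' Vpᶜ) :=
      T1.sub_refines (hV.preimage T0.continuous_skel)
    have hξ0V : ξ0 ∈ Vpᶜ := by
      intro h
      have h1 := hVp1 0 (by rw [sh_zero]; exact h)
      rw [zero_sub, dvd_neg] at h1
      have := Int.le_of_dvd (by exact_mod_cast hp0) h1
      omega
    obtain ⟨η, hη, hηsk⟩ := hrefP.lift hM hfin h5 hξ1 (by rw [Set.mem_preimage, hsk1]; exact hξ0V)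
    have hη0 : T0.skel η = ξ0 := by
      rw [← hsk1, ← hηsk]
      exact (skel_dsys_dsys hR hD0 hne0 hD1 hne1 hs η).symm
    -- contents of `η`
    have hcη : ∀ k, er D1 T1.d (cont o R η k) = cont o R ξ1 k := by
      intro k; rw [← hηsk, hT1, dsys_cont_skel]
    have hsη : ∀ k, (∃ w ∈ D1, cont o R η k = some w) ↔ ∃ w ∈ D1, cont o R ξ1 k = some w := by
      intro k
      rw [← dsys_mem_sites hR hD1 hne1, ← dsys_mem_sites hR hD1 hne1, ← hT1, ← hηsk, T1.sites_skel]
    obtain ⟨w, hw, hwη⟩ := (hsη p).2 hp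
    obtain ⟨κ, hκ0, hκ1⟩ := hout
    have hπ : ∀ u, u ∉ D0 → Equiv.swap w κ u = u := by
      intro u hu
      apply Equiv.swap_apply_of_ne_of_ne
      · rintro rfl; exact hu (hs hw)
      · rintro rfl; exact hu hκ0
    have hcompat : P.Compat (T0.ga Vp (Equiv.swap w κ)) :=
      compat_sysP hR hD0 hne0 hD1 hne1 hs Vpᶜ hV hVpc (fun x hx h => h hx) hπ
    have hη' := hcompat.vis_mem hM hη
    set η' := (T0.ga Vp (Equiv.swap w κ)).1 η with hη'def
    have hCS0 : IsCS o R T0 := isCS_dsys hR hD0 hne0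
    have hgood := T0.gF_good hVpc (π := Equiv.swap w κ) hπ
    have hga : η' = T0.act (T0.gF Vp (Equiv.swap w κ)) η := T0.ga_apply hVpc hπ η
    have hskη' : T0.skel η' = ξ0 := by rw [hga, T0.skel_act hgood.2.2.1, hη0]
    have hskη'' : ∀ k, T0.skel (sh k η) = sh k ξ0 := by
      intro k; rw [← T0.sh_skel, hη0]
    have hcontη' : ∀ k : ℤ, cont o R η' k =
        if (s : ℤ) ∣ k - p ∧ k ∈ sites T0.E η then (cont o R η k).map (Equiv.swap w κ)
        else cont o R η k := by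
      intro k
      rw [hga, hCS0.cont_act hgood.2.2.1]
      by_cases h1 : k ∈ sites T0.E η
      · rw [if_pos h1]
        by_cases h2 : (s : ℤ) ∣ k - p
        · have h3 : T0.skel (sh k η) ∈ Vp := by
            rw [hskη'']
            have : sh k ξ0 = sh (p : ℤ) ξ0 := by
              ext l
              simp only [sh_apply]
              exact per_dvd hlp.2.1 (by rw [show l + k - (l + (p : ℤ)) = k - p by ring]; exact h2)
            rw [this]
            exact mem_cyl_self _ _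
          have : T0.gF Vp (Equiv.swap w κ) (sh k η) = Equiv.swap w κ := by
            unfold Sys.gF
            rw [if_pos ⟨h1, h3⟩]
          rw [if_pos ⟨h2, h1⟩, this, hCS0.cont_site h1]
          rfl
        · have : T0.gF Vp (Equiv.swap w κ) (sh k η) = 1 := by
            unfold Sys.gF
            rw [if_neg]
            rintro ⟨_, h3⟩
            rw [hskη''] at h3
            exact h2 (hVp1 k h3)
          rw [if_neg (fun h => h2 h.1), this, hCS0.cont_site h1]
          rfl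
      · rw [if_neg h1, if_neg (fun h => h1 h.2)]
    -- push
    have hpush := hrefP.push hM h5 hη' (by
      rw [Set.mem_preimage, skel_dsys_dsys hR hD0 hne0 hD1 hne1 hs, ← hT0, hskη']
      exact hξ0V)
    set ξn := T1.skel η' with hξn
    have hskn : T0.skel ξn = ξ0 := by
      rw [hξn, hT1, hT0, skel_dsys_dsys hR hD0 hne0 hD1 hne1 hs, ← hT0, hskη']
    have hpern := hper1 ξn hpush hskn
    have hsn : ∀ k, (∃ u ∈ D1, cont o R ξn k = some u) ↔ ∃ u ∈ D1, cont o R η' k = some u := by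
      intro k
      rw [← dsys_mem_sites hR hD1 hne1, ← dsys_mem_sites hR hD1 hne1, ← hT1, hξn, T1.sites_skel]
    have hpn : ¬ ∃ u ∈ D1, cont o R ξn (p : ℤ) = some u := by
      rw [hsn]
      rintro ⟨u, hu, hu2⟩
      have hp0' : (p : ℤ) ∈ sites T0.E η := by
        rw [hT0, dsys_mem_sites]
        exact ⟨w, hs hw, hwη⟩
      rw [hcontη', if_pos ⟨by simp, hp0'⟩, hwη, Option.map_some, Equiv.swap_apply_left,
        Option.some_inj] at hu2
      exact hκ1 (hu2 ▸ hu)
    have hsub : ∀ k : ℕ, k < s → (∃ u ∈ D1, cont o R ξn (k : ℤ) = some u) →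
        ∃ u ∈ D1, cont o R ξ1 (k : ℤ) = some u := by
      intro k hk h
      by_cases hkp : k = p
      · subst hkp; exact absurd h hpn
      · rw [hsn, hcontη', if_neg] at h
        · exact (hsη k).1 h
        · rintro ⟨h1, _⟩
          apply hkp
          obtain ⟨m, hm⟩ := h1
          have h2 : (k : ℤ) < s := by exact_mod_cast hk
          have h3 : (p : ℤ) < s := by exact_mod_cast hps
          have h4 : m = 0 := by
            by_contra hm0
            rcases lt_or_gt_of_ne hm0 with h5 | h5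
            · nlinarith
            · nlinarith
          rw [h4, mul_zero] at hm
          omega
    have hlt : cnt ξn < cnt ξ1 := by
      apply Finset.card_lt_card
      rw [Finset.ssubset_iff_of_subset]
      · refine ⟨p, ?_, ?_⟩
        · rw [Finset.mem_filter, Finset.mem_range]
          exact ⟨hps, hp⟩
        · rw [Finset.mem_filter]
          rintro ⟨_, h⟩
          exact hpn h
      · intro k hk
        rw [Finset.mem_filter, Finset.mem_range] at hk ⊢
        exact ⟨hk.1, hsub k hk.1 hk.2⟩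
    have := hmin ξn hpush hskn
    omega
  refine ⟨ξ1, hξ1, hsk1, hlp1, fun k => ⟨fun h => ?_, fun h => ?_⟩⟩
  · by_contra hk
    have h2 := Int.emod_nonneg k hspos.ne'
    have h3 := Int.emod_lt_of_pos k hspos
    have h4 : k % s ≠ 0 := fun h => hk (Int.dvd_of_emod_eq_zero h)
    apply hno (k % s).toNat (by omega) (by omega)
    rw [Int.toNat_of_nonneg h2]
    have : cont o R ξ1 (k % s) = cont o R ξ1 k :=
      (per_dvd hcper (Int.dvd_self_sub_emod (x := k) (m := (s : ℤ)))).symm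
    rw [this]
    exact h
  · have : cont o R ξ1 k = cont o R ξ1 0 := per_dvd hcper (by simpa using h)
    rw [this]
    exact h0

end FShift
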