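import Pool.Agent.MP2b057c.W2

set_option autoImplicit false
set_option linter.unusedSectionVars false

/-!
Full shifts: the chain of a visible point, and the gates in long chains modulo `M`.
-/

namespace FShift

open scoped Classical commutatorElement

variable {A : Type} [Fintype A] [TopologicalSpace A] [DiscreteTopology A] {o : A} {R : ℕ}

namespace Chain

variable (C : Chain o R)

/-- Replacing contents in `D` by contents in `D` does not change `Z D' N` for `D ⊆ D'`. -/
lemma Z_fill {D D' : Finset (Fin 8 → A)} (hD : D ⊆ Wd o) (hne : D.Nonempty) (hDD : D ⊆ D')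
    (hD' : D' ⊆ C.D1) (N : ℕ) (x : ℤ → A) (c : ℤ → Fin 8 → A) (hc : ∀ i, c i ∈ D) (i : ℤ) :
    i ∈ C.Z D' N ((dsys o C.hR hD hne).fill x c) ↔ i ∈ C.Z D' N x := by
  have hCS := isCS_dsys (o := o) C.hR hD hne
  unfold Z
  simp only [Set.mem_ofPred_eq]
  apply forall_congr'
  intro k
  apply imp_congr_right
  intro _
  unfold Pt
  rw [hCS.msk_fill x c hc, hCS.cont_fill x c hc]
  by_cases h : i + k ∈ sites (dsys o C.hR hD hne).E x
  · rw [if_pos h]
    rw [dsys_mem_sites] at h
    obtain ⟨w, hw, h1⟩ := h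
    apply and_congr_right
    intro _
    apply and_congr
    · apply imp_congr_right
      intro _
      exact ⟨fun _ => ⟨w, hDD hw, h1⟩, fun _ => ⟨_, hDD (hc _), rfl⟩⟩
    · apply imp_congr_right
      intro hk
      constructor
      · intro h2
        exact absurd ((C.cells k).1 ⟨_, hD' (hDD (hc _)), h2.symm⟩) hk
      · intro h2
        rw [h1] at h2
        exact absurd ((C.cells k).1 ⟨w, hD' (hDD hw), h2.symm⟩) hk
  · rw [if_neg h]

/-- The rule of a gate in long chains, as a rule of the system of cells with content in `D`. -/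
noncomputable def rl (D : Finset (Fin 8 → A)) (D' : Finset (Fin 8 → A)) (N : ℕ)
    (π : Equiv.Perm (Fin 8 → A)) (x : ℤ → A) : Equiv.Perm (Fin 8 → A) :=
  if (∃ w ∈ D, cont o R x 0 = some w) ∧ (0 : ℤ) ∈ C.Z D' N x then π else 1

lemma isClopen_Z (D : Finset (Fin 8 → A)) (N : ℕ) : IsClopen {x : ℤ → A | (0 : ℤ) ∈ C.Z D N x} := by
  apply isClopen_of_radius _ (N + R + 16)
  intro x y h hx k hk
  have h1 := hx k hk
  unfold Pt at h1 ⊢
  have hk2 := abs_le.1 hk
  have e1 : msk o R x (0 + k) = msk o R y (0 + k) := by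
    apply msk_local
    intro l hl
    apply h
    rw [abs_le] at hl ⊢
    push_cast
    constructor <;> omega
  have e2 : cont o R x (0 + k) = cont o R y (0 + k) := by
    apply cont_local
    intro l hl
    apply h
    rw [abs_le] at hl ⊢
    push_cast
    constructor <;> omega
  rwa [e1, e2] at h1

lemma rl_good {D D' : Finset (Fin 8 → A)} (hD : D ⊆ Wd o) (hne : D.Nonempty) (hDD : D ⊆ D')
    (hD' : D' ⊆ C.D1) (N : ℕ) {π : Equiv.Perm (Fin 8 → A)} (hπ : ∀ w, w ∉ D → π w = w) :
    (dsys o C.hR hD hne).Good (C.rl D D' N π) := by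
  refine ⟨?_, ?_, ?_, ?_⟩
  · have h1 : IsClopen {x : ℤ → A | (∃ w ∈ D, cont o R x 0 = some w) ∧ (0 : ℤ) ∈ C.Z D' N x} :=
      (isClopen_cellE (o := o) (R := R) D).inter (C.isClopen_Z D' N)
    rw [IsLocallyConstant.iff_eventually_eq]
    intro x
    by_cases hx : (∃ w ∈ D, cont o R x 0 = some w) ∧ (0 : ℤ) ∈ C.Z D' N x
    · filter_upwards [h1.isOpen.mem_nhds hx] with y hy
      unfold rl
      rw [if_pos hx, if_pos hy]
    · filter_upwards [h1.compl.isOpen.mem_nhds hx] with y hy
      have hy' : ¬ ((∃ w ∈ D, cont o R y 0 = some w) ∧ (0 : ℤ) ∈ C.Z D' N y) := hy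
      unfold rl
      rw [if_neg hx, if_neg hy']
  · intro x hx
    unfold rl
    rw [if_neg (fun h => hx h.1)]
  · intro x w hw
    unfold rl
    split_ifs
    · exact hπ w hw
    · rfl
  · intro x c hc
    unfold rl
    have e1 : (∃ w ∈ D, cont o R ((dsys o C.hR hD hne).fill x c) 0 = some w) ↔
        ∃ w ∈ D, cont o R x 0 = some w := (dsys o C.hR hD hne).fill_mem_iff x c hc
    have e2 := C.Z_fill hD hne hDD hD' N x c hc 0
    simp only [e1, e2]

lemma H_eq_rl {D D' : Finset (Fin 8 → A)} (hD : D ⊆ Wd o) (hne : D.Nonempty) (hDD : D ⊆ D')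
    (hD' : D' ⊆ C.D1) (hne' : D'.Nonempty) (N : ℕ) {π : Equiv.Perm (Fin 8 → A)}
    (hπ : ∀ w, w ∉ D → π w = w) :
    C.H D' hD' hne' N π = (dsys o C.hR hD hne).ho (C.rl D D' N π) := by
  have hCS := isCS_dsys (o := o) C.hR hD hne
  have hπ' : ∀ w, w ∉ D' → π w = w := fun w hw => hπ w (fun h => hw (hDD h))
  have hgood := C.rl_good hD hne hDD hD' N hπ
  apply Subtype.ext
  apply Equiv.ext
  intro x
  apply eq_of_info (o := o) (R := R)
  · intro k
    rw [msk_H hD' hne' N hπ', Sys.ho_apply _ hgood, hCS.msk_act hgood.2.2.1]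
  · intro k
    rw [cont_H hD' hne' N hπ', Sys.ho_apply _ hgood, hCS.cont_act hgood.2.2.1]
    by_cases h1 : k ∈ sites (dsys o C.hR hD hne).E x
    · rw [if_pos h1, hCS.cont_site h1]
      rw [dsys_mem_sites] at h1
      unfold rl
      have e1 : (0 : ℤ) ∈ C.Z D' N (sh k x) ↔ k ∈ C.Z D' N x := by rw [Z_sh, zero_add]
      have e2 : ∃ w ∈ D, cont o R (sh k x) 0 = some w := by rw [cont_sh, zero_add]; exact h1
      by_cases h2 : k ∈ C.Z D' N x
      · rw [if_pos h2, if_pos ⟨e2, e1.2 h2⟩]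
        rfl
      · rw [if_neg h2, if_neg (fun h => h2 (e1.1 h.2))]
        rfl
    · rw [if_neg h1]
      split_ifs with h2
      · obtain ⟨w, hw, h3⟩ := C.Z_cell h2
        rw [h3, Option.map_some, hπ]
        intro h4
        apply h1
        rw [dsys_mem_sites]
        exact ⟨w, h4, h3⟩
      · rfl

end Chain

/-- (W3) -/
theorem W3 (hR : 8 ≤ R) {M : Subgroup (G A)} (hM : M.Normal) (hfin : M.FiniteIndex)
    (hB : SitesProp A o R hR M) {D0 : Finset (Fin 8 → A)} (hD0 : D0 ⊆ Wd o) (hne0 : D0.Nonempty)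
    (hv : ∃ v1 ∈ Wd o, ∃ v2 ∈ Wd o, v1 ∉ D0 ∧ v2 ∉ D0 ∧ v1 ≠ v2)
    {ξ0 : ℤ → A} {s : ℕ} (hlp : LP s ξ0)
    (hmax : ∀ ξ ∈ (dsys o hR hD0 hne0).vis M, ∀ s', LP s' ξ → s' ≤ s)
    (C : Chain o R) (hne1 : C.D1.Nonempty) (hs : C.D1 ⊆ D0) (hCs : C.s = s)
    (hvis : C.ξ ∈ (dsys o hR C.hD1 hne1).vis M) (hsk : (dsys o hR hD0 hne0).skel C.ξ = ξ0) :
    C.Good M := by
  subst hCs
  set T1 := dsys o hR C.hD1 hne1 with hT1
  have hcard : 5 ≤ T1.D.card := by
    rw [hT1, dsys_D, C.card]; norm_num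
  have hfinvis := T1.vis_finite hM hfin hcard
  obtain ⟨ρ, hρ⟩ := Sys.exists_disjoint_radius hfinvis.toFinset
  -- a radius which isolates the chain among the visible points
  have hiso : ∀ η ∈ T1.vis M, (∀ k : ℤ, |k| ≤ (ρ + 8 : ℤ) → msk o R η k = msk o R C.ξ k ∧
      cont o R η k = cont o R C.ξ k) → η = C.ξ := by
    intro η hη h
    by_contra hne
    have h1 := hρ η (hfinvis.mem_toFinset.2 hη) C.ξ (hfinvis.mem_toFinset.2 hvis) hne
    have h2 : η ∈ cyl C.ξ ρ := by
      intro k hk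
      have hk2 := abs_le.1 hk
      apply apply_eq_of_info (o := o) (R := R)
      · exact (h k (by rw [abs_le]; omega)).1
      · intro l
        have := l.2
        exact (h (k - (l : ℤ)) (by rw [abs_le]; omega)).2
    have h3 : η ∈ cyl η ρ ∩ cyl C.ξ ρ := ⟨mem_cyl_self η ρ, h2⟩
    rw [h1] at h3
    exact h3
  set N₁ : ℕ := ρ + 8 with hN₁
  have hskξ : T1.skel C.ξ = C.ξ := T1.vis_skel hvis
  have hξer : ∀ k, er C.D1 T1.d (cont o R C.ξ k) = cont o R C.ξ k := by
    intro k
    have := dsys_cont_skel hR C.hD1 hne1 C.ξ k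
    rw [← hT1, hskξ] at this
    exact this.symm
  -- erased information
  have hker : ∀ (c : Option (Fin 8 → A)) (k : ℤ), er C.D1 T1.d c = cont o R C.ξ k ↔
      (((C.s : ℤ) ∣ k → ∃ w ∈ C.D1, c = some w) ∧ (¬ (C.s : ℤ) ∣ k → c = cont o R C.ξ k)) := by
    intro c k
    by_cases hk : (C.s : ℤ) ∣ k
    · obtain ⟨w, hw, h1⟩ := (C.cells k).2 hk
      have h2 := hξer k
      rw [h1, er_some hw] at h2
      rw [h1, ← h2]
      constructor
      · intro h
        refine ⟨fun _ => ?_, fun h' => absurd hk h'⟩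
        by_contra hn
        rw [er_off hn] at h
        exact hn ⟨T1.d, T1.hd, h⟩
      · rintro ⟨h, _⟩
        obtain ⟨w', hw', h3⟩ := h hk
        rw [h3, er_some hw']
    · have hn : ¬ ∃ w ∈ C.D1, cont o R C.ξ k = some w := fun h => hk ((C.cells k).1 h)
      constructor
      · intro h
        refine ⟨fun h' => absurd h' hk, fun _ => ?_⟩
        by_cases hc : ∃ w ∈ C.D1, c = some w
        · exfalso
          obtain ⟨w, hw, rfl⟩ := hc
          rw [er_some hw] at h
          exact hn ⟨T1.d, T1.hd, h.symm⟩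
        · rwa [er_off hc] at h
      · rintro ⟨_, h⟩
        rw [h hk, er_off hn]
  -- the gates of `D1` are not in `M`
  have hbase : ∀ p ∈ C.D1, ∀ q ∈ C.D1, ∀ r ∈ C.D1, p ≠ q → q ≠ r → p ≠ r →
      C.H C.D1 (Finset.Subset.refl _) hne1 N₁ (cyc p q r) ∉ M := by
    intro p hp q hq r hr hpq hqr hpr
    set V1 : Set (ℤ → A) := {y | ∀ k : ℤ, |k| ≤ (N₁ : ℤ) → msk o R y k = msk o R C.ξ k ∧
      cont o R y k = cont o R C.ξ k} with hV1
    have hV1c : IsClopen V1 := by
      apply isClopen_of_radius _ (N₁ + R + 16)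
      intro x y h hx k hk
      have hk2 := abs_le.1 hk
      have e1 : msk o R x k = msk o R y k := by
        apply msk_local
        intro l hl
        apply h
        rw [abs_le] at hl ⊢
        push_cast
        constructor <;> omega
      have e2 : cont o R x k = cont o R y k := by
        apply cont_local
        intro l hl
        apply h
        rw [abs_le] at hl ⊢
        push_cast
        constructor <;> omega
      rw [← e1, ← e2]
      exact hx k hk
    have hπ : ∀ w, w ∉ C.D1 → cyc p q r w = w := T1.cyc_mem_PD hp hq hr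
    have e : C.H C.D1 (Finset.Subset.refl _) hne1 N₁ (cyc p q r) = T1.ga V1 (cyc p q r) := by
      rw [C.H_eq_rl C.hD1 hne1 (Finset.Subset.refl _) (Finset.Subset.refl _) hne1 N₁ hπ]
      unfold Sys.ga
      congr 1
      ext1 x
      unfold Chain.rl Sys.gF
      have e1 : (∃ w ∈ C.D1, cont o R x 0 = some w) ↔ x ∈ T1.E := Iff.rfl
      have e2 : (0 : ℤ) ∈ C.Z C.D1 N₁ x ↔ T1.skel x ∈ V1 := by
        rw [hV1]
        unfold Chain.Z Chain.Pt
        simp only [Set.mem_ofPred_eq]
        apply forall_congr'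
        intro k
        apply imp_congr_right
        intro _
        rw [zero_add, hT1, dsys_msk_skel, dsys_cont_skel, ← hT1, hker]
      simp only [e1, e2]
    rw [e]
    exact T1.vis_not_mem hM hvis hV1c (fun k _ => ⟨rfl, rfl⟩) hp hq hr hpq hqr hpr
  -- comparison with the gates of `D1`
  have hcomp : ∀ (D : Finset (Fin 8 → A)) (hD : D ⊆ C.D1) (hne : D.Nonempty), 5 ≤ D.card →
      ∀ N, N₁ ≤ N → ∀ p ∈ D, ∀ q ∈ D, ∀ r ∈ D, p ≠ q → q ≠ r → p ≠ r →
      C.H D hD hne N (cyc p q r) *
        (C.H C.D1 (Finset.Subset.refl _) hne1 N₁ (cyc p q r))⁻¹ ∈ M := by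
    intro D hD hne h5 N hN p hp q hq r hr hpq hqr hpr
    set T := dsys o hR (hD.trans C.hD1) hne with hT
    have hπ : ∀ w, w ∉ D → cyc p q r w = w := T.cyc_mem_PD hp hq hr
    have g1 : T.Good (C.rl D D N (cyc p q r)) :=
      C.rl_good (hD.trans C.hD1) hne (Finset.Subset.refl _) hD N hπ
    have g2 : T.Good (C.rl D C.D1 N₁ (cyc p q r)) :=
      C.rl_good (hD.trans C.hD1) hne hD (Finset.Subset.refl _) N₁ hπ
    have e1 : C.H D hD hne N (cyc p q r) = T.ho (C.rl D D N (cyc p q r)) :=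
      C.H_eq_rl (hD.trans C.hD1) hne (Finset.Subset.refl _) hD hne N hπ
    have e2 : C.H C.D1 (Finset.Subset.refl _) hne1 N₁ (cyc p q r) =
        T.ho (C.rl D C.D1 N₁ (cyc p q r)) :=
      C.H_eq_rl (hD.trans C.hD1) hne hD (Finset.Subset.refl _) hne1 N₁ hπ
    rw [e1, e2, ← T.ho_inv g2, ← T.ho_mul g1 (T.gp.inv_mem g2)]
    have hrlv : ∀ D' N' x, C.rl D D' N' (cyc p q r) x = 1 ∨
        C.rl D D' N' (cyc p q r) x = cyc p q r := by
      intro D' N' x
      unfold Chain.rl
      split_ifs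
      · exact Or.inr rfl
      · exact Or.inl rfl
    refine T.mem_of_vis hM h5 (T.gp.mul_mem g1 (T.gp.inv_mem g2)) hp hq hr hpq hqr hpr ?_ ?_
    · intro x
      simp only [Pi.mul_apply, Pi.inv_apply]
      rcases hrlv D N x with h1 | h1 <;> rcases hrlv C.D1 N₁ x with h2 | h2 <;> rw [h1, h2] <;> simp
    · intro η hη
      have hηE : ∃ w ∈ D, cont o R η 0 = some w := T.vis_mem_E hη
      have key : (0 : ℤ) ∈ C.Z D N η ↔ (0 : ℤ) ∈ C.Z C.D1 N₁ η := by
        constructor
        · intro h k hk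
          have h1 := h k (hk.trans (by exact_mod_cast hN))
          exact ⟨h1.1, fun h2 => by obtain ⟨w, hw, h3⟩ := h1.2.1 h2; exact ⟨w, hD hw, h3⟩, h1.2.2⟩
        · intro h
          have href := dsys_refines hR C.hD1 hne1 (hD.trans C.hD1) hne hD
          have hpush := href.push hM h5 hη (Set.mem_univ _)
          have hsame : T1.skel η = C.ξ := by
            apply hiso _ hpush
            intro k hk
            have h1 := h k (by push_cast [hN₁]; exact hk)
            unfold Chain.Pt at h1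
            rw [zero_add] at h1
            rw [dsys_msk_skel, dsys_cont_skel, ← hT1, hker]
            exact h1
          have hη0 : (dsys o hR hD0 hne0).skel η = ξ0 := by
            rw [← hsk, ← hsame]
            exact (skel_dsys_dsys hR hD0 hne0 C.hD1 hne1 hs η).symm
          have hper := W1 hR hM hfin hB hD0 hne0 hv hlp hmax (hD.trans C.hD1) hne (hD.trans hs) h5
            hη hη0
          have hcper : ∀ k, cont o R η (k + C.s) = cont o R η k := by
            intro k; rw [← cont_sh, isPer_iff.1 hper]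
          have hcη : ∀ k, er C.D1 T1.d (cont o R η k) = cont o R C.ξ k := by
            intro k; rw [← hsame, hT1, dsys_cont_skel]
          intro k _
          unfold Chain.Pt
          rw [zero_add]
          refine ⟨?_, fun hk => ?_, fun hk => ?_⟩
          · rw [← hsame, dsys_msk_skel]
          · have : cont o R η k = cont o R η 0 := per_dvd hcper (by simpa using hk)
            rw [this]; exact hηE
          · exact ((hker _ k).1 (hcη k)).2 hk
      have e3 : C.rl D D N (cyc p q r) η = C.rl D C.D1 N₁ (cyc p q r) η := by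
        unfold Chain.rl
        simp only [key]
      simp only [Pi.mul_apply, Pi.inv_apply]
      rw [e3, mul_inv_cancel]
  refine ⟨N₁, ?_, ?_⟩
  · intro D hD hne h5 N hN p hp q hq r hr hpq hqr hpr hmem
    have h1 := hcomp D hD hne h5 N hN p hp q hq r hr hpq hqr hpr
    apply hbase p (hD hp) q (hD hq) r (hD hr) hpq hqr hpr
    have h2 := M.mul_mem (M.inv_mem h1) hmem
    simpa using h2
  · intro D hD hne h5 N hN D' hD' hne' h5' N' hN' p hp q hq r hr hp' hq' hr' hpq hqr hpr
    have h1 := hcomp D hD hne h5 N hN p hp q hq r hr hpq hqr hpr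
    have h2 := hcomp D' hD' hne' h5' N' hN' p hp' q hq' r hr' hpq hqr hpr
    have h3 := M.mul_mem h1 (M.inv_mem h2)
    have e : C.H D hD hne N (cyc p q r) *
        (C.H C.D1 (Finset.Subset.refl _) hne1 N₁ (cyc p q r))⁻¹ *
        (C.H D' hD' hne' N' (cyc p q r) *
          (C.H C.D1 (Finset.Subset.refl _) hne1 N₁ (cyc p q r))⁻¹)⁻¹ =
        C.H D hD hne N (cyc p q r) * (C.H D' hD' hne' N' (cyc p q r))⁻¹ := by group
    rwa [e] at h3

end FShift
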