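import Pool.Agent.MP2b057c.ChainDefs

set_option autoImplicit false
set_option linter.unusedSectionVars false

/-!
Full shifts: auxiliary facts on systems of cells and on least periods.
-/

namespace FShift

open scoped Classical commutatorElement

section Period

variable {A : Type}

lemma isPer_iff {j : ℤ} {x : ℤ → A} : IsPer j x ↔ sh j x = x := by
  constructor
  · intro h; ext k; exact h k
  · intro h k; exact congrFun h k

lemma IsPer.neg {j : ℤ} {x : ℤ → A} (h : IsPer j x) : IsPer (-j) x := by
  intro k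
  have := h (k + -j)
  rw [neg_add_cancel_right] at this
  exact this.symm

lemma IsPer.add {i j : ℤ} {x : ℤ → A} (h : IsPer i x) (h' : IsPer j x) : IsPer (i + j) x := by
  intro k
  rw [← add_assoc, h', h]

lemma IsPer.mul {j : ℤ} {x : ℤ → A} (h : IsPer j x) (m : ℤ) : IsPer (m * j) x :=
  fun k => per_mul h m k

lemma isPer_of_sh_eq {i j : ℤ} {x : ℤ → A} (h : sh i x = sh j x) : IsPer (i - j) x := by
  intro k
  have := congrFun h (k - j)
  simp only [sh_apply, sub_add_cancel] at this
  rw [← this]
  congr 1; ring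

lemma exists_LP {x : ℤ → A} (h : ∃ P : ℤ, P ≠ 0 ∧ IsPer P x) : ∃ s : ℕ, LP s x := by
  have hex : ∃ n : ℕ, 0 < n ∧ IsPer (n : ℤ) x := by
    obtain ⟨P, hP, h⟩ := h
    refine ⟨P.natAbs, by omega, ?_⟩
    rcases Int.natAbs_eq P with h1 | h1
    · rw [← h1]; exact h
    · have := h.neg
      rw [h1, neg_neg] at this
      exact this
  refine ⟨Nat.find hex, (Nat.find_spec hex).1, (Nat.find_spec hex).2, fun j hj => ?_⟩
  set s := Nat.find hex with hs
  have hspos : 0 < s := (Nat.find_spec hex).1
  have hsper : IsPer (s : ℤ) x := (Nat.find_spec hex).2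
  by_contra hnd
  have h1 := Int.emod_nonneg j (show (s : ℤ) ≠ 0 by omega)
  have h2 := Int.emod_lt_of_pos j (show (0 : ℤ) < s by omega)
  have h3 : j % s ≠ 0 := fun h => hnd (Int.dvd_of_emod_eq_zero h)
  have h4 : IsPer (j % s) x := by
    have : j % s = j + (-(j / s)) * s := by
      have := Int.emod_add_mul_ediv j s
      linarith
    rw [this]
    exact hj.add (hsper.mul _)
  have h5 : (j % s).toNat < s := by omega
  exact Nat.find_min hex h5 ⟨by omega, by rwa [Int.toNat_of_nonneg h1]⟩

lemma LP.sh {s : ℕ} {x : ℤ → A} (h : LP s x) (i : ℤ) : LP s (sh i x) := by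
  have key : ∀ j, IsPer j (FShift.sh i x) ↔ IsPer j x := by
    intro j
    constructor
    · intro hj k
      have := hj (k - i)
      simp only [sh_apply] at this
      rw [show k - i + j + i = k + j by ring, show k - i + i = k by ring] at this
      exact this
    · intro hj k
      simp only [sh_apply]
      rw [show k + j + i = k + i + j by ring, hj]
  exact ⟨h.1, (key _).2 h.2.1, fun j hj => h.2.2 j ((key j).1 hj)⟩

end Period

variable {A : Type} [Fintype A] [TopologicalSpace A] [DiscreteTopology A] {o : A} {R : ℕ}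

/-- Erase the contents in `D`. -/
noncomputable def er (D : Finset (Fin 8 → A)) (d : Fin 8 → A) (c : Option (Fin 8 → A)) :
    Option (Fin 8 → A) := if ∃ w ∈ D, c = some w then some d else c

lemma er_some {D : Finset (Fin 8 → A)} {d w : Fin 8 → A} (hw : w ∈ D) : er D d (some w) = some d := by
  unfold er
  rw [if_pos ⟨w, hw, rfl⟩]

lemma er_off {D : Finset (Fin 8 → A)} {d : Fin 8 → A} {c : Option (Fin 8 → A)}
    (h : ¬ ∃ w ∈ D, c = some w) : er D d c = c := by
  unfold er
  rw [if_neg h]

lemma er_some_off {D : Finset (Fin 8 → A)} {d w : Fin 8 → A} (hw : w ∉ D) :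
    er D d (some w) = some w := by
  apply er_off
  rintro ⟨w', hw', h⟩
  rw [Option.some_inj] at h
  exact hw (h ▸ hw')

section DSys

variable (hR : 8 ≤ R) {D : Finset (Fin 8 → A)} (hD : D ⊆ Wd o) (hne : D.Nonempty)

lemma dsys_mem (x : ℤ → A) : x ∈ (dsys o hR hD hne).E ↔ ∃ w ∈ D, cont o R x 0 = some w := Iff.rfl

lemma dsys_mem_sites (x : ℤ → A) (i : ℤ) :
    i ∈ sites (dsys o hR hD hne).E x ↔ ∃ w ∈ D, cont o R x i = some w := mem_sites_cellE

lemma dsys_D : (dsys o hR hD hne).D = D := rfl

lemma dsys_cont_skel (x : ℤ → A) (i : ℤ) :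
    cont o R ((dsys o hR hD hne).skel x) i = er D (dsys o hR hD hne).d (cont o R x i) := by
  rw [(isCS_dsys hR hD hne).cont_skel]
  unfold er
  simp only [dsys_mem_sites]

lemma dsys_msk_skel (x : ℤ → A) (i : ℤ) :
    msk o R ((dsys o hR hD hne).skel x) i = msk o R x i := (isCS_dsys hR hD hne).msk_skel x i

/-- Smaller sets of contents give finer systems. -/
lemma dsys_refines {D' : Finset (Fin 8 → A)} (hD' : D' ⊆ Wd o) (hne' : D'.Nonempty) (hs : D' ⊆ D) :
    Sys.Refines (dsys o hR hD' hne') (dsys o hR hD hne) Set.univ where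
  hE := by
    rintro x ⟨w, hw, h⟩
    exact ⟨w, hs hw, h⟩
  hD := hs
  hV0 := isClopen_univ
  hloc := by
    intro x hx _ hw
    obtain ⟨w, hw', h⟩ := hx
    have := (cont_eq_some.1 h)
    refine ⟨w, ?_, h⟩
    rw [← this.2]
    exact hw

end DSys

end FShift
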